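import Pool.Agent.P.MP_9c695c_an.Defs

/-!
Sobolev and Besov norms on a compact manifold: `W^{m,p}` through a spanning family of smooth vector
fields and `B^{θ m}_{p,q} = (L^p, W^{m,p})_{θ,q}` through the K-method of real interpolation.
For `p = q = 2` this is `H^s`, `s = θ m`.
-/

open scoped Manifold ContDiff ENNReal
open MeasureTheory Set

namespace Pool.Agent.P.MP_9c695c_an

variable {E : Type*} [NormedAddCommGroup E] [InnerProductSpace ℝ E]
  {H : Type*} [TopologicalSpace H] (I : ModelWithCorners ℝ E H)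
  {M : Type*} [TopologicalSpace M] [ChartedSpace H M] [IsManifold I ∞ M] {n : ℕ}

/-- `V` is a finite family of smooth vector fields that spans every tangent plane. -/
structure IsFrame (V : Fin n → (x : M) → TangentSpace I x) : Prop where
  smooth : ∀ i, ContMDiff I I.tangent ∞ fun x => (⟨x, V i x⟩ : TangentBundle I M)
  span : ∀ x, Submodule.span ℝ (range fun i => V i x) = ⊤

variable [MeasurableSpace M]

/-- The norm of `W^{m,p}`: `‖f‖_0 = ‖f‖_{L^p}` and `‖f‖_{m+1} = ‖f‖_{L^p} + Σ_i ‖V_i f‖_m`. -/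
noncomputable def sob (V : Fin n → (x : M) → TangentSpace I x) (μ : Measure M) (p : ℝ≥0∞)
    (m : ℕ) : (M → ℝ) → ℝ≥0∞ :=
  Nat.rec (fun f => eLpNorm f p μ)
    (fun _ N f => eLpNorm f p μ + ∑ i, N fun x => dv I f x (V i x)) m

/-- The K-functional `K(t, f) = inf_g (‖f - g‖_{L^p} + t ‖g‖_{W^{m,p}})`, over smooth `g`. -/
noncomputable def kfun (V : Fin n → (x : M) → TangentSpace I x) (μ : Measure M) (p : ℝ≥0∞)
    (m : ℕ) (t : ℝ) (f : M → ℝ) : ℝ≥0∞ :=
  ⨅ (g : M → ℝ) (_ : Smooth I g), eLpNorm (f - g) p μ + ENNReal.ofReal t * sob I V μ p m g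

/-- The norm of `(L^p, W^{m,p})_{θ,q}`: the `L^q (dt / t)` norm of `t^{-θ} K(t, f)`, written in the
variable `u` with `t = e^{-u}`. -/
noncomputable def besov (V : Fin n → (x : M) → TangentSpace I x) (μ : Measure M) (p q : ℝ≥0∞)
    (m : ℕ) (θ : ℝ) (f : M → ℝ) : ℝ≥0∞ :=
  eLpNorm (fun u : ℝ => ENNReal.ofReal (Real.exp (θ * u)) * kfun I V μ p m (Real.exp (-u)) f) q
    volume

end Pool.Agent.P.MP_9c695c_an
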