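import Mathlib

/-!
Facts about normed spaces used in the charts: punctured balls, frontiers of convex bodies,
integration by parts on a convex body and a compactness principle for bounds.
-/

open scoped Topology NNReal
open MeasureTheory Set Filter Metric

namespace Pool.Agent.P.MP_9c695c_an

lemma exists_bound_of_local {X : Type*} [TopologicalSpace X] {K : Set X} (hK : IsCompact K)
    (P : ℝ → X → Prop) (mono : ∀ C C' x, C ≤ C' → P C x → P C' x)
    (h : ∀ x ∈ K, ∃ C, ∀ᶠ y in 𝓝[K] x, P C y) : ∃ C, ∀ x ∈ K, P C x := by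
  refine hK.induction_on (p := fun s => ∃ C, ∀ x ∈ s, P C x) ⟨0, by simp⟩ ?_ ?_ ?_
  · rintro s t hst ⟨C, hC⟩
    exact ⟨C, fun x hx => hC x (hst hx)⟩
  · rintro s t ⟨C, hC⟩ ⟨C', hC'⟩
    refine ⟨max C C', ?_⟩
    rintro x (hx | hx)
    · exact mono _ _ _ (le_max_left _ _) (hC x hx)
    · exact mono _ _ _ (le_max_right _ _) (hC' x hx)
  · intro x hx
    obtain ⟨C, hC⟩ := h x hx
    exact ⟨_, hC, C, fun y hy => hy⟩

variable {E : Type*} [NormedAddCommGroup E] [NormedSpace ℝ E]

lemma isPreconnected_punctured (h : 1 < Module.rank ℝ E) (c : E) (r : ℝ) :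
    IsPreconnected (ball c r \ {c}) := by
  have h1 : IsPreconnected (Ioo (0 : ℝ) r ×ˢ sphere (0 : E) 1) :=
    isPreconnected_Ioo.prod (isPreconnected_sphere h 0 1)
  have h2 := h1.image (fun p : ℝ × E => c + p.1 • p.2) (by fun_prop)
  have : (fun p : ℝ × E => c + p.1 • p.2) '' (Ioo (0 : ℝ) r ×ˢ sphere (0 : E) 1)
      = ball c r \ {c} := by
    ext y
    constructor
    · rintro ⟨⟨t, u⟩, ⟨⟨ht0, htr⟩, hu⟩, rfl⟩
      have hu' : ‖u‖ = 1 := by simpa using hu
      have hn : ‖t • u‖ = t := by rw [norm_smul, hu', mul_one, Real.norm_of_nonneg ht0.le]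
      refine ⟨by simpa [dist_eq_norm, hn] using htr, fun h0 => ?_⟩
      have : t • u = 0 := by simpa using h0
      rw [this, norm_zero] at hn
      exact ht0.ne hn
    · rintro ⟨hy, hyc⟩
      have h0 : 0 < ‖y - c‖ := norm_pos_iff.2 (sub_ne_zero.2 hyc)
      refine ⟨(‖y - c‖, ‖y - c‖⁻¹ • (y - c)), ⟨⟨h0, by simpa [dist_eq_norm] using hy⟩, ?_⟩, ?_⟩
      · simp [norm_smul, h0.ne']
      · simp [smul_smul, h0.ne']
  rwa [this] at h2

lemma accPt_frontier (h : 1 < Module.rank ℝ E) {C : Set E} (hc : IsClosed C)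
    (hi : C ⊆ closure (interior C)) {y : E} (hy : y ∈ frontier C) : AccPt y (𝓟 (frontier C)) := by
  rw [accPt_iff_nhds]
  intro U hU
  obtain ⟨r, hr, hrU⟩ := Metric.mem_nhds_iff.1 hU
  by_contra hne
  push Not at hne
  have hsub : ball y r \ {y} ⊆ interior C ∪ Cᶜ := by
    intro z hz
    by_cases hzC : z ∈ C
    · left
      by_contra hzi
      exact hz.2 (hne z ⟨hrU hz.1, by rw [hc.frontier_eq]; exact ⟨hzC, hzi⟩⟩)
    · exact Or.inr hzC
  have hyC : y ∈ C := hc.frontier_subset hy
  have hyi : y ∉ interior C := hy.2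
  rcases (isPreconnected_punctured h y r).subset_or_subset isOpen_interior hc.isOpen_compl
    (disjoint_compl_right_iff_subset.2 interior_subset) hsub with h1 | h1
  · apply hyi
    rw [mem_interior_iff_mem_nhds]
    filter_upwards [ball_mem_nhds y hr] with z hz
    by_cases hzy : z = y
    · exact hzy ▸ hyC
    · exact interior_subset (h1 ⟨hz, hzy⟩)
  · obtain ⟨z, hz1, hz2⟩ := _root_.mem_closure_iff.1 (hi hyC) _ isOpen_ball (mem_ball_self hr)
    have hzy : z ≠ y := fun h => hyi (h ▸ hz2)
    exact h1 ⟨hz1, hzy⟩ (interior_subset hz2)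

lemma exists_frontier_mem_segment {C : Set E} (hc : IsClosed C) {x y : E} (hx : x ∈ C)
    (hy : y ∉ C) : ∃ z ∈ frontier C, dist x z ≤ dist x y := by
  by_contra hne
  push Not at hne
  have hsub : segment ℝ x y ⊆ interior C ∪ Cᶜ := by
    intro z hz
    by_cases hzC : z ∈ C
    · left
      by_contra hzi
      have h1 := hne z (by rw [hc.frontier_eq]; exact ⟨hzC, hzi⟩)
      have h2 := dist_add_dist_of_mem_segment hz
      have h3 : 0 ≤ dist z y := dist_nonneg
      linarith
    · exact Or.inr hzC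
  rcases (convex_segment x y).isPreconnected.subset_or_subset isOpen_interior hc.isOpen_compl
    (disjoint_compl_right_iff_subset.2 interior_subset) hsub with h1 | h1
  · exact hy (interior_subset (h1 (right_mem_segment ℝ x y)))
  · exact h1 (left_mem_segment ℝ x y) hx

/-- Integration by parts on a closed convex body, for a function that vanishes on the frontier. -/
lemma integral_fderivWithin_eq_zero [FiniteDimensional ℝ E] [MeasurableSpace E] [BorelSpace E]
    (μ : Measure E) [μ.IsAddHaarMeasure] {C K : Set E} (hc : IsClosed C) (hconv : Convex ℝ C)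
    (hu : UniqueDiffOn ℝ C) (hK : IsCompact K) {V : E → ℝ} (hV : ContDiffOn ℝ 1 V C)
    (h0 : ∀ y ∈ C, y ∉ K → V y = 0) (hf : ∀ y ∈ frontier C, V y = 0) (v : E) :
    ∫ y in C, fderivWithin ℝ V C y v ∂μ = 0 := by
  have hcont : ContinuousOn (fderivWithin ℝ V C) C := hV.continuousOn_fderivWithin hu le_rfl
  obtain ⟨L, hL⟩ := (hK.inter_right hc).exists_bound_of_continuousOn (hcont.mono inter_subset_right)
  have hL' : ∀ y ∈ C, ‖fderivWithin ℝ V C y‖₊ ≤ Real.toNNReal L := by
    intro y hy
    by_cases hyK : y ∈ K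
    · exact_mod_cast (hL y ⟨hyK, hy⟩).trans (Real.le_coe_toNNReal L)
    · have : V =ᶠ[𝓝[C] y] fun _ => 0 := by
        filter_upwards [self_mem_nhdsWithin,
          mem_nhdsWithin_of_mem_nhds (hK.isClosed.isOpen_compl.mem_nhds hyK)] with z h1 h2
        exact h0 z h1 h2
      rw [this.fderivWithin_eq (h0 y hy hyK)]
      simp
  have hLip : LipschitzOnWith (Real.toNNReal L) V C :=
    hconv.lipschitzOnWith_of_nnnorm_fderivWithin_le (hV.differentiableOn one_ne_zero) hL'
  have key : ∀ x ∈ C, ∀ y ∉ C, dist (V x) 0 ≤ Real.toNNReal L * dist x y := by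
    intro x hx y hy
    obtain ⟨z, hz, hd⟩ := exists_frontier_mem_segment hc hx hy
    rw [← hf z hz]
    exact (hLip.dist_le_mul x hx z (hc.frontier_subset hz)).trans (by gcongr)
  have hW : LipschitzWith (Real.toNNReal L) (C.indicator V) := by
    refine LipschitzWith.of_dist_le_mul fun x y => ?_
    by_cases hx : x ∈ C <;> by_cases hy : y ∈ C
    · rw [indicator_of_mem hx, indicator_of_mem hy]; exact hLip.dist_le_mul x hx y hy
    · rw [indicator_of_mem hx, indicator_of_notMem hy]; exact key x hx y hy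
    · rw [indicator_of_notMem hx, indicator_of_mem hy, dist_comm, dist_comm x y]
      exact key y hy x hx
    · rw [indicator_of_notMem hx, indicator_of_notMem hy, dist_self]; positivity
  have hsupp : HasCompactSupport (C.indicator V) := by
    refine HasCompactSupport.intro hK fun y hy => ?_
    by_cases hyC : y ∈ C
    · rw [indicator_of_mem hyC, h0 y hyC hy]
    · exact indicator_of_notMem hyC _
  have h1 := LipschitzWith.integral_lineDeriv_mul_eq (μ := μ)
    (LipschitzWith.const (α := E) (1 : ℝ)) hW hsupp (-v)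
  have h2 : ∀ x : E, lineDeriv ℝ (fun _ : E => (1 : ℝ)) x (-v) = 0 := fun x => by
    simp [lineDeriv]
  simp only [h2, zero_mul, integral_zero, neg_neg, mul_one] at h1
  rw [← integral_indicator hc.measurableSet, h1]
  refine integral_congr_ae ?_
  have hnull : ∀ᵐ y ∂μ, y ∉ frontier C := measure_eq_zero_iff_ae_notMem.1 (hconv.addHaar_frontier μ)
  filter_upwards [hnull] with y hy
  by_cases hyC : y ∈ C
  · have hyi : C ∈ 𝓝 y := by
      rw [← mem_interior_iff_mem_nhds]
      by_contra h
      exact hy (by rw [hc.frontier_eq]; exact ⟨hyC, h⟩)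
    have e1 : C.indicator V =ᶠ[𝓝 y] V := by
      filter_upwards [hyi] with z hz using indicator_of_mem hz _
    rw [indicator_of_mem hyC, e1.lineDeriv_eq, fderivWithin_of_mem_nhds hyi,
      (((hV y hyC).contDiffAt hyi).differentiableAt one_ne_zero).lineDeriv_eq_fderiv]
  · have e1 : C.indicator V =ᶠ[𝓝 y] fun _ => 0 := by
      filter_upwards [hc.isOpen_compl.mem_nhds hyC] with z hz using indicator_of_notMem hz _
    rw [indicator_of_notMem hyC, e1.lineDeriv_eq]
    simp [lineDeriv]

end Pool.Agent.P.MP_9c695c_an
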