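import Pool.Agent.P.MP_9c695c_an.Metric
import Pool.Agent.P.MP_9c695c_an.Plane

/-!
Pointwise bounds: the commutator bound behind the energy estimate, uniform bounds for gradients of
jointly smooth families, and the vanishing of the bracket on the boundary.
-/

open scoped Manifold ContDiff ENNReal Topology
open MeasureTheory Set Filter Bundle

set_option backward.isDefEq.respectTransparency false

namespace Pool.Agent.P.MP_9c695c_an

variable {E : Type*} [NormedAddCommGroup E] [InnerProductSpace ℝ E]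
  {H : Type*} [TopologicalSpace H] {I : ModelWithCorners ℝ E H}
  {M : Type*} [TopologicalSpace M] [ChartedSpace H M] [IsManifold I ∞ M]

namespace Surf
variable (S : Surf I M)

/-- `f` is differentiable at `x` with coordinate derivative `v` -/
def HD (x₀ : M) (i : Fin 2) (f : M → ℝ) (x : M) (v : ℝ) : Prop := MdAt I f x ∧ S.D x₀ i f x = v

lemma HD.of {x₀ : M} (i : Fin 2) {f : M → ℝ} {x : M} (hf : SmAt I f x) :
    S.HD x₀ i f x (S.D x₀ i f x) := ⟨hf.md, rfl⟩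

variable {S} in
lemma HD.add {x₀ : M} {i : Fin 2} {f h : M → ℝ} {x : M} {v w : ℝ} (hf : S.HD x₀ i f x v)
    (hh : S.HD x₀ i h x w) : S.HD x₀ i (fun y => f y + h y) x (v + w) :=
  ⟨hf.1.add hh.1, by rw [S.D_add x₀ i hf.1 hh.1, hf.2, hh.2]⟩

variable {S} in
lemma HD.mul {x₀ : M} {i : Fin 2} {f h : M → ℝ} {x : M} {v w : ℝ} (hf : S.HD x₀ i f x v)
    (hh : S.HD x₀ i h x w) : S.HD x₀ i (fun y => f y * h y) x (f x * w + h x * v) :=
  ⟨hf.1.mul hh.1, by rw [S.D_mul x₀ i hf.1 hh.1, hf.2, hh.2]⟩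

/-- inverse metric coefficients -/
noncomputable def a00 (x₀ x : M) : ℝ := S.G x₀ 1 1 x / S.dt x₀ x
/-- inverse metric coefficients -/
noncomputable def a01 (x₀ x : M) : ℝ := - S.G x₀ 0 1 x / S.dt x₀ x
/-- inverse metric coefficients -/
noncomputable def a11 (x₀ x : M) : ℝ := S.G x₀ 0 0 x / S.dt x₀ x
/-- velocity components -/
noncomputable def u0 (x₀ : M) (ψ : M → ℝ) (x : M) : ℝ := - S.D x₀ 1 ψ x / S.ar x₀ x
/-- velocity components -/
noncomputable def u1 (x₀ : M) (ψ : M → ℝ) (x : M) : ℝ := S.D x₀ 0 ψ x / S.ar x₀ x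

section
variable {x₀ x : M} (hx : x ∈ (extChartAt I x₀).source)
include hx

lemma smAt_a00 : SmAt I (S.a00 x₀) x :=
  SmAt.div (S.smAt_G hx 1 1) (S.smAt_dt hx) (S.dt_pos hx).ne'
lemma smAt_a01 : SmAt I (S.a01 x₀) x :=
  SmAt.div (S.smAt_G hx 0 1).neg (S.smAt_dt hx) (S.dt_pos hx).ne'
lemma smAt_a11 : SmAt I (S.a11 x₀) x :=
  SmAt.div (S.smAt_G hx 0 0) (S.smAt_dt hx) (S.dt_pos hx).ne'
lemma smAt_u0 {ψ : M → ℝ} (hψ : SmAt I ψ x) : SmAt I (S.u0 x₀ ψ) x :=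
  SmAt.div (S.smAt_D hx hψ 1).neg (S.smAt_ar hx) (S.ar_ne hx)
lemma smAt_u1 {ψ : M → ℝ} (hψ : SmAt I ψ x) : SmAt I (S.u1 x₀ ψ) x :=
  SmAt.div (S.smAt_D hx hψ 0) (S.smAt_ar hx) (S.ar_ne hx)

lemma gam_a (f h : M → ℝ) : S.gam f h x = S.a00 x₀ x * (S.D x₀ 0 f x * S.D x₀ 0 h x)
    + S.a01 x₀ x * (S.D x₀ 0 f x * S.D x₀ 1 h x + S.D x₀ 1 f x * S.D x₀ 0 h x)
    + S.a11 x₀ x * (S.D x₀ 1 f x * S.D x₀ 1 h x) := by
  rw [S.gam_chart hx]; unfold a00 a01 a11; ring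

lemma br_u (ψ h : M → ℝ) :
    S.br ψ h x = S.u0 x₀ ψ x * S.D x₀ 0 h x + S.u1 x₀ ψ x * S.D x₀ 1 h x := by
  rw [S.br_chart hx]; unfold u0 u1; ring

end

/-- coefficients of the commutator -/
noncomputable def c00 (x₀ : M) (ψ : M → ℝ) (x : M) : ℝ :=
  2 * S.a00 x₀ x * S.D x₀ 0 (S.u0 x₀ ψ) x + 2 * S.a01 x₀ x * S.D x₀ 1 (S.u0 x₀ ψ) x
    - (S.u0 x₀ ψ x * S.D x₀ 0 (S.a00 x₀) x + S.u1 x₀ ψ x * S.D x₀ 1 (S.a00 x₀) x)
/-- coefficients of the commutator -/
noncomputable def c01 (x₀ : M) (ψ : M → ℝ) (x : M) : ℝ :=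
  2 * S.a00 x₀ x * S.D x₀ 0 (S.u1 x₀ ψ) x + 2 * S.a01 x₀ x * S.D x₀ 1 (S.u1 x₀ ψ) x
    + 2 * S.a01 x₀ x * S.D x₀ 0 (S.u0 x₀ ψ) x + 2 * S.a11 x₀ x * S.D x₀ 1 (S.u0 x₀ ψ) x
    - 2 * (S.u0 x₀ ψ x * S.D x₀ 0 (S.a01 x₀) x + S.u1 x₀ ψ x * S.D x₀ 1 (S.a01 x₀) x)
/-- coefficients of the commutator -/
noncomputable def c11 (x₀ : M) (ψ : M → ℝ) (x : M) : ℝ :=
  2 * S.a01 x₀ x * S.D x₀ 0 (S.u1 x₀ ψ) x + 2 * S.a11 x₀ x * S.D x₀ 1 (S.u1 x₀ ψ) x
    - (S.u0 x₀ ψ x * S.D x₀ 0 (S.a11 x₀) x + S.u1 x₀ ψ x * S.D x₀ 1 (S.a11 x₀) x)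

lemma comm_chart {x₀ x : M} (hx : x ∈ (extChartAt I x₀).source) {ψ φ : M → ℝ}
    (hψ : Smooth I ψ) (hφ : Smooth I φ) :
    2 * S.gam φ (S.br ψ φ) x - S.br ψ (S.gam φ φ) x =
      S.c00 x₀ ψ x * S.D x₀ 0 φ x ^ 2 + S.c01 x₀ ψ x * (S.D x₀ 0 φ x * S.D x₀ 1 φ x)
        + S.c11 x₀ ψ x * S.D x₀ 1 φ x ^ 2 := by
  have hs := (isOpen_extChartAt_source x₀).mem_nhds hx
  have hp := S.smAt_D hx (hφ x) 0
  have hq := S.smAt_D hx (hφ x) 1
  have e1 := fun i : Fin 2 => (S.D_congr x₀ i (f := S.br ψ φ)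
      (h := fun y => S.u0 x₀ ψ y * S.D x₀ 0 φ y + S.u1 x₀ ψ y * S.D x₀ 1 φ y)
      (by filter_upwards [hs] with y hy using S.br_u hy ψ φ)).trans
    (((HD.of S i (S.smAt_u0 hx (hψ x))).mul (HD.of S i hp)).add
      ((HD.of S i (S.smAt_u1 hx (hψ x))).mul (HD.of S i hq))).2
  have e2 := fun i : Fin 2 => (S.D_congr x₀ i (f := S.gam φ φ)
      (h := fun y => S.a00 x₀ y * (S.D x₀ 0 φ y * S.D x₀ 0 φ y)
      + S.a01 x₀ y * (S.D x₀ 0 φ y * S.D x₀ 1 φ y + S.D x₀ 1 φ y * S.D x₀ 0 φ y)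
      + S.a11 x₀ y * (S.D x₀ 1 φ y * S.D x₀ 1 φ y))
      (by filter_upwards [hs] with y hy using S.gam_a hy φ φ)).trans
    ((((HD.of S i (S.smAt_a00 hx)).mul ((HD.of S i hp).mul (HD.of S i hp))).add
      ((HD.of S i (S.smAt_a01 hx)).mul (((HD.of S i hp).mul (HD.of S i hq)).add
        ((HD.of S i hq).mul (HD.of S i hp))))).add
      ((HD.of S i (S.smAt_a11 hx)).mul ((HD.of S i hq).mul (HD.of S i hq)))).2
  rw [S.gam_a hx, S.br_u hx ψ (S.gam φ φ), e1, e1, e2, e2, S.D_comm hx (hφ x) 0 1]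
  unfold c00 c01 c11
  ring

lemma comm_bound [CompactSpace M] {ψ : M → ℝ} (hψ : Smooth I ψ) :
    ∃ C : ℝ, 0 ≤ C ∧ ∀ φ : M → ℝ, Smooth I φ → ∀ x,
      2 * S.gam φ (S.br ψ φ) x - S.br ψ (S.gam φ φ) x ≤ C * S.gam φ φ x := by
  obtain ⟨C, hC⟩ := exists_bound_of_local (K := (univ : Set M)) isCompact_univ
    (fun C x => ∀ φ : M → ℝ, Smooth I φ →
      2 * S.gam φ (S.br ψ φ) x - S.br ψ (S.gam φ φ) x ≤ C * S.gam φ φ x)
    (fun C C' x h h1 φ hφ => (h1 φ hφ).trans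
      (mul_le_mul_of_nonneg_right h (S.gam_nonneg φ x))) (by
    intro x₀ _
    have hx := mem_extChartAt_source (I := I) x₀
    have k0 := (S.smAt_u0 hx (hψ x₀))
    have k1 := (S.smAt_u1 hx (hψ x₀))
    have a0 := S.smAt_a00 hx
    have a1 := S.smAt_a01 hx
    have a2 := S.smAt_a11 hx
    have d := fun {f : M → ℝ} (hf : SmAt I f x₀) (i : Fin 2) => (S.smAt_D hx hf i).continuousAt
    have h00 : ContinuousAt (S.c00 x₀ ψ) x₀ :=
      (((continuousAt_const.mul a0.continuousAt).mul (d k0 0)).add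
        ((continuousAt_const.mul a1.continuousAt).mul (d k0 1))).sub
        ((k0.continuousAt.mul (d a0 0)).add (k1.continuousAt.mul (d a0 1)))
    have h01 : ContinuousAt (S.c01 x₀ ψ) x₀ :=
      (((((continuousAt_const.mul a0.continuousAt).mul (d k1 0)).add
        ((continuousAt_const.mul a1.continuousAt).mul (d k1 1))).add
        ((continuousAt_const.mul a1.continuousAt).mul (d k0 0))).add
        ((continuousAt_const.mul a2.continuousAt).mul (d k0 1))).sub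
        (continuousAt_const.mul
          ((k0.continuousAt.mul (d a1 0)).add (k1.continuousAt.mul (d a1 1))))
    have h11 : ContinuousAt (S.c11 x₀ ψ) x₀ :=
      (((continuousAt_const.mul a1.continuousAt).mul (d k1 0)).add
        ((continuousAt_const.mul a2.continuousAt).mul (d k1 1))).sub
        ((k0.continuousAt.mul (d a2 0)).add (k1.continuousAt.mul (d a2 1)))
    let K : M → ℝ := fun x => (|S.c00 x₀ ψ x| + |S.c01 x₀ ψ x|) * S.G x₀ 0 0 x
      + (|S.c01 x₀ ψ x| + |S.c11 x₀ ψ x|) * S.G x₀ 1 1 x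
    have hK : ContinuousAt K x₀ :=
      ((h00.abs.add h01.abs).mul (S.smAt_G hx 0 0).continuousAt).add
        ((h01.abs.add h11.abs).mul (S.smAt_G hx 1 1).continuousAt)
    refine ⟨K x₀ + 1, mem_nhdsWithin_of_mem_nhds ?_⟩
    filter_upwards [(isOpen_extChartAt_source x₀).mem_nhds hx,
      hK.eventually (gt_mem_nhds (lt_add_one (K x₀)))] with x hx' hKx φ hφ
    rw [S.comm_chart hx' hψ hφ]
    have g0 := S.gam_nonneg φ x
    have b0 := S.D_sq_le x₀ 0 φ x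
    have b1 := S.D_sq_le x₀ 1 φ x
    set p := S.D x₀ 0 φ x
    set q := S.D x₀ 1 φ x
    have t0 : S.c00 x₀ ψ x * p ^ 2 ≤ |S.c00 x₀ ψ x| * p ^ 2 := by gcongr; exact le_abs_self _
    have t2 : S.c11 x₀ ψ x * q ^ 2 ≤ |S.c11 x₀ ψ x| * q ^ 2 := by gcongr; exact le_abs_self _
    have t1 : S.c01 x₀ ψ x * (p * q) ≤ |S.c01 x₀ ψ x| * (p ^ 2 + q ^ 2) := by
      refine (le_abs_self _).trans ?_
      rw [abs_mul]
      gcongr
      rw [abs_le]; constructor <;> nlinarith [sq_nonneg (p + q), sq_nonneg (p - q)]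
    have t3 : (|S.c00 x₀ ψ x| + |S.c01 x₀ ψ x|) * p ^ 2 ≤
        (|S.c00 x₀ ψ x| + |S.c01 x₀ ψ x|) * (S.gam φ φ x * S.G x₀ 0 0 x) := by gcongr
    have t4 : (|S.c01 x₀ ψ x| + |S.c11 x₀ ψ x|) * q ^ 2 ≤
        (|S.c01 x₀ ψ x| + |S.c11 x₀ ψ x|) * (S.gam φ φ x * S.G x₀ 1 1 x) := by gcongr
    have t5 : K x * S.gam φ φ x ≤ (K x₀ + 1) * S.gam φ φ x := by gcongr
    simp only [K] at t5 ⊢
    nlinarith)
  refine ⟨max C 0, le_max_right _ _, fun φ hφ x => (hC x (mem_univ _) φ hφ).trans ?_⟩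
  exact mul_le_mul_of_nonneg_right (le_max_left _ _) (S.gam_nonneg φ x)

end Surf

variable (I) in
/-- jointly smooth on a time interval -/
abbrev JSm (a b : ℝ) (F : ℝ → M → ℝ) : Prop :=
  ContMDiffOn (𝓘(ℝ, ℝ).prod I) 𝓘(ℝ, ℝ) ∞ (fun p : ℝ × M => F p.1 p.2) (Icc a b ×ˢ univ)

omit [IsManifold I ∞ M] in
lemma JSm.smooth {a b : ℝ} {F : ℝ → M → ℝ} (hF : JSm I a b F) {t : ℝ} (ht : t ∈ Icc a b) :
    Smooth I (F t) := by
  have h1 : ContMDiff I (𝓘(ℝ, ℝ).prod I) ∞ (fun x : M => (t, x)) :=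
    contMDiff_const.prodMk contMDiff_id
  exact hF.comp_contMDiff h1 (fun x => ⟨ht, mem_univ _⟩)

lemma JSm.contDiffOn_rep {a b : ℝ} {F : ℝ → M → ℝ} (hF : JSm I a b F) (x₀ : M) :
    ContDiffOn ℝ ∞ (fun p : ℝ × E => F p.1 ((extChartAt I x₀).symm p.2))
      (Icc a b ×ˢ (extChartAt I x₀).target) := by
  have h1 : ContMDiffOn 𝓘(ℝ, ℝ × E) 𝓘(ℝ, ℝ) ∞ (fun p : ℝ × E => p.1)
      (Icc a b ×ˢ (extChartAt I x₀).target) := contDiff_fst.contMDiff.contMDiffOn
  have h2 : ContMDiffOn 𝓘(ℝ, ℝ × E) I ∞ (fun p : ℝ × E => (extChartAt I x₀).symm p.2)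
      (Icc a b ×ˢ (extChartAt I x₀).target) :=
    (contMDiffOn_extChartAt_symm x₀).comp contDiff_snd.contMDiff.contMDiffOn fun p hp => hp.2
  have h3 := hF.comp (h1.prodMk h2) (fun p hp => ⟨hp.1, mem_univ _⟩)
  exact contMDiffOn_iff_contDiffOn.1 h3

namespace Surf
variable (S : Surf I M)

lemma JSm_D_eq {a b : ℝ} {F : ℝ → M → ℝ} (hF : JSm I a b F) {x₀ x : M}
    (hx : x ∈ (extChartAt I x₀).source) {t : ℝ} (ht : t ∈ Icc a b) (i : Fin 2) :
    S.D x₀ i (F t) x = fderivWithin ℝ (fun p : ℝ × E => F p.1 ((extChartAt I x₀).symm p.2))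
      (Icc a b ×ˢ (extChartAt I x₀).target) (t, extChartAt I x₀ x) (0, S.b i) := by
  have hy := (extChartAt I x₀).map_source hx
  rw [S.D_eq hx ((hF.smooth ht).md x)]
  have h1 := ((hF.contDiffOn_rep x₀ (t, extChartAt I x₀ x) ⟨ht, hy⟩).differentiableWithinAt
    (by simp)).hasFDerivWithinAt
  have h2 : HasFDerivWithinAt (fun y : E => (t, y)) (ContinuousLinearMap.inr ℝ ℝ E)
      (extChartAt I x₀).target (extChartAt I x₀ x) :=
    (hasFDerivAt_prodMk_right t _).hasFDerivWithinAt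
  have h3 := h1.comp (extChartAt I x₀ x) h2 (fun y hy => ⟨ht, hy⟩)
  have h4 := (h3.mono_of_mem_nhdsWithin (extChartAt_target_mem_nhdsWithin_of_mem hy)).fderivWithin
    (I.uniqueDiffOn _ (extChartAt_target_subset_range x₀ hy))
  exact congrArg (fun L => L (S.b i)) h4

lemma JSm_D_cont {a b : ℝ} (hab : a < b) {F : ℝ → M → ℝ} (hF : JSm I a b F) (x₀ : M)
    {t₀ : ℝ} (ht : t₀ ∈ Icc a b) (i : Fin 2) :
    ContinuousWithinAt (fun p : ℝ × M => S.D x₀ i (F p.1) p.2) (Icc a b ×ˢ univ) (t₀, x₀) := by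
  have hx := mem_extChartAt_source (I := I) x₀
  have h1 := (hF.contDiffOn_rep x₀).continuousOn_fderivWithin
    ((uniqueDiffOn_Icc hab).prod (uniqueDiffOn_extChartAt_target x₀)) (by simp)
  have h2 : ContinuousWithinAt (fun p : ℝ × M => (p.1, extChartAt I x₀ p.2))
      (Icc a b ×ˢ (extChartAt I x₀).source) (t₀, x₀) :=
    (continuousAt_fst.prodMk
      ((continuousAt_extChartAt x₀).comp_of_eq continuousAt_snd rfl)).continuousWithinAt
  have h3 := (h1 (t₀, extChartAt I x₀ x₀) ⟨ht, (extChartAt I x₀).map_source hx⟩).comp_of_eq h2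
    (fun p hp => ⟨hp.1, (extChartAt I x₀).map_source hp.2⟩) rfl
  have h4 := h3.clm_apply (continuousWithinAt_const (b := ((0 : ℝ), S.b i)))
  have hm : Icc a b ×ˢ (extChartAt I x₀).source ∈ 𝓝[Icc a b ×ˢ univ] (t₀, x₀) := by
    filter_upwards [self_mem_nhdsWithin, mem_nhdsWithin_of_mem_nhds
      (continuousAt_snd.preimage_mem_nhds ((isOpen_extChartAt_source x₀).mem_nhds hx))]
      with p h1 h2 using ⟨h1.1, h2⟩
  refine (h4.mono_of_mem_nhdsWithin hm).congr_of_eventuallyEq ?_ (S.JSm_D_eq hF hx ht i)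
  filter_upwards [hm] with p hp using S.JSm_D_eq hF hp.2 hp.1 i

lemma JSm_gam_bdd [CompactSpace M] {a b : ℝ} (hab : a < b) {F : ℝ → M → ℝ} (hF : JSm I a b F) :
    ∃ B : ℝ, 0 ≤ B ∧ ∀ t ∈ Icc a b, ∀ x, S.gam (F t) (F t) x ≤ B := by
  obtain ⟨C, hC⟩ := exists_bound_of_local (K := Icc a b ×ˢ (univ : Set M))
    (isCompact_Icc.prod isCompact_univ) (fun C p => S.gam (F p.1) (F p.1) p.2 ≤ C)
    (fun C C' x h h1 => h1.trans h) (by
    rintro ⟨t₀, x₀⟩ ⟨ht, -⟩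
    have hx := mem_extChartAt_source (I := I) x₀
    have d0 := S.JSm_D_cont hab hF x₀ ht 0
    have d1 := S.JSm_D_cont hab hF x₀ ht 1
    have c := fun {f : M → ℝ} (hf : SmAt I f x₀) =>
      (hf.continuousAt.comp_of_eq (continuousAt_snd (p := (t₀, x₀))) rfl).continuousWithinAt
        (s := Icc a b ×ˢ univ)
    have h1 := (((c (S.smAt_a00 hx)).mul (d0.mul d0)).add
      ((c (S.smAt_a01 hx)).mul ((d0.mul d1).add (d1.mul d0)))).add
      ((c (S.smAt_a11 hx)).mul (d1.mul d1))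
    obtain ⟨C, hC⟩ := h1.tendsto.isBoundedUnder_le
    rw [eventually_map] at hC
    refine ⟨C, ?_⟩
    filter_upwards [hC, mem_nhdsWithin_of_mem_nhds
      (continuousAt_snd.preimage_mem_nhds ((isOpen_extChartAt_source x₀).mem_nhds hx))]
      with p h2 h3
    rw [S.gam_a h3]
    exact h2)
  exact ⟨max C 0, le_max_right _ _, fun t ht x => (hC (t, x) ⟨ht, mem_univ _⟩).trans
    (le_max_left _ _)⟩

end Surf

omit [IsManifold I ∞ M] in
lemma JSm.bdd [CompactSpace M] {a b : ℝ} {F : ℝ → M → ℝ} (hF : JSm I a b F) :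
    ∃ B : ℝ, 0 ≤ B ∧ ∀ t ∈ Icc a b, ∀ x, |F t x| ≤ B := by
  obtain ⟨C, hC⟩ := (isCompact_Icc.prod isCompact_univ).exists_bound_of_continuousOn
    hF.continuousOn
  exact ⟨max C 0, le_max_right _ _, fun t ht x => (hC (t, x) ⟨ht, mem_univ _⟩).trans
    (le_max_left _ _)⟩

lemma mem_interior_iff_chart {x₀ x : M} (hx : x ∈ (extChartAt I x₀).source) :
    x ∈ I.interior M ↔ extChartAt I x₀ x ∈ interior (range I) := by
  have h := I.isInteriorPoint_iff_of_mem_atlas (n := ∞) (by simp) (chart_mem_atlas H x₀)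
    (mem_src hx)
  refine h.trans ⟨fun h1 => interior_mono (extChartAt_target_subset_range x₀) h1, fun h1 => ?_⟩
  have h2 := extChartAt_target_mem_nhdsWithin_of_mem ((extChartAt I x₀).map_source hx)
  rw [nhdsWithin_eq_nhds.2 (mem_interior_iff_mem_nhds.1 h1)] at h2
  exact mem_interior_iff_mem_nhds.2 h2

lemma mem_boundary_iff_chart {x₀ x : M} (hx : x ∈ (extChartAt I x₀).source) :
    x ∈ I.boundary M ↔ extChartAt I x₀ x ∈ frontier (range I) := by
  rw [← I.compl_interior, mem_compl_iff, mem_interior_iff_chart hx, I.isClosed_range.frontier_eq]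
  exact ⟨fun h => ⟨extChartAt_target_subset_range x₀ ((extChartAt I x₀).map_source hx), h⟩,
    fun h => h.2⟩

omit [IsManifold I ∞ M] in
lemma Tangent.eventually {ψ : M → ℝ} (hψ : Tangent I ψ) {x : M} (hx : x ∈ I.boundary M) :
    ∀ᶠ y in 𝓝 x, y ∈ I.boundary M → ψ y = ψ x := by
  have h := hψ.eventually_eq ⟨x, hx⟩
  rw [nhds_subtype_eq_comap_nhdsWithin, eventually_comap, eventually_nhdsWithin_iff] at h
  filter_upwards [h] with y hy hyb using hy hyb ⟨y, hyb⟩ rfl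

namespace Surf
variable (S : Surf I M)

include S in
lemma one_lt_rank : 1 < Module.rank ℝ E := by
  have := S.finDim
  rw [← Module.finrank_eq_rank, S.finrank_eq]
  norm_num

lemma br_boundary {ψ φ : M → ℝ} (hψ : Smooth I ψ) (hφ : Smooth I φ) (tψ : Tangent I ψ)
    (tφ : Tangent I φ) {x : M} (hb : x ∈ I.boundary M) : S.br ψ φ x = 0 := by
  have := S.finDim
  have hx := mem_extChartAt_source (I := I) x
  have hy := (extChartAt I x).map_source hx
  have hf := (mem_boundary_iff_chart hx).1 hb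
  obtain ⟨v, hv, hv0⟩ := tangentConeAt_nonempty_of_properSpace (𝕜 := ℝ)
    (accPt_frontier S.one_lt_rank I.isClosed_range I.range_subset_closure_interior hf)
  have key : ∀ f : M → ℝ, Smooth I f → Tangent I f →
      inner ℝ (S.b 0) v * S.D x 0 f x + inner ℝ (S.b 1) v * S.D x 1 f x = 0 := by
    intro f hf1 hf2
    have h1 := ((contDiffWithinAt_rep hx (hf1 x)).differentiableWithinAt
      (by simp)).hasFDerivWithinAt.mono I.isClosed_range.frontier_subset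
    have h2 : HasFDerivWithinAt (rep I x f) (0 : E →L[ℝ] ℝ) (frontier (range I))
        (extChartAt I x x) := by
      have ht : Tendsto (extChartAt I x).symm (𝓝 (extChartAt I x x)) (𝓝 x) := by
        have := (continuousAt_extChartAt_symm (I := I) x).tendsto
        rwa [(extChartAt I x).left_inv hx] at this
      refine (hasFDerivWithinAt_const (f x) _ _).congr_of_eventuallyEq ?_
        (by simp only [rep, Function.comp_apply, (extChartAt I x).left_inv hx])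
      filter_upwards [self_mem_nhdsWithin,
        mem_nhdsWithin_of_mem_nhds (ht.eventually (hf2.eventually hb)),
        nhdsWithin_mono _ I.isClosed_range.frontier_subset
          (extChartAt_target_mem_nhdsWithin_of_mem hy)] with y h3 h4 h5
      apply h4
      rw [mem_boundary_iff_chart ((extChartAt I x).map_target h5), (extChartAt I x).right_inv h5]
      exact h3
    have h3 := h1.unique_on h2 hv
    rw [S.D_eq hx (hf1.md x), S.D_eq hx (hf1.md x)]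
    rw [S.coord_eq v] at h3
    simpa using h3
  have k1 := key ψ hψ tψ
  have k2 := key φ hφ tφ
  rw [S.br_chart hx, div_eq_zero_iff]
  left
  have hne : inner ℝ (S.b 0) v ≠ 0 ∨ inner ℝ (S.b 1) v ≠ 0 := by
    by_contra h
    push Not at h
    apply hv0
    rw [S.coord_eq v, h.1, h.2]; simp
  rcases hne with h | h
  · apply mul_left_cancel₀ h
    linear_combination (S.D x 1 φ x) * k1 - (S.D x 1 ψ x) * k2
  · apply mul_left_cancel₀ h
    linear_combination (S.D x 0 ψ x) * k2 - (S.D x 0 φ x) * k1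

end Surf

end Pool.Agent.P.MP_9c695c_an
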