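import Mathlib

/-!
Definitions for the 2D Euler equation on a compact oriented Riemannian surface, possibly with
boundary, and for the class of norms in which instability is proved.
-/

open scoped Manifold ContDiff ENNReal
open MeasureTheory Set

namespace Pool.Agent.P.MP_9c695c_an

/-- An oriented Riemannian surface: the model space `E` is a Euclidean plane with orthonormal
basis `b`, `g` is a smooth Riemannian metric and `J` is a continuous field of rotations by a right
angle of the tangent planes. -/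
structure Surf {E : Type*} [NormedAddCommGroup E] [InnerProductSpace ℝ E]
    {H : Type*} [TopologicalSpace H] (I : ModelWithCorners ℝ E H)
    (M : Type*) [TopologicalSpace M] [ChartedSpace H M] [IsManifold I ∞ M] where
  /-- an orthonormal basis of the model plane -/
  b : OrthonormalBasis (Fin 2) ℝ E
  /-- the Riemannian metric -/
  g : Bundle.ContMDiffRiemannianMetric I ∞ E (fun x : M => TangentSpace I x)
  /-- the rotation by a right angle -/
  J : (x : M) → TangentSpace I x →L[ℝ] TangentSpace I x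
  J_orth : ∀ (x : M) (v : TangentSpace I x), g.inner x (J x v) v = 0
  J_isom : ∀ (x : M) (v : TangentSpace I x), g.inner x (J x v) (J x v) = g.inner x v v
  J_cont : Continuous fun p : TangentBundle I M => (⟨p.1, J p.1 p.2⟩ : TangentBundle I M)

variable {E : Type*} [NormedAddCommGroup E] [InnerProductSpace ℝ E]
  {H : Type*} [TopologicalSpace H] {I : ModelWithCorners ℝ E H}
  {M : Type*} [TopologicalSpace M] [ChartedSpace H M] [IsManifold I ∞ M]

variable (I) in
/-- The derivative `d f (v)` of the function `f` along the tangent vector `v` at `x`. -/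
noncomputable def dv (f : M → ℝ) (x : M) (v : TangentSpace I x) : ℝ := mvfderiv I f x v

/-- The scalar product `g (v, w)` of two tangent vectors at `x`. -/
noncomputable def Surf.ip (S : Surf I M) (x : M) (v w : TangentSpace I x) : ℝ := S.g.inner x v w

/-- The Riemannian gradient: the vector `v` with `g (v, ·) = d f`. -/
noncomputable def Surf.grad (S : Surf I M) (f : M → ℝ) (x : M) : TangentSpace I x :=
  (S.g.inner x).inverse (mvfderiv I f x)

/-- The velocity field of the stream function `ψ`, the rotated gradient. -/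
noncomputable def Surf.vel (S : Surf I M) (ψ : M → ℝ) (x : M) : TangentSpace I x :=
  S.J x (S.grad ψ x)

/-- The coordinate vector `∂/∂y_i` of the chart at `x₀`, at the point with coordinates `y`. -/
noncomputable def Surf.cvec (S : Surf I M) (x₀ : M) (y : E) (i : Fin 2) :
    TangentSpace I ((extChartAt I x₀).symm y) :=
  mfderivWithin 𝓘(ℝ, E) I (extChartAt I x₀).symm (range I) y (S.b i)

/-- The area density `√(det g_ij)` in the chart at `x₀`, at the point with coordinates `y`. -/
noncomputable def Surf.dens (S : Surf I M) (x₀ : M) (y : E) : ℝ :=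
  √(Matrix.det (Matrix.of fun i j : Fin 2 =>
    S.ip ((extChartAt I x₀).symm y) (S.cvec x₀ y i) (S.cvec x₀ y j)))

variable (I) in
/-- Smooth real functions on the surface. -/
def Smooth (f : M → ℝ) : Prop := ContMDiff I 𝓘(ℝ, ℝ) ∞ f

variable (I) in
/-- `ψ` is constant on each piece of the boundary, so its velocity is tangent to the boundary. -/
def Tangent (ψ : M → ℝ) : Prop := IsLocallyConstant fun x : I.boundary M => ψ x

variable (I) in
/-- `Φ` is the smooth flow map of the vector field `u`. -/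
structure IsFlow (u : (x : M) → TangentSpace I x) (Φ : ℝ → M → M) : Prop where
  smooth : ContMDiff (𝓘(ℝ, ℝ).prod I) I ∞ fun p : ℝ × M => Φ p.1 p.2
  zero : Φ 0 = id
  curve : ∀ x : M, IsMIntegralCurve (fun t => Φ t x) u

/-- A weight `w` on frequencies: positive, nondecreasing and not slowly varying, in the sense that
`w (Λ k) / w k` exceeds any given `K` at arbitrarily large `k` for a suitable `Λ`.
The model is `w k = k ^ s` with `s > 0`. -/
structure IsWeight (w : ℝ → ℝ) : Prop where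
  pos : ∀ k, 0 < k → 0 < w k
  mono : MonotoneOn w (Ioi 0)
  grow : ∀ K : ℝ, ∃ Λ : ℝ, 0 < Λ ∧ ∀ k₀ : ℝ, ∃ k, k₀ ≤ k ∧ K * w k ≤ w (Λ * k)

section

variable [MeasurableSpace M]

/-- The Green form `∫ (ζ χ + g (∇ ψ, ∇ χ))`. When `Δ ψ = ζ` it is the boundary integral of
`χ ∂ψ/∂n`. -/
noncomputable def Surf.green (S : Surf I M) (μ : Measure M) (ψ ζ χ : M → ℝ) : ℝ :=
  ∫ x, (ζ x * χ x + S.ip x (S.grad ψ x) (S.grad χ x)) ∂μ

/-- `ψ` is a smooth stream function of the smooth vorticity `ζ`: it is constant on each piece of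
the boundary and `Δ ψ = ζ`, tested against smooth functions that vanish on the boundary. -/
structure Surf.IsStream (S : Surf I M) (μ : Measure M) (ψ ζ : M → ℝ) : Prop where
  smooth_stream : Smooth I ψ
  smooth_vort : Smooth I ζ
  tangent : Tangent I ψ
  laplace : ∀ χ : M → ℝ, Smooth I χ → (∀ x ∈ I.boundary M, χ x = 0) → S.green μ ψ ζ χ = 0

/-- The two flows have the same circulation around each piece of the boundary. -/
def Surf.SameCirc (S : Surf I M) (μ : Measure M) (ψ ζ ψ' ζ' : M → ℝ) : Prop :=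
  ∀ χ : M → ℝ, Smooth I χ → Tangent I χ → S.green μ ψ ζ χ = S.green μ ψ' ζ' χ

/-- A smooth solution of the Euler equation in vorticity form on the time interval `[0, T]`:
`∂_t ζ + u · ∇ ζ = 0`, `u = ∇^⊥ ψ`, `Δ ψ = ζ`, `u` tangent to the boundary, with conserved
circulations. -/
structure Surf.IsEuler (S : Surf I M) (μ : Measure M) (T : ℝ) (ψ ζ : ℝ → M → ℝ) : Prop where
  smooth_stream : ContMDiffOn (𝓘(ℝ, ℝ).prod I) 𝓘(ℝ, ℝ) ∞ (fun p : ℝ × M => ψ p.1 p.2)
    (Icc 0 T ×ˢ univ)
  smooth_vort : ContMDiffOn (𝓘(ℝ, ℝ).prod I) 𝓘(ℝ, ℝ) ∞ (fun p : ℝ × M => ζ p.1 p.2)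
    (Icc 0 T ×ˢ univ)
  stream : ∀ t ∈ Icc 0 T, S.IsStream μ (ψ t) (ζ t)
  circ : ∀ t ∈ Icc 0 T, S.SameCirc μ (ψ t) (ζ t) (ψ 0) (ζ 0)
  transport : ∀ t ∈ Icc 0 T, ∀ x : M,
    HasDerivWithinAt (fun s => ζ s x) (-(dv I (ζ t) x (S.vel (ψ t) x))) (Icc 0 T) t

end

variable [FiniteDimensional ℝ E] [MeasurableSpace E] [BorelSpace E]

/-- `μ` is the Riemannian area: in every chart it has density `√(det g_ij)`. -/
def Surf.IsArea (S : Surf I M) [MeasurableSpace M] (μ : Measure M) : Prop :=
  ∀ (x₀ : M) (A : Set M), MeasurableSet A → A ⊆ (extChartAt I x₀).source →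
    μ A = ∫⁻ y in extChartAt I x₀ '' A, ENNReal.ofReal (S.dens x₀ y)

variable (I) in
/-- The ball of radius `r` around the point `x₀`, in the chart at `x₀`. -/
def cball (x₀ : M) (r : ℝ) : Set E := Metric.ball (extChartAt I x₀ x₀) r

variable (I) in
/-- The function `f` read in the chart at `x₀`. -/
noncomputable def rep (x₀ : M) (f : M → ℝ) : E → ℝ := f ∘ (extChartAt I x₀).symm

variable (I) in
/-- `Σ_{j ≤ m} k^{-j} ‖D^j (f ∘ κ⁻¹)‖_{L^p(B)}`, for the chart `κ` at `x₀` and the ball `B` of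
radius `r` around `κ x₀`. -/
noncomputable def jetSum (p : ℝ≥0∞) (m : ℕ) (x₀ : M) (r : ℝ) (f : M → ℝ) (k : ℝ) : ℝ≥0∞ :=
  ∑ j ∈ Finset.range (m + 1), ENNReal.ofReal (1 / k ^ j) *
    eLpNorm (iteratedFDeriv ℝ j (rep I x₀ f)) p (volume.restrict (cball I x₀ r))

variable (I) in
/-- `‖Δ_h^m (f ∘ κ⁻¹)‖_{L^p(B)}`, where `Δ_h^m` is the difference operator of order `m` and step
`h`, for the chart `κ` at `x₀` and the ball `B` of radius `r` around `κ x₀`. -/
noncomputable def diffNorm (p : ℝ≥0∞) (m : ℕ) (x₀ : M) (r : ℝ) (f : M → ℝ) (h : E) : ℝ≥0∞ :=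
  eLpNorm ((fwdDiff h)^[m] (rep I x₀ f)) p (volume.restrict (cball I x₀ r))

variable (I) in
/-- `N` measures smoothness of order `w` on the `L^p` scale near every interior point: in the chart
`κ` at such a point, on a small ball `B` around it,
`N f ≤ C w(k) Σ_{j ≤ m} k^{-j} ‖D^j (f ∘ κ⁻¹)‖_{L^p(B)}` for `k ≥ 1` and smooth `f` supported in
`κ⁻¹ B`, and `w(1/|h|) ‖Δ_h^m (f ∘ κ⁻¹)‖_{L^p(B)} ≤ C N f` for smooth `f` and small `h ≠ 0`. -/
def IsOrderNorm (N : (M → ℝ) → ℝ) (w : ℝ → ℝ) (p : ℝ≥0∞) (m : ℕ) : Prop :=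
  ∀ x₀ ∈ I.interior M, ∃ r C : ℝ, 0 < r ∧ 0 < C ∧
    cball I x₀ (2 * r) ⊆ (extChartAt I x₀).target ∧
    (∀ f : M → ℝ, Smooth I f → tsupport f ⊆ (extChartAt I x₀).symm '' cball I x₀ r →
      ∀ k : ℝ, 1 ≤ k →
        ENNReal.ofReal (N f) ≤ ENNReal.ofReal (C * w k) * jetSum I p m x₀ r f k) ∧
    (∀ f : M → ℝ, Smooth I f → ∀ h : E, h ≠ 0 → (m + 1) * ‖h‖ ≤ r →
      ENNReal.ofReal (w (1 / ‖h‖)) * diffNorm I p m x₀ r f h ≤ ENNReal.ofReal (C * N f))

end Pool.Agent.P.MP_9c695c_an
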