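import Mathlib

/-!
Differences of smooth functions in `L^p` of balls.
-/

open scoped ContDiff ENNReal Topology
open MeasureTheory Set Filter Metric

set_option linter.unusedSectionVars false

namespace Pool.Agent.P.MP_9c695c_an

variable {E : Type*} [NormedAddCommGroup E] [InnerProductSpace ℝ E]
  [FiniteDimensional ℝ E] [MeasurableSpace E] [BorelSpace E] {p : ℝ≥0∞} {c : E}

lemma eLpNorm_shift {G : Type*} [NormedAddCommGroup G] (F : E → G) {ρ ρ' : ℝ} {z : E}
    (hz : ρ + ‖z‖ ≤ ρ') :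
    eLpNorm (fun y => F (y + z)) p (volume.restrict (ball c ρ))
      ≤ eLpNorm F p (volume.restrict (ball c ρ')) := by
  have h1 := (measurePreserving_add_right volume z).restrict_preimage_emb
    (measurableEmbedding_addRight z) (ball c ρ')
  rw [← h1.map_eq, (measurableEmbedding_addRight z).eLpNorm_map_measure]
  refine eLpNorm_mono_measure _ (Measure.restrict_mono (fun y hy => ?_) le_rfl)
  rw [mem_preimage, mem_ball, dist_eq_norm] at *
  calc ‖y + z - c‖ = ‖(y - c) + z‖ := by congr 1; abel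
    _ ≤ ‖y - c‖ + ‖z‖ := norm_add_le _ _
    _ < ρ' := by linarith

lemma continuous_fwdDiff {G : Type*} [NormedAddCommGroup G] {F : E → G} (hF : Continuous F)
    (h : E) : Continuous (fwdDiff h F) :=
  (hF.comp (continuous_id.add continuous_const)).sub hF

lemma eLpNorm_iter_crude (hp : 1 ≤ p) (h : E) (m : ℕ) {F : E → ℝ} (hF : Continuous F) (ρ : ℝ) :
    eLpNorm ((fwdDiff h)^[m] F) p (volume.restrict (ball c ρ))
      ≤ 2 ^ m * eLpNorm F p (volume.restrict (ball c (ρ + m * ‖h‖))) := by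
  induction m generalizing F with
  | zero => simp
  | succ m ih =>
    rw [Function.iterate_succ_apply]
    refine (ih (continuous_fwdDiff hF h)).trans ?_
    rw [pow_succ, mul_assoc]
    refine mul_le_mul_right ?_ _
    refine (eLpNorm_sub_le (f := fun y => F (y + h)) (g := F)
      (hF.comp (continuous_id.add continuous_const)).aestronglyMeasurable
      hF.aestronglyMeasurable hp).trans ?_
    rw [two_mul]
    refine add_le_add (eLpNorm_shift F (by push_cast; linarith))
      (eLpNorm_mono_measure _ (Measure.restrict_mono (ball_subset_ball ?_) le_rfl))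
    push_cast; linarith [norm_nonneg h]

lemma eLpNorm_fwdDiff_le (hp : 1 ≤ p) {G : Type*} [NormedAddCommGroup G] [NormedSpace ℝ G]
    {F : E → G} (hF : ContDiff ℝ 1 F) (h : E) (ρ : ℝ) :
    eLpNorm (fwdDiff h F) p (volume.restrict (ball c ρ))
      ≤ ENNReal.ofReal ‖h‖ * eLpNorm (fderiv ℝ F) p (volume.restrict (ball c (ρ + ‖h‖))) := by
  have hD : Continuous (fderiv ℝ F) := hF.continuous_fderiv one_ne_zero
  obtain ⟨W, hW⟩ : ∃ W : ℝ, eLpNorm (fun _ : E => (1 : ℝ)) p (volume.restrict (ball c (ρ + ‖h‖)))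
      = ENNReal.ofReal W := by
    have : IsFiniteMeasure (volume.restrict (ball c (ρ + ‖h‖))) :=
      isFiniteMeasure_restrict.2 measure_ball_lt_top.ne
    exact ⟨_, (ENNReal.ofReal_toReal (memLp_const (1 : ℝ)).eLpNorm_ne_top).symm⟩
  refine ENNReal.le_of_forall_pos_le_add fun ε hε _ => ?_
  have hW1 : 0 < (‖h‖ + 1) * (|W| + 1) := by positivity
  obtain ⟨η, hη⟩ : ∃ η : ℝ, η = ε / ((‖h‖ + 1) * (|W| + 1)) := ⟨_, rfl⟩
  have hη0 : 0 < η := by rw [hη]; positivity
  obtain ⟨δ, hδ, hu⟩ := Metric.uniformContinuousOn_iff.1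
    ((isCompact_closedBall c (ρ + ‖h‖ + 1)).uniformContinuousOn_of_continuous hD.continuousOn) η hη0
  obtain ⟨N, hN⟩ := exists_nat_gt (‖h‖ / min δ 1)
  have hm : 0 < min δ 1 := lt_min hδ one_pos
  have hN0 : (0 : ℝ) < N := lt_of_le_of_lt (by positivity) hN
  obtain ⟨h', hh'⟩ : ∃ h' : E, h' = (N : ℝ)⁻¹ • h := ⟨_, rfl⟩
  have n1 : ‖h'‖ = ‖h‖ / N := by
    rw [hh', norm_smul, norm_inv, Real.norm_natCast, div_eq_inv_mul]
  have n2 : ‖h'‖ < min δ 1 := by
    rw [n1, div_lt_iff₀ hN0]; rw [div_lt_iff₀ hm] at hN; linarith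
  have e1 : fwdDiff h F = ∑ i ∈ Finset.range N, fun y => fwdDiff h' F (y + (i : ℝ) • h') := by
    funext y
    rw [Finset.sum_apply]
    have := Finset.sum_range_sub (fun i : ℕ => F (y + (i : ℝ) • h')) N
    simp only [fwdDiff]
    rw [Finset.sum_congr rfl fun i _ => by
      rw [add_assoc, show (i : ℝ) • h' + h' = ((i + 1 : ℕ) : ℝ) • h' by
        rw [Nat.cast_succ, add_smul, one_smul]], this, hh', smul_smul, mul_inv_cancel₀ hN0.ne']
    simp
  have step : eLpNorm (fwdDiff h' F) p (volume.restrict (ball c (ρ + ‖h‖))) ≤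
      ENNReal.ofReal ‖h'‖ * (eLpNorm (fderiv ℝ F) p (volume.restrict (ball c (ρ + ‖h‖)))
        + ENNReal.ofReal (η * |W|)) := by
    refine (eLpNorm_le_mul_eLpNorm_of_ae_le_mul (c := ‖h'‖)
      (g := (fun y => ‖fderiv ℝ F y‖) + η • fun _ => (1 : ℝ)) ?_ p).trans (mul_le_mul_right ?_ _)
    · filter_upwards [ae_restrict_mem measurableSet_ball] with y hy
      have hy1 : y ∈ closedBall c (ρ + ‖h‖ + 1) :=
        ball_subset_closedBall (ball_subset_ball (by linarith) hy)
      have h3 := (convex_ball y (min δ 1)).norm_image_sub_le_of_norm_fderiv_le (𝕜 := ℝ)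
        (fun x _ => hF.differentiable one_ne_zero x) (C := ‖fderiv ℝ F y‖ + η) (fun x hx => by
          have hx1 : x ∈ closedBall c (ρ + ‖h‖ + 1) := by
            have := dist_triangle x y c
            rw [mem_ball] at hx hy
            rw [mem_closedBall]; linarith [min_le_right δ 1]
          have := hu x hx1 y hy1 (hx.trans_le (min_le_left _ _))
          rw [dist_eq_norm] at this
          linarith [norm_sub_norm_le (fderiv ℝ F x) (fderiv ℝ F y)])
        (mem_ball_self hm) (y := y + h') (by rwa [mem_ball, dist_eq_norm, add_sub_cancel_left])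
      rw [add_sub_cancel_left] at h3
      simp only [Pi.add_apply, Pi.smul_apply, smul_eq_mul, mul_one]
      rw [Real.norm_of_nonneg (show 0 ≤ ‖fderiv ℝ F y‖ + η by positivity), mul_comm]
      exact h3
    · refine (eLpNorm_add_le (g := η • fun _ => (1 : ℝ)) hD.norm.aestronglyMeasurable
        (continuous_const.aestronglyMeasurable) hp).trans ?_
      rw [eLpNorm_norm, eLpNorm_const_smul, hW, Real.enorm_of_nonneg hη0.le,
        ← ENNReal.ofReal_mul hη0.le]
      exact add_le_add le_rfl (ENNReal.ofReal_le_ofReal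
        (mul_le_mul_of_nonneg_left (le_abs_self W) hη0.le))
  rw [e1]
  refine (eLpNorm_sum_le (fun i _ => ((continuous_fwdDiff hF.continuous h').comp
    (continuous_id.add continuous_const)).aestronglyMeasurable) hp).trans ?_
  refine (Finset.sum_le_card_nsmul _ _ _ fun i hi => (eLpNorm_shift (fwdDiff h' F) (ρ' := ρ + ‖h‖)
    (by
      rw [norm_smul, Real.norm_natCast, n1, mul_div_assoc', add_le_add_iff_left, div_le_iff₀ hN0,
        mul_comm]
      exact mul_le_mul_of_nonneg_left (by exact_mod_cast (Finset.mem_range.1 hi).le)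
        (norm_nonneg _))).trans step).trans ?_
  rw [Finset.card_range, nsmul_eq_mul, ← mul_assoc, ← ENNReal.ofReal_natCast,
    ← ENNReal.ofReal_mul hN0.le, n1, mul_div_cancel₀ _ hN0.ne', mul_add,
    ← ENNReal.ofReal_mul (norm_nonneg _), ← ENNReal.ofReal_coe_nnreal]
  refine add_le_add le_rfl (ENNReal.ofReal_le_ofReal ?_)
  rw [hη, mul_comm, div_mul_eq_mul_div, div_mul_eq_mul_div, div_le_iff₀ hW1, mul_assoc]
  refine mul_le_mul_of_nonneg_left ?_ ε.2
  nlinarith [norm_nonneg h, abs_nonneg W]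

lemma eLpNorm_iter_le (hp : 1 ≤ p) (h : E) (m : ℕ) {F : E → ℝ} (hF : ContDiff ℝ ∞ F) (ρ : ℝ) :
    eLpNorm ((fwdDiff h)^[m] F) p (volume.restrict (ball c ρ)) ≤ ENNReal.ofReal ‖h‖ ^ m *
      eLpNorm (iteratedFDeriv ℝ m F) p (volume.restrict (ball c (ρ + m * ‖h‖))) := by
  induction m generalizing F with
  | zero =>
    simp only [Function.iterate_zero, id, pow_zero, one_mul, Nat.cast_zero, zero_mul, add_zero]
    exact (eLpNorm_congr_norm_ae (Eventually.of_forall fun _ => norm_iteratedFDeriv_zero)).ge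
  | succ m ih =>
    have h1 : ContDiff ℝ ∞ fun y => F (y + h) := hF.comp (contDiff_id.add contDiff_const)
    rw [Function.iterate_succ_apply]
    refine (ih (F := fwdDiff h F) (h1.sub hF)).trans ?_
    rw [pow_succ, mul_assoc]
    refine mul_le_mul_right ?_ _
    have e : iteratedFDeriv ℝ m (fwdDiff h F) = fwdDiff h (iteratedFDeriv ℝ m F) := by
      funext y
      have := iteratedFDeriv_sub_apply (i := m) (x := y) (h1.of_le (by exact_mod_cast le_top)).contDiffAt
        (hF.of_le (by exact_mod_cast le_top)).contDiffAt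
      rw [iteratedFDeriv_comp_add_right] at this
      exact this
    rw [e]
    refine (eLpNorm_fwdDiff_le hp (hF.iteratedFDeriv_right (by exact_mod_cast le_top)) h _).trans
      (mul_le_mul_right (le_of_eq ?_) _)
    rw [Nat.cast_succ, add_mul, one_mul, add_assoc]
    exact eLpNorm_congr_norm_ae (Eventually.of_forall fun _ => norm_fderiv_iteratedFDeriv)

/-- Leibniz bound on a closed ball -/
lemma bilin_bound {F₁ F₂ F₃ : Type*} [NormedAddCommGroup F₁] [NormedSpace ℝ F₁]
    [NormedAddCommGroup F₂] [NormedSpace ℝ F₂] [NormedAddCommGroup F₃] [NormedSpace ℝ F₃]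
    (B : F₁ →L[ℝ] F₂ →L[ℝ] F₃) {R ρ : ℝ} (hρ : ρ < R) {α : E → F₂}
    (hα : ContDiffOn ℝ ∞ α (ball c R)) (m : ℕ) :
    ∃ C : ℝ, 0 ≤ C ∧ ∀ j ≤ m, ∀ u : E → F₁, ContDiffOn ℝ ∞ u (ball c R) → ∀ y ∈ closedBall c ρ,
      ‖iteratedFDeriv ℝ j (fun y => B (u y) (α y)) y‖
        ≤ C * ∑ l ∈ Finset.range (m + 1), ‖iteratedFDeriv ℝ l u y‖ := by
  have hb : ∀ i : ℕ, ∃ A : ℝ, ∀ y ∈ closedBall c ρ, ‖iteratedFDerivWithin ℝ i α (ball c R) y‖ ≤ A :=
    fun i => (isCompact_closedBall c ρ).exists_bound_of_continuousOn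
      ((hα.continuousOn_iteratedFDerivWithin (by exact_mod_cast le_top)
        isOpen_ball.uniqueDiffOn).mono (closedBall_subset_ball hρ))
  choose A hA using hb
  refine ⟨‖B‖ * (2 ^ m * ∑ i ∈ Finset.range (m + 1), |A i|), by positivity,
    fun j hj u hu y hy => ?_⟩
  have hy' := closedBall_subset_ball hρ hy
  have h1 := B.norm_iteratedFDerivWithin_le_of_bilinear hu hα isOpen_ball.uniqueDiffOn hy' (n := j)
    (by exact_mod_cast le_top)
  rw [iteratedFDerivWithin_of_isOpen j isOpen_ball hy'] at h1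
  refine h1.trans ?_
  rw [mul_assoc]
  refine mul_le_mul_of_nonneg_left ?_ B.opNorm_nonneg
  rw [Finset.mul_sum]
  refine le_trans (Finset.sum_le_sum fun i hi => ?_) (Finset.sum_le_sum_of_subset_of_nonneg
    (Finset.range_mono (Nat.succ_le_succ hj)) fun i _ _ => by positivity)
  rw [iteratedFDerivWithin_of_isOpen i isOpen_ball hy', mul_right_comm]
  refine mul_le_mul_of_nonneg_right (mul_le_mul ?_ ?_ (norm_nonneg _) (by positivity))
    (norm_nonneg _)
  · exact_mod_cast (Nat.choose_le_two_pow j i).trans (Nat.pow_le_pow_right two_pos hj)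
  · exact ((hA _ y hy).trans (le_abs_self _)).trans (Finset.single_le_sum
      (f := fun i => |A i|) (fun i _ => abs_nonneg _) (Finset.mem_range.2 (by omega)))

lemma aesm_iter {F₁ : Type*} [NormedAddCommGroup F₁] [NormedSpace ℝ F₁] {R ρ : ℝ} (hρ : ρ ≤ R)
    {u : E → F₁} (hu : ContDiffOn ℝ ∞ u (ball c R)) (l : ℕ) :
    AEStronglyMeasurable (iteratedFDeriv ℝ l u) (volume.restrict (ball c ρ)) :=
  ContinuousOn.aestronglyMeasurable (((hu.continuousOn_iteratedFDerivWithin (m := l)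
    (by exact_mod_cast le_top) isOpen_ball.uniqueDiffOn).congr
    fun y hy => (iteratedFDerivWithin_of_isOpen l isOpen_ball hy).symm).mono
    (ball_subset_ball hρ)) measurableSet_ball

variable (p c) in
/-- sum of the `L^p` norms of the derivatives up to order `m` on a ball -/
noncomputable def jets {F₁ : Type*} [NormedAddCommGroup F₁] [NormedSpace ℝ F₁] (ρ : ℝ) (m : ℕ)
    (u : E → F₁) : ℝ≥0∞ :=
  ∑ l ∈ Finset.range (m + 1), eLpNorm (iteratedFDeriv ℝ l u) p (volume.restrict (ball c ρ))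

section
variable {F₁ F₂ F₃ : Type*} [NormedAddCommGroup F₁] [NormedSpace ℝ F₁]
  [NormedAddCommGroup F₂] [NormedSpace ℝ F₂] [NormedAddCommGroup F₃] [NormedSpace ℝ F₃]
  {R ρ : ℝ} {m : ℕ}

lemma eLpNorm_iter_zero (u : E → F₁) (ν : Measure E) :
    eLpNorm (iteratedFDeriv ℝ 0 u) p ν = eLpNorm u p ν :=
  eLpNorm_congr_norm_ae (Eventually.of_forall fun _ => norm_iteratedFDeriv_zero)

lemma jets_zero (u : E → F₁) : jets p c ρ 0 u = eLpNorm u p (volume.restrict (ball c ρ)) := by
  rw [jets, Finset.sum_range_one, eLpNorm_iter_zero]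

lemma jets_succ (u : E → F₁) : jets p c ρ (m + 1) u
    = jets p c ρ m (fderiv ℝ u) + eLpNorm u p (volume.restrict (ball c ρ)) := by
  rw [jets, Finset.sum_range_succ', eLpNorm_iter_zero]
  congr 1
  exact Finset.sum_congr rfl fun l _ =>
    eLpNorm_congr_norm_ae (Eventually.of_forall fun _ => norm_iteratedFDeriv_fderiv.symm)

lemma eLpNorm_iter_congr {u v : E → F₁} (h : ∀ y ∈ ball c ρ, u y = v y) (l : ℕ) :
    eLpNorm (iteratedFDeriv ℝ l u) p (volume.restrict (ball c ρ))
      = eLpNorm (iteratedFDeriv ℝ l v) p (volume.restrict (ball c ρ)) := by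
  refine eLpNorm_congr_ae ?_
  filter_upwards [ae_restrict_mem measurableSet_ball] with y hy
  exact (EventuallyEq.iteratedFDeriv ℝ (eventually_of_mem (isOpen_ball.mem_nhds hy) h) l).eq_of_nhds

lemma jets_congr {u v : E → F₁} (h : ∀ y ∈ ball c ρ, u y = v y) :
    jets p c ρ m u = jets p c ρ m v :=
  Finset.sum_congr rfl fun l _ => eLpNorm_iter_congr h l

lemma jets_add_le (hp : 1 ≤ p) (hρ : ρ ≤ R) {u v : E → F₁} (hu : ContDiffOn ℝ ∞ u (ball c R))
    (hv : ContDiffOn ℝ ∞ v (ball c R)) :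
    jets p c ρ m (u + v) ≤ jets p c ρ m u + jets p c ρ m v := by
  rw [jets, jets, jets, ← Finset.sum_add_distrib]
  refine Finset.sum_le_sum fun l _ => ?_
  have h0 := eLpNorm_add_le (aesm_iter hρ hu l).norm (aesm_iter hρ hv l).norm hp
  rw [eLpNorm_norm, eLpNorm_norm] at h0
  refine le_trans (eLpNorm_mono_ae ?_) h0
  filter_upwards [ae_restrict_mem measurableSet_ball] with y hy
  have h1 := isOpen_ball.mem_nhds (ball_subset_ball hρ hy)
  rw [iteratedFDeriv_add_apply ((hu.contDiffAt h1).of_le (by exact_mod_cast le_top))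
    ((hv.contDiffAt h1).of_le (by exact_mod_cast le_top))]
  exact (norm_add_le _ _).trans (le_abs_self _)

lemma jets_bilin_le (hp : 1 ≤ p) (B : F₁ →L[ℝ] F₂ →L[ℝ] F₃) (hρ : ρ < R) {α : E → F₂}
    (hα : ContDiffOn ℝ ∞ α (ball c R)) (m : ℕ) :
    ∃ C : ℝ≥0∞, C ≠ ⊤ ∧ ∀ u : E → F₁, ContDiffOn ℝ ∞ u (ball c R) →
      jets p c ρ m (fun y => B (u y) (α y)) ≤ C * jets p c ρ m u := by
  obtain ⟨C, -, hC⟩ := bilin_bound B hρ hα m
  refine ⟨((m + 1 : ℕ) : ℝ≥0∞) * ENNReal.ofReal C,
    ENNReal.mul_ne_top (ENNReal.natCast_ne_top _) ENNReal.ofReal_ne_top, fun u hu => ?_⟩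
  refine (Finset.sum_le_card_nsmul _ _ (ENNReal.ofReal C * jets p c ρ m u) fun j hj => ?_).trans
    (by rw [Finset.card_range, nsmul_eq_mul, mul_assoc])
  refine (eLpNorm_le_mul_eLpNorm_of_ae_le_mul (c := C)
    (g := ∑ l ∈ Finset.range (m + 1), fun y => ‖iteratedFDeriv ℝ l u y‖) ?_ p).trans
    (mul_le_mul_right ?_ _)
  · filter_upwards [ae_restrict_mem measurableSet_ball] with y hy
    rw [Finset.sum_apply, Real.norm_of_nonneg (Finset.sum_nonneg fun _ _ => norm_nonneg _)]
    exact hC j (by have := Finset.mem_range.1 hj; omega) u hu y (ball_subset_closedBall hy)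
  · exact (eLpNorm_sum_le (fun l _ => (aesm_iter hρ.le hu l).norm) hp).trans
      (le_of_eq (Finset.sum_congr rfl fun l _ => eLpNorm_norm _))

end

lemma exists_dual (b : OrthonormalBasis (Fin 2) ℝ E) {n : ℕ} {v : Fin n → E → E} {R : ℝ}
    (hR : 0 < R) (hv : ∀ i, ContDiffOn ℝ ∞ (v i) (ball c R))
    (hs : ∀ φ : E →L[ℝ] ℝ, (∀ i, φ (v i c) = 0) → φ = 0) :
    ∃ (R' : ℝ) (i j : Fin n) (α β : E → E →L[ℝ] ℝ), 0 < R' ∧ R' ≤ R ∧
      ContDiffOn ℝ ∞ α (ball c R') ∧ ContDiffOn ℝ ∞ β (ball c R') ∧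
      ∀ y ∈ ball c R', ∀ l : E →L[ℝ] ℝ, l = l (v i y) • α y + l (v j y) • β y := by
  let e : Fin 2 → E →L[ℝ] ℝ := fun k => innerSL ℝ (b k)
  have he : ∀ k k', e k (b k') = if k = k' then 1 else 0 := fun k k' => by
    simp only [e, innerSL_apply_apply, b.inner_eq_ite]
  have hx : ∀ w : E, w = e 0 w • b 0 + e 1 w • b 1 := fun w => by
    conv_lhs => rw [← b.sum_repr' w]
    simp [e]
  obtain ⟨i, j, hij⟩ : ∃ i j, e 0 (v i c) * e 1 (v j c) - e 1 (v i c) * e 0 (v j c) ≠ 0 := by
    by_contra! h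
    have h1 : ∀ i, e 0 (v i c) = 0 := fun i => by
      have h2 := hs (e 0 (v i c) • e 1 - e 1 (v i c) • e 0) fun j => by simpa using h i j
      have h3 := congrArg (fun φ : E →L[ℝ] ℝ => φ (b 1)) h2
      simpa [he] using h3
    have h3 := congrArg (fun φ : E →L[ℝ] ℝ => φ (b 0)) (hs _ h1)
    simp [he] at h3
  have sc : ∀ k i, ContDiffOn ℝ ∞ (fun y => e k (v i y)) (ball c R) := fun k i =>
    (e k).contDiff.comp_contDiffOn (hv i)
  have sd := ((sc 0 i).mul (sc 1 j)).sub ((sc 1 i).mul (sc 0 j))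
  obtain ⟨r, hr, h4⟩ := nhds_basis_ball.eventually_iff.1
    ((sd.continuousOn.continuousAt (ball_mem_nhds c hR)).eventually_ne hij)
  have s1 := ball_subset_ball (x := c) (min_le_left r R)
  have s2 := ball_subset_ball (x := c) (min_le_right r R)
  have si := (sd.mono s2).inv fun y hy => h4 (s1 hy)
  refine ⟨min r R, i, j,
    fun y => (e 0 (v i y) * e 1 (v j y) - e 1 (v i y) * e 0 (v j y))⁻¹ •
      (e 1 (v j y) • e 0 - e 0 (v j y) • e 1),
    fun y => (e 0 (v i y) * e 1 (v j y) - e 1 (v i y) * e 0 (v j y))⁻¹ •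
      (e 0 (v i y) • e 1 - e 1 (v i y) • e 0), lt_min hr hR, min_le_right _ _,
    si.smul ((((sc 1 j).mono s2).smul contDiffOn_const).sub
      (((sc 0 j).mono s2).smul contDiffOn_const)),
    si.smul ((((sc 0 i).mono s2).smul contDiffOn_const).sub
      (((sc 1 i).mono s2).smul contDiffOn_const)), fun y hy l => ?_⟩
  have h5 := h4 (s1 hy)
  have h6 : ∀ w : E, l w = e 0 w * l (b 0) + e 1 w * l (b 1) := fun w => by
    conv_lhs => rw [hx w]
    simp only [map_add, map_smul, smul_eq_mul]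
  ext w
  simp only [add_apply, smul_apply, sub_apply, smul_eq_mul]
  rw [h6 w, h6 (v i y), h6 (v j y)]
  field_simp
  ring

end Pool.Agent.P.MP_9c695c_an
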