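import Pool.Agent.P.MP_9c695c_an.Integ

/-!
The energy estimate for the velocity perturbation and the comparison of the vorticity perturbation
with its passive transport by the steady flow.
-/

open scoped Manifold ContDiff ENNReal Topology
open MeasureTheory Set Filter Bundle

set_option backward.isDefEq.respectTransparency false
set_option linter.unusedSectionVars false

namespace Pool.Agent.P.MP_9c695c_an

lemma gronwall_le {f f' : ℝ → ℝ} {T K δ ε : ℝ} (hK : 0 < K)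
    (hf : ∀ t ∈ Icc 0 T, HasDerivWithinAt f (f' t) (Icc 0 T) t) (h0 : f 0 ≤ δ)
    (hb : ∀ t ∈ Icc 0 T, f' t ≤ K * f t + ε) :
    ∀ t ∈ Icc 0 T, f t ≤ δ * Real.exp (K * t) + ε / K * (Real.exp (K * t) - 1) := by
  intro t ht
  have := le_gronwallBound_of_liminf_deriv_right_le (f := f) (f' := f') (δ := δ) (K := K) (ε := ε)
    (a := 0) (b := T) (fun s hs => (hf s hs).continuousWithinAt) (fun s hs r hr => by
      have h1 := ((hf s (Ico_subset_Icc_self hs)).mono_of_mem_nhdsWithin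
        (Icc_mem_nhdsGE_of_mem hs)).liminf_right_slope_le hr
      refine h1.mono fun z hz => ?_
      simpa [slope] using hz) h0 (fun s hs => hb s (Ico_subset_Icc_self hs)) t ht
  rwa [gronwallBound_of_K_ne_0 hK.ne', sub_zero] at this

lemma hasDerivWithinAt_of_slope {X : Type*} [TopologicalSpace X] [CompactSpace X]
    [MeasurableSpace X] [BorelSpace X] {μ : Measure X} [IsFiniteMeasure μ] {T : ℝ}
    {Q : ℝ → ℝ} {F W F' : ℝ → X → ℝ}
    (hQ : ∀ s ∈ Icc 0 T, ∀ t ∈ Icc 0 T, Q s - Q t = ∫ x, (F s x - F t x) * (W s x + W t x) ∂μ)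
    (hF : ∀ t ∈ Icc 0 T, ∀ x, HasDerivWithinAt (fun s => F s x) (F' t x) (Icc 0 T) t)
    {B : ℝ} (hB : ∀ t ∈ Icc 0 T, ∀ x, |F' t x| ≤ B)
    (hFc : ∀ t ∈ Icc 0 T, Continuous (F t))
    (hW : ContinuousOn (fun p : ℝ × X => W p.1 p.2) (Icc 0 T ×ˢ univ))
    {t : ℝ} (ht : t ∈ Icc 0 T) :
    HasDerivWithinAt Q (∫ x, F' t x * (W t x + W t x) ∂μ) (Icc 0 T) t := by
  obtain ⟨C, hC⟩ := (isCompact_Icc.prod isCompact_univ).exists_bound_of_continuousOn hW
  have hWc : ∀ s ∈ Icc 0 T, Continuous (W s) := fun s hs =>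
    hW.comp_continuous (continuous_const.prodMk continuous_id) fun x => ⟨hs, mem_univ _⟩
  rw [hasDerivWithinAt_iff_tendsto_slope]
  have h1 : Tendsto (fun s => ∫ x, slope (fun s => F s x) t s * (W s x + W t x) ∂μ)
      (𝓝[Icc 0 T \ {t}] t) (𝓝 (∫ x, F' t x * (W t x + W t x) ∂μ)) := by
    refine tendsto_integral_filter_of_dominated_convergence (fun _ => B * (C + C)) ?_ ?_
      (integrable_const _) (Eventually.of_forall fun x => ?_)
    · filter_upwards [self_mem_nhdsWithin] with s hs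
      simp only [slope, vsub_eq_sub, smul_eq_mul]
      exact ((continuous_const.mul ((hFc s hs.1).sub (hFc t ht))).mul
        ((hWc s hs.1).add (hWc t ht))).aestronglyMeasurable
    · filter_upwards [self_mem_nhdsWithin] with s hs
      refine Eventually.of_forall fun x => ?_
      have h2 := (convex_Icc 0 T).norm_image_sub_le_of_norm_hasDerivWithin_le
        (f := fun s => F s x) (fun r hr => hF r hr x) (fun r hr => hB r hr x) ht hs.1
      have h3 : 0 < ‖s - t‖ := norm_pos_iff.2 (sub_ne_zero.2 hs.2)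
      have h4 : ‖slope (fun s => F s x) t s‖ ≤ B := by
        rw [slope, norm_smul, norm_inv, vsub_eq_sub, inv_mul_le_iff₀ h3, mul_comm]
        exact h2
      rw [norm_mul]
      exact mul_le_mul h4 ((norm_add_le _ _).trans (add_le_add (hC (s, x) ⟨hs.1, mem_univ _⟩)
        (hC (t, x) ⟨ht, mem_univ _⟩))) (norm_nonneg _) ((norm_nonneg _).trans h4)
    · refine (hasDerivWithinAt_iff_tendsto_slope.1 (hF t ht x)).mul (Tendsto.add_const _ ?_)
      have h2 : ContinuousWithinAt (fun s => W s x) (Icc 0 T) t :=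
        (hW (t, x) ⟨ht, mem_univ _⟩).comp_of_eq (f := fun s => (s, x))
          (continuous_id.prodMk continuous_const).continuousWithinAt
          (fun s hs => ⟨hs, mem_univ _⟩) rfl
      exact (h2.mono sdiff_subset).tendsto
  refine h1.congr' ?_
  filter_upwards [self_mem_nhdsWithin] with s hs
  simp only [slope, vsub_eq_sub, smul_eq_mul, mul_assoc]
  rw [integral_const_mul, hQ s hs.1 t ht]

variable {E : Type*} [NormedAddCommGroup E] [InnerProductSpace ℝ E]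
  {H : Type*} [TopologicalSpace H] {I : ModelWithCorners ℝ E H}
  {M : Type*} [TopologicalSpace M] [ChartedSpace H M] [IsManifold I ∞ M]

lemma Tangent.sub {f h : M → ℝ} (hf : Tangent I f) (hh : Tangent I h) :
    Tangent I (fun x => f x - h x) := IsLocallyConstant.comp₂ hf hh (· - ·)
lemma Tangent.add {f h : M → ℝ} (hf : Tangent I f) (hh : Tangent I h) :
    Tangent I (fun x => f x + h x) := IsLocallyConstant.comp₂ hf hh (· + ·)
lemma Tangent.mul {f h : M → ℝ} (hf : Tangent I f) (hh : Tangent I h) :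
    Tangent I (fun x => f x * h x) := IsLocallyConstant.comp₂ hf hh (· * ·)
lemma Tangent.of_zero {f : M → ℝ} (hf : ∀ x ∈ I.boundary M, f x = 0) : Tangent I f :=
  IsLocallyConstant.of_constant _ fun x y => by rw [hf x x.2, hf y y.2]

lemma abs_le_of_sq_le_mul {a b c B C : ℝ} (h : a ^ 2 ≤ b * c) (hc : 0 ≤ c) (hB0 : 0 ≤ B)
    (hC0 : 0 ≤ C) (hB : b ≤ B) (hC : c ≤ C) : |a| ≤ B + C := by
  have h1 : a ^ 2 ≤ B * C := h.trans (mul_le_mul hB hC hc hB0)
  exact abs_le_of_sq_le_sq' (by nlinarith [mul_nonneg hB0 hC0, sq_nonneg B, sq_nonneg C])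
    (by positivity) |> abs_le.2

variable [FiniteDimensional ℝ E] [MeasurableSpace E] [BorelSpace E]
  [MeasurableSpace M] [BorelSpace M] [CompactSpace M] [T2Space M]

namespace Surf
variable {S : Surf I M} {μ : Measure M}

lemma IsArea.lin2 (hμ : S.IsArea μ) {F f₁ f₂ : M → ℝ} (a₁ a₂ : ℝ) (h₁ : Smooth I f₁)
    (h₂ : Smooth I f₂) (h : ∀ x, F x = a₁ * f₁ x + a₂ * f₂ x) :
    ∫ x, F x ∂μ = a₁ * ∫ x, f₁ x ∂μ + a₂ * ∫ x, f₂ x ∂μ := by
  rw [← integral_const_mul, ← integral_const_mul, ← integral_add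
    ((hμ.integrable h₁.cont).const_mul _) ((hμ.integrable h₂.cont).const_mul _)]
  exact integral_congr_ae (Eventually.of_forall h)

lemma IsArea.lin3 (hμ : S.IsArea μ) {F f₁ f₂ f₃ : M → ℝ} (a₁ a₂ a₃ : ℝ) (h₁ : Smooth I f₁)
    (h₂ : Smooth I f₂) (h₃ : Smooth I f₃) (h : ∀ x, F x = a₁ * f₁ x + a₂ * f₂ x + a₃ * f₃ x) :
    ∫ x, F x ∂μ = a₁ * ∫ x, f₁ x ∂μ + a₂ * ∫ x, f₂ x ∂μ + a₃ * ∫ x, f₃ x ∂μ := by
  rw [hμ.lin2 (f₁ := fun x => a₁ * f₁ x + a₂ * f₂ x) 1 a₃
    (((Smooth.const _).mul h₁).add ((Smooth.const _).mul h₂)) h₃ (fun x => by rw [h x]; ring),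
    hμ.lin2 a₁ a₂ h₁ h₂ fun x => rfl, one_mul]

lemma IsArea.lin5 (hμ : S.IsArea μ) {F f₁ f₂ f₃ f₄ f₅ : M → ℝ} (a₁ a₂ a₃ a₄ a₅ : ℝ)
    (h₁ : Smooth I f₁) (h₂ : Smooth I f₂) (h₃ : Smooth I f₃) (h₄ : Smooth I f₄) (h₅ : Smooth I f₅)
    (h : ∀ x, F x = a₁ * f₁ x + a₂ * f₂ x + a₃ * f₃ x + a₄ * f₄ x + a₅ * f₅ x) :
    ∫ x, F x ∂μ = a₁ * ∫ x, f₁ x ∂μ + a₂ * ∫ x, f₂ x ∂μ + a₃ * ∫ x, f₃ x ∂μ
      + a₄ * ∫ x, f₄ x ∂μ + a₅ * ∫ x, f₅ x ∂μ := by
  rw [hμ.lin3 (f₁ := fun x => a₁ * f₁ x + a₂ * f₂ x + a₃ * f₃ x) 1 a₄ a₅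
    ((((Smooth.const _).mul h₁).add ((Smooth.const _).mul h₂)).add ((Smooth.const _).mul h₃)) h₄ h₅
    (fun x => by rw [h x]; ring), hμ.lin3 a₁ a₂ a₃ h₁ h₂ h₃ fun x => rfl, one_mul]

lemma IsArea.mono (hμ : S.IsArea μ) {f₁ f₂ : M → ℝ} (h₁ : Smooth I f₁) (h₂ : Smooth I f₂)
    (h : ∀ x, f₁ x ≤ f₂ x) : ∫ x, f₁ x ∂μ ≤ ∫ x, f₂ x ∂μ :=
  integral_mono (hμ.integrable h₁.cont) (hμ.integrable h₂.cont) h

lemma IsArea.weak_diff (hμ : S.IsArea μ) {ψ ζ ψs ζs χ : M → ℝ} (h₁ : S.IsStream μ ψ ζ)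
    (h₂ : S.IsStream μ ψs ζs) (hχ : Smooth I χ) (h : S.green μ ψ ζ χ = S.green μ ψs ζs χ) :
    ∫ x, ((ζ x - ζs x) * χ x + S.gam (fun y => ψ y - ψs y) χ x) ∂μ = 0 := by
  rw [hμ.lin2 (f₁ := fun x => ζ x * χ x + S.gam ψ χ x) (f₂ := fun x => ζs x * χ x + S.gam ψs χ x)
    1 (-1) ((h₁.smooth_vort.mul hχ).add (S.smooth_gam h₁.smooth_stream hχ))
    ((h₂.smooth_vort.mul hχ).add (S.smooth_gam h₂.smooth_stream hχ)) (fun x => by
      simp only [gam, S.grad_sub (h₁.smooth_stream.md x) (h₂.smooth_stream.md x), ip_sub_left]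
      ring)]
  change 1 * S.green μ ψ ζ χ + -1 * S.green μ ψs ζs χ = 0
  rw [h]; ring

section
variable (hμ : S.IsArea μ) {ψs ζs : M → ℝ} (hs : S.IsStream μ ψs ζs)
  (hst : ∀ x, S.br ψs ζs x = 0) {T : ℝ} (hT : 0 < T) {ψ ζ : ℝ → M → ℝ} (hE : S.IsEuler μ T ψ ζ)
  (hc : S.SameCirc μ (ψ 0) (ζ 0) ψs ζs)
include hμ hs hE hc

lemma weak_time {t : ℝ} (ht : t ∈ Icc 0 T) {χ : M → ℝ} (hχ : Smooth I χ) (tχ : Tangent I χ) :
    ∫ x, ((ζ t x - ζs x) * χ x + S.gam (fun y => ψ t y - ψs y) χ x) ∂μ = 0 :=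
  hμ.weak_diff (hE.stream t ht) hs hχ ((hE.circ t ht χ hχ tχ).trans (hc χ hχ tχ))

include hst hT in
lemma energy_velocity {C : ℝ} (hC0 : 0 ≤ C) (hC : ∀ φ : M → ℝ, Smooth I φ → ∀ x,
      2 * S.gam φ (S.br ψs φ) x - S.br ψs (S.gam φ φ) x ≤ C * S.gam φ φ x) {E₀ : ℝ}
    (h0 : ∫ x, S.gam (fun y => ψ 0 y - ψs y) (fun y => ψ 0 y - ψs y) x ∂μ ≤ E₀) :
    ∀ t ∈ Icc 0 T, ∫ x, S.gam (fun y => ψ t y - ψs y) (fun y => ψ t y - ψs y) x ∂μ
      ≤ E₀ * Real.exp ((C + 1) * t) := by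
  have := hμ.finite
  have sφ : ∀ t ∈ Icc 0 T, Smooth I (fun y => ψ t y - ψs y) := fun t ht =>
    (hE.stream t ht).smooth_stream.sub hs.smooth_stream
  have tφ : ∀ t ∈ Icc 0 T, Tangent I (fun y => ψ t y - ψs y) := fun t ht =>
    (hE.stream t ht).tangent.sub hs.tangent
  have sg : ∀ t ∈ Icc 0 T, Smooth I (fun y => ζ t y - ζs y) := fun t ht =>
    (hE.stream t ht).smooth_vort.sub hs.smooth_vort
  obtain ⟨B₁, hB₁, b₁⟩ := S.JSm_gam_bdd hT hE.smooth_stream
  obtain ⟨B₂, hB₂, b₂⟩ := S.JSm_gam_bdd hT hE.smooth_vort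
  have hd : ∀ t ∈ Icc 0 T, _ := fun t ht => hasDerivWithinAt_of_slope (μ := μ) (T := T)
    (Q := fun t => ∫ x, S.gam (fun y => ψ t y - ψs y) (fun y => ψ t y - ψs y) x ∂μ)
    (F := ζ) (W := fun t x => -(ψ t x - ψs x)) (F' := fun t x => - S.br (ψ t) (ζ t) x)
    (fun s hs' t ht => by
      have w1 := weak_time hμ hs hE hc hs' ((sφ s hs').add (sφ t ht)) ((tφ s hs').add (tφ t ht))
      have w2 := weak_time hμ hs hE hc ht ((sφ s hs').add (sφ t ht)) ((tφ s hs').add (tφ t ht))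
      symm
      rw [hμ.lin5 1 (-1) (-1) 1 0 (S.smooth_gam (sφ s hs') (sφ s hs'))
        (S.smooth_gam (sφ t ht) (sφ t ht))
        (((sg s hs').mul ((sφ s hs').add (sφ t ht))).add
          (S.smooth_gam (sφ s hs') ((sφ s hs').add (sφ t ht))))
        (((sg t ht).mul ((sφ s hs').add (sφ t ht))).add
          (S.smooth_gam (sφ t ht) ((sφ s hs').add (sφ t ht)))) (Smooth.const 0) (fun x => by
          simp only [gam, S.grad_add ((sφ s hs').md x) ((sφ t ht).md x), ip_add_right]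
          rw [S.ip_symm x (S.grad (fun y => ψ t y - ψs y) x) (S.grad (fun y => ψ s y - ψs y) x)]
          ring), w1, w2]
      ring)
    (fun t ht x => hE.transport t ht x) (B := B₁ + B₂)
    (fun t ht x => by
      rw [abs_neg]
      exact abs_le_of_sq_le_mul (S.br_sq_le _ _ x) (S.gam_nonneg _ x) hB₁ hB₂ (b₁ t ht x)
        (b₂ t ht x))
    (fun t ht => (hE.stream t ht).smooth_vort.cont)
    ((hE.smooth_stream.continuousOn.sub
      (hs.smooth_stream.cont.comp continuous_snd).continuousOn).neg) ht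
  have key := gronwall_le (K := C + 1) (ε := 0) (by linarith) hd h0 (fun t ht => by
    have sD := S.smooth_br hs.smooth_stream (sφ t ht)
    have w1 := weak_time hμ hs hE hc ht sD (Tangent.of_zero fun x hx =>
      S.br_boundary hs.smooth_stream (sφ t ht) hs.tangent (tφ t ht) hx)
    have w2 := hμ.integral_br ((sφ t ht).mul (sφ t ht)) ((tφ t ht).mul (tφ t ht))
      (hE.stream t ht).smooth_vort
    have w3 := hμ.integral_br hs.smooth_stream hs.tangent ((sφ t ht).mul (sg t ht))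
    have w4 := hμ.integral_br hs.smooth_stream hs.tangent (S.smooth_gam (sφ t ht) (sφ t ht))
    have sK := ((Smooth.const 2).mul (S.smooth_gam (sφ t ht) sD)).sub
      (S.smooth_br hs.smooth_stream (S.smooth_gam (sφ t ht) (sφ t ht)))
    rw [hμ.lin5 1 2 (-2) 1 1 (S.smooth_br ((sφ t ht).mul (sφ t ht)) (hE.stream t ht).smooth_vort)
      (S.smooth_br hs.smooth_stream ((sφ t ht).mul (sg t ht)))
      (((sg t ht).mul sD).add (S.smooth_gam (sφ t ht) sD)) sK
      (S.smooth_br hs.smooth_stream (S.smooth_gam (sφ t ht) (sφ t ht))) (fun x => by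
        have e0 := hst x
        have e1 : S.br (fun y => (ψ t y - ψs y) * (ψ t y - ψs y)) (ζ t) x =
            2 * (ψ t x - ψs x) * (S.br (ψ t) (ζ t) x - S.br ψs (ζ t) x) := by
          simp only [br_eq, S.grad_mul ((sφ t ht).md x) ((sφ t ht).md x),
            S.grad_sub ((hE.stream t ht).smooth_stream.md x) (hs.smooth_stream.md x), map_add,
            map_smul, map_sub, ip_add_left, ip_smul_left, ip_sub_left]
          ring
        have e2 : S.br ψs (fun y => (ψ t y - ψs y) * (ζ t y - ζs y)) x =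
            (ψ t x - ψs x) * (S.br ψs (ζ t) x - S.br ψs ζs x)
              + (ζ t x - ζs x) * S.br ψs (fun y => ψ t y - ψs y) x := by
          simp only [br_eq, S.grad_mul ((sφ t ht).md x) ((sg t ht).md x),
            S.grad_sub ((hE.stream t ht).smooth_vort.md x) (hs.smooth_vort.md x),
            ip_add_right, ip_smul_right, ip_sub_right]
        rw [e1, e2, e0]
        ring), w1, w2, w3, w4]
    have h1 := hμ.mono sK ((Smooth.const C).mul (S.smooth_gam (sφ t ht) (sφ t ht)))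
      (hC _ (sφ t ht))
    rw [integral_const_mul] at h1
    have h2 : 0 ≤ ∫ x, S.gam (fun y => ψ t y - ψs y) (fun y => ψ t y - ψs y) x ∂μ :=
      integral_nonneg fun x => S.gam_nonneg _ x
    linarith)
  intro t ht
  simpa using key t ht

include hst hT in
lemma energy_vorticity {F : ℝ → M → ℝ} (hF : JSm I 0 T F)
    (hF' : ∀ t ∈ Icc 0 T, ∀ x, HasDerivWithinAt (fun s => F s x) (- S.br ψs (F t) x) (Icc 0 T) t)
    (hF0 : ∀ x, F 0 x = ζ 0 x - ζs x) {B E₁ : ℝ} (hB0 : 0 ≤ B)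
    (hB : ∀ t ∈ Icc 0 T, ∀ x, S.gam (fun y => ζs y + F t y) (fun y => ζs y + F t y) x ≤ B)
    (hE₁ : ∀ t ∈ Icc 0 T,
      ∫ x, S.gam (fun y => ψ t y - ψs y) (fun y => ψ t y - ψs y) x ∂μ ≤ E₁) :
    ∫ x, (ζ T x - ζs x - F T x) * (ζ T x - ζs x - F T x) ∂μ ≤ B * E₁ * Real.exp T := by
  have := hμ.finite
  have sφ : ∀ t ∈ Icc 0 T, Smooth I (fun y => ψ t y - ψs y) := fun t ht =>
    (hE.stream t ht).smooth_stream.sub hs.smooth_stream
  have se : ∀ t ∈ Icc 0 T, Smooth I (fun y => ζ t y - ζs y - F t y) := fun t ht =>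
    ((hE.stream t ht).smooth_vort.sub hs.smooth_vort).sub (hF.smooth ht)
  obtain ⟨B₁, hB₁, b₁⟩ := S.JSm_gam_bdd hT hE.smooth_stream
  obtain ⟨B₂, hB₂, b₂⟩ := S.JSm_gam_bdd hT hE.smooth_vort
  obtain ⟨B₃, hB₃, b₃⟩ := S.JSm_gam_bdd hT hF
  obtain ⟨B₄, hB₄, b₄⟩ := S.JSm_gam_bdd hT (F := fun _ => ψs)
    (hs.smooth_stream.comp contMDiff_snd).contMDiffOn
  have hd : ∀ t ∈ Icc 0 T, _ := fun t ht => hasDerivWithinAt_of_slope (μ := μ) (T := T)
    (Q := fun t => ∫ x, (ζ t x - ζs x - F t x) * (ζ t x - ζs x - F t x) ∂μ)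
    (F := fun t x => ζ t x - ζs x - F t x) (W := fun t x => ζ t x - ζs x - F t x)
    (F' := fun t x => - S.br (ψ t) (ζ t) x - - S.br ψs (F t) x)
    (fun s hs' t ht => by
      symm
      rw [hμ.lin2 1 (-1) ((se s hs').mul (se s hs')) ((se t ht).mul (se t ht)) (fun x => by ring)]
      ring)
    (fun t ht x => ((hE.transport t ht x).sub_const (ζs x)).sub (hF' t ht x))
    (B := (B₁ + B₂) + (B₄ + B₃))
    (fun t ht x => by
      refine (abs_sub _ _).trans (add_le_add ?_ ?_) <;> rw [abs_neg]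
      · exact abs_le_of_sq_le_mul (S.br_sq_le _ _ x) (S.gam_nonneg _ x) hB₁ hB₂ (b₁ t ht x)
          (b₂ t ht x)
      · exact abs_le_of_sq_le_mul (S.br_sq_le _ _ x) (S.gam_nonneg _ x) hB₄ hB₃ (b₄ t ht x)
          (b₃ t ht x))
    (fun t ht => (se t ht).cont)
    ((hE.smooth_vort.continuousOn.sub
      (hs.smooth_vort.cont.comp continuous_snd).continuousOn).sub hF.continuousOn) ht
  have hE0 : 0 ≤ E₁ := (integral_nonneg fun x => S.gam_nonneg _ x).trans
    (hE₁ 0 ⟨le_rfl, hT.le⟩)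
  have key := gronwall_le (K := 1) (ε := B * E₁) (δ := 0) one_pos hd (by simp [hF0])
    (fun t ht => by
    have w1 := hμ.integral_br (hE.stream t ht).smooth_stream (hE.stream t ht).tangent
      ((se t ht).mul (se t ht))
    have sZ := hs.smooth_vort.add (hF.smooth ht)
    rw [hμ.lin2 (-1) (-2) (S.smooth_br (hE.stream t ht).smooth_stream ((se t ht).mul (se t ht)))
      ((se t ht).mul (S.smooth_br (sφ t ht) sZ)) (fun x => by
        have e0 := hst x
        rw [br_eq] at e0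
        simp only [br_eq, S.grad_mul ((se t ht).md x) ((se t ht).md x),
          S.grad_sub (((hE.stream t ht).smooth_vort.sub hs.smooth_vort).md x) ((hF.smooth ht).md x),
          S.grad_sub ((hE.stream t ht).smooth_vort.md x) (hs.smooth_vort.md x),
          S.grad_sub ((hE.stream t ht).smooth_stream.md x) (hs.smooth_stream.md x),
          S.grad_add (hs.smooth_vort.md x) ((hF.smooth ht).md x), map_sub,
          ip_add_right, ip_smul_right, ip_sub_right, ip_sub_left, e0]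
        ring), w1, ← integral_const_mul]
    have h1 := hμ.mono ((Smooth.const (-2)).mul ((se t ht).mul (S.smooth_br (sφ t ht) sZ)))
      (((Smooth.const 1).mul ((se t ht).mul (se t ht))).add
        ((Smooth.const B).mul (S.smooth_gam (sφ t ht) (sφ t ht)))) (fun x => by
        have h2 := S.br_sq_le (fun y => ψ t y - ψs y) (fun y => ζs y + F t y) x
        have h3 := mul_le_mul_of_nonneg_left (hB t ht x) (S.gam_nonneg (fun y => ψ t y - ψs y) x)
        nlinarith [sq_nonneg ((ζ t x - ζs x - F t x) +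
          S.br (fun y => ψ t y - ψs y) (fun y => ζs y + F t y) x)])
    rw [hμ.lin2 1 B ((se t ht).mul (se t ht)) (S.smooth_gam (sφ t ht) (sφ t ht))
      (fun x => rfl)] at h1
    have h4 := mul_le_mul_of_nonneg_left (hE₁ t ht) hB0
    linarith) T ⟨hT.le, le_rfl⟩
  have h5 : 0 ≤ B * E₁ := mul_nonneg hB0 hE0
  simp only [zero_mul, zero_add, div_one, one_mul] at key
  nlinarith

end

end Surf

end Pool.Agent.P.MP_9c695c_an
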