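import Pool.Agent.P.MP_9c695c_an.Packet

/-!
The three estimates for a wave packet: the size of the data, the error of the transport
approximation, and the size of the differences after transport.
-/

open scoped Manifold ContDiff ENNReal Topology
open MeasureTheory Set Filter Bundle Real Metric

set_option backward.isDefEq.respectTransparency false
set_option linter.unusedSectionVars false

namespace Pool.Agent.P.MP_9c695c_an

lemma IsWeight.tendsto {w : ℝ → ℝ} (hw : IsWeight w) : Tendsto w atTop atTop := by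
  have key : ∀ n : ℕ, ∃ k, 0 < k ∧ 2 ^ n * w 1 ≤ w k := by
    obtain ⟨Λ, hΛ, h⟩ := hw.grow 2
    intro n
    induction n with
    | zero => exact ⟨1, one_pos, by simp⟩
    | succ n ih =>
      obtain ⟨k, hk, h1⟩ := ih
      obtain ⟨k', hk', h2⟩ := h k
      have hk0 : 0 < k' := hk.trans_le hk'
      refine ⟨Λ * k', mul_pos hΛ hk0, ?_⟩
      have := hw.mono hk hk0 hk'
      rw [pow_succ]; linarith
  refine tendsto_atTop.2 fun B => ?_
  have h1 := hw.pos 1 one_pos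
  obtain ⟨n, hn⟩ := pow_unbounded_of_one_lt (B / w 1) (one_lt_two (α := ℝ))
  obtain ⟨k, hk, h2⟩ := key n
  filter_upwards [eventually_ge_atTop k] with k' hk'
  have := hw.mono hk (hk.trans_le hk') hk'
  rw [div_lt_iff₀ h1] at hn
  linarith

variable {E : Type*} [NormedAddCommGroup E] [InnerProductSpace ℝ E]
  [FiniteDimensional ℝ E] [MeasurableSpace E] [BorelSpace E]

lemma lower_core {U : Set E} (hU : IsCompact U) {c : E} {r : ℝ} (hUs : U ⊆ ball c (r / 2))
    {m : ℕ} {h : E} (hh : m * ‖h‖ ≤ r / 2) {G a g w e : E → ℝ} {A k θ η δ₁ δ₂ : ℝ} (hA : 0 ≤ A)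
    (cG : ContinuousOn G (closedBall c r)) (ca : ContinuousOn a (closedBall c r))
    (ce : ContinuousOn e (closedBall c r))
    (hG : ∀ y ∈ ball c r, G y = A * (a y * cos (k * g y + θ) + w y) + e y)
    {g' : E → E →L[ℝ] ℝ} {ξ : E →L[ℝ] ℝ} (hη0 : 0 ≤ η)
    (hg : ∀ y ∈ ball c r, HasFDerivAt g (g' y) y) (hη : ∀ y ∈ ball c r, ‖g' y - ξ‖ ≤ η * ‖ξ‖)
    (hk : 0 ≤ k) (h1 : k * ξ h = π) (h2 : k * (‖ξ‖ * ‖h‖) = π)
    (hw : ∀ y ∈ ball c r, |w y| ≤ δ₁)
    (ha : ∀ y ∈ ball c r, ∀ y' ∈ ball c r, ‖y' - y‖ ≤ m * ‖h‖ → |a y' - a y| ≤ δ₂) :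
    IntegrableOn (fun y => (fwdDiff h)^[m] G y) U ∧
    2 ^ m * (A * (∫ y in U, |a y * cos (k * g y + θ)|) - A * (η * π * m * (∫ y in U, |a y|)
      + (δ₁ + δ₂) * volume.real U) - ∫ y in closedBall c r, |e y|)
      ≤ ∫ y in U, |(fwdDiff h)^[m] G y| := by
  have hjn : ∀ j ≤ m, ‖j • h‖ ≤ m * ‖h‖ := fun j hj => by
    rw [← Nat.cast_smul_eq_nsmul ℝ, norm_smul, Real.norm_natCast]
    gcongr
  have hU0 : ∀ y ∈ U, ∀ j ≤ m, y + j • h ∈ ball c r := fun y hy j hj => by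
    have h3 := mem_ball.1 (hUs hy)
    rw [mem_ball, dist_eq_norm] at *
    calc ‖y + j • h - c‖ = ‖(y - c) + j • h‖ := by congr 1; abel
      _ ≤ ‖y - c‖ + ‖j • h‖ := norm_add_le _ _
      _ < r := by linarith [hjn j hj]
  have hU1 : U ⊆ ball c r := fun y hy => by simpa using hU0 y hy 0 (Nat.zero_le _)
  have hU2 : U ⊆ closedBall c r := hU1.trans ball_subset_closedBall
  have sh : ∀ {F : E → ℝ}, ContinuousOn F (closedBall c r) → ∀ j ≤ m,
      ContinuousOn (fun y => F (y + j • h)) U := fun hF j hj =>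
    hF.comp (continuous_id.add continuous_const).continuousOn
      fun y hy => ball_subset_closedBall (hU0 y hy j hj)
  have cΔ : ContinuousOn (fun y => (fwdDiff h)^[m] G y) U := by
    simp only [fwdDiff_iter_eq_sum_shift, zsmul_eq_mul]
    exact continuousOn_finsetSum _ fun j hj =>
      continuousOn_const.mul (sh cG j (by have := Finset.mem_range.1 hj; omega))
  have cg : ContinuousOn g U := fun y hy => (hg y (hU1 hy)).continuousAt.continuousWithinAt
  have i1 : IntegrableOn (fun y => |a y * cos (k * g y + θ)|) U :=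
    ((ca.mono hU2).mul (Real.continuous_cos.comp_continuousOn
      ((continuousOn_const.mul cg).add continuousOn_const))).abs |>.integrableOn_compact hU
  have i2 : IntegrableOn (fun y => |a y|) U := (ca.mono hU2).abs.integrableOn_compact hU
  have i3 : ∀ j ∈ Finset.range (m + 1), IntegrableOn (fun y => (m.choose j : ℝ) * |e (y + j • h)|) U :=
    fun j hj => (continuousOn_const.mul
      (sh ce j (by have := Finset.mem_range.1 hj; omega)).abs).integrableOn_compact hU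
  have i4 : IntegrableOn (fun _ : E => δ₁ + δ₂) U := continuousOn_const.integrableOn_compact hU
  have hsum : ∑ j ∈ Finset.range (m + 1), (m.choose j : ℝ) = 2 ^ m := by
    rw [← Nat.cast_sum, Nat.sum_range_choose]; push_cast; rfl
  have pt : ∀ y ∈ U, 2 ^ m * (A * |a y * cos (k * g y + θ)|)
      - 2 ^ m * (A * (η * π * m * |a y| + (δ₁ + δ₂)))
      - ∑ j ∈ Finset.range (m + 1), (m.choose j : ℝ) * |e (y + j • h)|
      ≤ |(fwdDiff h)^[m] G y| := by
    intro y hy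
    have := fd_lower G m h y (A * (a y * cos (k * g y + θ)))
      (fun j => A * (η * π * m * |a y| + (δ₁ + δ₂)) + |e (y + j • h)|) (fun j hj => by
        have hj1 := hU0 y hy j hj
        have p1 := phase_flip (convex_ball c r) hg hη hk h1 h2 (hU1 hy) j hj1 (a y)
          (a (y + j • h)) θ
        have p2 := ha y (hU1 hy) _ hj1 (by rw [add_sub_cancel_left]; exact hjn j hj)
        have p3 : |a y| * (η * π * j) ≤ η * π * m * |a y| := by
          rw [mul_comm]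
          have : (j : ℝ) ≤ m := by exact_mod_cast hj
          gcongr
        have p4 := hw _ hj1
        have e1 : (-1) ^ j * G (y + j • h) - A * (a y * cos (k * g y + θ)) =
            A * ((-1) ^ j * (a (y + j • h) * cos (k * g (y + j • h) + θ))
              - a y * cos (k * g y + θ)) + (-1) ^ j * (A * w (y + j • h) + e (y + j • h)) := by
          rw [hG _ hj1]; ring
        rw [e1]
        refine (abs_add_le _ _).trans ?_
        rw [abs_mul, abs_mul, abs_of_nonneg hA, abs_pow, abs_neg, abs_one, one_pow, one_mul]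
        have p5 := abs_add_le (A * w (y + j • h)) (e (y + j • h))
        rw [abs_mul, abs_of_nonneg hA] at p5
        have p6 := mul_le_mul_of_nonneg_left (p1.trans (add_le_add p2 p3)) hA
        have p7 := mul_le_mul_of_nonneg_left p4 hA
        linarith)
    simp only [mul_add (m.choose _ : ℝ), Finset.sum_add_distrib, ← Finset.sum_mul, hsum] at this
    rw [abs_mul, abs_of_nonneg hA] at this
    linarith
  refine ⟨cΔ.integrableOn_compact hU, ?_⟩
  have j1 : IntegrableOn (fun y => 2 ^ m * (A * |a y * cos (k * g y + θ)|)) U :=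
    (i1.const_mul A).const_mul (2 ^ m)
  have j0 : IntegrableOn (fun y => η * π * m * |a y|) U := i2.const_mul (η * π * m)
  have j2 : IntegrableOn (fun y => 2 ^ m * (A * (η * π * m * |a y| + (δ₁ + δ₂)))) U :=
    ((j0.add i4).const_mul A).const_mul (2 ^ m)
  have j3 : IntegrableOn
      (fun y => ∑ j ∈ Finset.range (m + 1), (m.choose j : ℝ) * |e (y + j • h)|) U :=
    integrable_finsetSum _ i3
  have j4 : IntegrableOn (fun y => 2 ^ m * (A * |a y * cos (k * g y + θ)|)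
      - 2 ^ m * (A * (η * π * m * |a y| + (δ₁ + δ₂)))) U := j1.sub j2
  have j5 : IntegrableOn (fun y => 2 ^ m * (A * |a y * cos (k * g y + θ)|)
      - 2 ^ m * (A * (η * π * m * |a y| + (δ₁ + δ₂)))
      - ∑ j ∈ Finset.range (m + 1), (m.choose j : ℝ) * |e (y + j • h)|) U := j4.sub j3
  have main := setIntegral_mono_on j5 (cΔ.abs.integrableOn_compact hU) hU.measurableSet pt
  refine le_trans ?_ main
  rw [integral_sub j4 j3, integral_sub j1 j2,
    integral_finsetSum _ i3, integral_const_mul, integral_const_mul, integral_const_mul,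
    integral_const_mul, integral_add j0 i4, integral_const_mul,
    setIntegral_const, smul_eq_mul]
  have h5 : ∑ j ∈ Finset.range (m + 1), ∫ y in U, (m.choose j : ℝ) * |e (y + j • h)|
      ≤ 2 ^ m * ∫ y in closedBall c r, |e y| := by
    rw [← hsum, Finset.sum_mul]
    refine Finset.sum_le_sum fun j hj => ?_
    rw [integral_const_mul]
    refine mul_le_mul_of_nonneg_left ?_ (Nat.cast_nonneg _)
    rw [← (measurePreserving_add_right volume (j • h)).setIntegral_preimage_emb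
      (measurableEmbedding_addRight (j • h)) (fun y => |e y|) (closedBall c r)]
    refine setIntegral_mono_set ?_ (Eventually.of_forall fun _ => abs_nonneg _)
      (LE.le.eventuallyLE fun y hy => ball_subset_closedBall
        (hU0 y hy j (by have := Finset.mem_range.1 hj; omega)))
    exact ((measurePreserving_add_right volume (j • h)).integrableOn_comp_preimage
      (measurableEmbedding_addRight (j • h))).2
      (ce.abs.integrableOn_compact (isCompact_closedBall c r))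
  linarith

lemma eLpNorm_lower {U B : Set E} (hUB : U ⊆ B) {F : E → ℝ} (hF : IntegrableOn F U) {p : ℝ≥0∞}
    (hp : 1 ≤ p) {V x : ℝ} (hV : 0 < V) (hU : volume U ≤ ENNReal.ofReal (4 * V))
    (hx : 0 ≤ x) (h : 4 * x * V ≤ ∫ y in U, |F y|) :
    ENNReal.ofReal (x * V ^ (1 / p.toReal)) ≤ eLpNorm F p (volume.restrict B) := by
  set q := 1 / p.toReal with hq
  have hq0 : 0 ≤ q := by positivity
  have hq1 : q ≤ 1 := by
    rcases eq_or_ne p ⊤ with rfl | hp'
    · simp [hq]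
    · have : 1 ≤ p.toReal := by simpa using ENNReal.toReal_mono hp' hp
      exact (div_le_one (by linarith)).2 this
  have h1 := eLpNorm_le_eLpNorm_mul_rpow_measure_univ hp hF.aestronglyMeasurable
  rw [eLpNorm_one_eq_lintegral_enorm, ← ofReal_integral_norm_eq_lintegral_enorm hF,
    Measure.restrict_apply_univ, ENNReal.toReal_one, div_one, ← hq] at h1
  have h2 : volume U ^ (1 - q) ≤ ENNReal.ofReal (4 * V ^ (1 - q)) := by
    refine (ENNReal.rpow_le_rpow hU (by linarith)).trans ?_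
    rw [ENNReal.ofReal_rpow_of_pos (by positivity), mul_rpow (by norm_num) hV.le]
    refine ENNReal.ofReal_le_ofReal (mul_le_mul_of_nonneg_right ?_ (by positivity))
    calc (4 : ℝ) ^ (1 - q) ≤ 4 ^ (1 : ℝ) := rpow_le_rpow_of_exponent_le (by norm_num) (by linarith)
      _ = 4 := rpow_one _
  have h3 : ENNReal.ofReal (x * V ^ q) * ENNReal.ofReal (4 * V ^ (1 - q))
      ≤ eLpNorm F p (volume.restrict B) * ENNReal.ofReal (4 * V ^ (1 - q)) := by
    rw [← ENNReal.ofReal_mul (by positivity)]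
    have e : x * V ^ q * (4 * V ^ (1 - q)) = 4 * x * V := by
      have : V ^ q * V ^ (1 - q) = V := by rw [← rpow_add hV]; simp
      linear_combination (4 * x) * this
    rw [e]
    refine (ENNReal.ofReal_le_ofReal h).trans (h1.trans ?_)
    exact mul_le_mul' (eLpNorm_mono_measure F (Measure.restrict_mono hUB le_rfl)) h2
  exact (ENNReal.mul_le_mul_iff_left (ENNReal.ofReal_pos.2 (by positivity)).ne'
    ENNReal.ofReal_ne_top).1 h3

variable {H : Type*} [TopologicalSpace H] {I : ModelWithCorners ℝ E H}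
  {M : Type*} [TopologicalSpace M] [ChartedSpace H M] [IsManifold I ∞ M]

lemma jetSum_le {x₀ : M} {R : ℝ}
    (hR : ball (extChartAt I x₀ x₀) (2 * R) ⊆ (extChartAt I x₀).target) {s r₁ : ℝ} (hR0 : 0 < R)
    (hs : s < r₁) (hr₁ : r₁ ≤ R) {a b d lam : M → ℝ} (ha : Smooth I a) (hb : Smooth I b)
    (hd : Smooth I d)
    (za : ∀ x ∉ (extChartAt I x₀).symm '' closedBall (extChartAt I x₀ x₀) s, a x = 0)
    (zb : ∀ x ∉ (extChartAt I x₀).symm '' closedBall (extChartAt I x₀ x₀) s, b x = 0)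
    (zd : ∀ x ∉ (extChartAt I x₀).symm '' closedBall (extChartAt I x₀ x₀) s, d x = 0)
    {l : E →L[ℝ] ℝ} (hl : ‖l‖ ≤ 1)
    (hlam : ∀ y ∈ ball (extChartAt I x₀ x₀) r₁, lam ((extChartAt I x₀).symm y) = l y)
    {γ : ℝ} (hγ : 0 < γ) (haγ : ∀ x, |a x| ≤ γ) (p : ℝ≥0∞) (m : ℕ) :
    ∃ k₁ : ℝ, ∀ k, k₁ ≤ k → 1 ≤ k → ∀ θ A : ℝ, 0 ≤ A →
      jetSum I p m x₀ R (fun x => A * pk3 a b d lam k θ x) k ≤
        ENNReal.ofReal ((m + 1) * (2 * γ * A)) *
          volume (closedBall (extChartAt I x₀ x₀) s) ^ (1 / p.toReal) := by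
  have hs2 : s < 2 * R := by linarith
  obtain ⟨a', sa, ca, za', ea⟩ := exists_drop hR hs2 ha za
  obtain ⟨b', sb, cb, zb', eb⟩ := exists_drop hR hs2 hb zb
  obtain ⟨d', sd, cd, zd', ed⟩ := exists_drop hR hs2 hd zd
  obtain ⟨B, hB0, hB⟩ := osc3_bound sa sb sd ca cb cd hl m
  refine ⟨B / γ, fun k hk1 hk θ A hA => ?_⟩
  have hk0 : 0 < k := by linarith
  set Y : E → ℝ := fun y => A * (a' y * cos (k * l y + θ) + k⁻¹ * (b' y * cos (k * l y + (θ - π / 2)))
    + k⁻¹ ^ 2 * (d' y * cos (k * l y + θ))) with hY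
  have hYz : tsupport Y ⊆ closedBall (extChartAt I x₀ x₀) s :=
    closure_minimal (fun y hy => by
      by_contra h
      exact hy (by simp only [hY, za' y h, zb' y h, zd' y h]; ring)) isClosed_closedBall
  have hYe : ∀ y ∈ ball (extChartAt I x₀ x₀) R,
      rep I x₀ (fun x => A * pk3 a b d lam k θ x) y = Y y := by
    intro y hy
    have hy2 : y ∈ ball (extChartAt I x₀ x₀) (2 * R) := ball_subset_ball (by linarith) hy
    simp only [rep, Function.comp_apply, pk3, hY, ← ea y hy2, ← eb y hy2, ← ed y hy2]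
    by_cases h : y ∈ closedBall (extChartAt I x₀ x₀) s
    · rw [hlam y (closedBall_subset_ball hs h)]
    · simp only [za' y h, zb' y h, zd' y h, zero_mul]
  have term : ∀ j ∈ Finset.range (m + 1), ENNReal.ofReal (1 / k ^ j) *
      eLpNorm (iteratedFDeriv ℝ j (rep I x₀ fun x => A * pk3 a b d lam k θ x)) p
        (volume.restrict (cball I x₀ R)) ≤ ENNReal.ofReal (2 * γ * A) *
          volume (closedBall (extChartAt I x₀ x₀) s) ^ (1 / p.toReal) := by
    intro j hj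
    have hj' : j ≤ m := by have := Finset.mem_range.1 hj; omega
    have h1 : eLpNorm (iteratedFDeriv ℝ j (rep I x₀ fun x => A * pk3 a b d lam k θ x)) p
        (volume.restrict (cball I x₀ R)) ≤
        eLpNorm ((closedBall (extChartAt I x₀ x₀) s).indicator fun _ => k ^ j * (2 * γ * A)) p
          (volume.restrict (cball I x₀ R)) := by
      refine eLpNorm_mono_ae ?_
      filter_upwards [ae_restrict_mem (show MeasurableSet (cball I x₀ R) from measurableSet_ball)]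
        with y hy
      have e1 : rep I x₀ (fun x => A * pk3 a b d lam k θ x) =ᶠ[𝓝 y] Y := by
        filter_upwards [isOpen_ball.mem_nhds hy] with z hz using hYe z hz
      rw [(e1.iteratedFDeriv ℝ j).eq_of_nhds]
      by_cases h : y ∈ closedBall (extChartAt I x₀ x₀) s
      · rw [indicator_of_mem h, Real.norm_of_nonneg (by positivity)]
        refine (hB j hj' k hk θ _ A hA y).trans ?_
        have h2 : |a' y| ≤ γ := by
          rw [ea y (closedBall_subset_ball hs2 h)]; exact haγ _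
        have h3 : B / k ≤ γ := by
          rw [div_le_iff₀ hk0]; rw [div_le_iff₀ hγ] at hk1; linarith
        calc _ ≤ A * (k ^ j * (γ + γ)) := by gcongr
          _ = _ := by ring
      · rw [Function.notMem_support.1 fun h1 => h (hYz (support_iteratedFDeriv_subset j h1)),
          norm_zero]
        exact norm_nonneg _
    have h2 := h1.trans (eLpNorm_indicator_const_le _ p)
    refine (mul_le_mul_right h2 _).trans ?_
    rw [← mul_assoc, Real.enorm_of_nonneg (by positivity), ← ENNReal.ofReal_mul (by positivity),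
      show 1 / k ^ j * (k ^ j * (2 * γ * A)) = 2 * γ * A by field_simp]
    gcongr
    exact Measure.restrict_le_self
  refine (Finset.sum_le_card_nsmul _ _ _ term).trans (le_of_eq ?_)
  rw [Finset.card_range, nsmul_eq_mul, ← mul_assoc,
    ENNReal.ofReal_mul (p := m + 1) (by positivity), ← Nat.cast_succ, ENNReal.ofReal_natCast]

variable [MeasurableSpace M] [BorelSpace M] [CompactSpace M] [T2Space M]
  {S : Surf I M} {μ : Measure M}

lemma error_core (hμ : S.IsArea μ) {ψs ζs : M → ℝ} (hs : S.IsStream μ ψs ζs)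
    (hst : ∀ x, S.br ψs ζs x = 0) {Φ : ℝ → M → M} (hΦ : IsFlow I (S.vel ψs) Φ) {T : ℝ}
    (hT : 0 < T) {C : ℝ} (hC0 : 0 ≤ C) (hC : ∀ φ : M → ℝ, Smooth I φ → ∀ x,
      2 * S.gam φ (S.br ψs φ) x - S.br ψs (S.gam φ φ) x ≤ C * S.gam φ φ x)
    {P φ₀ : M → ℝ} (sP : Smooth I P) (sφ₀ : Smooth I φ₀) {c B₀ B₁ : ℝ} (hc0 : 0 ≤ c)
    (hB₀ : 0 ≤ B₀) (hB₁ : 0 ≤ B₁) (b₀ : ∀ x, S.gam φ₀ φ₀ x ≤ c) (b₁ : ∀ x, S.gam ζs ζs x ≤ B₀)
    (b₂ : ∀ t ∈ Icc 0 T, ∀ x, S.gam (fun y => P (Φ (-t) y)) (fun y => P (Φ (-t) y)) x ≤ B₁)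
    {ψ ζ : ℝ → M → ℝ} (hE : S.IsEuler μ T ψ ζ) (hc : S.SameCirc μ (ψ 0) (ζ 0) ψs ζs)
    (h0 : ∀ x, ζ 0 x = ζs x + P x)
    (hw : ∀ h : M → ℝ, Smooth I h → ∫ x, (P x * h x + S.gam φ₀ h x) ∂μ = 0) :
    ∫ x, (ζ T x - ζs x - P (Φ (-T) x)) * (ζ T x - ζs x - P (Φ (-T) x)) ∂μ
      ≤ (2 * B₀ + 2 * B₁) * (c * μ.real univ * exp ((C + 1) * T)) * exp T := by
  have := hμ.finite
  have hψ := hs.smooth_stream
  have h0T : (0 : ℝ) ∈ Icc 0 T := ⟨le_rfl, hT.le⟩
  have sφ := (hE.stream 0 h0T).smooth_stream.sub hψ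
  have e0 : ∫ x, S.gam (fun y => ψ 0 y - ψs y) (fun y => ψ 0 y - ψs y) x ∂μ
      ≤ c * μ.real univ := by
    have w1 := Surf.weak_time hμ hs hE hc h0T sφ ((hE.stream 0 h0T).tangent.sub hs.tangent)
    have w2 := hw _ sφ
    simp only [h0, add_sub_cancel_left] at w1
    rw [hμ.lin2 1 1 (sP.mul sφ) (S.smooth_gam sφ sφ) (fun x => by rw [one_mul, one_mul])] at w1
    rw [hμ.lin2 1 1 (sP.mul sφ) (S.smooth_gam sφ₀ sφ) (fun x => by rw [one_mul, one_mul])] at w2
    have h1 := hμ.mono ((Smooth.const 2).mul (S.smooth_gam sφ₀ sφ))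
      ((Smooth.const c).add (S.smooth_gam sφ sφ))
      (fun x => (S.two_gam_le _ _ x).trans (add_le_add_left (b₀ x) _))
    rw [integral_const_mul, integral_add (integrable_const _)
      (hμ.integrable (S.smooth_gam sφ sφ).cont), integral_const, smul_eq_mul] at h1
    linarith
  have e1 := Surf.energy_velocity hμ hs hst hT hE hc hC0 hC e0
  have hE0 : 0 ≤ c * μ.real univ := mul_nonneg hc0 measureReal_nonneg
  exact Surf.energy_vorticity hμ hs hst hT hE hc (hΦ.jsm_neg sP 0 T)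
    (fun t _ x => (hΦ.transport hψ sP t x).hasDerivWithinAt)
    (fun x => by simp only [neg_zero, hΦ.zero_apply, h0]; ring) (by positivity)
    (fun t ht x => (S.gam_add_le (hs.smooth_vort.md x) ((hΦ.smooth_comp sP _).md x)).trans
      (by linarith [b₁ x, b₂ t ht x]))
    (fun t ht => (e1 t ht).trans (mul_le_mul_of_nonneg_left (exp_le_exp.2
      (mul_le_mul_of_nonneg_left ht.2 (by linarith))) hE0))

lemma error_bound (hμ : S.IsArea μ) {ψs ζs : M → ℝ} (hs : S.IsStream μ ψs ζs)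
    (hst : ∀ x, S.br ψs ζs x = 0) {Φ : ℝ → M → M} (hΦ : IsFlow I (S.vel ψs) Φ) {T : ℝ}
    (hT : 0 < T) {χ a b d lam : M → ℝ} (hχ : Smooth I χ) (ha : Smooth I a) (hb : Smooth I b)
    (hd : Smooth I d) (hl : Smooth I lam) :
    ∃ C : ℝ, 0 ≤ C ∧ ∀ k : ℝ, 1 ≤ k → ∀ (θ A : ℝ) (ψ ζ : ℝ → M → ℝ), S.IsEuler μ T ψ ζ →
      S.SameCirc μ (ψ 0) (ζ 0) ψs ζs → (∀ x, ζ 0 x = ζs x + A * pk3 a b d lam k θ x) →
      (∀ h : M → ℝ, Smooth I h → ∫ x, (A * pk3 a b d lam k θ x * h x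
        + S.gam (fun x => -(A * k⁻¹ ^ 2) * pk χ lam k θ x) h x) ∂μ = 0) →
      ∫ x, (ζ T x - ζs x - A * pk3 a b d lam k θ (Φ (-T) x))
        * (ζ T x - ζs x - A * pk3 a b d lam k θ (Φ (-T) x)) ∂μ ≤ C * (A ^ 2 * (k⁻¹ ^ 2 + A ^ 2)) := by
  have hψ := hs.smooth_stream
  obtain ⟨C, hC0, hC⟩ := S.comm_bound hψ
  have bd : ∀ {f : M → ℝ}, Smooth I f → ∃ B, 0 ≤ B ∧ ∀ t ∈ Icc 0 T, ∀ x, |f (Φ (-t) x)| ≤ B ∧
      S.gam (fun y => f (Φ (-t) y)) (fun y => f (Φ (-t) y)) x ≤ B := fun hf => by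
    obtain ⟨B₁, h₁, b₁⟩ := (hΦ.jsm_neg hf 0 T).bdd
    obtain ⟨B₂, h₂, b₂⟩ := S.JSm_gam_bdd hT (hΦ.jsm_neg hf 0 T)
    exact ⟨B₁ + B₂, add_nonneg h₁ h₂, fun t ht x =>
      ⟨(b₁ t ht x).trans (le_add_of_nonneg_right h₂), (b₂ t ht x).trans (le_add_of_nonneg_left h₁)⟩⟩
  obtain ⟨Bχ, pχ, bχ⟩ := bd hχ
  obtain ⟨Ba, pa, ba⟩ := bd ha
  obtain ⟨Bb, pb, bb⟩ := bd hb
  obtain ⟨Bd, pd, bd'⟩ := bd hd
  obtain ⟨Bl, pl, bl⟩ := bd hl
  obtain ⟨Bz, pz, bz⟩ := bd hs.smooth_vort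
  have h0T : (0 : ℝ) ∈ Icc 0 T := ⟨le_rfl, hT.le⟩
  obtain ⟨B, hB0, hBχ, hBa, hBb, hBd, hBl⟩ :
      ∃ B : ℝ, 0 ≤ B ∧ Bχ ≤ B ∧ Ba ≤ B ∧ Bb ≤ B ∧ Bd ≤ B ∧ Bl ≤ B :=
    ⟨Bχ + Ba + Bb + Bd + Bl, by linarith, by linarith, by linarith, by linarith, by linarith,
      by linarith⟩
  obtain ⟨c₁, hc₁⟩ : ∃ c₁, c₁ = 2 * B ^ 3 + 2 * B := ⟨_, rfl⟩
  have hc₁0 : 0 ≤ c₁ := by rw [hc₁]; positivity
  obtain ⟨Z, hZ⟩ : ∃ Z, Z = μ.real univ * exp ((C + 1) * T) * exp T := ⟨_, rfl⟩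
  have hZ0 : 0 ≤ Z := by rw [hZ]; positivity
  refine ⟨(2 * Bz + 2 * (10 * c₁)) * (c₁ * Z), by positivity, fun k hk θ A ψ ζ hE hc h0 hw => ?_⟩
  have hk0 : 0 < k := by linarith
  have e2 := error_core hμ hs hst hΦ hT hC0 hC ((Smooth.const A).mul (smooth_pk3 ha hb hd hl k θ))
    ((Smooth.const (-(A * k⁻¹ ^ 2))).mul (smooth_pk hχ hl k θ)) (c := A ^ 2 * k⁻¹ ^ 2 * c₁)
    (B₀ := Bz) (B₁ := A ^ 2 * (k ^ 2 * (10 * c₁))) (by positivity) pz (by positivity)
    (fun x => by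
      rw [S.gam_const_mul _ ((smooth_pk hχ hl k θ).md x)]
      have h2 := bχ 0 h0T x
      have h3 := bl 0 h0T x
      simp only [neg_zero, hΦ.zero_apply] at h2 h3
      have h4 := S.gam_pk_le hχ hl hk θ (h2.1.trans hBχ) (h2.2.trans hBχ) (h3.2.trans hBl)
      rw [← hc₁] at h4
      refine (mul_le_mul_of_nonneg_left h4 (sq_nonneg _)).trans (le_of_eq ?_)
      field_simp)
    (fun x => by
      have h2 := (bz 0 h0T x).2
      simpa only [neg_zero, hΦ.zero_apply] using h2)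
    (fun t ht x => by
      have h3 := S.gam_pk3_le (hΦ.smooth_comp ha (-t)) (hΦ.smooth_comp hb (-t))
        (hΦ.smooth_comp hd (-t)) (hΦ.smooth_comp hl (-t)) hk θ
        ((ba t ht x).1.trans hBa) ((ba t ht x).2.trans hBa) ((bb t ht x).1.trans hBb)
        ((bb t ht x).2.trans hBb) ((bd' t ht x).1.trans hBd) ((bd' t ht x).2.trans hBd)
        ((bl t ht x).2.trans hBl)
      rw [← hc₁] at h3
      rw [S.gam_const_mul A ((hΦ.smooth_comp (smooth_pk3 ha hb hd hl k θ) _).md x)]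
      exact mul_le_mul_of_nonneg_left h3 (sq_nonneg A))
    hE hc h0 hw
  refine e2.trans ?_
  have e4 : (2 * Bz + 2 * (A ^ 2 * (k ^ 2 * (10 * c₁))))
      * (A ^ 2 * k⁻¹ ^ 2 * c₁ * μ.real univ * exp ((C + 1) * T)) * exp T
      = (2 * Bz * (A ^ 2 * k⁻¹ ^ 2) + 2 * (10 * c₁) * (A ^ 2 * A ^ 2)) * (c₁ * Z) := by
    rw [hZ]; field_simp
  have e5 : (2 * Bz + 2 * (10 * c₁)) * (c₁ * Z) * (A ^ 2 * (k⁻¹ ^ 2 + A ^ 2))
      = (2 * Bz * (A ^ 2 * k⁻¹ ^ 2) + 2 * (10 * c₁) * (A ^ 2 * A ^ 2)) * (c₁ * Z)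
        + (2 * Bz * (A ^ 2 * A ^ 2) + 2 * (10 * c₁) * (A ^ 2 * k⁻¹ ^ 2)) * (c₁ * Z) := by ring
  rw [e4, e5]
  exact le_add_of_nonneg_right (by positivity)

end Pool.Agent.P.MP_9c695c_an
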