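import Pool.Agent.P.MP_9c695c_an.Energy

/-!
The flow of the steady velocity field: uniqueness of trajectories, the group law, transport,
invariance of the area and of the interior, and recurrence.
-/

open scoped Manifold ContDiff ENNReal Topology
open MeasureTheory Set Filter Bundle

set_option backward.isDefEq.respectTransparency false
set_option linter.unusedSectionVars false

namespace Pool.Agent.P.MP_9c695c_an

variable {E : Type*} [NormedAddCommGroup E] [InnerProductSpace ℝ E]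
  {H : Type*} [TopologicalSpace H] {I : ModelWithCorners ℝ E H}
  {M : Type*} [TopologicalSpace M] [ChartedSpace H M] [IsManifold I ∞ M]

lemma curve_hasDerivAt {γ : ℝ → M} {v : (x : M) → TangentSpace I x} (hγ : IsMIntegralCurve γ v)
    {V : Type*} [NormedAddCommGroup V] [NormedSpace ℝ V] {F : M → V} {t : ℝ}
    (hF : MDifferentiableAt I 𝓘(ℝ, V) F (γ t)) :
    HasDerivAt (fun s => F (γ s)) (mvfderiv I F (γ t) (v (γ t))) t := by
  have h1 := hF.hasMFDerivAt.comp t (hγ t)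
  rw [hasMFDerivAt_iff_hasFDerivAt] at h1
  have h2 := h1.hasDerivAt
  refine h2.congr_deriv ?_
  change mfderiv I 𝓘(ℝ, V) F (γ t) ((1 : ℝ) • v (γ t)) = _
  rw [one_smul]; rfl

lemma curve_continuous {γ : ℝ → M} {v : (x : M) → TangentSpace I x} (hγ : IsMIntegralCurve γ v) :
    Continuous γ := continuous_iff_continuousAt.2 fun t => (hγ t).continuousAt

lemma mv_clm_chart {x₀ x : M} (hx : x ∈ (extChartAt I x₀).source) (l : E →L[ℝ] ℝ)
    (v : TangentSpace I x) :
    mvfderiv I (fun y => l (extChartAt I x₀ y)) x v = l (mvfderiv I (extChartAt I x₀) x v) := by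
  have h1 : HasMFDerivAt 𝓘(ℝ, E) 𝓘(ℝ, ℝ) l (extChartAt I x₀ x) l := l.hasFDerivAt.hasMFDerivAt
  have h2 := (h1.comp x (mdifferentiableAt_extChartAt (mem_src hx)).hasMFDerivAt).mfderiv
  exact congrArg (fun L => L v) h2

lemma smAt_clm_chart {x₀ x : M} (hx : x ∈ (extChartAt I x₀).source) (l : E →L[ℝ] ℝ) :
    SmAt I (fun y => l (extChartAt I x₀ y)) x := smAt_of_chart hx l.contDiff.contDiffWithinAt

lemma dense_interior : Dense (I.interior M) := by
  intro x
  rw [mem_closure_iff_nhds]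
  intro U hU
  have hx := mem_extChartAt_source (I := I) x
  have h3 : extChartAt I x '' (U ∩ (extChartAt I x).source) ∈ 𝓝[range I] (extChartAt I x x) := by
    rw [← map_extChartAt_nhds]
    exact image_mem_map (inter_mem hU ((isOpen_extChartAt_source x).mem_nhds hx))
  obtain ⟨u, hu, hxu, hsub⟩ := mem_nhdsWithin.1 h3
  obtain ⟨y, hy1, hy2⟩ : (u ∩ interior (range I)).Nonempty := _root_.mem_closure_iff.1
    (I.range_subset_closure_interior (extChartAt_target_subset_range x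
      ((extChartAt I x).map_source hx))) u hu hxu
  obtain ⟨z, hz, rfl⟩ := hsub ⟨hy1, interior_subset hy2⟩
  exact ⟨z, hz.1, (mem_interior_iff_chart hz.2).2 hy2⟩

namespace Surf
variable (S : Surf I M)

/-- the velocity in the chart at `x₀` -/
noncomputable def Vc (x₀ : M) (ψ : M → ℝ) (x : M) : E :=
  S.u0 x₀ ψ x • S.b 0 + S.u1 x₀ ψ x • S.b 1

/-- the velocity in the chart at `x₀`, as a function of the coordinates -/
noncomputable def Uc (x₀ : M) (ψ : M → ℝ) (y : E) : E := S.Vc x₀ ψ ((extChartAt I x₀).symm y)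

lemma D_clm_chart {x₀ x : M} (hx : x ∈ (extChartAt I x₀).source) (l : E →L[ℝ] ℝ) (i : Fin 2) :
    S.D x₀ i (fun y => l (extChartAt I x₀ y)) x = l (S.b i) := by
  unfold D fr
  rw [mv_clm_chart hx, mv_chart_tv hx]

lemma mv_chart_vel {x₀ x : M} (hx : x ∈ (extChartAt I x₀).source) (ψ : M → ℝ) :
    mvfderiv I (extChartAt I x₀) x (S.vel ψ x) = S.Vc x₀ ψ x := by
  have key : ∀ l : E →L[ℝ] ℝ, l (mvfderiv I (extChartAt I x₀) x (S.vel ψ x)) = l (S.Vc x₀ ψ x) := by
    intro l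
    rw [← mv_clm_chart hx]
    have := S.br_u hx ψ (fun y => l (extChartAt I x₀ y))
    rw [S.D_clm_chart hx, S.D_clm_chart hx] at this
    simp only [Vc, map_add, map_smul, smul_eq_mul]
    exact this
  exact ext_inner_left ℝ fun w => key (innerSL ℝ w)

lemma br_clm_chart {x₀ x : M} (hx : x ∈ (extChartAt I x₀).source) (ψ : M → ℝ) (l : E →L[ℝ] ℝ) :
    S.br ψ (fun y => l (extChartAt I x₀ y)) x = l (S.Vc x₀ ψ x) := by
  rw [← S.mv_chart_vel hx, ← mv_clm_chart hx]; rfl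

lemma Uc_chart {x₀ x : M} (hx : x ∈ (extChartAt I x₀).source) (ψ : M → ℝ) :
    S.Uc x₀ ψ (extChartAt I x₀ x) = S.Vc x₀ ψ x := by
  unfold Uc; rw [(extChartAt I x₀).left_inv hx]

lemma contDiffWithinAt_Uc {x₀ x : M} (hx : x ∈ (extChartAt I x₀).source) {ψ : M → ℝ}
    (hψ : Smooth I ψ) : ContDiffWithinAt ℝ ∞ (S.Uc x₀ ψ) (range I) (extChartAt I x₀ x) :=
  ((contDiffWithinAt_rep hx (S.smAt_u0 hx (hψ x))).smul contDiffWithinAt_const).add
    ((contDiffWithinAt_rep hx (S.smAt_u1 hx (hψ x))).smul contDiffWithinAt_const)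

lemma continuousAt_Vc {x₀ x : M} (hx : x ∈ (extChartAt I x₀).source) {ψ : M → ℝ}
    (hψ : Smooth I ψ) : ContinuousAt (S.Vc x₀ ψ) x :=
  ((S.smAt_u0 hx (hψ x)).continuousAt.smul continuousAt_const).add
    ((S.smAt_u1 hx (hψ x)).continuousAt.smul continuousAt_const)

lemma curve_chart {ψ : M → ℝ} {γ : ℝ → M} (hγ : IsMIntegralCurve γ (S.vel ψ)) {x₀ : M} {t : ℝ}
    (ht : γ t ∈ (extChartAt I x₀).source) :
    HasDerivAt (fun s => extChartAt I x₀ (γ s)) (S.Uc x₀ ψ (extChartAt I x₀ (γ t))) t := by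
  rw [S.Uc_chart ht, ← S.mv_chart_vel ht]
  exact curve_hasDerivAt hγ (mdifferentiableAt_extChartAt (mem_src ht))

lemma curve_unique [T2Space M] {ψ : M → ℝ} (hψ : Smooth I ψ) {γ₁ γ₂ : ℝ → M}
    (h₁ : IsMIntegralCurve γ₁ (S.vel ψ)) (h₂ : IsMIntegralCurve γ₂ (S.vel ψ)) {t₀ : ℝ}
    (h : γ₁ t₀ = γ₂ t₀) : γ₁ = γ₂ := by
  have c₁ := curve_continuous h₁
  have c₂ := curve_continuous h₂
  have hcl : IsClosed {t | γ₁ t = γ₂ t} := isClosed_eq c₁ c₂
  have hop : IsOpen {t | γ₁ t = γ₂ t} := by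
    rw [isOpen_iff_mem_nhds]
    intro t (ht : γ₁ t = γ₂ t)
    set x₀ := γ₁ t with hx₀
    have hx := mem_extChartAt_source (I := I) x₀
    obtain ⟨K, s, hs, hK⟩ := ((S.contDiffWithinAt_Uc hx hψ).of_le (m := 1)
      (by simp)).exists_lipschitzOnWith I.convex_range
    rw [← map_extChartAt_nhds] at hs
    have hs' : ∀ᶠ x in 𝓝 x₀, x ∈ (extChartAt I x₀).source ∧ extChartAt I x₀ x ∈ s :=
      ((isOpen_extChartAt_source x₀).eventually_mem hx).and hs
    have e₁ : ∀ᶠ r in 𝓝 t, γ₁ r ∈ (extChartAt I x₀).source ∧ extChartAt I x₀ (γ₁ r) ∈ s :=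
      (c₁.tendsto t).eventually hs'
    have e₂ : ∀ᶠ r in 𝓝 t, γ₂ r ∈ (extChartAt I x₀).source ∧ extChartAt I x₀ (γ₂ r) ∈ s :=
      (c₂.tendsto' t x₀ ht.symm).eventually hs'
    have := ODE_solution_unique_of_eventually (v := fun _ => S.Uc x₀ ψ) (s := fun _ => s)
      (f := fun r => extChartAt I x₀ (γ₁ r)) (g := fun r => extChartAt I x₀ (γ₂ r)) (t₀ := t)
      (Eventually.of_forall fun _ => hK)
      (e₁.mono fun r hr => ⟨S.curve_chart h₁ hr.1, hr.2⟩)
      (e₂.mono fun r hr => ⟨S.curve_chart h₂ hr.1, hr.2⟩) (by simp only [← hx₀, ← ht])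
    filter_upwards [this, e₁, e₂] with r h1 h2 h3
    exact (extChartAt I x₀).injOn h2.1 h3.1 h1
  have := (IsClopen.eq_univ ⟨hcl, hop⟩ ⟨t₀, h⟩)
  funext t
  exact (this ▸ mem_univ t : t ∈ {t | γ₁ t = γ₂ t})

lemma grad_eq_zero_of_gam {ψ : M → ℝ} {x : M} (h : S.gam ψ ψ x = 0) : S.grad ψ x = 0 := by
  by_contra h0
  exact (S.ip_pos x h0).ne' h

lemma Vc_eq_zero_iff {x₀ x : M} (hx : x ∈ (extChartAt I x₀).source) (ψ : M → ℝ) :
    S.Vc x₀ ψ x = 0 ↔ S.gam ψ ψ x = 0 := by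
  constructor
  · intro h
    have h1 : S.vel ψ x = 0 := by
      rw [← tv_mv_chart hx (S.vel ψ x), S.mv_chart_vel hx, h, map_zero]
    have h2 := S.ip_J_J x (S.grad ψ x)
    change S.ip x (S.vel ψ x) (S.vel ψ x) = S.gam ψ ψ x at h2
    rw [← h2, h1, ip_zero_left]
  · intro h
    rw [← S.mv_chart_vel hx, vel, S.grad_eq_zero_of_gam h, map_zero, map_zero]

end Surf

namespace IsFlow
variable {S : Surf I M} {ψ : M → ℝ} {Φ : ℝ → M → M} (hΦ : IsFlow I (S.vel ψ) Φ)
include hΦ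

lemma cont : Continuous fun p : ℝ × M => Φ p.1 p.2 := hΦ.smooth.continuous

lemma zero_apply (x : M) : Φ 0 x = x := by rw [hΦ.zero]; rfl

lemma contMDiff (t : ℝ) : ContMDiff I I ∞ (Φ t) :=
  hΦ.smooth.comp (f := fun x : M => (t, x)) (contMDiff_const.prodMk contMDiff_id)

lemma smooth_comp {h : M → ℝ} (hh : Smooth I h) (t : ℝ) : Smooth I fun x => h (Φ t x) :=
  ContMDiff.comp hh (hΦ.contMDiff t)

lemma jsm_neg {h : M → ℝ} (hh : Smooth I h) (a b : ℝ) : JSm I a b fun t x => h (Φ (-t) x) := by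
  have h1 : ContMDiff (𝓘(ℝ, ℝ).prod I) (𝓘(ℝ, ℝ).prod I) ∞ fun p : ℝ × M => (-p.1, p.2) :=
    (contDiff_neg.contMDiff.comp contMDiff_fst).prodMk contMDiff_snd
  exact (ContMDiff.comp hh (hΦ.smooth.comp h1)).contMDiffOn

lemma hasDerivAt {h : M → ℝ} {t : ℝ} {x : M} (hh : MdAt I h (Φ t x)) :
    HasDerivAt (fun s => h (Φ s x)) (S.br ψ h (Φ t x)) t :=
  curve_hasDerivAt (hΦ.curve x) hh

variable [T2Space M] (hψ : Smooth I ψ)
include hψ

lemma add (s t : ℝ) (x : M) : Φ (s + t) x = Φ s (Φ t x) := by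
  have := S.curve_unique hψ ((hΦ.curve x).comp_add t) (hΦ.curve (Φ t x)) (t₀ := 0)
    (by simp [hΦ.zero_apply])
  exact congrFun this s

lemma neg_apply (t : ℝ) (x : M) : Φ (-t) (Φ t x) = x := by
  rw [← hΦ.add hψ, neg_add_cancel, hΦ.zero_apply]

lemma apply_neg (t : ℝ) (x : M) : Φ t (Φ (-t) x) = x := by
  rw [← hΦ.add hψ, add_neg_cancel, hΦ.zero_apply]

lemma comm (s t : ℝ) (x : M) : Φ s (Φ t x) = Φ t (Φ s x) := by
  rw [← hΦ.add hψ, ← hΦ.add hψ, add_comm]

lemma iterate (t : ℝ) (n : ℕ) (x : M) : (Φ t)^[n] x = Φ (n * t) x := by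
  induction n with
  | zero => simp [hΦ.zero_apply]
  | succ n ih =>
    rw [Function.iterate_succ_apply', ih, ← hΦ.add hψ]
    congr 1
    push_cast; ring

lemma fixed {x : M} (hx : S.gam ψ ψ x = 0) (t : ℝ) : Φ t x = x := by
  have h0 : S.vel ψ x = 0 := by rw [Surf.vel, S.grad_eq_zero_of_gam hx, map_zero]
  have := S.curve_unique hψ (hΦ.curve x) (isMIntegralCurve_const h0) (t₀ := 0) (hΦ.zero_apply x)
  exact congrFun this t

lemma regular {x : M} (hx : S.gam ψ ψ x ≠ 0) (t : ℝ) : S.gam ψ ψ (Φ t x) ≠ 0 := by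
  intro h
  have h1 := hΦ.fixed hψ h (-t)
  rw [hΦ.neg_apply hψ] at h1
  exact hx (h1 ▸ h)

lemma stream_eq (t : ℝ) (x : M) : ψ (Φ t x) = ψ x := by
  have h1 : ∀ s, HasDerivAt (fun s => ψ (Φ s x)) 0 s := fun s => by
    have := hΦ.hasDerivAt (h := ψ) (t := s) (x := x) (hψ.md _)
    rwa [S.br_self] at this
  have := is_const_of_deriv_eq_zero (fun s => (h1 s).differentiableAt) (fun s => (h1 s).deriv) t 0
  rwa [hΦ.zero_apply] at this

lemma br_comp {h : M → ℝ} (hh : Smooth I h) (t : ℝ) (x : M) :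
    S.br ψ (fun y => h (Φ t y)) x = S.br ψ h (Φ t x) := by
  have h1 := hΦ.hasDerivAt (h := fun y => h (Φ t y)) (t := 0) (x := x)
    ((hΦ.smooth_comp hh t).md _)
  have h2 := hΦ.hasDerivAt (h := h) (t := 0) (x := Φ t x) (hh.md _)
  rw [hΦ.zero_apply] at h1 h2
  simp only [hΦ.comm hψ t] at h1
  exact h1.unique h2

lemma transport {h : M → ℝ} (hh : Smooth I h) (t : ℝ) (x : M) :
    HasDerivAt (fun s => h (Φ (-s) x)) (- S.br ψ (fun y => h (Φ (-t) y)) x) t := by
  have h1 := (hΦ.hasDerivAt (h := h) (t := -t) (x := x) (hh.md _)).comp t (hasDerivAt_neg t)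
  rw [hΦ.br_comp hψ hh]
  rw [mul_neg_one] at h1
  exact h1

lemma interior_mem {x : M} (hx : x ∈ I.interior M) (t : ℝ) : Φ t x ∈ I.interior M := by
  let e : Diffeomorph I I M M ∞ :=
    { toFun := Φ t
      invFun := Φ (-t)
      left_inv := hΦ.neg_apply hψ t
      right_inv := hΦ.apply_neg hψ t
      contMDiff_toFun := hΦ.contMDiff t
      contMDiff_invFun := hΦ.contMDiff (-t) }
  have := e.preimage_interior (by simp)
  rw [← this] at hx
  exact hx

variable [FiniteDimensional ℝ E] [MeasurableSpace E] [BorelSpace E]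
  [MeasurableSpace M] [BorelSpace M] [CompactSpace M] {μ : Measure M} (hμ : S.IsArea μ)
  (tψ : Tangent I ψ)
include hμ tψ

lemma integral_comp_pos {h : M → ℝ} (hh : Smooth I h) {T : ℝ} (hT : 0 ≤ T) :
    ∫ x, h (Φ T x) ∂μ = ∫ x, h x ∂μ := by
  have := hμ.finite
  obtain ⟨B, hB⟩ := isCompact_univ.exists_bound_of_continuousOn
    (S.smooth_br hψ hh).cont.continuousOn
  have hd : ∀ t ∈ Icc 0 T, HasDerivWithinAt (fun t => ∫ x, h (Φ t x) ∂μ) 0 (Icc 0 T) t := by
    intro t ht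
    have h1 := hasDerivWithinAt_of_slope (μ := μ) (T := T) (Q := fun t => ∫ x, h (Φ t x) ∂μ)
      (F := fun t x => h (Φ t x)) (W := fun _ _ => 1 / 2) (F' := fun t x => S.br ψ h (Φ t x))
      (fun s _ t _ => by
        symm
        rw [hμ.lin2 1 (-1) (hΦ.smooth_comp hh s) (hΦ.smooth_comp hh t) (fun x => by ring)]
        ring)
      (fun t _ x => (hΦ.hasDerivAt (hh.md _)).hasDerivWithinAt) (B := B)
      (fun t _ x => hB _ (mem_univ _)) (fun t _ => (hΦ.smooth_comp hh t).cont)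
      continuousOn_const ht
    have h2 := hμ.integral_br hψ tψ (hΦ.smooth_comp hh t)
    simp only [hΦ.br_comp hψ hh] at h2
    simp only [add_halves, mul_one, h2] at h1
    exact h1
  have h3 := (convex_Icc 0 T).norm_image_sub_le_of_norm_hasDerivWithin_le (C := 0) hd
    (fun _ _ => by simp) ⟨le_rfl, hT⟩ ⟨hT, le_rfl⟩
  simp only [zero_mul, norm_le_zero_iff, sub_eq_zero, hΦ.zero_apply] at h3
  exact h3

lemma integral_comp {h : M → ℝ} (hh : Smooth I h) (T : ℝ) :
    ∫ x, h (Φ T x) ∂μ = ∫ x, h x ∂μ := by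
  rcases le_total 0 T with hT | hT
  · exact hΦ.integral_comp_pos hψ hμ tψ hh hT
  · have := hΦ.integral_comp_pos hψ hμ tψ (hΦ.smooth_comp hh T) (T := -T) (by linarith)
    simp only [hΦ.apply_neg hψ] at this
    exact this.symm

lemma measurePreserving (T : ℝ) : MeasurePreserving (Φ T) μ μ := by
  have := hμ.finite
  have := Manifold.metrizableSpace I M
  have hc := (hΦ.contMDiff T).continuous
  refine ⟨hc.measurable, ext_of_forall_integral_eq_of_IsFiniteMeasure fun f => ?_⟩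
  rw [integral_map hc.measurable.aemeasurable f.continuous.aestronglyMeasurable]
  refine eq_of_forall_dist_le fun δ hδ => ?_
  have hm : 0 < μ.real univ + 1 := by positivity
  obtain ⟨g, hg, -⟩ := f.continuous.exists_contMDiff_approx I ⊤ (ε := fun _ => δ / 2 / (μ.real univ + 1))
    continuous_const fun _ => by positivity
  have sg : Smooth I g := g.contMDiff
  have e1 := hΦ.integral_comp hψ hμ tψ sg T
  have b1 : dist (∫ x, f (Φ T x) ∂μ) (∫ x, g (Φ T x) ∂μ) ≤ δ / 2 / (μ.real univ + 1) * μ.real univ := by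
    rw [dist_eq_norm, ← integral_sub (hμ.integrable (f.continuous.comp' hc))
      (hμ.integrable (sg.cont.comp' hc))]
    refine norm_integral_le_of_norm_le_const (Eventually.of_forall fun x => ?_)
    rw [← dist_eq_norm, dist_comm]; exact (hg _).le
  have b2 : dist (∫ x, g x ∂μ) (∫ x, f x ∂μ) ≤ δ / 2 / (μ.real univ + 1) * μ.real univ := by
    rw [dist_eq_norm, ← integral_sub (hμ.integrable sg.cont) (hμ.integrable f.continuous)]
    refine norm_integral_le_of_norm_le_const (Eventually.of_forall fun x => ?_)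
    rw [← dist_eq_norm]; exact (hg _).le
  have b3 : δ / 2 / (μ.real univ + 1) * μ.real univ ≤ δ / 2 := by
    rw [div_mul_eq_mul_div, div_le_iff₀ hm]
    nlinarith
  rw [← e1] at b2
  linarith [dist_triangle (∫ x, f (Φ T x) ∂μ) (∫ x, g (Φ T x) ∂μ) (∫ x, f x ∂μ)]

lemma exists_recurrent {U : Set M} (hU : IsOpen U) (hne : U.Nonempty) :
    ∃ x ∈ U, ∀ s ∈ 𝓝 x, ∃ᶠ n : ℕ in atTop, Φ n x ∈ s := by
  have := hμ.finite
  have := hμ.openPos
  have := I.secondCountableTopology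
  have : SecondCountableTopology M := ChartedSpace.secondCountable_of_sigmaCompact H M
  have h1 := (hΦ.measurePreserving hψ hμ tψ 1).conservative.ae_frequently_mem_of_mem_nhds
  obtain ⟨x, hx, h2⟩ := (Measure.dense_of_ae h1).inter_open_nonempty U hU hne
  refine ⟨x, hx, fun s hs => (h2 s hs).mono fun n hn => ?_⟩
  rwa [hΦ.iterate hψ, mul_one] at hn

end IsFlow

end Pool.Agent.P.MP_9c695c_an
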