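import Pool.Agent.P.MP_9c695c_an.Defs

/-!
Local calculus in the chart at a point: coordinate frame, coordinate derivatives and the
coordinate formulas for the gradient product and the Poisson bracket.
-/

open scoped Manifold ContDiff ENNReal Topology
open MeasureTheory Set Filter Bundle

set_option backward.isDefEq.respectTransparency false

namespace Pool.Agent.P.MP_9c695c_an

variable {E : Type*} [NormedAddCommGroup E] [InnerProductSpace ℝ E]
  {H : Type*} [TopologicalSpace H] {I : ModelWithCorners ℝ E H}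
  {M : Type*} [TopologicalSpace M] [ChartedSpace H M] [IsManifold I ∞ M]

lemma two_le_inf : (2 : WithTop ℕ∞) ≤ (∞ : WithTop ℕ∞) := ENat.LEInfty.out

variable (I) in
/-- smooth at a point -/
abbrev SmAt (f : M → ℝ) (x : M) : Prop := ContMDiffAt I 𝓘(ℝ, ℝ) ∞ f x

variable (I) in
/-- differentiable at a point -/
abbrev MdAt (f : M → ℝ) (x : M) : Prop := MDifferentiableAt I 𝓘(ℝ, ℝ) f x

omit [IsManifold I ∞ M] in
lemma SmAt.md {f : M → ℝ} {x : M} (h : SmAt I f x) : MdAt I f x :=
  h.mdifferentiableAt (by simp)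

lemma SmAt.eventually_md {f : M → ℝ} {x : M} (h : SmAt I f x) : ∀ᶠ y in 𝓝 x, MdAt I f y := by
  have h1 : ContMDiffAt I 𝓘(ℝ, ℝ) 1 f x := h.of_le (by simp)
  have := (contMDiffAt_iff_contMDiffAt_nhds (I := I) (I' := 𝓘(ℝ, ℝ)) (n := 1) (by simp)).1 h1
  filter_upwards [this] with y hy using hy.mdifferentiableAt (by simp)

omit [IsManifold I ∞ M] in
lemma Smooth.at {f : M → ℝ} (h : Smooth I f) (x : M) : SmAt I f x := h x

omit [IsManifold I ∞ M] in
lemma Smooth.md {f : M → ℝ} (h : Smooth I f) (x : M) : MdAt I f x := (h.at x).md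

omit [IsManifold I ∞ M] in
lemma Smooth.cont {f : M → ℝ} (h : Smooth I f) : Continuous f := ContMDiff.continuous h

section dvrules
omit [IsManifold I ∞ M]
variable {f h : M → ℝ} {x : M}

lemma mv_add (hf : MdAt I f x) (hh : MdAt I h x) :
    mvfderiv I (fun y => f y + h y) x = mvfderiv I f x + mvfderiv I h x := mvfderiv_fun_add hf hh

lemma mv_sub (hf : MdAt I f x) (hh : MdAt I h x) :
    mvfderiv I (fun y => f y - h y) x = mvfderiv I f x - mvfderiv I h x := mvfderiv_fun_sub hf hh

lemma mv_mul (hf : MdAt I f x) (hh : MdAt I h x) :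
    mvfderiv I (fun y => f y * h y) x = f x • mvfderiv I h x + h x • mvfderiv I f x :=
  mvfderiv_fun_mul hf hh

lemma mv_neg : mvfderiv I (fun y => - f y) x = - mvfderiv I f x := mvfderiv_fun_neg

lemma mv_const (c : ℝ) : mvfderiv I (fun _ : M => c) x = 0 := mvfderiv_const c

lemma mv_congr (hfh : f =ᶠ[𝓝 x] h) : mvfderiv I f x = mvfderiv I h x := by
  ext v
  have := hfh.mfderiv_eq (I := I) (I' := 𝓘(ℝ, ℝ))
  simp only [mvfderiv]
  exact congrArg (fun L => L v) this

lemma mv_comp {c : ℝ → ℝ} {c' : ℝ} (hf : MdAt I f x) (hc : HasDerivAt c c' (f x)) :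
    mvfderiv I (fun y => c (f y)) x = c' • mvfderiv I f x := by
  have h1 : HasMFDerivAt 𝓘(ℝ, ℝ) 𝓘(ℝ, ℝ) c (f x)
      (ContinuousLinearMap.toSpanSingleton ℝ c') := hc.hasFDerivAt.hasMFDerivAt
  have h2 := (h1.comp x hf.hasMFDerivAt).mfderiv
  ext v
  have h3 := congrArg (fun L => L v) h2
  simp only [mvfderiv]
  refine h3.trans ?_
  change (mvfderiv I f x v) * c' = c' * (mvfderiv I f x v)
  exact mul_comm _ _

lemma MdAt.comp_real {c : ℝ → ℝ} (hf : MdAt I f x) (hc : DifferentiableAt ℝ c (f x)) :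
    MdAt I (fun y => c (f y)) x :=
  MDifferentiableAt.comp x (g := c) hc.mdifferentiableAt hf

end dvrules

variable (I) in
/-- tangent vector at `x` with coordinates `v` in the chart at `x₀` -/
noncomputable def tv (x₀ x : M) : E →L[ℝ] TangentSpace I x :=
  (trivializationAt E (TangentSpace I) x₀).symmL ℝ x

omit [IsManifold I ∞ M] in
lemma mem_src {x₀ x : M} (hx : x ∈ (extChartAt I x₀).source) : x ∈ (chartAt H x₀).source := by
  rwa [extChartAt_source] at hx

lemma tv_eq {x₀ x : M} (hx : x ∈ (extChartAt I x₀).source) (v : E) :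
    tv I x₀ x v = mfderivWithin 𝓘(ℝ, E) I (extChartAt I x₀).symm (range I) (extChartAt I x₀ x) v := by
  unfold tv
  rw [TangentBundle.symmL_trivializationAt (mem_src hx)]
  rfl

lemma mv_tv {x₀ x : M} (hx : x ∈ (extChartAt I x₀).source) {F : Type*} [NormedAddCommGroup F]
    [NormedSpace ℝ F] {f : M → F} (hf : MDifferentiableAt I 𝓘(ℝ, F) f x) (v : E) :
    mvfderiv I f x (tv I x₀ x v)
      = fderivWithin ℝ (f ∘ (extChartAt I x₀).symm) (range I) (extChartAt I x₀ x) v := by
  have hy := (extChartAt I x₀).map_source hx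
  have U : UniqueMDiffWithinAt 𝓘(ℝ, E) (range I) (extChartAt I x₀ x) :=
    I.uniqueMDiffOn _ (extChartAt_target_subset_range x₀ hy)
  have h1 := mfderiv_comp_mfderivWithin_of_eq (I' := I) (I'' := 𝓘(ℝ, F)) hf
    (mdifferentiableWithinAt_extChartAt_symm hy) U ((extChartAt I x₀).left_inv hx)
  rw [mfderivWithin_eq_fderivWithin] at h1
  rw [h1, tv_eq hx]
  rfl

/-- coordinates of a tangent vector -/
lemma mv_chart_tv {x₀ x : M} (hx : x ∈ (extChartAt I x₀).source) (v : E) :
    mvfderiv I (extChartAt I x₀) x (tv I x₀ x v) = v := by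
  have := mfderiv_extChartAt_comp_mfderivWithin_extChartAt_symm' (I := I) hx
  rw [tv_eq hx]
  exact congrArg (fun L => L v) this

lemma tv_mv_chart {x₀ x : M} (hx : x ∈ (extChartAt I x₀).source) (v : TangentSpace I x) :
    tv I x₀ x (mvfderiv I (extChartAt I x₀) x v) = v := by
  have := mfderivWithin_extChartAt_symm_comp_mfderiv_extChartAt' (I := I) hx
  rw [tv_eq hx]
  exact congrArg (fun L => L v) this

lemma contDiffWithinAt_rep {x₀ x : M} (hx : x ∈ (extChartAt I x₀).source) {f : M → ℝ}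
    (hf : SmAt I f x) : ContDiffWithinAt ℝ ∞ (rep I x₀ f) (range I) (extChartAt I x₀ x) := by
  have hy := (extChartAt I x₀).map_source hx
  have h1 : ContMDiffWithinAt 𝓘(ℝ, E) I ∞ (extChartAt I x₀).symm (range I)
      (extChartAt I x₀ x) := contMDiffWithinAt_extChartAt_symm_range x₀ hy
  have h2 : ContMDiffAt I 𝓘(ℝ, ℝ) ∞ f ((extChartAt I x₀).symm (extChartAt I x₀ x)) := by
    rw [(extChartAt I x₀).left_inv hx]; exact hf
  exact contMDiffWithinAt_iff_contDiffWithinAt.1 (h2.comp_contMDiffWithinAt _ h1)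

lemma smAt_of_chart {x₀ x : M} (hx : x ∈ (extChartAt I x₀).source) {F : E → ℝ}
    (hF : ContDiffWithinAt ℝ ∞ F (range I) (extChartAt I x₀ x)) :
    SmAt I (fun y => F (extChartAt I x₀ y)) x := by
  have h1 : ContMDiffAt I 𝓘(ℝ, E) ∞ (extChartAt I x₀) x := contMDiffAt_extChartAt' (mem_src hx)
  have h2 : ContMDiffWithinAt 𝓘(ℝ, E) 𝓘(ℝ, ℝ) ∞ F (range I) (extChartAt I x₀ x) :=
    contMDiffWithinAt_iff_contDiffWithinAt.2 hF
  have h3 := h2.comp x (s := univ) h1.contMDiffWithinAt (fun y _ => mem_range_self _)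
  exact contMDiffWithinAt_univ.1 h3

namespace Surf
variable (S : Surf I M)

/-- coordinate frame -/
noncomputable def fr (x₀ : M) (i : Fin 2) (x : M) : TangentSpace I x := tv I x₀ x (S.b i)

/-- coordinate derivative -/
noncomputable def D (x₀ : M) (i : Fin 2) (f : M → ℝ) (x : M) : ℝ := mvfderiv I f x (S.fr x₀ i x)

lemma D_eq {x₀ x : M} (hx : x ∈ (extChartAt I x₀).source) {f : M → ℝ} (hf : MdAt I f x)
    (i : Fin 2) :
    S.D x₀ i f x = fderivWithin ℝ (rep I x₀ f) (range I) (extChartAt I x₀ x) (S.b i) :=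
  mv_tv hx hf _

lemma D_eventuallyEq {x₀ x : M} (hx : x ∈ (extChartAt I x₀).source) {f : M → ℝ}
    (hf : SmAt I f x) (i : Fin 2) :
    S.D x₀ i f =ᶠ[𝓝 x]
      fun y => fderivWithin ℝ (rep I x₀ f) (range I) (extChartAt I x₀ y) (S.b i) := by
  filter_upwards [hf.eventually_md, (isOpen_extChartAt_source x₀).mem_nhds hx] with y h1 h2
  exact S.D_eq h2 h1 i

lemma smAt_D {x₀ x : M} (hx : x ∈ (extChartAt I x₀).source) {f : M → ℝ}
    (hf : SmAt I f x) (i : Fin 2) : SmAt I (S.D x₀ i f) x := by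
  have hy := extChartAt_target_subset_range x₀ ((extChartAt I x₀).map_source hx)
  have h1 : ContDiffWithinAt ℝ ∞ (fderivWithin ℝ (rep I x₀ f) (range I)) (range I)
      (extChartAt I x₀ x) :=
    (contDiffWithinAt_rep hx hf).fderivWithin_right I.uniqueDiffOn (by simp) hy
  have h2 := smAt_of_chart hx (h1.clm_apply contDiffWithinAt_const (g := fun _ => S.b i))
  exact h2.congr_of_eventuallyEq (S.D_eventuallyEq hx hf i)

lemma D_comm {x₀ x : M} (hx : x ∈ (extChartAt I x₀).source) {f : M → ℝ}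
    (hf : SmAt I f x) (i j : Fin 2) :
    S.D x₀ i (S.D x₀ j f) x = S.D x₀ j (S.D x₀ i f) x := by
  have hy0 := (extChartAt I x₀).map_source hx
  have hy := extChartAt_target_subset_range x₀ hy0
  have hc := contDiffWithinAt_rep hx hf
  have h1 : ContDiffWithinAt ℝ ∞ (fderivWithin ℝ (rep I x₀ f) (range I)) (range I)
      (extChartAt I x₀ x) := hc.fderivWithin_right I.uniqueDiffOn (by simp) hy
  have key : ∀ i j : Fin 2, S.D x₀ i (S.D x₀ j f) x =
      fderivWithin ℝ (fderivWithin ℝ (rep I x₀ f) (range I)) (range I) (extChartAt I x₀ x)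
        (S.b i) (S.b j) := by
    intro i j
    rw [S.D_eq hx (S.smAt_D hx hf j).md]
    have e1 : rep I x₀ (S.D x₀ j f) =ᶠ[𝓝[range I] (extChartAt I x₀ x)]
        fun y => fderivWithin ℝ (rep I x₀ f) (range I) y (S.b j) := by
      have hcont : ContinuousWithinAt (extChartAt I x₀).symm (range I) (extChartAt I x₀ x) :=
        (continuousAt_extChartAt_symm' hx).continuousWithinAt
      have ht : Tendsto (extChartAt I x₀).symm (𝓝[range I] (extChartAt I x₀ x)) (𝓝 x) := by
        have := hcont.tendsto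
        rwa [(extChartAt I x₀).left_inv hx] at this
      filter_upwards [ht.eventually (S.D_eventuallyEq hx hf j),
        extChartAt_target_mem_nhdsWithin_of_mem hy0] with y h2 h3
      simp only [rep, Function.comp_apply] at h2 ⊢
      rw [h2, (extChartAt I x₀).right_inv h3]
    rw [e1.fderivWithin_eq (e1.eq_of_nhdsWithin hy)]
    have h4 := (h1.differentiableWithinAt (by simp)).hasFDerivWithinAt
    have h5 := (h4.clm_apply (hasFDerivWithinAt_const (S.b j) _ _)).fderivWithin
      (I.uniqueDiffOn _ hy)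
    rw [h5]
    simp
  rw [key, key]
  have hs : IsSymmSndFDerivWithinAt ℝ (rep I x₀ f) (range I) (extChartAt I x₀ x) :=
    hc.isSymmSndFDerivWithinAt (by simpa using two_le_inf) I.uniqueDiffOn (I.range_subset_closure_interior hy) hy
  exact hs.eq _ _

end Surf

end Pool.Agent.P.MP_9c695c_an
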