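import Pool.Agent.P.MP_9c695c_an.Bounds

/-!
Integration against the Riemannian area: chart formulas, finiteness, integration by parts,
the vanishing of the integral of a bracket and the Laplacian of an interior test function.
-/

open scoped Manifold ContDiff ENNReal Topology
open MeasureTheory Set Filter Bundle

set_option backward.isDefEq.respectTransparency false
set_option linter.unusedSectionVars false

namespace Pool.Agent.P.MP_9c695c_an

variable {E : Type*} [NormedAddCommGroup E] [InnerProductSpace ℝ E]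
  {H : Type*} [TopologicalSpace H] {I : ModelWithCorners ℝ E H}
  {M : Type*} [TopologicalSpace M] [ChartedSpace H M] [IsManifold I ∞ M]

lemma smooth_indicator {U K : Set M} (hU : IsOpen U) (hK : IsClosed K) (hKU : K ⊆ U)
    {F : M → ℝ} (hF : ∀ x ∈ U, SmAt I F x) (h0 : ∀ x ∈ U, x ∉ K → F x = 0) :
    Smooth I (U.indicator F) := by
  intro x
  by_cases hx : x ∈ U
  · refine (hF x hx).congr_of_eventuallyEq ?_
    filter_upwards [hU.mem_nhds hx] with y hy using indicator_of_mem hy _
  · refine (contMDiffAt_const (c := (0 : ℝ))).congr_of_eventuallyEq ?_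
    filter_upwards [hK.isOpen_compl.mem_nhds (fun h => hx (hKU h))] with y hy
    by_cases hyU : y ∈ U
    · rw [indicator_of_mem hyU, h0 y hyU hy]
    · exact indicator_of_notMem hyU _

lemma Smooth.add {f h : M → ℝ} (hf : Smooth I f) (hh : Smooth I h) :
    Smooth I (fun x => f x + h x) := ContMDiff.add hf hh
lemma Smooth.sub {f h : M → ℝ} (hf : Smooth I f) (hh : Smooth I h) :
    Smooth I (fun x => f x - h x) := ContMDiff.sub hf hh
lemma Smooth.mul {f h : M → ℝ} (hf : Smooth I f) (hh : Smooth I h) :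
    Smooth I (fun x => f x * h x) := ContMDiff.mul hf hh
lemma Smooth.const (c : ℝ) : Smooth I (fun _ : M => c) := contMDiff_const
lemma Smooth.comp_real {f : M → ℝ} (hf : Smooth I f) {c : ℝ → ℝ} (hc : ContDiff ℝ ∞ c) :
    Smooth I (fun x => c (f x)) := hc.contMDiff.comp hf

lemma Surf.D_of_notMem (S : Surf I M) (x₀ : M) (i : Fin 2) {f : M → ℝ} {x : M}
    (hx : x ∉ tsupport f) : S.D x₀ i f x = 0 := by
  rw [S.D_congr x₀ i (notMem_tsupport_iff_eventuallyEq.1 hx)]
  exact S.D_const x₀ i 0

lemma Surf.grad_of_notMem (S : Surf I M) {f : M → ℝ} {x : M}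
    (hx : x ∉ tsupport f) : S.grad f x = 0 := by
  rw [S.grad_congr (notMem_tsupport_iff_eventuallyEq.1 hx)]
  exact S.grad_const 0

lemma Surf.dens_eq (S : Surf I M) {x₀ : M} {y : E} (hy : y ∈ (extChartAt I x₀).target) :
    S.dens x₀ y = S.rho x₀ ((extChartAt I x₀).symm y) := by
  have h1 : ∀ i, S.cvec x₀ y i = S.fr x₀ i ((extChartAt I x₀).symm y) := fun i => by
    unfold Surf.fr Surf.cvec
    rw [tv_eq ((extChartAt I x₀).map_target hy), (extChartAt I x₀).right_inv hy]
  unfold Surf.dens Surf.rho Surf.dt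
  rw [Matrix.det_fin_two]
  simp only [Matrix.of_apply, h1]
  rw [S.ip_symm _ (S.fr x₀ 1 _) (S.fr x₀ 0 _)]
  rfl

lemma Surf.continuousOn_dens (S : Surf I M) (x₀ : M) :
    ContinuousOn (S.dens x₀) (extChartAt I x₀).target := by
  have h1 : ContinuousOn (S.rho x₀) (extChartAt I x₀).source := fun x hx =>
    (S.smAt_rho hx).continuousAt.continuousWithinAt
  exact (h1.comp (continuousOn_extChartAt_symm x₀) (extChartAt I x₀).mapsTo_symm).congr
    fun y hy => S.dens_eq hy

variable [FiniteDimensional ℝ E] [MeasurableSpace E] [BorelSpace E]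

lemma measurableSet_target (x₀ : M) : MeasurableSet (extChartAt I x₀).target := by
  rw [extChartAt_target]
  exact ((chartAt H x₀).open_target.preimage I.continuous_symm).measurableSet.inter
    I.isClosed_range.measurableSet

lemma measurableSet_chart_image {x₀ : M} {A : Set M} (hA : IsOpen A)
    (hs : A ⊆ (extChartAt I x₀).source) : MeasurableSet (extChartAt I x₀ '' A) := by
  obtain ⟨u, hu, h⟩ := continuousOn_iff'.1 (continuousOn_extChartAt_symm (I := I) x₀) A hA
  rw [← inter_eq_right.2 hs, PartialEquiv.image_source_inter_eq', inter_comm, h]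
  exact hu.measurableSet.inter (measurableSet_target x₀)

variable [MeasurableSpace M] [BorelSpace M]

namespace Surf
variable {S : Surf I M} {μ : Measure M}

lemma IsArea.restrict_eq (hμ : S.IsArea μ) (x₀ : M) :
    μ.restrict (extChartAt I x₀).source = Measure.map (extChartAt I x₀).symm
      ((volume.restrict (extChartAt I x₀).target).withDensity
        fun y => ENNReal.ofReal (S.dens x₀ y)) := by
  have hm : AEMeasurable (extChartAt I x₀).symm ((volume.restrict (extChartAt I x₀).target).withDensity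
        fun y => ENNReal.ofReal (S.dens x₀ y)) :=
    ((continuousOn_extChartAt_symm x₀).aemeasurable (measurableSet_target x₀)).mono_ac
      (withDensity_absolutelyContinuous _ _)
  ext A hA
  rw [Measure.map_apply_of_aemeasurable hm hA, withDensity_apply',
    Measure.restrict_restrict' (measurableSet_target x₀), Measure.restrict_apply hA,
    hμ x₀ _ (hA.inter (isOpen_extChartAt_source x₀).measurableSet) inter_subset_right,
    inter_comm A, PartialEquiv.image_source_inter_eq', inter_comm]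

lemma aemeasurable_dens (S : Surf I M) (x₀ : M) :
    AEMeasurable (fun y => ENNReal.ofReal (S.dens x₀ y))
      (volume.restrict (extChartAt I x₀).target) :=
  ((S.continuousOn_dens x₀).aemeasurable (measurableSet_target x₀)).ennreal_ofReal

lemma IsArea.integral_chart (hμ : S.IsArea μ) (x₀ : M) {h : M → ℝ}
    (hh : ContinuousOn h (extChartAt I x₀).source) :
    ∫ x in (extChartAt I x₀).source, h x ∂μ =
      ∫ y in (extChartAt I x₀).target, S.dens x₀ y * h ((extChartAt I x₀).symm y) := by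
  have hm : AEMeasurable (extChartAt I x₀).symm ((volume.restrict (extChartAt I x₀).target).withDensity
        fun y => ENNReal.ofReal (S.dens x₀ y)) :=
    ((continuousOn_extChartAt_symm x₀).aemeasurable (measurableSet_target x₀)).mono_ac
      (withDensity_absolutelyContinuous _ _)
  have h1 : AEStronglyMeasurable h (μ.restrict (extChartAt I x₀).source) :=
    hh.aestronglyMeasurable (isOpen_extChartAt_source x₀).measurableSet
  rw [hμ.restrict_eq x₀] at h1 ⊢
  rw [integral_map hm h1, integral_withDensity_eq_integral_toReal_smul₀ (S.aemeasurable_dens x₀)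
    (Eventually.of_forall fun _ => ENNReal.ofReal_lt_top)]
  refine integral_congr_ae (Eventually.of_forall fun y => ?_)
  simp only [smul_eq_mul]
  rw [ENNReal.toReal_ofReal (show 0 ≤ S.dens x₀ y from Real.sqrt_nonneg _)]

lemma IsArea.lintegral_chart (hμ : S.IsArea μ) (x₀ : M) {F : M → ℝ≥0∞} (hF : Measurable F) :
    ∫⁻ x in (extChartAt I x₀).source, F x ∂μ =
      ∫⁻ y in (extChartAt I x₀).target,
        ENNReal.ofReal (S.dens x₀ y) * F ((extChartAt I x₀).symm y) := by
  have hm0 := (continuousOn_extChartAt_symm (I := I) x₀).aemeasurable (μ := volume)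
    (measurableSet_target x₀)
  have hm : AEMeasurable (extChartAt I x₀).symm ((volume.restrict (extChartAt I x₀).target).withDensity
        fun y => ENNReal.ofReal (S.dens x₀ y)) :=
    hm0.mono_ac (withDensity_absolutelyContinuous _ _)
  rw [hμ.restrict_eq x₀, lintegral_map' hF.aemeasurable hm]
  exact lintegral_withDensity_eq_lintegral_mul₀ (S.aemeasurable_dens x₀)
      (hF.comp_aemeasurable hm0)

lemma IsArea.exists_open (hμ : S.IsArea μ) (x₀ : M) {U : Set M} (hU : U ∈ 𝓝 x₀) :
    ∃ A : Set M, IsOpen A ∧ x₀ ∈ A ∧ A ⊆ U ∧ 0 < μ A ∧ μ A < ⊤ := by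
  have hx := mem_extChartAt_source (I := I) x₀
  have hr := S.rho_pos hx
  have hc := (S.smAt_rho hx).continuousAt
  have h1 : ∀ᶠ x in 𝓝 x₀, x ∈ U ∧ x ∈ (extChartAt I x₀).source ∧ S.rho x₀ x₀ / 2 < S.rho x₀ x ∧
      S.rho x₀ x < S.rho x₀ x₀ + 1 ∧ extChartAt I x₀ x ∈ Metric.ball (extChartAt I x₀ x₀) 1 := by
    filter_upwards [hU, (isOpen_extChartAt_source x₀).mem_nhds hx,
      hc.eventually (lt_mem_nhds (half_lt_self hr)), hc.eventually (gt_mem_nhds (lt_add_one _)),
      (continuousAt_extChartAt (I := I) x₀).eventually (Metric.ball_mem_nhds _ one_pos)]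
      with x h1 h2 h3 h4 h5 using ⟨h1, h2, h3, h4, h5⟩
  obtain ⟨A, hA, hAo, hxA⟩ := _root_.mem_nhds_iff.1 h1
  have hAs : A ⊆ (extChartAt I x₀).source := fun x hx => (hA hx).2.1
  have hm := measurableSet_chart_image hAo hAs
  have hd : ∀ y ∈ extChartAt I x₀ '' A, S.rho x₀ x₀ / 2 < S.dens x₀ y ∧
      S.dens x₀ y < S.rho x₀ x₀ + 1 := by
    rintro _ ⟨x, hx, rfl⟩
    rw [S.dens_eq ((extChartAt I x₀).map_source (hAs hx)), (extChartAt I x₀).left_inv (hAs hx)]
    exact ⟨(hA hx).2.2.1, (hA hx).2.2.2.1⟩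
  refine ⟨A, hAo, hxA, fun x hx => (hA hx).1, ?_, ?_⟩
  · rw [hμ x₀ A hAo.measurableSet hAs]
    have h2 : ∫⁻ _ in extChartAt I x₀ '' A, ENNReal.ofReal (S.rho x₀ x₀ / 2)
        ≤ ∫⁻ y in extChartAt I x₀ '' A, ENNReal.ofReal (S.dens x₀ y) :=
      setLIntegral_mono' hm fun y hy => ENNReal.ofReal_le_ofReal (hd y hy).1.le
    refine lt_of_lt_of_le ?_ h2
    rw [setLIntegral_const]
    refine ENNReal.mul_pos (ENNReal.ofReal_pos.2 (half_pos hr)).ne' ?_
    have h3 : extChartAt I x₀ '' A ∈ 𝓝[range I] (extChartAt I x₀ x₀) := by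
      rw [← map_extChartAt_nhds]
      exact image_mem_map (hAo.mem_nhds hxA)
    obtain ⟨u, hu, hxu, hsub⟩ := mem_nhdsWithin.1 h3
    have h4 : (u ∩ interior (range I)).Nonempty := _root_.mem_closure_iff.1
      (I.range_subset_closure_interior (extChartAt_target_subset_range x₀
        ((extChartAt I x₀).map_source hx))) u hu hxu
    exact ((hu.inter isOpen_interior).measure_pos volume h4).trans_le
      (measure_mono fun y hy => hsub ⟨hy.1, interior_subset hy.2⟩) |>.ne'
  · rw [hμ x₀ A hAo.measurableSet hAs]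
    have h2 : ∫⁻ y in extChartAt I x₀ '' A, ENNReal.ofReal (S.dens x₀ y)
        ≤ ∫⁻ _ in extChartAt I x₀ '' A, ENNReal.ofReal (S.rho x₀ x₀ + 1) :=
      setLIntegral_mono' hm fun y hy => ENNReal.ofReal_le_ofReal (hd y hy).2.le
    refine lt_of_le_of_lt h2 ?_
    rw [setLIntegral_const]
    refine ENNReal.mul_lt_top ENNReal.ofReal_lt_top ?_
    refine lt_of_le_of_lt (measure_mono ?_) (measure_ball_lt_top (x := extChartAt I x₀ x₀) (r := 1))
    rintro _ ⟨x, hx, rfl⟩
    exact (hA hx).2.2.2.2

lemma IsArea.finite [CompactSpace M] (hμ : S.IsArea μ) : IsFiniteMeasure μ := by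
  have : IsLocallyFiniteMeasure μ := ⟨fun x => by
    obtain ⟨A, hA, hx, -, -, h⟩ := hμ.exists_open x univ_mem
    exact ⟨A, hA.mem_nhds hx, h⟩⟩
  infer_instance

lemma IsArea.openPos (hμ : S.IsArea μ) : μ.IsOpenPosMeasure := ⟨fun U hU ⟨x, hx⟩ => by
  obtain ⟨A, -, -, hAU, h, -⟩ := hμ.exists_open x (hU.mem_nhds hx)
  exact (h.trans_le (measure_mono hAU)).ne'⟩

variable [CompactSpace M] [T2Space M]

lemma IsArea.integrable (hμ : S.IsArea μ) {f : M → ℝ} (hf : Continuous f) : Integrable f μ := by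
  have := hμ.finite
  exact hf.integrable_of_hasCompactSupport (HasCompactSupport.of_compactSpace f)

/-- integration by parts in a chart -/
lemma IsArea.ibp (hμ : S.IsArea μ) (x₀ : M) (i : Fin 2) {K : Set M} (hK : IsClosed K)
    (hKU : K ⊆ (extChartAt I x₀).source) {V : M → ℝ}
    (hV : ∀ x ∈ (extChartAt I x₀).source, SmAt I V x)
    (h0 : ∀ x ∈ (extChartAt I x₀).source, x ∉ K → V x = 0)
    (hb : ∀ x ∈ (extChartAt I x₀).source, x ∈ I.boundary M → V x = 0) :
    Smooth I ((extChartAt I x₀).source.indicator fun x => S.D x₀ i V x / S.rho x₀ x) ∧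
    ∫ x, (extChartAt I x₀).source.indicator (fun x => S.D x₀ i V x / S.rho x₀ x) x ∂μ = 0 := by
  have hU := isOpen_extChartAt_source (I := I) x₀
  have hsm : ∀ x ∈ (extChartAt I x₀).source, SmAt I (fun x => S.D x₀ i V x / S.rho x₀ x) x :=
    fun x hx => SmAt.div (S.smAt_D hx (hV x hx) i) (S.smAt_rho hx) (S.rho_pos hx).ne'
  have hz : ∀ x ∈ (extChartAt I x₀).source, x ∉ K → V =ᶠ[𝓝 x] fun _ => 0 := by
    intro x hx hxK
    filter_upwards [hU.mem_nhds hx, hK.isOpen_compl.mem_nhds hxK] with y h1 h2 using h0 y h1 h2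
  refine ⟨smooth_indicator hU hK hKU hsm fun x hx hxK => by
    rw [S.D_congr x₀ i (hz x hx hxK), S.D_const, zero_div], ?_⟩
  rw [integral_indicator hU.measurableSet,
    hμ.integral_chart x₀ fun x hx => (hsm x hx).continuousAt.continuousWithinAt]
  set W : E → ℝ := (extChartAt I x₀).target.indicator (rep I x₀ V) with hW
  have hKc : IsCompact (extChartAt I x₀ '' K) :=
    hK.isCompact.image_of_continuousOn ((continuousOn_extChartAt x₀).mono hKU)
  have hW0 : ∀ y, y ∉ extChartAt I x₀ '' K → W y = 0 := by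
    intro y hy
    by_cases hyt : y ∈ (extChartAt I x₀).target
    · rw [hW, indicator_of_mem hyt]
      refine h0 _ ((extChartAt I x₀).map_target hyt) fun h => hy ⟨_, h, ?_⟩
      exact (extChartAt I x₀).right_inv hyt
    · exact indicator_of_notMem hyt _
  have hWe : ∀ y ∈ (extChartAt I x₀).target, W =ᶠ[𝓝[range I] y] rep I x₀ V := by
    intro y hy
    filter_upwards [extChartAt_target_mem_nhdsWithin_of_mem hy] with z hz
    exact indicator_of_mem hz _
  have hWz : ∀ y ∉ (extChartAt I x₀).target, W =ᶠ[𝓝 y] fun _ => 0 := by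
    intro y hy
    have : y ∉ extChartAt I x₀ '' K := by
      rintro ⟨x, hx, rfl⟩
      exact hy ((extChartAt I x₀).map_source (hKU hx))
    filter_upwards [hKc.isClosed.isOpen_compl.mem_nhds this] with z hz using hW0 z hz
  have hWc : ContDiffOn ℝ 1 W (range I) := by
    intro y hy
    by_cases hyt : y ∈ (extChartAt I x₀).target
    · have h1 := contDiffWithinAt_rep ((extChartAt I x₀).map_target hyt)
        (hV _ ((extChartAt I x₀).map_target hyt))
      rw [(extChartAt I x₀).right_inv hyt] at h1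
      exact (h1.of_le (by simp)).congr_of_eventuallyEq (hWe y hyt)
        ((hWe y hyt).eq_of_nhdsWithin hy)
    · exact (contDiffAt_const.congr_of_eventuallyEq (hWz y hyt)).contDiffWithinAt
  have hWf : ∀ y ∈ frontier (range I), W y = 0 := by
    intro y hy
    by_cases hyt : y ∈ (extChartAt I x₀).target
    · rw [hW, indicator_of_mem hyt]
      refine hb _ ((extChartAt I x₀).map_target hyt) ?_
      rw [mem_boundary_iff_chart ((extChartAt I x₀).map_target hyt),
        (extChartAt I x₀).right_inv hyt]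
      exact hy
    · exact indicator_of_notMem hyt _
  have key := integral_fderivWithin_eq_zero (volume : Measure E) I.isClosed_range I.convex_range
    I.uniqueDiffOn hKc hWc (fun y _ hy => hW0 y hy) hWf (S.b i)
  rw [← key, setIntegral_eq_of_subset_of_forall_sdiff_eq_zero I.isClosed_range.measurableSet
    (extChartAt_target_subset_range x₀) (fun y hy => by
      rw [((hWz y hy.2).filter_mono nhdsWithin_le_nhds).fderivWithin_eq (hWz y hy.2).eq_of_nhds]
      simp)]
  refine setIntegral_congr_fun (measurableSet_target x₀) fun y hy => ?_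
  have hx := (extChartAt I x₀).map_target hy
  rw [S.dens_eq hy, mul_div_cancel₀ _ (S.rho_pos hx).ne', S.D_eq hx (hV _ hx).md,
    (extChartAt I x₀).right_inv hy,
    (hWe y hy).fderivWithin_eq ((hWe y hy).eq_of_nhdsWithin (extChartAt_target_subset_range x₀ hy))]

end Surf

lemma local_to_global [CompactSpace M] [T2Space M] (L : (M → ℝ) → ℝ)
    (hadd : ∀ f h, Smooth I f → Smooth I h → L (fun x => f x + h x) = L f + L h)
    (hloc : ∀ x : M, ∃ W ∈ 𝓝 x, ∀ h, Smooth I h → tsupport h ⊆ W → L h = 0)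
    {h : M → ℝ} (hh : Smooth I h) : L h = 0 := by
  classical
  choose W hW hL using hloc
  obtain ⟨t, ht⟩ := CompactSpace.elim_nhds_subcover (fun x => interior (W x))
    fun x => interior_mem_nhds.2 (hW x)
  obtain ⟨ρ, hρ⟩ := SmoothPartitionOfUnity.exists_isSubordinate I (s := univ) isClosed_univ
    (fun i : t => interior (W i)) (fun _ => isOpen_interior) (by
      intro x hx
      have : x ∈ ⋃ y ∈ t, interior (W y) := ht ▸ mem_univ x
      obtain ⟨y, hy, hxy⟩ := mem_iUnion₂.1 this
      exact mem_iUnion.2 ⟨⟨y, hy⟩, hxy⟩)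
  have hs : ∀ i : t, Smooth I (fun x => ρ i x * h x) := fun i => Smooth.mul (ρ i).contMDiff hh
  have h0 : L (fun _ => 0) = 0 := by
    have := hadd _ _ (Smooth.const 0) (Smooth.const 0)
    simp only [add_zero] at this
    linarith
  have key : ∀ s : Finset t, Smooth I (fun x => ∑ i ∈ s, ρ i x * h x) ∧
      L (fun x => ∑ i ∈ s, ρ i x * h x) = 0 := by
    intro s
    induction s using Finset.induction_on with
    | empty => simpa using ⟨Smooth.const 0, h0⟩
    | insert i s hi ih =>
      simp only [Finset.sum_insert hi]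
      refine ⟨(hs i).add ih.1, ?_⟩
      rw [hadd _ _ (hs i) ih.1, ih.2, add_zero]
      exact hL i _ (hs i) ((tsupport_mul_subset_left.trans (hρ i)).trans interior_subset)
  have : h = fun x => ∑ i : t, ρ i x * h x := by
    funext x
    rw [← Finset.sum_mul, ← finsum_eq_sum_of_fintype, ρ.sum_eq_one (mem_univ x), one_mul]
  rw [this]
  exact (key _).2

namespace Surf
variable {S : Surf I M} {μ : Measure M} [CompactSpace M] [T2Space M]

lemma br_add_right (S : Surf I M) (ψ : M → ℝ) {f h : M → ℝ} {x : M} (hf : MdAt I f x)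
    (hh : MdAt I h x) : S.br ψ (fun y => f y + h y) x = S.br ψ f x + S.br ψ h x := by
  simp only [br_eq, S.grad_add hf hh, ip_add_right]

/-- the integral of a bracket with a tangent stream function vanishes -/
lemma IsArea.integral_br (hμ : S.IsArea μ) {ψ h : M → ℝ} (hψ : Smooth I ψ) (tψ : Tangent I ψ)
    (hh : Smooth I h) : ∫ x, S.br ψ h x ∂μ = 0 := by
  refine local_to_global (I := I) (fun h => ∫ x, S.br ψ h x ∂μ) ?_ ?_ hh
  · intro f h hf hh
    rw [← integral_add (hμ.integrable (S.smooth_br hψ hf).cont)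
      (hμ.integrable (S.smooth_br hψ hh).cont)]
    exact integral_congr_ae (Eventually.of_forall fun x => S.br_add_right ψ (hf.md x) (hh.md x))
  intro x₀
  have hx := mem_extChartAt_source (I := I) x₀
  have hU := isOpen_extChartAt_source (I := I) x₀
  obtain ⟨σ, hσ, hev⟩ := S.ar_eventually hx
  have hc : ∀ᶠ y in 𝓝 x₀, y ∈ I.boundary M → ψ y = ψ x₀ := by
    by_cases hb : x₀ ∈ I.boundary M
    · exact tψ.eventually hb
    · filter_upwards [(I.isClosed_boundary (n := ∞) (by simp)).isOpen_compl.mem_nhds hb]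
        with y hy hyb using absurd hyb hy
  refine ⟨_, (hev.and hc).and (hU.mem_nhds hx), fun h hh hsup => ?_⟩
  have hV : ∀ i j : Fin 2, _ := fun i j => hμ.ibp x₀ i (isClosed_tsupport h)
    (fun x hx => (hsup hx).2) (V := fun x => (ψ x - ψ x₀) * S.D x₀ j h x)
    (fun x hx => ((hψ x).sub contMDiffAt_const).mul (S.smAt_D hx (hh x) j))
    (fun x _ hxK => by simp only [S.D_of_notMem x₀ j hxK, mul_zero])
    (fun x _ hxb => by
      by_cases hxK : x ∈ tsupport h
      · simp only [(hsup hxK).1.2 hxb, sub_self, zero_mul]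
      · simp only [S.D_of_notMem x₀ j hxK, mul_zero])
  have e := integral_sub (hμ.integrable (hV 0 1).1.cont) (hμ.integrable (hV 1 0).1.cont)
  rw [(hV 0 1).2, (hV 1 0).2, sub_zero] at e
  rw [← mul_zero σ, ← e, ← integral_const_mul]
  refine integral_congr_ae (Eventually.of_forall fun x => ?_)
  simp only
  by_cases hxU : x ∈ (extChartAt I x₀).source
  · rw [indicator_of_mem hxU, indicator_of_mem hxU,
      S.D_mul x₀ 0 ((hψ.sub (Smooth.const _)).md x) (S.smAt_D hxU (hh x) 1).md,
      S.D_mul x₀ 1 ((hψ.sub (Smooth.const _)).md x) (S.smAt_D hxU (hh x) 0).md,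
      S.D_sub x₀ 0 (hψ.md x) mdifferentiableAt_const, S.D_sub x₀ 1 (hψ.md x) mdifferentiableAt_const,
      S.D_const, S.D_const, S.D_comm hxU (hh x) 0 1, S.br_chart hxU]
    by_cases hxK : x ∈ tsupport h
    · have h1 := (hsup hxK).1.1
      have h2 := (S.rho_pos hxU).ne'
      have h3 : σ ≠ 0 := by rintro rfl; simp at hσ
      rw [h1]
      field_simp
      linear_combination (S.D x₀ 1 ψ x * S.D x₀ 0 h x - S.D x₀ 0 ψ x * S.D x₀ 1 h x) * hσ
    · rw [S.D_of_notMem x₀ 0 hxK, S.D_of_notMem x₀ 1 hxK]; simp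
  · have hxK : x ∉ tsupport h := fun h => hxU (hsup h).2
    rw [indicator_of_notMem hxU, indicator_of_notMem hxU, br_eq, S.grad_of_notMem hxK]
    simp

/-- the Laplacian of a test function supported in the interior of a chart -/
lemma IsArea.exists_laplacian (hμ : S.IsArea μ) (x₀ : M) {f : M → ℝ} (hf : Smooth I f)
    (hs : tsupport f ⊆ (extChartAt I x₀).source) (hi : tsupport f ⊆ I.interior M) :
    ∃ L : M → ℝ, Smooth I L ∧ (∀ x ∉ tsupport f, L x = 0) ∧
      ∀ h : M → ℝ, Smooth I h → ∫ x, (L x * h x + S.gam f h x) ∂μ = 0 := by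
  have hU := isOpen_extChartAt_source (I := I) x₀
  let X0 : M → ℝ := fun x => S.rho x₀ x * (S.a00 x₀ x * S.D x₀ 0 f x + S.a01 x₀ x * S.D x₀ 1 f x)
  let X1 : M → ℝ := fun x => S.rho x₀ x * (S.a01 x₀ x * S.D x₀ 0 f x + S.a11 x₀ x * S.D x₀ 1 f x)
  have s0 : ∀ x ∈ (extChartAt I x₀).source, SmAt I X0 x := fun x hx =>
    (S.smAt_rho hx).mul (((S.smAt_a00 hx).mul (S.smAt_D hx (hf x) 0)).add
      ((S.smAt_a01 hx).mul (S.smAt_D hx (hf x) 1)))
  have s1 : ∀ x ∈ (extChartAt I x₀).source, SmAt I X1 x := fun x hx =>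
    (S.smAt_rho hx).mul (((S.smAt_a01 hx).mul (S.smAt_D hx (hf x) 0)).add
      ((S.smAt_a11 hx).mul (S.smAt_D hx (hf x) 1)))
  have z0 : ∀ x ∉ tsupport f, X0 x = 0 := fun x hx => by
    simp only [X0, S.D_of_notMem x₀ _ hx, mul_zero, add_zero]
  have z1 : ∀ x ∉ tsupport f, X1 x = 0 := fun x hx => by
    simp only [X1, S.D_of_notMem x₀ _ hx, mul_zero, add_zero]
  have nb : ∀ x ∈ I.boundary M, x ∉ tsupport f := fun x hx h =>
    (I.disjoint_interior_boundary (M := M)).notMem_of_mem_left (hi h) hx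
  have w0 : ∀ h, Smooth I h → _ := fun h hh => hμ.ibp x₀ 0 (isClosed_tsupport f) hs
    (V := fun x => h x * X0 x) (fun x hx => (hh x).mul (s0 x hx))
    (fun x _ hx => by simp only [z0 x hx, mul_zero])
    (fun x _ hx => by simp only [z0 x (nb x hx), mul_zero])
  have w1 : ∀ h, Smooth I h → _ := fun h hh => hμ.ibp x₀ 1 (isClosed_tsupport f) hs
    (V := fun x => h x * X1 x) (fun x hx => (hh x).mul (s1 x hx))
    (fun x _ hx => by simp only [z1 x hx, mul_zero])
    (fun x _ hx => by simp only [z1 x (nb x hx), mul_zero])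
  have dz : ∀ {X : M → ℝ}, (∀ x ∉ tsupport f, X x = 0) → ∀ i, ∀ x ∉ tsupport f,
      S.D x₀ i X x = 0 := by
    intro X hX i x hx
    rw [S.D_congr x₀ i (h := fun _ => 0), S.D_const]
    filter_upwards [(isClosed_tsupport f).isOpen_compl.mem_nhds hx] with y hy using hX y hy
  refine ⟨(extChartAt I x₀).source.indicator fun x => (S.D x₀ 0 X0 x + S.D x₀ 1 X1 x) / S.rho x₀ x,
    smooth_indicator hU (isClosed_tsupport f) hs (fun x hx => SmAt.div
      ((S.smAt_D hx (s0 x hx) 0).add (S.smAt_D hx (s1 x hx) 1)) (S.smAt_rho hx) (S.rho_pos hx).ne')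
      (fun x _ hx => by rw [dz z0 0 x hx, dz z1 1 x hx]; simp), fun x hx => ?_, fun h hh => ?_⟩
  · by_cases hxU : x ∈ (extChartAt I x₀).source
    · rw [indicator_of_mem hxU, dz z0 0 x hx, dz z1 1 x hx]; simp
    · exact indicator_of_notMem hxU _
  have e := integral_add (hμ.integrable (w0 h hh).1.cont) (hμ.integrable (w1 h hh).1.cont)
  rw [(w0 h hh).2, (w1 h hh).2, add_zero] at e
  rw [← e]
  refine integral_congr_ae (Eventually.of_forall fun x => ?_)
  simp only
  by_cases hxU : x ∈ (extChartAt I x₀).source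
  · rw [indicator_of_mem hxU, indicator_of_mem hxU, indicator_of_mem hxU,
      S.D_mul x₀ 0 (hh.md x) (s0 x hxU).md, S.D_mul x₀ 1 (hh.md x) (s1 x hxU).md, S.gam_a hxU]
    have h2 := (S.rho_pos hxU).ne'
    simp only [X0, X1]
    field_simp
    ring
  · have hxK : x ∉ tsupport f := fun h => hxU (hs h)
    rw [indicator_of_notMem hxU, indicator_of_notMem hxU, indicator_of_notMem hxU, gam,
      S.grad_of_notMem hxK]
    simp

end Surf

end Pool.Agent.P.MP_9c695c_an
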