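import Pool.Agent.P.MP_9c695c_an.Main
import Pool.Agent.P.MP_9c695c_an.BDefs
import Pool.Agent.P.MP_9c695c_an.Diff

/-!
Comparison of the intrinsic Sobolev norms with derivatives in a chart.
-/

open scoped Manifold ContDiff ENNReal Topology
open MeasureTheory Set Filter Bundle Metric

set_option backward.isDefEq.respectTransparency false
set_option linter.unusedSectionVars false

namespace Pool.Agent.P.MP_9c695c_an

variable {E : Type*} [NormedAddCommGroup E] [InnerProductSpace ℝ E]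
  {H : Type*} [TopologicalSpace H] {I : ModelWithCorners ℝ E H}
  {M : Type*} [TopologicalSpace M] [ChartedSpace H M] [IsManifold I ∞ M]
  {n : ℕ} {V : Fin n → (x : M) → TangentSpace I x}

lemma IsFrame.contMDiffAt_coord (hV : IsFrame I V) (i : Fin n) {x₀ x : M}
    (hx : x ∈ (extChartAt I x₀).source) :
    ContMDiffAt I 𝓘(ℝ, E) ∞ (fun y => mvfderiv I (extChartAt I x₀) y (V i y)) x := by
  have hb : x ∈ (trivializationAt E (TangentSpace I) x₀).baseSet := by simpa using mem_src hx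
  have h1 := ((trivializationAt E (TangentSpace I) x₀).contMDiffAt_section_iff hb).1 (hV.smooth i x)
  refine h1.congr_of_eventuallyEq ?_
  filter_upwards [(trivializationAt E (TangentSpace I) x₀).open_baseSet.mem_nhds hb,
    (isOpen_extChartAt_source x₀).mem_nhds hx] with y hy hy'
  rw [← mv_chart_tv hy' ((trivializationAt E (TangentSpace I) x₀) ⟨y, V i y⟩).2]
  congr 1
  simp only [tv]
  rw [Trivialization.symmL_apply _ hy, Trivialization.symm_apply_apply_mk _ hy]

lemma dv_chart {x₀ x : M} (hx : x ∈ (extChartAt I x₀).source) {f : M → ℝ} (hf : MdAt I f x)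
    (w : TangentSpace I x) : dv I f x w = fderivWithin ℝ (rep I x₀ f) (range I)
      (extChartAt I x₀ x) (mvfderiv I (extChartAt I x₀) x w) := by
  conv_lhs => rw [← tv_mv_chart hx w]
  exact mv_tv hx hf _

lemma IsFrame.smooth_dv (hV : IsFrame I V) (i : Fin n) {f : M → ℝ} (hf : Smooth I f) :
    Smooth I fun x => dv I f x (V i x) := by
  intro x
  have hx := mem_extChartAt_source (I := I) x
  have hy := extChartAt_target_subset_range x ((extChartAt I x).map_source hx)
  have h1 : ContDiffWithinAt ℝ ∞ (fderivWithin ℝ (rep I x f) (range I)) (range I)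
      (extChartAt I x x) :=
    (contDiffWithinAt_rep hx (hf x)).fderivWithin_right I.uniqueDiffOn (by simp) hy
  have h2 : ContMDiffAt I 𝓘(ℝ, E) ∞ (extChartAt I x) x := contMDiffAt_extChartAt
  have h3 := contMDiffWithinAt_univ.1 ((contMDiffWithinAt_iff_contDiffWithinAt.2 h1).comp x
    (s := univ) h2.contMDiffWithinAt (fun y _ => mem_range_self _))
  refine (h3.clm_apply (hV.contMDiffAt_coord i hx)).congr_of_eventuallyEq ?_
  filter_upwards [(isOpen_extChartAt_source x).mem_nhds hx] with y hy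
  exact dv_chart hy (hf.md y) _

omit [IsManifold I ∞ M] in
lemma tsupport_dv (W : (x : M) → TangentSpace I x) (f : M → ℝ) :
    tsupport (fun x => dv I f x (W x)) ⊆ tsupport f :=
  closure_minimal (fun x hx => by
    by_contra h
    refine hx ?_
    simp only [dv]
    rw [mv_congr (notMem_tsupport_iff_eventuallyEq.1 h)]
    exact congrArg (fun L : TangentSpace I x →L[ℝ] ℝ => L (W x)) (mv_const 0)) (isClosed_tsupport f)

lemma IsFrame.chart_field (hV : IsFrame I V) {x₀ : M} {R : ℝ}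
    (hR : ball (extChartAt I x₀ x₀) R ⊆ (extChartAt I x₀).target) :
    ∃ v : Fin n → E → E, (∀ i, ContDiffOn ℝ ∞ (v i) (ball (extChartAt I x₀ x₀) R)) ∧
      (∀ f : M → ℝ, Smooth I f → ∀ i, ∀ y ∈ ball (extChartAt I x₀ x₀) R,
        rep I x₀ (fun x => dv I f x (V i x)) y = fderiv ℝ (rep I x₀ f) y (v i y)) ∧
      ∀ φ : E →L[ℝ] ℝ, (∀ i, φ (v i (extChartAt I x₀ x₀)) = 0) → φ = 0 := by
  have hr : ∀ y ∈ ball (extChartAt I x₀ x₀) R, range I ∈ 𝓝 y := fun y hy =>
    mem_of_superset (isOpen_ball.mem_nhds hy) (hR.trans (extChartAt_target_subset_range x₀))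
  refine ⟨fun i y => mvfderiv I (extChartAt I x₀) ((extChartAt I x₀).symm y)
    (V i ((extChartAt I x₀).symm y)), fun i y hy => ?_, fun f hf i y hy => ?_, fun φ hφ => ?_⟩
  · have h1 : ContMDiffAt 𝓘(ℝ, E) I ∞ (extChartAt I x₀).symm y :=
      (contMDiffWithinAt_extChartAt_symm_range x₀ (hR hy)).contMDiffAt (hr y hy)
    exact (contMDiffAt_iff_contDiffAt.1 ((hV.contMDiffAt_coord i
      ((extChartAt I x₀).map_target (hR hy))).comp y h1)).contDiffWithinAt
  · have := dv_chart ((extChartAt I x₀).map_target (hR hy)) (hf.md _)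
      (V i ((extChartAt I x₀).symm y))
    rw [(extChartAt I x₀).right_inv (hR hy), fderivWithin_of_mem_nhds (hr y hy)] at this
    exact this
  · have hx := (extChartAt I x₀).map_target (mem_extChartAt_target (I := I) x₀)
    beta_reduce at hφ
    generalize (extChartAt I x₀).symm (extChartAt I x₀ x₀) = x at hx hφ
    have h1 : ∀ w : TangentSpace I x, φ (mvfderiv I (extChartAt I x₀) x w) = 0 := fun w => by
      have hw : w ∈ Submodule.span ℝ (range fun i => V i x) := by rw [hV.span]; trivial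
      induction hw using Submodule.span_induction with
      | mem _ h => obtain ⟨i, rfl⟩ := h; exact hφ i
      | zero => simp
      | add _ _ _ _ h1 h2 => rw [map_add, map_add, h1, h2, add_zero]
      | smul _ _ _ h1 => rw [map_smul, map_smul, h1, smul_zero]
    ext w
    rw [← mv_chart_tv hx w]
    exact h1 _

variable [FiniteDimensional ℝ E] [MeasurableSpace E] [BorelSpace E]
  [MeasurableSpace M] [BorelSpace M] {S : Surf I M} {μ : Measure M} {p : ℝ≥0∞}

lemma lp_compare (hμ : S.IsArea μ) {x₀ : M} {R ρ : ℝ}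
    (hR : ball (extChartAt I x₀ x₀) R ⊆ (extChartAt I x₀).target) (hρ : ρ < R) (p : ℝ≥0∞) :
    ∃ C : ℝ≥0∞, C ≠ ⊤ ∧ ∀ f : M → ℝ, Continuous f →
      eLpNorm (rep I x₀ f) p (volume.restrict (ball (extChartAt I x₀ x₀) ρ)) ≤ C * eLpNorm f p μ ∧
      (Function.support f ⊆ (extChartAt I x₀).symm '' ball (extChartAt I x₀ x₀) ρ →
        eLpNorm f p μ ≤
          C * eLpNorm (rep I x₀ f) p (volume.restrict (ball (extChartAt I x₀ x₀) ρ))) := by
  have hBt := (closedBall_subset_ball hρ).trans hR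
  have hbt := ball_subset_closedBall.trans hBt
  have cd := (S.continuousOn_dens x₀).mono hBt
  obtain ⟨a, ha0, ha⟩ := (isCompact_closedBall _ ρ).exists_forall_le' cd (a := 0) fun y hy => by
    rw [S.dens_eq (hBt hy)]; exact S.rho_pos ((extChartAt I x₀).map_target (hBt hy))
  obtain ⟨A, hA⟩ := (isCompact_closedBall _ ρ).exists_bound_of_continuousOn cd
  have hm : AEMeasurable (extChartAt I x₀).symm (volume.restrict (ball (extChartAt I x₀ x₀) ρ)) :=
    ((continuousOn_extChartAt_symm x₀).mono hbt).aemeasurable measurableSet_ball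
  have hW : IsOpen ((extChartAt I x₀).symm '' ball (extChartAt I x₀ x₀) ρ) := by
    rw [(extChartAt I x₀).symm_image_eq_source_inter_preimage hbt]
    exact isOpen_extChartAt_preimage' x₀ isOpen_ball
  have hWs : (extChartAt I x₀).symm '' ball (extChartAt I x₀ x₀) ρ ⊆ (extChartAt I x₀).source := by
    rintro _ ⟨y, hy, rfl⟩; exact (extChartAt I x₀).map_target (hbt hy)
  have key : ∀ B : Set M, MeasurableSet B →
      μ (B ∩ (extChartAt I x₀).symm '' ball (extChartAt I x₀ x₀) ρ) =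
        ∫⁻ y in (extChartAt I x₀).symm ⁻¹' B ∩ ball (extChartAt I x₀ x₀) ρ,
          ENNReal.ofReal (S.dens x₀ y) := by
    intro B hB
    rw [hμ x₀ _ (hB.inter hW.measurableSet) (inter_subset_right.trans hWs)]
    congr 2
    ext y
    constructor
    · rintro ⟨_, ⟨h1, z, hz, rfl⟩, rfl⟩
      rw [(extChartAt I x₀).right_inv (hbt hz)]
      exact ⟨h1, hz⟩
    · rintro ⟨h1, h2⟩
      exact ⟨_, ⟨h1, y, h2, rfl⟩, (extChartAt I x₀).right_inv (hbt h2)⟩
  have hae : ∀ B : Set M, ∀ᵐ y ∂volume.restrict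
      ((extChartAt I x₀).symm ⁻¹' B ∩ ball (extChartAt I x₀ x₀) ρ),
      y ∈ ball (extChartAt I x₀ x₀) ρ := fun B =>
    ae_restrict_of_ae_restrict_of_subset inter_subset_right (ae_restrict_mem measurableSet_ball)
  have m1 : Measure.map (extChartAt I x₀).symm (volume.restrict (ball (extChartAt I x₀ x₀) ρ))
      ≤ (ENNReal.ofReal a)⁻¹ • μ := Measure.le_iff.2 fun B hB => by
    rw [Measure.map_apply_of_aemeasurable hm hB, Measure.restrict_apply' measurableSet_ball,
      Measure.smul_apply, smul_eq_mul,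
      ← ENNReal.mul_le_iff_le_inv (ENNReal.ofReal_pos.2 ha0).ne' ENNReal.ofReal_ne_top]
    refine le_trans ?_ (measure_mono (inter_subset_left
      (t := (extChartAt I x₀).symm '' ball (extChartAt I x₀ x₀) ρ)))
    rw [key B hB, ← setLIntegral_const]
    exact lintegral_mono_ae ((hae B).mono fun y hy =>
      ENNReal.ofReal_le_ofReal (ha y (ball_subset_closedBall hy)))
  have m2 : μ.restrict ((extChartAt I x₀).symm '' ball (extChartAt I x₀ x₀) ρ) ≤
      (ENNReal.ofReal A + 1) • Measure.map (extChartAt I x₀).symm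
        (volume.restrict (ball (extChartAt I x₀ x₀) ρ)) := Measure.le_iff.2 fun B hB => by
    rw [Measure.smul_apply, Measure.map_apply_of_aemeasurable hm hB,
      Measure.restrict_apply' measurableSet_ball, Measure.restrict_apply hB, smul_eq_mul, key B hB,
      ← setLIntegral_const]
    exact lintegral_mono_ae ((hae B).mono fun y hy => le_add_right
      (ENNReal.ofReal_le_ofReal ((le_abs_self _).trans (hA y (ball_subset_closedBall hy)))))
  have t1 : (ENNReal.ofReal a)⁻¹ ^ (1 / p).toReal ≠ ⊤ := ENNReal.rpow_ne_top_of_nonneg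
    ENNReal.toReal_nonneg (ENNReal.inv_ne_top.2 (ENNReal.ofReal_pos.2 ha0).ne')
  have t2 : (ENNReal.ofReal A + 1) ^ (1 / p).toReal ≠ ⊤ := ENNReal.rpow_ne_top_of_nonneg
    ENNReal.toReal_nonneg (by finiteness)
  refine ⟨_, ENNReal.add_ne_top.2 ⟨t1, t2⟩, fun f hf => ⟨?_, fun hs => ?_⟩⟩
  · have := eLpNorm_mono_measure (p := p) f m1
    rw [eLpNorm_map_measure hf.aestronglyMeasurable hm,
      eLpNorm_smul_measure_of_ne_zero (ENNReal.inv_ne_zero.2 ENNReal.ofReal_ne_top)] at this
    exact this.trans (mul_le_mul_left le_self_add _)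
  · have := eLpNorm_mono_measure (p := p) f m2
    rw [eLpNorm_restrict_eq_of_support_subset hs, eLpNorm_smul_measure_of_ne_zero (by simp),
      eLpNorm_map_measure hf.aestronglyMeasurable hm] at this
    exact this.trans (mul_le_mul_left le_add_self _)

omit [IsManifold I ∞ M] [FiniteDimensional ℝ E] [MeasurableSpace E] [BorelSpace E]
  [BorelSpace M] in
lemma sob_zero (f : M → ℝ) : sob I V μ p 0 f = eLpNorm f p μ := rfl

omit [IsManifold I ∞ M] [FiniteDimensional ℝ E] [MeasurableSpace E] [BorelSpace E]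
  [BorelSpace M] in
lemma sob_succ (m : ℕ) (f : M → ℝ) : sob I V μ p (m + 1) f
    = eLpNorm f p μ + ∑ i, sob I V μ p m fun x => dv I f x (V i x) := rfl

lemma contDiffOn_rep {x₀ : M} {R : ℝ}
    (hR : ball (extChartAt I x₀ x₀) R ⊆ (extChartAt I x₀).target) {f : M → ℝ} (hf : Smooth I f) :
    ContDiffOn ℝ ∞ (rep I x₀ f) (ball (extChartAt I x₀ x₀) R) :=
  fun _ hy => (contDiffAt_rep_ball hR hf hy).contDiffWithinAt

lemma sob_le_jets (hμ : S.IsArea μ) (hV : IsFrame I V) (hp : 1 ≤ p) {x₀ : M} {R ρ : ℝ}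
    (hR : ball (extChartAt I x₀ x₀) R ⊆ (extChartAt I x₀).target) (hρ : ρ < R) (m : ℕ) :
    ∃ C : ℝ≥0∞, C ≠ ⊤ ∧ ∀ f : M → ℝ, Smooth I f →
      tsupport f ⊆ (extChartAt I x₀).symm '' ball (extChartAt I x₀ x₀) ρ →
      sob I V μ p m f ≤ C * jets p (extChartAt I x₀ x₀) ρ m (rep I x₀ f) := by
  obtain ⟨C₀, hC₀, h0⟩ := lp_compare hμ hR hρ p
  obtain ⟨v, sv, ev, -⟩ := hV.chart_field hR
  induction m with
  | zero =>
    refine ⟨C₀, hC₀, fun f hf hs => ?_⟩
    rw [sob_zero, jets_zero]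
    exact (h0 f hf.cont).2 ((subset_tsupport f).trans hs)
  | succ m ih =>
    obtain ⟨C₁, hC₁, h1⟩ := ih
    choose D hD h2 using fun i => jets_bilin_le hp (ContinuousLinearMap.id ℝ (E →L[ℝ] ℝ)) hρ
      (sv i) m
    refine ⟨C₀ + ∑ i, C₁ * D i, ENNReal.add_ne_top.2 ⟨hC₀, ENNReal.sum_ne_top.2 fun i _ =>
      ENNReal.mul_ne_top hC₁ (hD i)⟩, fun f hf hs => ?_⟩
    rw [sob_succ, add_mul, Finset.sum_mul, jets_succ]
    refine add_le_add (((h0 f hf.cont).2 ((subset_tsupport f).trans hs)).trans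
      (mul_le_mul_right le_add_self _)) (Finset.sum_le_sum fun i _ => ?_)
    refine (h1 _ (hV.smooth_dv i hf) ((tsupport_dv _ f).trans hs)).trans ?_
    rw [mul_assoc, jets_congr fun y hy => ev f hf i y (ball_subset_ball hρ.le hy)]
    exact mul_le_mul_right ((h2 i _ ((contDiffOn_rep hR hf).fderiv_of_isOpen isOpen_ball
      (by simp))).trans (mul_le_mul_right le_self_add _)) _

lemma jets_le_sob (hμ : S.IsArea μ) (hV : IsFrame I V) (hp : 1 ≤ p) {x₀ : M} {R : ℝ} (hR0 : 0 < R)
    (hR : ball (extChartAt I x₀ x₀) R ⊆ (extChartAt I x₀).target) :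
    ∃ R' : ℝ, 0 < R' ∧ R' ≤ R ∧ ∀ ρ < R', ∀ m : ℕ, ∃ C : ℝ≥0∞, C ≠ ⊤ ∧ ∀ f : M → ℝ, Smooth I f →
      jets p (extChartAt I x₀ x₀) ρ m (rep I x₀ f) ≤ C * sob I V μ p m f := by
  obtain ⟨v, sv, ev, hv⟩ := hV.chart_field hR
  obtain ⟨R', i, j, α, β, hR', hR'R, sα, sβ, hd⟩ := exists_dual S.b hR0 sv hv
  refine ⟨R', hR', hR'R, fun ρ hρ m => ?_⟩
  have hR2 := (ball_subset_ball hR'R).trans hR
  obtain ⟨C₀, hC₀, h0⟩ := lp_compare hμ hR2 hρ p
  induction m with
  | zero =>
    refine ⟨C₀, hC₀, fun f hf => ?_⟩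
    rw [sob_zero, jets_zero]
    exact (h0 f hf.cont).1
  | succ m ih =>
    obtain ⟨C₁, hC₁, h1⟩ := ih
    obtain ⟨Dα, hDα, h2⟩ := jets_bilin_le hp (ContinuousLinearMap.lsmul ℝ ℝ (E := E →L[ℝ] ℝ)) hρ sα m
    obtain ⟨Dβ, hDβ, h3⟩ := jets_bilin_le hp (ContinuousLinearMap.lsmul ℝ ℝ (E := E →L[ℝ] ℝ)) hρ sβ m
    refine ⟨Dα * C₁ + Dβ * C₁ + C₀, by finiteness, fun f hf => ?_⟩
    have si := contDiffOn_rep hR2 (hV.smooth_dv i hf)
    have sj := contDiffOn_rep hR2 (hV.smooth_dv j hf)
    have le : ∀ i, sob I V μ p m (fun x => dv I f x (V i x)) ≤ sob I V μ p (m + 1) f := fun i =>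
      (Finset.single_le_sum (f := fun i => sob I V μ p m fun x => dv I f x (V i x))
        (fun _ _ => zero_le) (Finset.mem_univ i)).trans le_add_self
    rw [jets_succ, add_mul, add_mul, jets_congr (u := fderiv ℝ (rep I x₀ f))
      (v := (fun y => rep I x₀ (fun x => dv I f x (V i x)) y • α y)
        + fun y => rep I x₀ (fun x => dv I f x (V j x)) y • β y) fun y hy => by
      have hy1 := ball_subset_ball hρ.le hy
      have hy2 := ball_subset_ball hR'R hy1
      rw [Pi.add_apply, ev f hf i y hy2, ev f hf j y hy2]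
      exact hd y hy1 _]
    refine add_le_add ((jets_add_le hp hρ.le (si.smul sα) (sj.smul sβ)).trans (add_le_add ?_ ?_))
      ((h0 f hf.cont).1.trans (mul_le_mul_right le_self_add _))
    · rw [mul_assoc]
      exact (h2 _ si).trans (mul_le_mul_right ((h1 _ (hV.smooth_dv i hf)).trans
        (mul_le_mul_right (le i) _)) _)
    · rw [mul_assoc]
      exact (h3 _ sj).trans (mul_le_mul_right ((h1 _ (hV.smooth_dv j hf)).trans
        (mul_le_mul_right (le j) _)) _)

end Pool.Agent.P.MP_9c695c_an
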