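import Pool.Agent.P.MP_9c695c_an.Jet

/-!
The interpolation norms are order norms.
-/

open scoped Manifold ContDiff ENNReal NNReal Topology
open MeasureTheory Set Filter Bundle Metric Real

set_option backward.isDefEq.respectTransparency false
set_option linter.unusedSectionVars false

namespace Pool.Agent.P.MP_9c695c_an

lemma profile_lt_top {θ : ℝ} (h0 : 0 < θ) (h1 : θ < 1) {q : ℝ≥0∞} (hq : 1 ≤ q) :
    eLpNorm (fun v : ℝ => exp (θ * v) * min 1 (exp (-v))) q volume < ⊤ := by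
  have p0 : ∀ v : ℝ, 0 ≤ exp (θ * v) * min 1 (exp (-v)) := fun v => by positivity
  have b1 : ∀ v : ℝ, exp (θ * v) * min 1 (exp (-v)) ≤ exp (θ * v) := fun v =>
    mul_le_of_le_one_right (exp_pos _).le (min_le_left _ _)
  have b2 : ∀ v : ℝ, exp (θ * v) * min 1 (exp (-v)) ≤ exp ((θ - 1) * v) := fun v => by
    rw [sub_mul, one_mul, sub_eq_add_neg, exp_add]
    exact mul_le_mul_of_nonneg_left (min_le_right _ _) (exp_pos _).le
  have b3 : ∀ v : ℝ, ‖exp (θ * v) * min 1 (exp (-v))‖ ≤ 1 := fun v => by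
    rw [Real.norm_of_nonneg (p0 v)]
    rcases le_total v 0 with h | h
    · exact (b1 v).trans (exp_le_one_iff.2 (mul_nonpos_of_nonneg_of_nonpos h0.le h))
    · exact (b2 v).trans (exp_le_one_iff.2 (mul_nonpos_of_nonpos_of_nonneg (by linarith) h))
  have c : Continuous fun v : ℝ => exp (θ * v) * min 1 (exp (-v)) := by fun_prop
  have i : Integrable fun v : ℝ => exp (θ * v) * min 1 (exp (-v)) := by
    rw [← integrableOn_univ, ← Iic_union_Ioi (a := 0)]
    refine IntegrableOn.union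
      (Integrable.mono' (integrableOn_exp_mul_Iic h0 0) c.aestronglyMeasurable
        (Eventually.of_forall fun v => by rw [Real.norm_of_nonneg (p0 v)]; exact b1 v))
      (Integrable.mono' (integrableOn_exp_mul_Ioi (show θ - 1 < 0 by linarith) 0)
        c.aestronglyMeasurable
        (Eventually.of_forall fun v => by rw [Real.norm_of_nonneg (p0 v)]; exact b2 v))
  rcases eq_or_ne q ⊤ with rfl | hq'
  · rw [eLpNorm_exponent_top]
    exact eLpNormEssSup_lt_top_of_ae_bound (Eventually.of_forall b3)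
  · rw [eLpNorm_lt_top_iff_lintegral_rpow_enorm_lt_top (zero_lt_one.trans_le hq).ne' hq']
    refine lt_of_le_of_lt (lintegral_mono fun v => ?_) i.2
    refine ENNReal.rpow_le_self_of_le_one ?_ (by simpa using ENNReal.toReal_mono hq' hq)
    rw [← ofReal_norm]
    exact ENNReal.ofReal_le_one.2 (b3 v)

lemma isWeight_rpow {s : ℝ} (hs : 0 < s) : IsWeight fun k => k ^ s := by
  refine ⟨fun k hk => rpow_pos_of_pos hk s, fun a ha b _ hab => rpow_le_rpow (le_of_lt ha) hab hs.le,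
    fun K => ⟨max K 1 ^ s⁻¹, by positivity, fun k₀ => ⟨max k₀ 1, le_max_left _ _, ?_⟩⟩⟩
  rw [mul_rpow (by positivity) (by positivity), rpow_inv_rpow (by positivity) hs.ne']
  exact mul_le_mul_of_nonneg_right (le_max_left _ _) (by positivity)

variable {E : Type*} [NormedAddCommGroup E] [InnerProductSpace ℝ E]
  {H : Type*} [TopologicalSpace H] {I : ModelWithCorners ℝ E H}
  {M : Type*} [TopologicalSpace M] [ChartedSpace H M] [IsManifold I ∞ M]
  {n : ℕ} {V : Fin n → (x : M) → TangentSpace I x} [MeasurableSpace M] {μ : Measure M}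
  {p q : ℝ≥0∞} {m : ℕ} {θ : ℝ} {f : M → ℝ}

lemma sob_zero_fun (m : ℕ) : sob I V μ p m (fun _ => 0) = 0 := by
  induction m with
  | zero => exact eLpNorm_zero'
  | succ m ih =>
    rw [sob_succ, eLpNorm_zero', zero_add]
    refine Finset.sum_eq_zero fun i _ => ?_
    rw [← ih]
    congr 1
    funext x
    exact congrArg (fun L : TangentSpace I x →L[ℝ] ℝ => L (V i x)) (mv_const 0)

lemma kfun_le_left (t : ℝ) : kfun I V μ p m t f ≤ eLpNorm f p μ := by
  refine (iInf₂_le (fun _ => 0) (Smooth.const 0)).trans (le_of_eq ?_)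
  rw [sob_zero_fun, mul_zero, add_zero]
  congr 1
  exact sub_zero f

lemma kfun_le_right (hf : Smooth I f) (t : ℝ) :
    kfun I V μ p m t f ≤ ENNReal.ofReal t * sob I V μ p m f :=
  (iInf₂_le f hf).trans (le_of_eq (by rw [sub_self, eLpNorm_zero, zero_add]))

lemma kfun_mono {t t' : ℝ} (h : t ≤ t') : kfun I V μ p m t f ≤ kfun I V μ p m t' f :=
  iInf₂_mono fun _ _ => add_le_add le_rfl (mul_le_mul_left (ENNReal.ofReal_le_ofReal h) _)

lemma besov_le (hf : Smooth I f) {Q : ℝ≥0∞} {l : ℝ} (hl : 0 < l) (h1 : eLpNorm f p μ ≤ Q)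
    (h2 : sob I V μ p m f ≤ ENNReal.ofReal l * Q) :
    besov I V μ p q m θ f ≤ Q * ENNReal.ofReal (l ^ θ) *
      eLpNorm (fun v : ℝ => exp (θ * v) * min 1 (exp (-v))) q volume := by
  have c : Continuous fun v : ℝ => exp (θ * v) * min 1 (exp (-v)) := by fun_prop
  rw [← eLpNorm_comp_measurePreserving c.aestronglyMeasurable
    (measurePreserving_sub_right volume (log l))]
  refine eLpNorm_le_mul_eLpNorm_of_ae_le_mul'' q
    (c.comp (continuous_sub_right _)).aestronglyMeasurable (Eventually.of_forall fun u => ?_)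
  have h3 : kfun I V μ p m (exp (-u)) f ≤ ENNReal.ofReal (min 1 (exp (-u) * l)) * Q := by
    rcases le_total 1 (exp (-u) * l) with h | h
    · rw [min_eq_left h, ENNReal.ofReal_one, one_mul]
      exact (kfun_le_left _).trans h1
    · rw [min_eq_right h, ENNReal.ofReal_mul (exp_pos _).le, mul_assoc]
      exact (kfun_le_right hf _).trans (mul_le_mul_right h2 _)
  rw [enorm_eq_self, Function.comp_apply, Real.enorm_of_nonneg (by positivity), mul_assoc,
    ← ENNReal.ofReal_mul (by positivity), mul_comm Q]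
  refine (mul_le_mul_right h3 _).trans (le_of_eq ?_)
  rw [← mul_assoc, ← ENNReal.ofReal_mul (exp_pos _).le, rpow_def_of_pos hl, ← mul_assoc, ← exp_add,
    neg_sub, sub_eq_add_neg (log l), exp_add (log l), exp_log hl, mul_comm l]
  congr 4
  ring

lemma le_besov (hθ : 0 ≤ θ) (hq : 1 ≤ q) {t : ℝ} (ht : 0 < t) :
    ENNReal.ofReal (exp (-θ) * t ^ (-θ)) * kfun I V μ p m t f ≤ besov I V μ p q m θ f := by
  have h1 : eLpNorm ((Icc (-log t - 1) (-log t)).indicator fun _ : ℝ =>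
      ENNReal.ofReal (exp (-θ) * t ^ (-θ)) * kfun I V μ p m t f) q volume
      = ENNReal.ofReal (exp (-θ) * t ^ (-θ)) * kfun I V μ p m t f := by
    rw [eLpNorm_indicator_const' measurableSet_Icc (by simp) (zero_lt_one.trans_le hq).ne']
    simp
  rw [← h1]
  refine eLpNorm_mono_enorm fun u => ?_
  rw [enorm_eq_self, enorm_eq_self]
  by_cases hu : u ∈ Icc (-log t - 1) (-log t)
  · rw [indicator_of_mem hu]
    refine mul_le_mul' (ENNReal.ofReal_le_ofReal ?_) (kfun_mono ?_)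
    · rw [rpow_def_of_pos ht, ← exp_add]
      exact exp_le_exp.2 (by nlinarith [hu.1])
    · conv_lhs => rw [← exp_log ht]
      exact exp_le_exp.2 (by linarith [hu.2])
  · rw [indicator_of_notMem hu]; exact zero_le

variable [FiniteDimensional ℝ E] [MeasurableSpace E] [BorelSpace E] [BorelSpace M]
  [CompactSpace M] [T2Space M] {S : Surf I M}

lemma sob_ne_top (hμ : S.IsArea μ) (hV : IsFrame I V) (m : ℕ) (hf : Smooth I f) :
    sob I V μ p m f ≠ ⊤ := by
  have := hμ.finite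
  have h0 : ∀ {f : M → ℝ}, Smooth I f → eLpNorm f p μ ≠ ⊤ := fun {f} hf =>
    (hf.cont.memLp_of_hasCompactSupport (HasCompactSupport.of_compactSpace f)).eLpNorm_ne_top
  induction m generalizing f with
  | zero => exact h0 hf
  | succ m ih =>
    rw [sob_succ]
    exact ENNReal.add_ne_top.2 ⟨h0 hf, ENNReal.sum_ne_top.2 fun i _ => ih (hV.smooth_dv i hf)⟩

lemma besov_ne_top (hμ : S.IsArea μ) (hV : IsFrame I V) (h0 : 0 < θ) (h1 : θ < 1) (hq : 1 ≤ q)
    (hf : Smooth I f) : besov I V μ p q m θ f ≠ ⊤ :=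
  ne_top_of_le_ne_top (ENNReal.mul_ne_top (ENNReal.mul_ne_top
    (ENNReal.add_ne_top.2 ⟨sob_ne_top hμ hV 0 hf, sob_ne_top hμ hV m hf⟩) ENNReal.ofReal_ne_top)
    (profile_lt_top h0 h1 hq).ne)
    (besov_le hf one_pos le_self_add (by rw [ENNReal.ofReal_one, one_mul]; exact le_add_self))

lemma exists_ext {x₀ : M} {r : ℝ} (hr : 0 < r)
    (hR : ball (extChartAt I x₀ x₀) (4 * r) ⊆ (extChartAt I x₀).target) (hf : Smooth I f) :
    ∃ F : E → ℝ, ContDiff ℝ ∞ F ∧ ∀ y ∈ ball (extChartAt I x₀ x₀) (2 * r), F y = rep I x₀ f y := by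
  let β : ContDiffBump (extChartAt I x₀ x₀) := ⟨2 * r, 3 * r, by linarith, by linarith⟩
  refine ⟨fun y => β y * rep I x₀ f y, contDiff_iff_contDiffAt.2 fun y => ?_, fun y hy => by
    simp only [β.one_of_mem_closedBall (ball_subset_closedBall hy), one_mul]⟩
  by_cases h : y ∈ ball (extChartAt I x₀ x₀) (4 * r)
  · exact β.contDiff.contDiffAt.mul (contDiffAt_rep_ball hR hf h)
  · refine (contDiffAt_const (c := (0 : ℝ))).congr_of_eventuallyEq ?_
    filter_upwards [isClosed_closedBall.isOpen_compl.mem_nhds fun h1 =>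
      h (closedBall_subset_ball (show 3 * r < 4 * r by linarith) h1)] with z hz
    rw [β.zero_of_le_dist (le_of_lt (not_le.1 hz)), zero_mul]

lemma diff_le_kfun (hp : 1 ≤ p) {x₀ : M} {r : ℝ} (hr : 0 < r)
    (hR : ball (extChartAt I x₀ x₀) (4 * r) ⊆ (extChartAt I x₀).target) {C₀ C₁ : ℝ≥0∞}
    (hC₀ : C₀ ≠ ⊤) (hC₁ : C₁ ≠ ⊤) (h0 : ∀ f : M → ℝ, Continuous f → eLpNorm (rep I x₀ f) p
      (volume.restrict (ball (extChartAt I x₀ x₀) (2 * r))) ≤ C₀ * eLpNorm f p μ)
    (h1 : ∀ f : M → ℝ, Smooth I f →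
      jets p (extChartAt I x₀ x₀) (2 * r) m (rep I x₀ f) ≤ C₁ * sob I V μ p m f)
    (hf : Smooth I f) {h : E} (hh : (m + 1) * ‖h‖ ≤ r) :
    diffNorm I p m x₀ r f h ≤ (2 ^ m * C₀ + C₁ + 1) * kfun I V μ p m (‖h‖ ^ m) f := by
  rw [← ENNReal.inv_mul_le_iff (by simp) (by finiteness)]
  refine le_iInf₂ fun g hg => ?_
  rw [ENNReal.inv_mul_le_iff (by simp) (by finiteness)]
  have sfg : Smooth I (f - g) := hf.sub hg
  obtain ⟨F₁, s₁, e₁⟩ := exists_ext hr hR sfg
  obtain ⟨F₂, s₂, e₂⟩ := exists_ext hr hR hg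
  have hm : m * ‖h‖ ≤ r := by linarith [norm_nonneg h]
  have sub : volume.restrict (ball (extChartAt I x₀ x₀) (r + m * ‖h‖))
      ≤ volume.restrict (ball (extChartAt I x₀ x₀) (2 * r)) :=
    Measure.restrict_mono (ball_subset_ball (by linarith)) le_rfl
  have cΔ : ∀ {F : E → ℝ}, Continuous F → Continuous ((fwdDiff h)^[m] F) := fun hF =>
    Function.Iterate.rec (fun F : E → ℝ => Continuous F) hF
      (fun _ hG => continuous_fwdDiff hG h) m
  have e : diffNorm I p m x₀ r f h = eLpNorm ((fwdDiff h)^[m] F₁ + (fwdDiff h)^[m] F₂) p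
      (volume.restrict (ball (extChartAt I x₀ x₀) r)) := by
    refine eLpNorm_congr_ae ?_
    filter_upwards [ae_restrict_mem (show MeasurableSet (cball I x₀ r) from measurableSet_ball)]
      with y hy
    simp only [Pi.add_apply, fwdDiff_iter_eq_sum_shift, ← Finset.sum_add_distrib, ← smul_add]
    refine Finset.sum_congr rfl fun j hj => ?_
    have hj1 : y + j • h ∈ ball (extChartAt I x₀ x₀) (2 * r) := by
      have h3 : ‖j • h‖ ≤ m * ‖h‖ := by
        rw [← Nat.cast_smul_eq_nsmul ℝ, norm_smul, Real.norm_natCast]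
        exact mul_le_mul_of_nonneg_right (by
          exact_mod_cast Nat.lt_succ_iff.1 (Finset.mem_range.1 hj)) (norm_nonneg _)
      have h4 : ‖y - extChartAt I x₀ x₀‖ < r := mem_ball_iff_norm.1 hy
      rw [mem_ball_iff_norm, add_sub_right_comm]
      linarith [norm_add_le (y - extChartAt I x₀ x₀) (j • h)]
    rw [e₁ _ hj1, e₂ _ hj1]
    congr 1
    exact (sub_add_cancel _ _).symm
  rw [e, mul_add]
  refine (eLpNorm_add_le (cΔ s₁.continuous).aestronglyMeasurable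
    (cΔ s₂.continuous).aestronglyMeasurable hp).trans (add_le_add ?_ ?_)
  · refine (eLpNorm_iter_crude hp h m s₁.continuous r).trans (le_trans ?_
      (mul_le_mul_left (le_self_add.trans le_self_add) _))
    rw [mul_assoc]
    refine mul_le_mul_right ((eLpNorm_mono_measure _ sub).trans (le_trans (le_of_eq
      (eLpNorm_congr_ae ?_)) (h0 _ sfg.cont))) _
    filter_upwards [ae_restrict_mem measurableSet_ball] with y hy using e₁ y hy
  · refine (eLpNorm_iter_le hp h m s₂ r).trans (le_trans ?_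
      (mul_le_mul_left (le_add_self.trans le_self_add) _))
    rw [ENNReal.ofReal_pow (norm_nonneg _), mul_left_comm]
    refine mul_le_mul_right ((eLpNorm_mono_measure _ sub).trans (le_trans ?_ (h1 g hg))) _
    rw [eLpNorm_iter_congr e₂]
    exact Finset.single_le_sum (f := fun l => eLpNorm (iteratedFDeriv ℝ l (rep I x₀ g)) p
      (volume.restrict (ball (extChartAt I x₀ x₀) (2 * r)))) (fun _ _ => zero_le)
      (Finset.self_mem_range_succ m)

lemma isOrderNorm_besov (hμ : S.IsArea μ) (hV : IsFrame I V) (hp : 1 ≤ p) {q₁ q₂ : ℝ≥0∞}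
    (hq₁ : 1 ≤ q₁) (hq₂ : 1 ≤ q₂) (h0 : 0 < θ) (h1 : θ < 1) {N : (M → ℝ) → ℝ≥0∞} {C : ℝ≥0}
    (hN : ∀ f : M → ℝ, Smooth I f →
      besov I V μ p q₁ m θ f ≤ C * N f ∧ N f ≤ C * besov I V μ p q₂ m θ f) :
    IsOrderNorm I (fun f => (N f).toReal) (fun k => k ^ (θ * m)) p m := by
  intro x₀ hx₀
  obtain ⟨R, hR0, hR⟩ := Metric.mem_nhds_iff.1 (target_mem_nhds (mem_extChartAt_source x₀) hx₀)
  obtain ⟨R', hR', hR'R, hL⟩ := jets_le_sob hμ hV hp hR0 hR
  have hr : 0 < R' / 4 := by linarith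
  have hR4 : ball (extChartAt I x₀ x₀) (4 * (R' / 4)) ⊆ (extChartAt I x₀).target :=
    (ball_subset_ball (by linarith)).trans hR
  obtain ⟨C₁, hC₁, l1⟩ := hL (2 * (R' / 4)) (by linarith) m
  obtain ⟨C₀, hC₀, l0⟩ := lp_compare hμ hR (show 2 * (R' / 4) < R by linarith) p
  obtain ⟨C₂, hC₂, u0⟩ := lp_compare hμ hR (show R' / 4 < R by linarith) p
  obtain ⟨C₃, hC₃, u1⟩ := sob_le_jets hμ hV hp hR (show R' / 4 < R by linarith) m
  have hc := (profile_lt_top h0 h1 hq₂).ne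
  obtain ⟨A, hA, a1, a2⟩ : ∃ A : ℝ, 0 < A ∧
      C * (C₂ + C₃) * eLpNorm (fun v : ℝ => exp (θ * v) * min 1 (exp (-v))) q₂ volume
        ≤ ENNReal.ofReal A ∧
      (2 ^ m * C₀ + C₁ + 1) * ENNReal.ofReal (exp θ) * C ≤ ENNReal.ofReal A := by
    have : ∀ a b : ℝ≥0∞, a ≠ ⊤ → b ≠ ⊤ → ∃ A : ℝ, 0 < A ∧ a ≤ ENNReal.ofReal A ∧
        b ≤ ENNReal.ofReal A := fun a b ha hb =>
      ⟨(a + b).toReal + 1, by positivity, by
        rw [ENNReal.ofReal_add (by positivity) zero_le_one, ENNReal.ofReal_toReal (by finiteness)]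
        exact ⟨le_self_add.trans le_self_add, le_add_self.trans le_self_add⟩⟩
    exact this _ _ (by finiteness) (by finiteness)
  refine ⟨R' / 4, A, hr, hA, (ball_subset_ball (by linarith)).trans hR, fun f hf hs k hk => ?_,
    fun f hf h hh0 hh => ?_⟩
  · have hk0 : 0 < k := by linarith
    have j0 : eLpNorm (rep I x₀ f) p (volume.restrict (ball (extChartAt I x₀ x₀) (R' / 4)))
        ≤ jetSum I p m x₀ (R' / 4) f k := by
      refine le_trans (le_of_eq ?_) (Finset.single_le_sum (fun _ _ => zero_le)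
        (Finset.mem_range.2 (Nat.succ_pos m)))
      rw [pow_zero, div_one, ENNReal.ofReal_one, one_mul, eLpNorm_iter_zero]
      rfl
    have j1 : jets p (extChartAt I x₀ x₀) (R' / 4) m (rep I x₀ f)
        ≤ ENNReal.ofReal (k ^ m) * jetSum I p m x₀ (R' / 4) f k := by
      rw [jets, jetSum, Finset.mul_sum]
      refine Finset.sum_le_sum fun j hj => ?_
      rw [← mul_assoc, ← ENNReal.ofReal_mul (by positivity)]
      refine le_mul_of_one_le_left' (ENNReal.one_le_ofReal.2 ?_)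
      rw [mul_one_div, one_le_div (by positivity)]
      exact pow_le_pow_right₀ hk (Nat.lt_succ_iff.1 (Finset.mem_range.1 hj))
    have b := besov_le (V := V) (q := q₂) (m := m) (θ := θ) hf
      (Q := (C₂ + C₃) * jetSum I p m x₀ (R' / 4) f k) (pow_pos hk0 m)
      (((u0 f hf.cont).2 ((subset_tsupport f).trans hs)).trans (mul_le_mul' le_self_add j0))
      ((u1 f hf hs).trans ((mul_le_mul' le_add_self j1).trans (le_of_eq (mul_left_comm _ _ _))))
    refine ENNReal.ofReal_toReal_le.trans ((hN f hf).2.trans ((mul_le_mul_right b _).trans ?_))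
    rw [ENNReal.ofReal_mul hA.le, ← rpow_natCast, ← rpow_mul hk0.le, mul_comm (m : ℝ)]
    refine le_trans (le_of_eq ?_) (mul_le_mul_left (mul_le_mul_left a1 _) _)
    ring
  · have hh1 : 0 < ‖h‖ := norm_pos_iff.2 hh0
    have d := diff_le_kfun hp hr hR4 hC₀ hC₁ (fun f hf => (l0 f hf).1) l1 hf hh
    have b := (le_besov (V := V) (μ := μ) (p := p) (m := m) (f := f) h0.le hq₁
      (pow_pos hh1 m)).trans (hN f hf).1
    have hfin : N f ≠ ⊤ := ne_top_of_le_ne_top (ENNReal.mul_ne_top ENNReal.coe_ne_top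
      (besov_ne_top hμ hV h0 h1 hq₂ hf)) (hN f hf).2
    have e : (1 / ‖h‖) ^ (θ * m) = exp θ * (exp (-θ) * (‖h‖ ^ m) ^ (-θ)) := by
      rw [← mul_assoc, ← exp_add, add_neg_cancel, exp_zero, one_mul, ← rpow_natCast,
        ← rpow_mul hh1.le, one_div, inv_rpow hh1.le, ← rpow_neg hh1.le]
      congr 1
      ring
    rw [ENNReal.ofReal_mul hA.le, ENNReal.ofReal_toReal hfin]
    beta_reduce
    rw [e, ENNReal.ofReal_mul (exp_pos _).le]
    refine (mul_le_mul_right d _).trans (le_trans ?_ (mul_le_mul_left a2 _))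
    rw [mul_assoc _ (C : ℝ≥0∞)]
    refine le_trans (le_of_eq ?_) (mul_le_mul_right b _)
    ring

theorem inflation_besov [ConnectedSpace M] (hμ : S.IsArea μ) {ψs ζs : M → ℝ}
    (hs : S.IsStream μ ψs ζs) (hst : ∀ x, S.br ψs ζs x = 0) {Φ : ℝ → M → M}
    (hΦ : IsFlow I (S.vel ψs) Φ) (hnp : ¬ ∃ T : ℝ, 0 < T ∧ Φ T = id) (hV : IsFrame I V)
    (hp : 1 ≤ p) {q₁ q₂ : ℝ≥0∞} (hq₁ : 1 ≤ q₁) (hq₂ : 1 ≤ q₂) (hm : 1 ≤ m) (h0 : 0 < θ) (h1 : θ < 1)
    {N : (M → ℝ) → ℝ≥0∞} {C : ℝ≥0} (hN : ∀ f : M → ℝ, Smooth I f →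
      besov I V μ p q₁ m θ f ≤ C * N f ∧ N f ≤ C * besov I V μ p q₂ m θ f)
    {ε : ℝ} (K : ℝ) (hε : 0 < ε) :
    ∃ (ψ₀ ζ₀ : M → ℝ) (T : ℝ), 0 < T ∧ S.IsStream μ ψ₀ ζ₀ ∧ S.SameCirc μ ψ₀ ζ₀ ψs ζs ∧
      N (ζ₀ - ζs) ≤ ENNReal.ofReal ε ∧ ∀ ψ ζ : ℝ → M → ℝ, S.IsEuler μ T ψ ζ → ζ 0 = ζ₀ →
        S.SameCirc μ (ψ 0) (ζ 0) ψs ζs → ENNReal.ofReal K ≤ N (ζ T - ζs) := by
  obtain ⟨ψ₀, ζ₀, T, hT, a1, a2, a3, a4⟩ := inflation hμ hs hst hΦ hnp
    (isWeight_rpow (mul_pos h0 (Nat.cast_pos.2 hm))) hp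
    (isOrderNorm_besov hμ hV hp hq₁ hq₂ h0 h1 hN) K hε
  have sf : Smooth I (ζ₀ - ζs) := a1.smooth_vort.sub hs.smooth_vort
  refine ⟨ψ₀, ζ₀, T, hT, a1, a2, ?_, fun ψ ζ b1 b2 b3 =>
    ENNReal.ofReal_le_of_le_toReal (a4 ψ ζ b1 b2 b3)⟩
  rw [← ENNReal.ofReal_toReal (ne_top_of_le_ne_top (ENNReal.mul_ne_top ENNReal.coe_ne_top
    (besov_ne_top hμ hV h0 h1 hq₂ sf)) (hN _ sf).2)]
  exact ENNReal.ofReal_le_ofReal a3

end Pool.Agent.P.MP_9c695c_an
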