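import Pool.Agent.P.MP_9c695c_an.Setup

/-!
Norm inflation near a steady state whose flow is not periodic.
-/

open scoped Manifold ContDiff ENNReal Topology
open MeasureTheory Set Filter Bundle Real Metric

set_option backward.isDefEq.respectTransparency false
set_option linter.unusedSectionVars false

namespace Pool.Agent.P.MP_9c695c_an

variable {E : Type*} [NormedAddCommGroup E] [InnerProductSpace ℝ E]
  [FiniteDimensional ℝ E] [MeasurableSpace E] [BorelSpace E]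
  {H : Type*} [TopologicalSpace H] {I : ModelWithCorners ℝ E H}
  {M : Type*} [TopologicalSpace M] [ChartedSpace H M] [IsManifold I ∞ M] [T2Space M]
  [MeasurableSpace M] [BorelSpace M] [CompactSpace M] {S : Surf I M} {μ : Measure M}

lemma perturb (hμ : S.IsArea μ) {ψs ζs P φ : M → ℝ} (hs : S.IsStream μ ψs ζs) (sP : Smooth I P)
    (sφ : Smooth I φ) (zφ : ∀ x ∈ I.boundary M, φ x = 0)
    (hw : ∀ h : M → ℝ, Smooth I h → ∫ x, (P x * h x + S.gam φ h x) ∂μ = 0) :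
    S.IsStream μ (fun x => ψs x + φ x) (fun x => ζs x + P x) ∧
      S.SameCirc μ (fun x => ψs x + φ x) (fun x => ζs x + P x) ψs ζs := by
  have key : ∀ χ : M → ℝ, Smooth I χ →
      S.green μ (fun x => ψs x + φ x) (fun x => ζs x + P x) χ = S.green μ ψs ζs χ := by
    intro χ hχ
    unfold Surf.green
    rw [hμ.lin2 (f₁ := fun x => ζs x * χ x + S.gam ψs χ x) (f₂ := fun x => P x * χ x + S.gam φ χ x)
      1 1 ((hs.smooth_vort.mul hχ).add (S.smooth_gam hs.smooth_stream hχ))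
      ((sP.mul hχ).add (S.smooth_gam sφ hχ)) (fun x => by
        simp only [Surf.gam, S.grad_add (hs.smooth_stream.md x) (sφ.md x), S.ip_add_left]
        ring), hw χ hχ, mul_zero, add_zero, one_mul]
    rfl
  exact ⟨⟨hs.smooth_stream.add sφ, hs.smooth_vort.add sP, hs.tangent.add (Tangent.of_zero zφ),
    fun χ hχ h0 => (key χ hχ).trans (hs.laplace χ hχ h0)⟩, fun χ hχ _ => key χ hχ⟩

lemma l1_of_l2 (hμ : S.IsArea μ) {e : M → ℝ} (ce : Continuous e) {s δ : ℝ} (hs : 0 < s)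
    (h1 : ∫ x, e x * e x ∂μ ≤ s * δ) (h2 : s * μ.real univ ≤ δ) : ∫ x, |e x| ∂μ ≤ δ := by
  have := hμ.finite
  have h3 : ∫ x, 2 * s * |e x| ∂μ ≤ ∫ x, (e x * e x + s * s) ∂μ :=
    integral_mono (hμ.integrable (continuous_const.mul ce.abs))
      (hμ.integrable ((ce.mul ce).add continuous_const)) fun x => by
        have h4 := sq_nonneg (|e x| - s)
        have h5 := abs_mul_abs_self (e x)
        change 2 * s * |e x| ≤ e x * e x + s * s
        linarith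
  rw [integral_const_mul, integral_add (hμ.integrable (f := fun x => e x * e x) (ce.mul ce))
    (integrable_const _), integral_const, smul_eq_mul] at h3
  have h4 := mul_le_mul_of_nonneg_left h2 hs.le
  refine le_of_mul_le_mul_left ?_ (show 0 < 2 * s by linarith)
  linarith

theorem inflation [ConnectedSpace M] (hμ : S.IsArea μ) {ψs ζs : M → ℝ} (hs : S.IsStream μ ψs ζs)
    (hst : ∀ x, S.br ψs ζs x = 0) {Φ : ℝ → M → M} (hΦ : IsFlow I (S.vel ψs) Φ)
    (hnp : ¬ ∃ T : ℝ, 0 < T ∧ Φ T = id) {N : (M → ℝ) → ℝ} {w : ℝ → ℝ} {p : ℝ≥0∞} {m : ℕ}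
    (hw : IsWeight w) (hp : 1 ≤ p) (hN : IsOrderNorm I N w p m) {ε : ℝ} (K : ℝ) (hε : 0 < ε) :
    ∃ (ψ₀ ζ₀ : M → ℝ) (T : ℝ), 0 < T ∧ S.IsStream μ ψ₀ ζ₀ ∧ S.SameCirc μ ψ₀ ζ₀ ψs ζs ∧
      N (ζ₀ - ζs) ≤ ε ∧ ∀ ψ ζ : ℝ → M → ℝ, S.IsEuler μ T ψ ζ → ζ 0 = ζ₀ →
        S.SameCirc μ (ψ 0) (ζ 0) ψs ζs → K ≤ N (ζ T - ζs) := by
  have hψ := hs.smooth_stream
  obtain ⟨x₀, hx₀, l, hl, htw⟩ := hΦ.exists_twist hψ hμ hs.tangent hnp
  obtain ⟨R, C, hR0, hC, hR, hup, hlow⟩ := hN x₀ hx₀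
  replace hR : ball (extChartAt I x₀ x₀) (2 * R) ⊆ (extChartAt I x₀).target := hR
  obtain ⟨lam, ρ, γ, r₁, sl, hρ, hγ, hr₁0, hr₁, zl, el, hb⟩ := exists_phase S hR0 hR hl
  obtain ⟨K₁, hK₁0, hK₁⟩ : ∃ K₁ : ℝ, 0 < K₁ ∧ K ≤ K₁ :=
    ⟨max K 1, one_pos.trans_le (le_max_right _ _), le_max_left _ _⟩
  obtain ⟨Λ, hΛ, hgrow⟩ := hw.grow (4096 * C ^ 2 * (m + 1) * K₁ / ε)
  obtain ⟨T, hT, hfix, ξ, hξ, hξd⟩ := htw (π * Λ)
  have hξ0 : 0 < ‖ξ‖ := (mul_pos pi_pos hΛ).trans_le hξ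
  obtain ⟨r₂, r, hr, h2r, hr₂, hr₂₁, ⟨g', hg, hη⟩, hK⟩ := exists_radii hR0 hR (hΦ.contMDiff (-T))
    (hΦ.contMDiff T).continuous (hΦ.apply_neg hψ T) hfix sl el hξ0 hξd
    (η := 1 / (128 * (m + 1))) (by positivity) hr₁0
  have hs2 : 2 * r < 2 * R := by linarith
  have hs3 : 3 / 2 * R < 2 * R := by linarith
  let β : ContDiffBump (extChartAt I x₀ x₀) := ⟨r, 2 * r, hr, by linarith⟩
  obtain ⟨χ, sχ, zχ, eχ⟩ := exists_lift hR hs2 (F := β) β.contDiff
    (fun y hy => β.zero_of_le_dist (le_of_lt (not_le.1 hy)))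
  have tχ := tsupport_Kc hR hs2 zχ
  have tl := tsupport_Kc hR hs3 zl
  obtain ⟨Lχ, sLχ, zLχ, wχ⟩ := hμ.exists_laplacian x₀ sχ (tχ.trans (Kc_source hR hs2))
    (tχ.trans (Kc_interior hR hs2))
  obtain ⟨Ll, sLl, -, wl⟩ := hμ.exists_laplacian x₀ sl (tl.trans (Kc_source hR hs3))
    (tl.trans (Kc_interior hR hs3))
  obtain ⟨a, ha⟩ : ∃ a : M → ℝ, a = fun x => χ x * S.gam lam lam x := ⟨_, rfl⟩
  obtain ⟨b, hb'⟩ : ∃ b : M → ℝ, b = fun x => 2 * S.gam χ lam x + χ x * Ll x := ⟨_, rfl⟩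
  obtain ⟨d, hd⟩ : ∃ d : M → ℝ, d = fun x => - Lχ x := ⟨_, rfl⟩
  have sa : Smooth I a := ha ▸ sχ.mul (S.smooth_gam sl sl)
  have sb : Smooth I b := hb' ▸ ((Smooth.const 2).mul (S.smooth_gam sχ sl)).add (sχ.mul sLl)
  have sd : Smooth I d := hd ▸ ContMDiff.neg sLχ
  have za : ∀ x ∉ (extChartAt I x₀).symm '' closedBall (extChartAt I x₀ x₀) (2 * r), a x = 0 :=
    fun x hx => by simp only [ha, zχ x hx, zero_mul]
  have zb : ∀ x ∉ (extChartAt I x₀).symm '' closedBall (extChartAt I x₀ x₀) (2 * r), b x = 0 :=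
    fun x hx => by
      simp only [hb', zχ x hx, Surf.gam, S.grad_of_notMem fun h => hx (tχ h), S.ip_zero_left,
        mul_zero, zero_mul, add_zero]
  have zd : ∀ x ∉ (extChartAt I x₀).symm '' closedBall (extChartAt I x₀ x₀) (2 * r), d x = 0 :=
    fun x hx => by simp only [hd, zLχ x fun h => hx (tχ h), neg_zero]
  have ea : ∀ y ∈ closedBall (extChartAt I x₀ x₀) (2 * r), |a ((extChartAt I x₀).symm y)|
      = β y * S.gam lam lam ((extChartAt I x₀).symm y) := fun y hy => by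
    have hy2 := hR (closedBall_subset_ball hs2 hy)
    simp only [ha]
    rw [eχ _ ((extChartAt I x₀).map_target hy2), (extChartAt I x₀).right_inv hy2,
      abs_of_nonneg (mul_nonneg β.nonneg (S.gam_nonneg _ _))]
  have la : ∀ y ∈ closedBall (extChartAt I x₀ x₀) r, γ / 2 ≤ |a ((extChartAt I x₀).symm y)| :=
    fun y hy => by
      rw [ea y (closedBall_subset_closedBall (by linarith) hy), β.one_of_mem_closedBall hy, one_mul]
      exact (hb y (closedBall_subset_closedBall (by linarith) hy)).2.1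
  have ua : ∀ x, |a x| ≤ 2 * γ := fun x => by
    by_cases hx : x ∈ (extChartAt I x₀).symm '' closedBall (extChartAt I x₀ x₀) (2 * r)
    · obtain ⟨y, hy, rfl⟩ := hx
      rw [ea y hy]
      exact (mul_le_of_le_one_left (S.gam_nonneg _ _) β.le_one).trans
        (hb y (closedBall_subset_closedBall h2r.le hy)).2.2
    · rw [za x hx, abs_zero]; positivity
  have wP : ∀ k : ℝ, k ≠ 0 → ∀ θ A : ℝ, ∀ h : M → ℝ, Smooth I h →
      ∫ x, (A * pk3 a b d lam k θ x * h x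
        + S.gam (fun x => -(A * k⁻¹ ^ 2) * pk χ lam k θ x) h x) ∂μ = 0 := by
    intro k hk θ A h hh
    rw [ha, hb', hd]
    exact hμ.laplace_packet sχ sl sLχ sLl wχ wl hk θ A hh
  obtain ⟨k₁, hjet⟩ := jetSum_le hR hR0 (show 2 * r < R by linarith) le_rfl sa sb sd za zb zd hl.le
    el (show 0 < 2 * γ by linarith) ua p m
  obtain ⟨Ce, hCe, herr⟩ := error_bound hμ hs hst hΦ hT sχ sa sb sd sl
  have hev := packet_lower hμ hR hρ hγ hr h2r hr₂ hr₂₁ hr₁ (fun y hy => (hb y hy).1)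
    (hΦ.contMDiff (-T)).continuous (hΦ.measurePreserving hψ hμ hs.tangent (-T)) hK sa.cont sb.cont
    sd.cont sl.cont za la hξ0 hg hη hp
  obtain ⟨V, hV⟩ : ∃ V, V = volume.real (closedBall (extChartAt I x₀ x₀) (2 * r)) := ⟨_, rfl⟩
  have hV0 : 0 < V := by
    rw [hV]
    exact ENNReal.toReal_pos (measure_closedBall_pos _ _ (by linarith)).ne'
      measure_closedBall_lt_top.ne
  have hV1 : volume (closedBall (extChartAt I x₀ x₀) (2 * r)) ^ (1 / p.toReal)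
      = ENNReal.ofReal (V ^ (1 / p.toReal)) := by
    rw [← ENNReal.ofReal_rpow_of_pos hV0, hV, Measure.real,
      ENNReal.ofReal_toReal measure_closedBall_lt_top.ne]
  rw [hV1] at hjet
  rw [← hV] at hev
  have hW0 : 0 < V ^ (1 / p.toReal) := rpow_pos_of_pos hV0 _
  generalize V ^ (1 / p.toReal) = W at hjet hev hW0
  obtain ⟨δ, hδ⟩ : ∃ δ, δ = ρ * γ * V / 512 := ⟨_, rfl⟩
  have hδ0 : 0 < δ := by rw [hδ]; positivity
  rw [← hδ] at hev
  obtain ⟨c₀, hc₀⟩ : ∃ c₀, c₀ = ε / (C * (m + 1) * (4 * γ) * W) := ⟨_, rfl⟩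
  have hc₀0 : 0 < c₀ := by rw [hc₀]; positivity
  have hm0 : 0 < μ.real univ + 1 := by positivity
  have t1 : Tendsto (fun k => Ce * (k⁻¹ ^ 2 + (c₀ / w k) ^ 2)) atTop (𝓝 (Ce * (0 ^ 2 + 0 ^ 2))) :=
    ((tendsto_inv_atTop_zero.pow 2).add
      ((tendsto_const_nhds.div_atTop hw.tendsto).pow 2)).const_mul Ce
  have hev2 := t1.eventually (ge_mem_nhds (show Ce * (0 ^ 2 + 0 ^ 2) < δ / (μ.real univ + 1) * δ by
    rw [zero_pow two_ne_zero, add_zero, mul_zero]; positivity))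
  obtain ⟨k₀, hk₀⟩ := eventually_atTop.1
    (((hev.and hev2).and (eventually_ge_atTop k₁)).and (eventually_ge_atTop 1))
  obtain ⟨k, hk, hkw⟩ := hgrow k₀
  obtain ⟨⟨⟨⟨θ, h, h1, h2, hlo⟩, he⟩, hk1⟩, hk2⟩ := hk₀ k hk
  clear hk₀ hev hev2 t1
  have hk0 : 0 < k := by linarith
  have hwk := hw.pos k hk0
  obtain ⟨A, hA⟩ : ∃ A, A = c₀ / w k := ⟨_, rfl⟩
  have hA0 : 0 < A := by rw [hA]; positivity
  rw [← hA] at he
  have sP : Smooth I fun x => A * pk3 a b d lam k θ x :=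
    (Smooth.const A).mul (smooth_pk3 sa sb sd sl k θ)
  obtain ⟨st, sc⟩ := perturb hμ hs sP
    ((Smooth.const (-(A * k⁻¹ ^ 2))).mul (smooth_pk sχ sl k θ)) (fun x hx => by
      rw [pk, zχ x fun h => I.disjoint_interior_boundary.notMem_of_mem_left
        (Kc_interior hR hs2 h) hx, zero_mul, mul_zero]) (wP k hk0.ne' θ A)
  refine ⟨_, _, T, hT, st, sc, ?_, fun ψ ζ hE h0 hc => ?_⟩
  · have e : (fun x => ζs x + A * pk3 a b d lam k θ x) - ζs = fun x => A * pk3 a b d lam k θ x :=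
      funext fun x => add_sub_cancel_left _ _
    rw [e]
    have h3 := (hup _ sP ((tsupport_Kc hR hs2 fun x hx => by
      simp only [pk3, za x hx, zb x hx, zd x hx, zero_mul, mul_zero, add_zero]).trans
      (image_mono (closedBall_subset_ball (show 2 * r < R by linarith)))) k hk2).trans
      (mul_le_mul_right (hjet k hk1 hk2 θ A hA0.le) _)
    rw [← ENNReal.ofReal_mul (by positivity), ← ENNReal.ofReal_mul (by positivity),
      ENNReal.ofReal_le_ofReal_iff (by positivity)] at h3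
    refine h3.trans (le_of_eq ?_)
    rw [hA, hc₀]
    field_simp
    ring
  · have sG : Smooth I (ζ T - ζs) := (hE.stream T ⟨hT.le, le_rfl⟩).smooth_vort.sub hs.smooth_vort
    have h3 := herr k hk2 θ A ψ ζ hE hc (fun x => by rw [h0]) (wP k hk0.ne' θ A)
    have h4 := hlo A hA0.le _ sG.cont (l1_of_l2 hμ
      (sG.cont.sub (sP.cont.comp (hΦ.contMDiff (-T)).continuous))
      (s := A * (δ / (μ.real univ + 1))) (by positivity) (h3.trans (by
        have := mul_le_mul_of_nonneg_left he (sq_nonneg A)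
        linarith)) (by
        rw [mul_assoc]
        refine mul_le_mul_of_nonneg_left ?_ hA0.le
        rw [div_mul_eq_mul_div, div_le_iff₀ hm0]
        linarith))
    have hh : 0 < ‖h‖ := by
      refine (norm_nonneg h).lt_of_ne' fun h5 => ?_
      rw [h5, mul_zero, mul_zero] at h1
      exact pi_pos.ne h1
    have h5 : Λ * k ≤ 1 / ‖h‖ := by
      rw [le_div_iff₀ hh]
      refine le_of_mul_le_mul_left ?_ pi_pos
      have := mul_le_mul_of_nonneg_left hξ (mul_pos hk0 hh).le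
      linarith
    have h6 := hkw.trans (hw.mono (mul_pos hΛ hk0) (one_div_pos.2 hh) h5)
    have h7 := (mul_le_mul' (ENNReal.ofReal_le_ofReal h6) h4).trans
      (hlow _ sG h (norm_pos_iff.1 hh) h2)
    rw [← ENNReal.ofReal_mul (by positivity)] at h7
    have e : 4096 * C ^ 2 * (m + 1) * K₁ / ε * w k * (A * γ / 1024 * W) = C * K₁ := by
      rw [hA, hc₀]
      field_simp
      ring
    rw [e] at h7
    rcases ENNReal.ofReal_le_ofReal_iff'.1 h7 with h8 | h8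
    · exact hK₁.trans (le_of_mul_le_mul_left h8 hC)
    · exact absurd h8 (not_le.2 (mul_pos hC hK₁0))

end Pool.Agent.P.MP_9c695c_an
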