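import Pool.Agent.P.MP_9c695c_an.Frame

/-!
The gradient product and the Poisson bracket: algebra, coordinate formulas and smoothness.
-/

open scoped Manifold ContDiff ENNReal Topology
open MeasureTheory Set Filter Bundle

set_option backward.isDefEq.respectTransparency false

namespace Pool.Agent.P.MP_9c695c_an

variable {E : Type*} [NormedAddCommGroup E] [InnerProductSpace ℝ E]
  {H : Type*} [TopologicalSpace H] {I : ModelWithCorners ℝ E H}
  {M : Type*} [TopologicalSpace M] [ChartedSpace H M] [IsManifold I ∞ M]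

namespace Surf
variable (S : Surf I M)

include S in
lemma finDim : FiniteDimensional ℝ E := S.b.toBasis.finiteDimensional_of_finite

include S in
lemma finrank_eq : Module.finrank ℝ E = 2 := by
  simpa using Module.finrank_eq_card_basis S.b.toBasis

lemma coord_eq (v : E) : v = inner ℝ (S.b 0) v • S.b 0 + inner ℝ (S.b 1) v • S.b 1 := by
  have := S.b.sum_repr' v
  rw [Fin.sum_univ_two] at this
  exact this.symm

lemma isInv (x : M) : (S.g.inner x).IsInvertible := by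
  have := S.finDim
  let B : E →L[ℝ] E →L[ℝ] ℝ := S.g.inner x
  have hinj : Function.Injective (B : E →ₗ[ℝ] E →L[ℝ] ℝ) := by
    rw [injective_iff_map_eq_zero]
    intro v hv
    by_contra h0
    have h1 := S.g.pos x v h0
    have h2 : B v v = 0 := by
      have : B v = 0 := hv
      rw [this]; rfl
    exact absurd h1 (by rw [show S.g.inner x v v = B v v from rfl, h2]; exact lt_irrefl 0)
  have hdim : Module.finrank ℝ E = Module.finrank ℝ (E →L[ℝ] ℝ) := by
    rw [← (LinearMap.toContinuousLinearMap (𝕜 := ℝ) (E := E) (F' := ℝ)).finrank_eq]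
    exact (Subspace.dual_finrank_eq).symm
  exact ⟨(LinearMap.linearEquivOfInjective _ hinj hdim).toContinuousLinearEquiv, by ext; rfl⟩

/-- the vector dual to a covector -/
noncomputable def sharp (x : M) : (TangentSpace I x →L[ℝ] ℝ) →L[ℝ] TangentSpace I x :=
  (S.g.inner x).inverse

lemma grad_eq (f : M → ℝ) (x : M) : S.grad f x = S.sharp x (mvfderiv I f x) := rfl

lemma ip_sharp (x : M) (ξ : TangentSpace I x →L[ℝ] ℝ) (v : TangentSpace I x) :
    S.ip x (S.sharp x ξ) v = ξ v := by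
  unfold ip sharp
  rw [(S.isInv x).self_apply_inverse]

lemma ip_symm (x : M) (v w : TangentSpace I x) : S.ip x v w = S.ip x w v := S.g.symm x v w

lemma ip_nonneg (x : M) (v : TangentSpace I x) : 0 ≤ S.ip x v v := by
  by_cases h : v = 0
  · simp [ip, h]
  · exact (S.g.pos x v h).le

lemma ip_pos (x : M) {v : TangentSpace I x} (h : v ≠ 0) : 0 < S.ip x v v := S.g.pos x v h

@[simp] lemma ip_add_left (x : M) (u v w : TangentSpace I x) :
    S.ip x (u + v) w = S.ip x u w + S.ip x v w := by simp [ip]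
@[simp] lemma ip_add_right (x : M) (u v w : TangentSpace I x) :
    S.ip x u (v + w) = S.ip x u v + S.ip x u w := by simp [ip]
@[simp] lemma ip_sub_left (x : M) (u v w : TangentSpace I x) :
    S.ip x (u - v) w = S.ip x u w - S.ip x v w := by simp [ip]
@[simp] lemma ip_sub_right (x : M) (u v w : TangentSpace I x) :
    S.ip x u (v - w) = S.ip x u v - S.ip x u w := by simp [ip]
@[simp] lemma ip_smul_left (x : M) (a : ℝ) (v w : TangentSpace I x) :
    S.ip x (a • v) w = a * S.ip x v w := by simp [ip]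
@[simp] lemma ip_smul_right (x : M) (a : ℝ) (v w : TangentSpace I x) :
    S.ip x v (a • w) = a * S.ip x v w := by simp [ip]
@[simp] lemma ip_neg_left (x : M) (v w : TangentSpace I x) :
    S.ip x (-v) w = - S.ip x v w := by simp [ip]
@[simp] lemma ip_neg_right (x : M) (v w : TangentSpace I x) :
    S.ip x v (-w) = - S.ip x v w := by simp [ip]
@[simp] lemma ip_zero_left (x : M) (w : TangentSpace I x) : S.ip x 0 w = 0 := by simp [ip]
@[simp] lemma ip_zero_right (x : M) (w : TangentSpace I x) : S.ip x w 0 = 0 := by simp [ip]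

lemma ip_J_self (x : M) (v : TangentSpace I x) : S.ip x (S.J x v) v = 0 := S.J_orth x v

lemma ip_J_J (x : M) (v : TangentSpace I x) : S.ip x (S.J x v) (S.J x v) = S.ip x v v :=
  S.J_isom x v

lemma ip_J_skew (x : M) (v w : TangentSpace I x) :
    S.ip x (S.J x v) w = - S.ip x (S.J x w) v := by
  have h := S.ip_J_self x (v + w)
  simp only [map_add, ip_add_left, ip_add_right, S.ip_J_self] at h
  linarith

lemma ip_sq_le (x : M) (v w : TangentSpace I x) : S.ip x v w ^ 2 ≤ S.ip x v v * S.ip x w w := by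
  by_cases h : v = 0
  · simp [h]
  have hp := S.ip_pos x h
  have h1 := S.ip_nonneg x (S.ip x v v • w - S.ip x v w • v)
  simp only [ip_sub_left, ip_sub_right, ip_smul_left, ip_smul_right, S.ip_symm x w v] at h1
  nlinarith

/-- gradient product -/
noncomputable def gam (f h : M → ℝ) (x : M) : ℝ := S.ip x (S.grad f x) (S.grad h x)

/-- Poisson bracket: derivative of `h` along the velocity of `f` -/
noncomputable def br (f h : M → ℝ) (x : M) : ℝ := dv I h x (S.vel f x)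

lemma br_eq (f h : M → ℝ) (x : M) : S.br f h x = S.ip x (S.J x (S.grad f x)) (S.grad h x) := by
  rw [S.ip_symm, grad_eq S h, ip_sharp]; rfl

lemma gam_symm (f h : M → ℝ) (x : M) : S.gam f h x = S.gam h f x := S.ip_symm _ _ _

lemma gam_nonneg (f : M → ℝ) (x : M) : 0 ≤ S.gam f f x := S.ip_nonneg _ _

lemma br_skew (f h : M → ℝ) (x : M) : S.br f h x = - S.br h f x := by
  rw [br_eq, br_eq, ip_J_skew]

lemma br_self (f : M → ℝ) (x : M) : S.br f f x = 0 := by rw [br_eq, ip_J_self]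

lemma br_sq_le (f h : M → ℝ) (x : M) : S.br f h x ^ 2 ≤ S.gam f f x * S.gam h h x := by
  rw [br_eq]
  have := S.ip_sq_le x (S.J x (S.grad f x)) (S.grad h x)
  rwa [ip_J_J] at this

lemma gam_sq_le (f h : M → ℝ) (x : M) : S.gam f h x ^ 2 ≤ S.gam f f x * S.gam h h x :=
  S.ip_sq_le _ _ _

lemma two_gam_le (f h : M → ℝ) (x : M) : 2 * S.gam f h x ≤ S.gam f f x + S.gam h h x := by
  have h1 := S.ip_nonneg x (S.grad f x - S.grad h x)
  simp only [ip_sub_left, ip_sub_right, S.ip_symm x (S.grad h x) (S.grad f x)] at h1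
  unfold gam; linarith

section rules
variable {f f' h : M → ℝ} {x : M}

lemma grad_add (hf : MdAt I f x) (hh : MdAt I h x) :
    S.grad (fun y => f y + h y) x = S.grad f x + S.grad h x := by
  simp only [grad_eq, mv_add hf hh, map_add]

lemma grad_sub (hf : MdAt I f x) (hh : MdAt I h x) :
    S.grad (fun y => f y - h y) x = S.grad f x - S.grad h x := by
  simp only [grad_eq, mv_sub hf hh, map_sub]

lemma grad_mul (hf : MdAt I f x) (hh : MdAt I h x) :
    S.grad (fun y => f y * h y) x = f x • S.grad h x + h x • S.grad f x := by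
  simp only [grad_eq, mv_mul hf hh, map_add, map_smul]

lemma grad_const (c : ℝ) : S.grad (fun _ => c) x = 0 := by
  simp only [grad_eq, mv_const, map_zero]

lemma grad_congr (hfh : f =ᶠ[𝓝 x] h) : S.grad f x = S.grad h x := by
  simp only [grad_eq, mv_congr hfh]

lemma grad_comp {c : ℝ → ℝ} {c' : ℝ} (hf : MdAt I f x) (hc : HasDerivAt c c' (f x)) :
    S.grad (fun y => c (f y)) x = c' • S.grad f x := by
  simp only [grad_eq, mv_comp hf hc, map_smul]

lemma grad_const_mul (a : ℝ) (hf : MdAt I f x) :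
    S.grad (fun y => a * f y) x = a • S.grad f x := by
  have := S.grad_comp (c := fun s => a * s) hf ((hasDerivAt_id (f x)).const_mul a)
  simpa using this

lemma D_add (x₀ : M) (i : Fin 2) (hf : MdAt I f x) (hh : MdAt I h x) :
    S.D x₀ i (fun y => f y + h y) x = S.D x₀ i f x + S.D x₀ i h x := by
  simp only [D, mv_add hf hh, add_apply]

lemma D_sub (x₀ : M) (i : Fin 2) (hf : MdAt I f x) (hh : MdAt I h x) :
    S.D x₀ i (fun y => f y - h y) x = S.D x₀ i f x - S.D x₀ i h x := by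
  simp only [D, mv_sub hf hh, sub_apply]

lemma D_mul (x₀ : M) (i : Fin 2) (hf : MdAt I f x) (hh : MdAt I h x) :
    S.D x₀ i (fun y => f y * h y) x = f x * S.D x₀ i h x + h x * S.D x₀ i f x := by
  simp only [D, mv_mul hf hh, add_apply, smul_apply,
    smul_eq_mul]

lemma D_const (x₀ : M) (i : Fin 2) (c : ℝ) : S.D x₀ i (fun _ => c) x = 0 := by
  simp only [D, mv_const, zero_apply]

lemma D_congr (x₀ : M) (i : Fin 2) (hfh : f =ᶠ[𝓝 x] h) : S.D x₀ i f x = S.D x₀ i h x := by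
  simp only [D, mv_congr hfh]

end rules

lemma D_eq_ip (x₀ : M) (i : Fin 2) (f : M → ℝ) (x : M) :
    S.D x₀ i f x = S.ip x (S.grad f x) (S.fr x₀ i x) := by
  rw [grad_eq, ip_sharp]; rfl

lemma exists_coord {x₀ x : M} (hx : x ∈ (extChartAt I x₀).source) (v : TangentSpace I x) :
    ∃ a b : ℝ, v = a • S.fr x₀ 0 x + b • S.fr x₀ 1 x := by
  refine ⟨inner ℝ (S.b 0) (mvfderiv I (extChartAt I x₀) x v),
    inner ℝ (S.b 1) (mvfderiv I (extChartAt I x₀) x v), ?_⟩
  conv_lhs => rw [← tv_mv_chart hx v, S.coord_eq (mvfderiv I (extChartAt I x₀) x v)]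
  simp only [map_add, map_smul, fr]

lemma coord_indep {x₀ x : M} (hx : x ∈ (extChartAt I x₀).source) {a b : ℝ}
    (h : a • S.fr x₀ 0 x + b • S.fr x₀ 1 x = 0) : a = 0 ∧ b = 0 := by
  have h1 := congrArg (mvfderiv I (extChartAt I x₀) x) h
  simp only [map_add, map_smul, fr, mv_chart_tv hx, map_zero] at h1
  have h2 := congrArg (inner ℝ (S.b 0)) h1
  have h3 := congrArg (inner ℝ (S.b 1)) h1
  simp [inner_add_right, inner_smul_right, S.b.inner_eq_ite] at h2 h3
  exact ⟨h2, h3⟩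

/-- metric coefficients -/
noncomputable def G (x₀ : M) (i j : Fin 2) (x : M) : ℝ := S.ip x (S.fr x₀ i x) (S.fr x₀ j x)

/-- determinant of the metric coefficients -/
noncomputable def dt (x₀ : M) (x : M) : ℝ :=
  S.G x₀ 0 0 x * S.G x₀ 1 1 x - S.G x₀ 0 1 x * S.G x₀ 0 1 x

/-- signed area of the coordinate frame -/
noncomputable def ar (x₀ : M) (x : M) : ℝ := S.ip x (S.J x (S.fr x₀ 0 x)) (S.fr x₀ 1 x)

/-- area density -/
noncomputable def rho (x₀ : M) (x : M) : ℝ := √(S.dt x₀ x)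

lemma G_symm (x₀ x : M) : S.G x₀ 1 0 x = S.G x₀ 0 1 x := S.ip_symm _ _ _

lemma G00_pos {x₀ x : M} (hx : x ∈ (extChartAt I x₀).source) : 0 < S.G x₀ 0 0 x := by
  apply S.ip_pos
  intro h
  have := S.coord_indep hx (a := 1) (b := 0) (by simp [h])
  simp at this

lemma G11_pos {x₀ x : M} (hx : x ∈ (extChartAt I x₀).source) : 0 < S.G x₀ 1 1 x := by
  apply S.ip_pos
  intro h
  have := S.coord_indep hx (a := 0) (b := 1) (by simp [h])
  simp at this

lemma dt_pos {x₀ x : M} (hx : x ∈ (extChartAt I x₀).source) : 0 < S.dt x₀ x := by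
  have h11 := S.G11_pos hx
  have hne : S.G x₀ 1 1 x • S.fr x₀ 0 x + (-S.G x₀ 0 1 x) • S.fr x₀ 1 x ≠ 0 := fun h =>
    h11.ne' (S.coord_indep hx h).1
  have h1 := S.ip_pos x hne
  simp only [ip_add_left, ip_add_right, ip_smul_left, ip_smul_right] at h1
  change 0 < S.G x₀ 1 1 x * (S.G x₀ 1 1 x * S.G x₀ 0 0 x + -S.G x₀ 0 1 x * S.G x₀ 1 0 x) +
    -S.G x₀ 0 1 x * (S.G x₀ 1 1 x * S.G x₀ 0 1 x + -S.G x₀ 0 1 x * S.G x₀ 1 1 x) at h1
  rw [G_symm] at h1
  have : 0 < S.G x₀ 1 1 x * S.dt x₀ x := by unfold dt; nlinarith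
  exact (mul_pos_iff_of_pos_left h11).1 this

lemma rho_pos {x₀ x : M} (hx : x ∈ (extChartAt I x₀).source) : 0 < S.rho x₀ x :=
  Real.sqrt_pos.2 (S.dt_pos hx)

lemma rho_sq {x₀ x : M} (hx : x ∈ (extChartAt I x₀).source) :
    S.rho x₀ x * S.rho x₀ x = S.dt x₀ x := Real.mul_self_sqrt (S.dt_pos hx).le

lemma ar_sq {x₀ x : M} (hx : x ∈ (extChartAt I x₀).source) :
    S.ar x₀ x * S.ar x₀ x = S.dt x₀ x := by
  obtain ⟨a, b, hab⟩ := S.exists_coord hx (S.J x (S.fr x₀ 0 x))
  have h0 := S.ip_J_self x (S.fr x₀ 0 x)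
  have h1 := S.ip_J_J x (S.fr x₀ 0 x)
  have h2 : S.ar x₀ x = a * S.G x₀ 0 1 x + b * S.G x₀ 1 1 x := by
    unfold ar; rw [hab]; simp [G]
  have h3 : a * S.G x₀ 0 0 x + b * S.G x₀ 0 1 x = 0 := by
    rw [hab] at h0; rw [← h0, ← S.G_symm]; simp [G]
  have h4 : b * S.ar x₀ x = S.G x₀ 0 0 x := by
    nth_rewrite 2 [hab] at h1
    simp only [ip_add_right, ip_smul_right, h0, mul_zero, zero_add] at h1
    exact h1
  have h5 := S.G00_pos hx
  have h6 : S.ar x₀ x * S.G x₀ 0 0 x = b * S.dt x₀ x := by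
    unfold dt; rw [h2]; linear_combination (S.G x₀ 0 1 x) * h3
  have h7 : S.G x₀ 0 0 x * (S.ar x₀ x * S.ar x₀ x) = S.G x₀ 0 0 x * S.dt x₀ x := by
    linear_combination (S.ar x₀ x) * h6 + (S.dt x₀ x) * h4
  exact mul_left_cancel₀ h5.ne' h7

lemma ar_ne {x₀ x : M} (hx : x ∈ (extChartAt I x₀).source) : S.ar x₀ x ≠ 0 := by
  intro h
  have := S.ar_sq hx
  rw [h, mul_zero] at this
  exact (S.dt_pos hx).ne this

lemma gam_chart {x₀ x : M} (hx : x ∈ (extChartAt I x₀).source) (f h : M → ℝ) :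
    S.gam f h x = (S.G x₀ 1 1 x * (S.D x₀ 0 f x * S.D x₀ 0 h x)
      - S.G x₀ 0 1 x * (S.D x₀ 0 f x * S.D x₀ 1 h x + S.D x₀ 1 f x * S.D x₀ 0 h x)
      + S.G x₀ 0 0 x * (S.D x₀ 1 f x * S.D x₀ 1 h x)) / S.dt x₀ x := by
  obtain ⟨a, b, hab⟩ := S.exists_coord hx (S.grad f x)
  have h0 : S.D x₀ 0 f x = a * S.G x₀ 0 0 x + b * S.G x₀ 0 1 x := by
    rw [D_eq_ip, hab, ← S.G_symm]; simp [G]
  have h1 : S.D x₀ 1 f x = a * S.G x₀ 0 1 x + b * S.G x₀ 1 1 x := by
    rw [D_eq_ip, hab]; simp [G]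
  have h2 : S.gam f h x = a * S.D x₀ 0 h x + b * S.D x₀ 1 h x := by
    rw [gam_symm, gam, hab, D_eq_ip, D_eq_ip]; simp
  rw [eq_div_iff (S.dt_pos hx).ne', h2, h0, h1]
  unfold dt; ring

lemma br_chart {x₀ x : M} (hx : x ∈ (extChartAt I x₀).source) (f h : M → ℝ) :
    S.br f h x = (S.D x₀ 0 f x * S.D x₀ 1 h x - S.D x₀ 1 f x * S.D x₀ 0 h x) / S.ar x₀ x := by
  obtain ⟨a, b, hab⟩ := S.exists_coord hx (S.grad f x)
  obtain ⟨c, d, hcd⟩ := S.exists_coord hx (S.grad h x)
  have h0 : S.D x₀ 0 f x = a * S.G x₀ 0 0 x + b * S.G x₀ 0 1 x := by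
    rw [D_eq_ip, hab, ← S.G_symm]; simp [G]
  have h1 : S.D x₀ 1 f x = a * S.G x₀ 0 1 x + b * S.G x₀ 1 1 x := by
    rw [D_eq_ip, hab]; simp [G]
  have h2 : S.D x₀ 0 h x = c * S.G x₀ 0 0 x + d * S.G x₀ 0 1 x := by
    rw [D_eq_ip, hcd, ← S.G_symm]; simp [G]
  have h3 : S.D x₀ 1 h x = c * S.G x₀ 0 1 x + d * S.G x₀ 1 1 x := by
    rw [D_eq_ip, hcd]; simp [G]
  have h4 : S.br f h x = (a * d - b * c) * S.ar x₀ x := by
    rw [br_eq, hab, hcd]
    simp only [map_add, map_smul, ip_add_left, ip_add_right, ip_smul_left, ip_smul_right,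
      ip_J_self, S.ip_J_skew x (S.fr x₀ 1 x) (S.fr x₀ 0 x)]
    unfold ar; ring
  rw [eq_div_iff (S.ar_ne hx), h4, h0, h1, h2, h3, mul_assoc, S.ar_sq hx]
  unfold dt; ring

lemma D_sq_le (x₀ : M) (i : Fin 2) (f : M → ℝ) (x : M) :
    S.D x₀ i f x ^ 2 ≤ S.gam f f x * S.G x₀ i i x := by
  rw [D_eq_ip]; exact S.ip_sq_le _ _ _

lemma contMDiffAt_fr {x₀ x : M} (hx : x ∈ (extChartAt I x₀).source) (i : Fin 2) :
    ContMDiffAt I (I.prod 𝓘(ℝ, E)) ∞
      (fun y => TotalSpace.mk' E (E := fun z : M => TangentSpace I z) y (S.fr x₀ i y)) x := by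
  have hb : x ∈ (trivializationAt E (TangentSpace I) x₀).baseSet := by simpa using mem_src hx
  rw [(trivializationAt E (TangentSpace I) x₀).contMDiffAt_section_iff hb]
  refine (contMDiffAt_const (c := S.b i)).congr_of_eventuallyEq ?_
  filter_upwards [(trivializationAt E (TangentSpace I) x₀).open_baseSet.mem_nhds hb] with y hy
  simp only [fr, tv]
  rw [Trivialization.symmL_apply _ hy, Trivialization.apply_mk_symm _ hy]

lemma smAt_G {x₀ x : M} (hx : x ∈ (extChartAt I x₀).source) (i j : Fin 2) :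
    SmAt I (S.G x₀ i j) x := by
  have : ContMDiffAt I (I.prod 𝓘(ℝ, ℝ)) ∞
      (fun y => TotalSpace.mk' ℝ (E := Bundle.Trivial M ℝ) y
        (S.g.inner y (S.fr x₀ i y) (S.fr x₀ j y))) x :=
    ContMDiffAt.clm_bundle_apply₂ (F₁ := E) (F₂ := E) (b := id) (S.g.contMDiff x)
      (S.contMDiffAt_fr hx i) (S.contMDiffAt_fr hx j)
  simp only [contMDiffAt_totalSpace] at this
  exact this.2

lemma smAt_dt {x₀ x : M} (hx : x ∈ (extChartAt I x₀).source) : SmAt I (S.dt x₀) x :=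
  ((S.smAt_G hx 0 0).mul (S.smAt_G hx 1 1)).sub ((S.smAt_G hx 0 1).mul (S.smAt_G hx 0 1))

lemma smAt_rho {x₀ x : M} (hx : x ∈ (extChartAt I x₀).source) : SmAt I (S.rho x₀) x :=
  ContMDiffAt.comp x (g := Real.sqrt)
    (Real.contDiffAt_sqrt (S.dt_pos hx).ne').contMDiffAt (S.smAt_dt hx)

lemma continuousAt_ar {x₀ x : M} (hx : x ∈ (extChartAt I x₀).source) :
    ContinuousAt (S.ar x₀) x := by
  have h1 : ContinuousAt (fun y => TotalSpace.mk' E (E := fun z : M => TangentSpace I z) y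
      (S.J y (S.fr x₀ 0 y))) x :=
    S.J_cont.continuousAt.comp (S.contMDiffAt_fr hx 0).continuousAt
  have : ContinuousAt (fun y => TotalSpace.mk' ℝ (E := Bundle.Trivial M ℝ) y
        (S.g.inner y (S.J y (S.fr x₀ 0 y)) (S.fr x₀ 1 y))) x :=
    ContinuousAt.clm_bundle_apply₂ (F₁ := E) (F₂ := E) (b := id)
      S.g.contMDiff.continuous.continuousAt h1 (S.contMDiffAt_fr hx 1).continuousAt
  simp only [FiberBundle.continuousAt_totalSpace] at this
  exact this.2

/-- the orientation sign is locally constant -/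
lemma ar_eventually {x₀ x : M} (hx : x ∈ (extChartAt I x₀).source) :
    ∃ σ : ℝ, σ * σ = 1 ∧ ∀ᶠ y in 𝓝 x, S.ar x₀ y = σ * S.rho x₀ y := by
  have hs := (isOpen_extChartAt_source x₀).mem_nhds hx
  rcases lt_or_gt_of_ne (S.ar_ne hx) with h | h
  · refine ⟨-1, by norm_num, ?_⟩
    filter_upwards [hs, (S.continuousAt_ar hx).eventually (gt_mem_nhds h)] with y hy h1
    have h2 := S.ar_sq hy
    have h3 := S.rho_sq hy
    have h4 := S.rho_pos hy
    have : (S.ar x₀ y + S.rho x₀ y) * (S.ar x₀ y - S.rho x₀ y) = 0 := by linear_combination h2 - h3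
    rcases mul_eq_zero.1 this with h5 | h5 <;> linarith
  · refine ⟨1, by norm_num, ?_⟩
    filter_upwards [hs, (S.continuousAt_ar hx).eventually (lt_mem_nhds h)] with y hy h1
    have h2 := S.ar_sq hy
    have h3 := S.rho_sq hy
    have h4 := S.rho_pos hy
    have : (S.ar x₀ y + S.rho x₀ y) * (S.ar x₀ y - S.rho x₀ y) = 0 := by linear_combination h2 - h3
    rcases mul_eq_zero.1 this with h5 | h5 <;> linarith

lemma smAt_ar {x₀ x : M} (hx : x ∈ (extChartAt I x₀).source) : SmAt I (S.ar x₀) x := by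
  obtain ⟨σ, -, h⟩ := S.ar_eventually hx
  exact (contMDiffAt_const.mul (S.smAt_rho hx)).congr_of_eventuallyEq h

end Surf

omit [IsManifold I ∞ M] in
lemma SmAt.div {f h : M → ℝ} {x : M} (hf : SmAt I f x) (hh : SmAt I h x) (h0 : h x ≠ 0) :
    SmAt I (fun y => f y / h y) x := ContMDiffAt.div₀ hf hh h0

namespace Surf
variable (S : Surf I M)

lemma smAt_gam {f h : M → ℝ} {x : M} (hf : SmAt I f x) (hh : SmAt I h x) :
    SmAt I (S.gam f h) x := by
  have hx := mem_extChartAt_source (I := I) x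
  have h1 := SmAt.div
    ((((S.smAt_G hx 1 1).mul ((S.smAt_D hx hf 0).mul (S.smAt_D hx hh 0))).sub
      ((S.smAt_G hx 0 1).mul (((S.smAt_D hx hf 0).mul (S.smAt_D hx hh 1)).add
        ((S.smAt_D hx hf 1).mul (S.smAt_D hx hh 0))))).add
      ((S.smAt_G hx 0 0).mul ((S.smAt_D hx hf 1).mul (S.smAt_D hx hh 1))))
    (S.smAt_dt hx) (S.dt_pos hx).ne'
  refine h1.congr_of_eventuallyEq ?_
  filter_upwards [(isOpen_extChartAt_source x).mem_nhds hx] with y hy
  exact S.gam_chart hy f h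

lemma smAt_br {f h : M → ℝ} {x : M} (hf : SmAt I f x) (hh : SmAt I h x) :
    SmAt I (S.br f h) x := by
  have hx := mem_extChartAt_source (I := I) x
  have h1 := SmAt.div
    (((S.smAt_D hx hf 0).mul (S.smAt_D hx hh 1)).sub ((S.smAt_D hx hf 1).mul (S.smAt_D hx hh 0)))
    (S.smAt_ar hx) (S.ar_ne hx)
  refine h1.congr_of_eventuallyEq ?_
  filter_upwards [(isOpen_extChartAt_source x).mem_nhds hx] with y hy
  exact S.br_chart hy f h

lemma smooth_gam {f h : M → ℝ} (hf : Smooth I f) (hh : Smooth I h) : Smooth I (S.gam f h) :=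
  fun x => S.smAt_gam (hf x) (hh x)

lemma smooth_br {f h : M → ℝ} (hf : Smooth I f) (hh : Smooth I h) : Smooth I (S.br f h) :=
  fun x => S.smAt_br (hf x) (hh x)

end Surf

end Pool.Agent.P.MP_9c695c_an
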