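import Mathlib

/-!
Oscillating functions in a normed space: derivative bounds from above and difference bounds from
below.
-/

open scoped Topology ContDiff
open Set Filter Real

namespace Pool.Agent.P.MP_9c695c_an

variable {E : Type*} [NormedAddCommGroup E] [NormedSpace ℝ E]

lemma contDiff_wave (l : E →L[ℝ] ℝ) (k θ : ℝ) : ContDiff ℝ ∞ fun y => cos (k * l y + θ) :=
  contDiff_cos.comp ((contDiff_const.mul l.contDiff).add contDiff_const)

lemma norm_iter_cos {l : E →L[ℝ] ℝ} (hl : ‖l‖ ≤ 1) {k : ℝ} (hk : 0 ≤ k) (θ : ℝ) (n : ℕ) (y : E) :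
    ‖iteratedFDeriv ℝ n (fun y => cos (k * l y + θ)) y‖ ≤ k ^ n := by
  have h1 : ContDiff ℝ ∞ fun s : ℝ => cos (s + θ) := contDiff_cos.comp (contDiff_id.add contDiff_const)
  have h2 := (k • l).iteratedFDeriv_comp_right h1 y (i := n) (by exact_mod_cast le_top)
  have h3 : (fun y => cos (k * l y + θ)) = (fun s : ℝ => cos (s + θ)) ∘ (k • l) := by
    funext y; simp
  rw [h3, h2]
  refine (ContinuousMultilinearMap.norm_compContinuousLinearMap_le _ _).trans ?_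
  rw [norm_iteratedFDeriv_eq_norm_iteratedDeriv, iteratedDeriv_comp_add_const]
  have h4 : ‖k • l‖ ≤ k := by
    rw [norm_smul, Real.norm_of_nonneg hk]; exact mul_le_of_le_one_right hk hl
  simp only [Finset.prod_const, Finset.card_fin]
  calc _ ≤ 1 * k ^ n := by
        gcongr
        exact abs_iteratedDeriv_cos_le_one n _
    _ = k ^ n := one_mul _

lemma osc_bound {a : E → ℝ} (ha : ContDiff ℝ ∞ a) (hc : HasCompactSupport a) {l : E →L[ℝ] ℝ}
    (hl : ‖l‖ ≤ 1) (j : ℕ) : ∃ B : ℝ, 0 ≤ B ∧ ∀ k : ℝ, 1 ≤ k → ∀ θ y,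
      ‖iteratedFDeriv ℝ j (fun y => a y * cos (k * l y + θ)) y‖ ≤ k ^ j * (|a y| + B / k) := by
  have hM : ∀ i : ℕ, ∃ C, ∀ y, ‖iteratedFDeriv ℝ i a y‖ ≤ C := fun i =>
    (hc.iteratedFDeriv i).exists_bound_of_continuous
      (ha.continuous_iteratedFDeriv (by exact_mod_cast le_top))
  choose C hC using hM
  have hC0 : ∀ i, 0 ≤ C i := fun i => (norm_nonneg _).trans (hC i 0)
  refine ⟨∑ i ∈ Finset.range j, (j.choose (i + 1) : ℝ) * C (i + 1),
    Finset.sum_nonneg fun i _ => mul_nonneg (Nat.cast_nonneg _) (hC0 _), fun k hk θ y => ?_⟩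
  have hk0 : 0 < k := by linarith
  refine (norm_iteratedFDeriv_mul_le ha (contDiff_wave l k θ) y
    (by exact_mod_cast le_top)).trans ?_
  rw [Finset.sum_range_succ', mul_add, add_comm (k ^ j * |a y|)]
  refine add_le_add ?_ ?_
  · rw [Finset.sum_div, Finset.mul_sum]
    refine Finset.sum_le_sum fun i hi => ?_
    have hi' := Finset.mem_range.1 hi
    have h1 : k ^ (j - (i + 1)) ≤ k ^ j / k := by
      rw [le_div_iff₀ hk0, ← pow_succ]
      exact pow_le_pow_right₀ hk (by omega)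
    calc _ ≤ (j.choose (i + 1) : ℝ) * C (i + 1) * (k ^ j / k) := by
          gcongr
          · exact mul_nonneg (Nat.cast_nonneg _) (hC0 _)
          · exact hC _ _
          · exact (norm_iter_cos hl hk0.le θ _ y).trans h1
      _ = _ := by ring
  · simp only [Nat.choose_zero_right, Nat.cast_one, one_mul, norm_iteratedFDeriv_zero,
      Nat.sub_zero, Real.norm_eq_abs]
    rw [mul_comm]
    gcongr
    exact norm_iter_cos hl hk0.le θ j y

lemma osc3_bound {a b d : E → ℝ} (ha : ContDiff ℝ ∞ a) (hb : ContDiff ℝ ∞ b) (hd : ContDiff ℝ ∞ d)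
    (ca : HasCompactSupport a) (cb : HasCompactSupport b) (cd : HasCompactSupport d)
    {l : E →L[ℝ] ℝ} (hl : ‖l‖ ≤ 1) (m : ℕ) : ∃ B : ℝ, 0 ≤ B ∧ ∀ j ≤ m, ∀ k : ℝ, 1 ≤ k →
      ∀ θ θ' A : ℝ, 0 ≤ A → ∀ y,
      ‖iteratedFDeriv ℝ j (fun y => A * (a y * cos (k * l y + θ) + k⁻¹ * (b y * cos (k * l y + θ'))
        + k⁻¹ ^ 2 * (d y * cos (k * l y + θ)))) y‖ ≤ A * (k ^ j * (|a y| + B / k)) := by
  choose Ba ha0 hBa using osc_bound ha ca hl
  choose Bb hb0 hBb using osc_bound hb cb hl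
  choose Bd hd0 hBd using osc_bound hd cd hl
  obtain ⟨Cb, hCb⟩ := cb.exists_bound_of_continuous hb.continuous
  obtain ⟨Cd, hCd⟩ := cd.exists_bound_of_continuous hd.continuous
  have hCb0 : 0 ≤ Cb := (norm_nonneg _).trans (hCb 0)
  have hCd0 : 0 ≤ Cd := (norm_nonneg _).trans (hCd 0)
  have hpos : ∀ j, 0 ≤ Ba j + (Cb + Bb j) + (Cd + Bd j) := fun j => by
    linarith [ha0 j, hb0 j, hd0 j]
  refine ⟨∑ j ∈ Finset.range (m + 1), (Ba j + (Cb + Bb j) + (Cd + Bd j)),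
    Finset.sum_nonneg fun j _ => hpos j, fun j hj k hk θ θ' A hA y => ?_⟩
  have hk0 : 0 < k := by linarith
  have hle : Ba j + (Cb + Bb j) + (Cd + Bd j) ≤
      ∑ j ∈ Finset.range (m + 1), (Ba j + (Cb + Bb j) + (Cd + Bd j)) :=
    Finset.single_le_sum (f := fun j => Ba j + (Cb + Bb j) + (Cd + Bd j)) (fun j _ => hpos j)
      (Finset.mem_range.2 (by omega))
  have hj' : (j : WithTop ℕ∞) ≤ ∞ := by exact_mod_cast le_top
  have s1 := (ha.mul (contDiff_wave l k θ)).of_le hj'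
  have s2 := (hb.mul (contDiff_wave l k θ')).of_le hj'
  have s3 := (hd.mul (contDiff_wave l k θ)).of_le hj'
  have e : (fun y => A * (a y * cos (k * l y + θ) + k⁻¹ * (b y * cos (k * l y + θ'))
        + k⁻¹ ^ 2 * (d y * cos (k * l y + θ)))) =
      A • ((fun y => a y * cos (k * l y + θ)) + k⁻¹ • (fun y => b y * cos (k * l y + θ'))
        + k⁻¹ ^ 2 • (fun y => d y * cos (k * l y + θ))) := rfl
  have s2' : ContDiff ℝ j (k⁻¹ • (fun y => b y * cos (k * l y + θ'))) := s2.const_smul k⁻¹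
  have s3' : ContDiff ℝ j (k⁻¹ ^ 2 • (fun y => d y * cos (k * l y + θ))) := s3.const_smul (k⁻¹ ^ 2)
  have s4 : ContDiff ℝ j ((fun y => a y * cos (k * l y + θ))
      + k⁻¹ • (fun y => b y * cos (k * l y + θ'))) := s1.add s2'
  have s5 : ContDiff ℝ j ((fun y => a y * cos (k * l y + θ))
      + k⁻¹ • (fun y => b y * cos (k * l y + θ'))
        + k⁻¹ ^ 2 • (fun y => d y * cos (k * l y + θ))) := s4.add s3'
  rw [e, iteratedFDeriv_const_smul_apply s5.contDiffAt,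
    iteratedFDeriv_add_apply s4.contDiffAt s3'.contDiffAt,
    iteratedFDeriv_add_apply s1.contDiffAt s2'.contDiffAt,
    iteratedFDeriv_const_smul_apply s2.contDiffAt, iteratedFDeriv_const_smul_apply s3.contDiffAt,
    norm_smul, Real.norm_of_nonneg hA]
  refine mul_le_mul_of_nonneg_left ?_ hA
  refine (norm_add₃_le).trans ?_
  rw [norm_smul, norm_smul, Real.norm_of_nonneg (by positivity), Real.norm_of_nonneg (by positivity)]
  have hki : k⁻¹ ≤ 1 := inv_le_one_of_one_le₀ hk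
  have hki0 : 0 < k⁻¹ := inv_pos.2 hk0
  have t1 := hBa j k hk θ y
  have t2 : k⁻¹ * ‖iteratedFDeriv ℝ j (fun y => b y * cos (k * l y + θ')) y‖
      ≤ k ^ j * ((Cb + Bb j) / k) := by
    have h1 : |b y| + Bb j / k ≤ Cb + Bb j := add_le_add (hCb y) (div_le_self (hb0 j) hk)
    calc _ ≤ k⁻¹ * (k ^ j * (Cb + Bb j)) := by
          gcongr; exact (hBb j k hk θ' y).trans (by gcongr)
      _ = _ := by ring
  have t3 : k⁻¹ ^ 2 * ‖iteratedFDeriv ℝ j (fun y => d y * cos (k * l y + θ)) y‖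
      ≤ k ^ j * ((Cd + Bd j) / k) := by
    have h1 : |d y| + Bd j / k ≤ Cd + Bd j := add_le_add (hCd y) (div_le_self (hd0 j) hk)
    have h2 : k⁻¹ ^ 2 ≤ k⁻¹ := by nlinarith
    calc _ ≤ k⁻¹ * (k ^ j * (Cd + Bd j)) := by
          gcongr; exact (hBd j k hk θ y).trans (by gcongr)
      _ = _ := by ring
  have t4 : k ^ j * ((Ba j + (Cb + Bb j) + (Cd + Bd j)) / k) ≤ k ^ j *
      ((∑ j ∈ Finset.range (m + 1), (Ba j + (Cb + Bb j) + (Cd + Bd j))) / k) := by gcongr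
  have e2 : k ^ j * ((Ba j + (Cb + Bb j) + (Cd + Bd j)) / k) =
      k ^ j * (Ba j / k) + k ^ j * ((Cb + Bb j) / k) + k ^ j * ((Cd + Bd j) / k) := by ring
  linarith [mul_add (k ^ j) |a y| (Ba j / k), mul_add (k ^ j) |a y|
    ((∑ j ∈ Finset.range (m + 1), (Ba j + (Cb + Bb j) + (Cd + Bd j))) / k)]

omit [NormedSpace ℝ E] in
lemma fd_lower (G : E → ℝ) (m : ℕ) (h y : E) (c : ℝ) (τ : ℕ → ℝ)
    (hτ : ∀ j ≤ m, |(-1) ^ j * G (y + j • h) - c| ≤ τ j) :
    2 ^ m * |c| - ∑ j ∈ Finset.range (m + 1), (m.choose j : ℝ) * τ j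
      ≤ |(fwdDiff h)^[m] G y| := by
  have e1 : (fwdDiff h)^[m] G y =
      (-1) ^ m * ∑ j ∈ Finset.range (m + 1), (m.choose j : ℝ) * ((-1) ^ j * G (y + j • h)) := by
    rw [fwdDiff_iter_eq_sum_shift, Finset.mul_sum]
    refine Finset.sum_congr rfl fun j hj => ?_
    have hj' : j ≤ m := by have := Finset.mem_range.1 hj; omega
    obtain ⟨i, rfl⟩ := Nat.exists_eq_add_of_le hj'
    simp only [Nat.add_sub_cancel_left, zsmul_eq_mul, pow_add]
    push_cast
    have : ((-1 : ℝ) ^ j) * (-1) ^ j = 1 := by rw [← mul_pow]; simp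
    linear_combination (-((-1 : ℝ) ^ i * ((j + i).choose j : ℝ) * G (y + j • h))) * this
  have e2 : (2 : ℝ) ^ m * c = ∑ j ∈ Finset.range (m + 1), (m.choose j : ℝ) * c := by
    rw [← Finset.sum_mul, ← Nat.cast_sum, Nat.sum_range_choose]; push_cast; rfl
  rw [e1, abs_mul, abs_pow, abs_neg, abs_one, one_pow, one_mul]
  have h1 : |∑ j ∈ Finset.range (m + 1), (m.choose j : ℝ) * ((-1) ^ j * G (y + j • h)) - 2 ^ m * c|
      ≤ ∑ j ∈ Finset.range (m + 1), (m.choose j : ℝ) * τ j := by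
    rw [e2, ← Finset.sum_sub_distrib]
    refine (Finset.abs_sum_le_sum_abs _ _).trans (Finset.sum_le_sum fun j hj => ?_)
    rw [← mul_sub, abs_mul, Nat.abs_cast]
    exact mul_le_mul_of_nonneg_left (hτ j (by have := Finset.mem_range.1 hj; omega))
      (Nat.cast_nonneg _)
  have h2 := abs_sub_abs_le_abs_sub (2 ^ m * c)
    (∑ j ∈ Finset.range (m + 1), (m.choose j : ℝ) * ((-1) ^ j * G (y + j • h)))
  rw [abs_sub_comm, abs_mul, abs_of_pos (by positivity : (0 : ℝ) < 2 ^ m)] at h2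
  linarith

lemma phase_flip {s : Set E} (hs : Convex ℝ s) {g : E → ℝ} {g' : E → E →L[ℝ] ℝ} {ξ : E →L[ℝ] ℝ}
    {η : ℝ} (hg : ∀ y ∈ s, HasFDerivAt g (g' y) y) (hη : ∀ y ∈ s, ‖g' y - ξ‖ ≤ η * ‖ξ‖)
    {k : ℝ} (hk : 0 ≤ k) {h : E} (h1 : k * ξ h = π) (h2 : k * (‖ξ‖ * ‖h‖) = π) {y : E} (hy : y ∈ s)
    (j : ℕ) (hj : y + j • h ∈ s) (a a' θ : ℝ) :
    |(-1) ^ j * (a' * cos (k * g (y + j • h) + θ)) - a * cos (k * g y + θ)|
      ≤ |a' - a| + |a| * (η * π * j) := by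
  have h3 := hs.norm_image_sub_le_of_norm_hasFDerivWithin_le'
    (fun y hy => (hg y hy).hasFDerivWithinAt) hη hy hj
  rw [add_sub_cancel_left, ← Nat.cast_smul_eq_nsmul ℝ, map_smul, norm_smul, Real.norm_natCast,
    Nat.cast_smul_eq_nsmul ℝ] at h3
  have h4 : |(k * g (y + j • h) + θ) - (k * g y + θ + j * π)| ≤ η * π * j := by
    have e : (k * g (y + j • h) + θ) - (k * g y + θ + j * π)
        = k * (g (y + j • h) - g y - (j : ℝ) • ξ h) := by
      rw [← h1, smul_eq_mul]; ring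
    rw [e, abs_mul, abs_of_nonneg hk, ← h2]
    calc _ ≤ k * (η * ‖ξ‖ * (j * ‖h‖)) := mul_le_mul_of_nonneg_left h3 hk
      _ = _ := by ring
  have h5 := (abs_cos_sub_cos_le _ _).trans h4
  rw [cos_add_nat_mul_pi] at h5
  have hs1 : ((-1 : ℝ) ^ j) * (-1) ^ j = 1 := by rw [← mul_pow]; simp
  have e : (-1) ^ j * (a' * cos (k * g (y + j • h) + θ)) - a * cos (k * g y + θ) =
      (-1) ^ j * ((a' - a) * cos (k * g (y + j • h) + θ)
        + a * (cos (k * g (y + j • h) + θ) - (-1) ^ j * cos (k * g y + θ))) := by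
    linear_combination (a * cos (k * g y + θ)) * hs1
  rw [e, abs_mul, abs_pow, abs_neg, abs_one, one_pow, one_mul]
  refine (abs_add_le _ _).trans (add_le_add ?_ ?_)
  · rw [abs_mul]; exact mul_le_of_le_one_right (abs_nonneg _) (abs_cos_le_one _)
  · rw [abs_mul]; exact mul_le_mul_of_nonneg_left h5 (abs_nonneg _)

end Pool.Agent.P.MP_9c695c_an
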