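import Pool.Agent.P.MP_9c695c_an.Twist
import Pool.Agent.P.MP_9c695c_an.Osc

/-!
Wave packets on the surface: their Laplacian, their gradients, and comparison of integrals on the
surface with integrals in a chart.
-/

open scoped Manifold ContDiff ENNReal Topology
open MeasureTheory Set Filter Bundle Real Metric

set_option backward.isDefEq.respectTransparency false
set_option linter.unusedSectionVars false

namespace Pool.Agent.P.MP_9c695c_an

variable {E : Type*} [NormedAddCommGroup E] [InnerProductSpace ℝ E]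
  {H : Type*} [TopologicalSpace H] {I : ModelWithCorners ℝ E H}
  {M : Type*} [TopologicalSpace M] [ChartedSpace H M] [IsManifold I ∞ M]

/-- a wave packet -/
noncomputable def pk (a lam : M → ℝ) (k θ : ℝ) (x : M) : ℝ := a x * cos (k * lam x + θ)

/-- a wave packet with its lower order terms -/
noncomputable def pk3 (a b d lam : M → ℝ) (k θ : ℝ) (x : M) : ℝ :=
  a x * cos (k * lam x + θ) + k⁻¹ * (b x * cos (k * lam x + (θ - π / 2)))
    + k⁻¹ ^ 2 * (d x * cos (k * lam x + θ))

lemma smooth_wave {lam : M → ℝ} (hl : Smooth I lam) (k θ : ℝ) :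
    Smooth I fun x => cos (k * lam x + θ) :=
  hl.comp_real (c := fun s => cos (k * s + θ))
    (contDiff_cos.comp ((contDiff_const.mul contDiff_id).add contDiff_const))

lemma smooth_pk {a lam : M → ℝ} (ha : Smooth I a) (hl : Smooth I lam) (k θ : ℝ) :
    Smooth I (pk a lam k θ) := ha.mul (smooth_wave hl k θ)

lemma smooth_pk3 {a b d lam : M → ℝ} (ha : Smooth I a) (hb : Smooth I b) (hd : Smooth I d)
    (hl : Smooth I lam) (k θ : ℝ) : Smooth I (pk3 a b d lam k θ) :=
  ((smooth_pk ha hl k θ).add ((Smooth.const _).mul (smooth_pk hb hl k _))).add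
    ((Smooth.const _).mul (smooth_pk hd hl k θ))

namespace Surf
variable (S : Surf I M)

lemma grad_wave {lam : M → ℝ} (hl : Smooth I lam) (k θ : ℝ) (x : M) :
    S.grad (fun x => cos (k * lam x + θ)) x = (-sin (k * lam x + θ) * k) • S.grad lam x := by
  have := (((hasDerivAt_id (lam x)).const_mul k).add_const θ).cos
  rw [mul_one] at this
  exact S.grad_comp (c := fun s => cos (k * s + θ)) (hl.md x) this

lemma grad_pk {a lam : M → ℝ} (ha : Smooth I a) (hl : Smooth I lam) (k θ : ℝ) (x : M) :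
    S.grad (pk a lam k θ) x = (a x * (-sin (k * lam x + θ) * k)) • S.grad lam x
      + cos (k * lam x + θ) • S.grad a x := by
  have := S.grad_mul (ha.md x) ((smooth_wave hl k θ).md x)
  rw [S.grad_wave hl, smul_smul] at this
  exact this

lemma ip_add_le (x : M) (v w : TangentSpace I x) :
    S.ip x (v + w) (v + w) ≤ 2 * S.ip x v v + 2 * S.ip x w w := by
  have h1 := S.ip_nonneg x (v - w)
  simp only [ip_sub_left, ip_sub_right, ip_add_left, ip_add_right] at h1 ⊢
  linarith

lemma gam_add_le {f h : M → ℝ} {x : M} (hf : MdAt I f x) (hh : MdAt I h x) :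
    S.gam (fun y => f y + h y) (fun y => f y + h y) x ≤ 2 * S.gam f f x + 2 * S.gam h h x := by
  unfold gam; rw [S.grad_add hf hh]; exact S.ip_add_le x _ _

lemma gam_const_mul (c : ℝ) {f : M → ℝ} {x : M} (hf : MdAt I f x) :
    S.gam (fun y => c * f y) (fun y => c * f y) x = c ^ 2 * S.gam f f x := by
  unfold gam; rw [S.grad_const_mul c hf, ip_smul_left, ip_smul_right]; ring

lemma gam_pk_le {a lam : M → ℝ} (ha : Smooth I a) (hl : Smooth I lam) {k : ℝ} (hk : 1 ≤ k) (θ : ℝ)
    {x : M} {B : ℝ} (h1 : |a x| ≤ B) (h2 : S.gam a a x ≤ B) (h3 : S.gam lam lam x ≤ B) :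
    S.gam (pk a lam k θ) (pk a lam k θ) x ≤ k ^ 2 * (2 * B ^ 3 + 2 * B) := by
  have hB : 0 ≤ B := (abs_nonneg _).trans h1
  unfold gam
  rw [S.grad_pk ha hl]
  refine (S.ip_add_le x _ _).trans ?_
  simp only [ip_smul_left, ip_smul_right]
  change 2 * (_ * (_ * S.gam lam lam x)) + 2 * (_ * (_ * S.gam a a x)) ≤ _
  have g1 := S.gam_nonneg lam x
  have g2 := S.gam_nonneg a x
  have s1 : sin (k * lam x + θ) ^ 2 ≤ 1 := sin_sq_le_one _
  have s2 : cos (k * lam x + θ) ^ 2 ≤ 1 := cos_sq_le_one _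
  have s3 : a x ^ 2 ≤ B ^ 2 := by rw [← sq_abs]; gcongr
  have s4 : 1 ≤ k ^ 2 := one_le_pow₀ hk
  have t1 : a x ^ 2 * sin (k * lam x + θ) ^ 2 * k ^ 2 * S.gam lam lam x ≤ B ^ 2 * 1 * k ^ 2 * B := by
    gcongr
  have t2 : cos (k * lam x + θ) ^ 2 * S.gam a a x ≤ 1 * B := by gcongr
  have t3 : B ≤ k ^ 2 * B := le_mul_of_one_le_left hB s4
  nlinarith

lemma gam_pk3_le {a b d lam : M → ℝ} (ha : Smooth I a) (hb : Smooth I b) (hd : Smooth I d)
    (hl : Smooth I lam) {k : ℝ} (hk : 1 ≤ k) (θ : ℝ) {x : M} {B : ℝ} (h1 : |a x| ≤ B)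
    (h2 : S.gam a a x ≤ B) (h3 : |b x| ≤ B) (h4 : S.gam b b x ≤ B) (h5 : |d x| ≤ B)
    (h6 : S.gam d d x ≤ B) (h7 : S.gam lam lam x ≤ B) :
    S.gam (pk3 a b d lam k θ) (pk3 a b d lam k θ) x ≤ k ^ 2 * (10 * (2 * B ^ 3 + 2 * B)) := by
  have m1 := (smooth_pk ha hl k θ).md x
  have m2 := (smooth_pk hb hl k (θ - π / 2)).md x
  have m3 := (smooth_pk hd hl k θ).md x
  have m4 := ((Smooth.const k⁻¹).mul (smooth_pk hb hl k (θ - π / 2))).md x
  have m5 := ((Smooth.const (k⁻¹ ^ 2)).mul (smooth_pk hd hl k θ)).md x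
  have e1 := S.gam_add_le (m1.add m4) m5
  have e2 := S.gam_add_le m1 m4
  rw [S.gam_const_mul _ m3] at e1
  rw [S.gam_const_mul _ m2] at e2
  have b1 := S.gam_pk_le ha hl hk θ h1 h2 h7
  have b2 := S.gam_pk_le hb hl hk (θ - π / 2) h3 h4 h7
  have b3 := S.gam_pk_le hd hl hk θ h5 h6 h7
  have hki : k⁻¹ ≤ 1 := inv_le_one_of_one_le₀ hk
  have hki0 : 0 ≤ k⁻¹ := by positivity
  have c2 := mul_le_of_le_one_left (S.gam_nonneg (pk b lam k (θ - π / 2)) x)
    (pow_le_one₀ (n := 2) hki0 hki)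
  have c3 := mul_le_of_le_one_left (S.gam_nonneg (pk d lam k θ) x)
    (pow_le_one₀ (n := 2) (by positivity) (pow_le_one₀ (n := 2) hki0 hki))
  refine le_trans e1 ?_
  change 2 * S.gam (fun y => pk a lam k θ y + k⁻¹ * pk b lam k (θ - π / 2) y)
    (fun y => pk a lam k θ y + k⁻¹ * pk b lam k (θ - π / 2) y) x + _ ≤ _
  linarith

end Surf

section balls
variable {x₀ : M} {R : ℝ} (hR : ball (extChartAt I x₀ x₀) R ⊆ (extChartAt I x₀).target)
include hR

lemma ball_interior {y : E} (hy : y ∈ ball (extChartAt I x₀ x₀) R) :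
    (extChartAt I x₀).symm y ∈ I.interior M := by
  rw [mem_interior_iff_chart ((extChartAt I x₀).map_target (hR hy)),
    (extChartAt I x₀).right_inv (hR hy)]
  exact interior_maximal (hR.trans (extChartAt_target_subset_range x₀)) isOpen_ball hy

lemma contDiffAt_rep_ball {f : M → ℝ} (hf : Smooth I f) {y : E}
    (hy : y ∈ ball (extChartAt I x₀ x₀) R) : ContDiffAt ℝ ∞ (rep I x₀ f) y := by
  have := contDiffAt_rep ((extChartAt I x₀).map_target (hR hy)) (ball_interior hR hy) (hf _)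
  rwa [(extChartAt I x₀).right_inv (hR hy)] at this

variable [FiniteDimensional ℝ E] {s : ℝ} (hs : s < R)
include hs

lemma isCompact_Kc : IsCompact ((extChartAt I x₀).symm '' closedBall (extChartAt I x₀ x₀) s) :=
  (isCompact_closedBall _ _).image_of_continuousOn
    ((continuousOn_extChartAt_symm x₀).mono ((closedBall_subset_ball hs).trans hR))

lemma Kc_source : (extChartAt I x₀).symm '' closedBall (extChartAt I x₀ x₀) s
    ⊆ (extChartAt I x₀).source := by
  rintro _ ⟨y, hy, rfl⟩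
  exact (extChartAt I x₀).map_target (hR (closedBall_subset_ball hs hy))

lemma Kc_interior : (extChartAt I x₀).symm '' closedBall (extChartAt I x₀ x₀) s
    ⊆ I.interior M := by
  rintro _ ⟨y, hy, rfl⟩
  exact ball_interior hR (closedBall_subset_ball hs hy)

lemma chart_mem_of_Kc {x : M} (hx : x ∈ (extChartAt I x₀).symm '' closedBall (extChartAt I x₀ x₀) s) :
    extChartAt I x₀ x ∈ closedBall (extChartAt I x₀ x₀) s := by
  obtain ⟨y, hy, rfl⟩ := hx
  rwa [(extChartAt I x₀).right_inv (hR (closedBall_subset_ball hs hy))]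

lemma tsupport_Kc [T2Space M] {f : M → ℝ}
    (h0 : ∀ x ∉ (extChartAt I x₀).symm '' closedBall (extChartAt I x₀ x₀) s, f x = 0) :
    tsupport f ⊆ (extChartAt I x₀).symm '' closedBall (extChartAt I x₀ x₀) s :=
  closure_minimal (fun x hx => by by_contra h; exact hx (h0 x h)) (isCompact_Kc hR hs).isClosed

lemma exists_lift [T2Space M] {F : E → ℝ} (hF : ContDiff ℝ ∞ F)
    (h0 : ∀ y ∉ closedBall (extChartAt I x₀ x₀) s, F y = 0) :
    ∃ f : M → ℝ, Smooth I f ∧
      (∀ x ∉ (extChartAt I x₀).symm '' closedBall (extChartAt I x₀ x₀) s, f x = 0) ∧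
      ∀ x ∈ (extChartAt I x₀).source, f x = F (extChartAt I x₀ x) := by
  have hz : ∀ x ∈ (extChartAt I x₀).source,
      x ∉ (extChartAt I x₀).symm '' closedBall (extChartAt I x₀ x₀) s →
      F (extChartAt I x₀ x) = 0 := fun x hx hxK =>
    h0 _ fun h => hxK ⟨_, h, (extChartAt I x₀).left_inv hx⟩
  refine ⟨(extChartAt I x₀).source.indicator fun x => F (extChartAt I x₀ x),
    smooth_indicator (isOpen_extChartAt_source x₀) (isCompact_Kc hR hs).isClosed (Kc_source hR hs)
      (fun x hx => smAt_of_chart hx hF.contDiffWithinAt) hz, fun x hx => ?_,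
    fun x hx => indicator_of_mem hx _⟩
  by_cases h : x ∈ (extChartAt I x₀).source
  · rw [indicator_of_mem h, hz x h hx]
  · exact indicator_of_notMem h _

lemma exists_drop {f : M → ℝ} (hf : Smooth I f)
    (h0 : ∀ x ∉ (extChartAt I x₀).symm '' closedBall (extChartAt I x₀ x₀) s, f x = 0) :
    ∃ F : E → ℝ, ContDiff ℝ ∞ F ∧ HasCompactSupport F ∧
      (∀ y ∉ closedBall (extChartAt I x₀ x₀) s, F y = 0) ∧
      ∀ y ∈ ball (extChartAt I x₀ x₀) R, F y = f ((extChartAt I x₀).symm y) := by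
  have hz : ∀ y ∉ closedBall (extChartAt I x₀ x₀) s,
      (ball (extChartAt I x₀ x₀) R).indicator (rep I x₀ f) y = 0 := by
    intro y hy
    by_cases h : y ∈ ball (extChartAt I x₀ x₀) R
    · rw [indicator_of_mem h]
      refine h0 _ fun h1 => hy ?_
      have := chart_mem_of_Kc hR hs h1
      rwa [(extChartAt I x₀).right_inv (hR h)] at this
    · exact indicator_of_notMem h _
  refine ⟨(ball (extChartAt I x₀ x₀) R).indicator (rep I x₀ f), contDiff_iff_contDiffAt.2 fun y => ?_,
    HasCompactSupport.intro (isCompact_closedBall _ _) hz, hz, fun y hy => indicator_of_mem hy _⟩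
  by_cases h : y ∈ ball (extChartAt I x₀ x₀) R
  · refine (contDiffAt_rep_ball hR hf h).congr_of_eventuallyEq ?_
    filter_upwards [isOpen_ball.mem_nhds h] with z hz using indicator_of_mem hz _
  · refine (contDiffAt_const (c := (0 : ℝ))).congr_of_eventuallyEq ?_
    filter_upwards [isClosed_closedBall.isOpen_compl.mem_nhds
      (fun h1 => h (closedBall_subset_ball hs h1))] with z hz' using hz z hz'

end balls

variable [FiniteDimensional ℝ E] [MeasurableSpace E] [BorelSpace E]
  [MeasurableSpace M] [BorelSpace M] [CompactSpace M] [T2Space M]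

namespace Surf
variable {S : Surf I M} {μ : Measure M}

lemma IsArea.integrableOn_chart (hμ : S.IsArea μ) (x₀ : M) {h : M → ℝ} (hh : Continuous h) :
    IntegrableOn (fun y => S.dens x₀ y * h ((extChartAt I x₀).symm y)) (extChartAt I x₀).target := by
  have hm : AEMeasurable (extChartAt I x₀).symm ((volume.restrict (extChartAt I x₀).target).withDensity
        fun y => ENNReal.ofReal (S.dens x₀ y)) :=
    ((continuousOn_extChartAt_symm x₀).aemeasurable (measurableSet_target x₀)).mono_ac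
      (withDensity_absolutelyContinuous _ _)
  have h1 : Integrable h (μ.restrict (extChartAt I x₀).source) := (hμ.integrable hh).restrict
  rw [hμ.restrict_eq x₀, integrable_map_measure hh.aestronglyMeasurable hm,
    integrable_withDensity_iff_integrable_smul₀' (S.aemeasurable_dens x₀)
      (Eventually.of_forall fun _ => ENNReal.ofReal_lt_top)] at h1
  refine h1.congr (Eventually.of_forall fun y => ?_)
  simp only [smul_eq_mul, Function.comp_apply]
  rw [ENNReal.toReal_ofReal (show 0 ≤ S.dens x₀ y from Real.sqrt_nonneg _)]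

lemma IsArea.chart_le (hμ : S.IsArea μ) (x₀ : M) {h : M → ℝ} (hh : Continuous h)
    (h0 : ∀ x, 0 ≤ h x) {B : Set E} (hB : IsCompact B) (hBt : B ⊆ (extChartAt I x₀).target)
    {c : ℝ} (hc : ∀ y ∈ B, c ≤ S.dens x₀ y) :
    c * ∫ y in B, h ((extChartAt I x₀).symm y) ≤ ∫ x, h x ∂μ := by
  have hi := hμ.integrableOn_chart x₀ hh
  have hc' : ContinuousOn (fun y => h ((extChartAt I x₀).symm y)) B :=
    hh.comp_continuousOn ((continuousOn_extChartAt_symm x₀).mono hBt)
  calc _ = ∫ y in B, c * h ((extChartAt I x₀).symm y) := (integral_const_mul _ _).symm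
    _ ≤ ∫ y in B, S.dens x₀ y * h ((extChartAt I x₀).symm y) :=
        setIntegral_mono_on ((hc'.integrableOn_compact hB).const_mul c) (hi.mono_set hBt)
          hB.measurableSet fun y hy => mul_le_mul_of_nonneg_right (hc y hy) (h0 _)
    _ ≤ ∫ y in (extChartAt I x₀).target, S.dens x₀ y * h ((extChartAt I x₀).symm y) :=
        setIntegral_mono_set hi (Eventually.of_forall fun y =>
          mul_nonneg (Real.sqrt_nonneg _) (h0 _)) hBt.eventuallyLE
    _ = ∫ x in (extChartAt I x₀).source, h x ∂μ := (hμ.integral_chart x₀ hh.continuousOn).symm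
    _ ≤ ∫ x, h x ∂μ := setIntegral_le_integral (hμ.integrable hh) (Eventually.of_forall h0)

lemma IsArea.le_chart (hμ : S.IsArea μ) (x₀ : M) {h : M → ℝ} (hh : Continuous h)
    (h0 : ∀ x, 0 ≤ h x) {K : Set M} (hK : IsCompact K) (hKs : K ⊆ (extChartAt I x₀).source)
    (hz : ∀ x ∉ K, h x = 0) {c : ℝ} (hc : ∀ y ∈ extChartAt I x₀ '' K, S.dens x₀ y ≤ c) :
    ∫ x, h x ∂μ ≤ c * ∫ y in extChartAt I x₀ '' K, h ((extChartAt I x₀).symm y) := by
  have hi := hμ.integrableOn_chart x₀ hh
  have hB : IsCompact (extChartAt I x₀ '' K) :=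
    hK.image_of_continuousOn ((continuousOn_extChartAt x₀).mono hKs)
  have hBt : extChartAt I x₀ '' K ⊆ (extChartAt I x₀).target := by
    rintro _ ⟨x, hx, rfl⟩; exact (extChartAt I x₀).map_source (hKs hx)
  have hc' : ContinuousOn (fun y => h ((extChartAt I x₀).symm y)) (extChartAt I x₀ '' K) :=
    hh.comp_continuousOn ((continuousOn_extChartAt_symm x₀).mono hBt)
  calc _ = ∫ x in (extChartAt I x₀).source, h x ∂μ :=
        (setIntegral_eq_integral_of_forall_compl_eq_zero fun x hx => hz x fun h => hx (hKs h)).symm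
    _ = ∫ y in (extChartAt I x₀).target, S.dens x₀ y * h ((extChartAt I x₀).symm y) :=
        hμ.integral_chart x₀ hh.continuousOn
    _ = ∫ y in extChartAt I x₀ '' K, S.dens x₀ y * h ((extChartAt I x₀).symm y) :=
        setIntegral_eq_of_subset_of_forall_sdiff_eq_zero (measurableSet_target x₀) hBt
          fun y hy => by
            rw [hz _ fun h => hy.2 ⟨_, h, (extChartAt I x₀).right_inv hy.1⟩, mul_zero]
    _ ≤ ∫ y in extChartAt I x₀ '' K, c * h ((extChartAt I x₀).symm y) :=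
        setIntegral_mono_on (hi.mono_set hBt) ((hc'.integrableOn_compact hB).const_mul c)
          hB.measurableSet fun y hy => mul_le_mul_of_nonneg_right (hc y hy) (h0 _)
    _ = _ := integral_const_mul _ _

lemma IsArea.measure_bounds (hμ : S.IsArea μ) (x₀ : M) {K : Set M} (hK : IsCompact K)
    (hKs : K ⊆ (extChartAt I x₀).source) {c C : ℝ} (hc0 : 0 ≤ c) (hC0 : 0 ≤ C)
    (hc : ∀ y ∈ extChartAt I x₀ '' K, c ≤ S.dens x₀ y ∧ S.dens x₀ y ≤ C) :
    c * volume.real (extChartAt I x₀ '' K) ≤ μ.real K ∧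
      μ.real K ≤ C * volume.real (extChartAt I x₀ '' K) := by
  have := hμ.finite
  have hB : IsCompact (extChartAt I x₀ '' K) :=
    hK.image_of_continuousOn ((continuousOn_extChartAt x₀).mono hKs)
  have e := hμ x₀ K hK.measurableSet hKs
  have h1 : ENNReal.ofReal c * volume (extChartAt I x₀ '' K) ≤ μ K := by
    rw [e, ← setLIntegral_const]
    exact setLIntegral_mono' hB.measurableSet fun y hy => ENNReal.ofReal_le_ofReal (hc y hy).1
  have h2 : μ K ≤ ENNReal.ofReal C * volume (extChartAt I x₀ '' K) := by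
    rw [e, ← setLIntegral_const]
    exact setLIntegral_mono' hB.measurableSet fun y hy => ENNReal.ofReal_le_ofReal (hc y hy).2
  have h3 := ENNReal.toReal_mono (measure_ne_top μ K) h1
  have h4 := ENNReal.toReal_mono (ENNReal.mul_ne_top ENNReal.ofReal_ne_top hB.measure_ne_top) h2
  rw [ENNReal.toReal_mul, ENNReal.toReal_ofReal hc0] at h3
  rw [ENNReal.toReal_mul, ENNReal.toReal_ofReal hC0] at h4
  exact ⟨h3, h4⟩

/-- the Laplacian of a wave packet -/
lemma IsArea.laplace_packet (hμ : S.IsArea μ) {χ lam Lχ Ll : M → ℝ} (hχ : Smooth I χ)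
    (hl : Smooth I lam) (hLχ : Smooth I Lχ) (hLl : Smooth I Ll)
    (wχ : ∀ h : M → ℝ, Smooth I h → ∫ x, (Lχ x * h x + S.gam χ h x) ∂μ = 0)
    (wl : ∀ h : M → ℝ, Smooth I h → ∫ x, (Ll x * h x + S.gam lam h x) ∂μ = 0)
    {k : ℝ} (hk : k ≠ 0) (θ A : ℝ) {h : M → ℝ} (hh : Smooth I h) :
    ∫ x, (A * pk3 (fun x => χ x * S.gam lam lam x) (fun x => 2 * S.gam χ lam x + χ x * Ll x)
      (fun x => - Lχ x) lam k θ x * h x
      + S.gam (fun x => -(A * k⁻¹ ^ 2) * pk χ lam k θ x) h x) ∂μ = 0 := by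
  have s1 := smooth_pk hh hl k θ
  have s2 := smooth_pk (hχ.mul hh) hl k (θ - π / 2)
  rw [hμ.lin2 (-(A * k⁻¹ ^ 2)) (A * k⁻¹) ((hLχ.mul s1).add (S.smooth_gam hχ s1))
    ((hLl.mul s2).add (S.smooth_gam hl s2)) (fun x => ?_), wχ _ s1, wl _ s2]
  · ring
  have e1 : k * lam x + (θ - π / 2) = (k * lam x + θ) - π / 2 := by ring
  simp only [gam]
  rw [S.grad_const_mul _ ((smooth_pk hχ hl k θ).md x), S.grad_pk hχ hl, S.grad_pk hh hl,
    S.grad_pk (hχ.mul hh) hl, S.grad_mul (hχ.md x) (hh.md x)]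
  simp only [ip_add_left, ip_add_right,
    ip_smul_left, ip_smul_right, pk3, pk, e1, cos_sub_pi_div_two, sin_sub_pi_div_two,
    S.ip_symm x (S.grad lam x) (S.grad χ x)]
  field_simp
  ring

end Surf

end Pool.Agent.P.MP_9c695c_an
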