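import Pool.Agent.P.MP_9c695c_an.Flow

/-!
Local structure of the steady flow near regular points and near zeros of the velocity.
-/

open scoped Manifold ContDiff ENNReal Topology NNReal
open MeasureTheory Set Filter Bundle

set_option backward.isDefEq.respectTransparency false
set_option linter.unusedSectionVars false

namespace Pool.Agent.P.MP_9c695c_an

variable {E : Type*} [NormedAddCommGroup E] [InnerProductSpace ℝ E]

lemma injOn_of_strict [FiniteDimensional ℝ E] {F : Type*} [NormedAddCommGroup F] [NormedSpace ℝ F]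
    {G : E → F} {G' : E →L[ℝ] F} {a : E} (h : HasStrictFDerivAt G G' a)
    (hi : ∀ v, G' v = 0 → v = 0) : ∃ s ∈ 𝓝 a, InjOn G s := by
  obtain ⟨K, hK, hanti⟩ := (G' : E →ₗ[ℝ] F).exists_antilipschitzWith
    (LinearMap.ker_eq_bot'.2 hi)
  obtain ⟨s, hs, happ⟩ := h.approximates_deriv_on_nhds (c := (2 * K)⁻¹) (Or.inr (by positivity))
  refine ⟨s, hs, fun x hx y hy hxy => ?_⟩
  have h1 := happ x hx y hy
  rw [hxy, sub_self, zero_sub, norm_neg] at h1
  have h2 : ‖x - y‖ ≤ K * ‖G' (x - y)‖ := by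
    have := hanti.le_mul_dist (x - y) 0
    simpa [dist_eq_norm] using this
  have hK' : (0 : ℝ) < K := hK
  have h3 : (K : ℝ) * ‖G' (x - y)‖ ≤ K * (((2 * K)⁻¹ : ℝ≥0) * ‖x - y‖) := by gcongr
  have h4 : (K : ℝ) * (((2 * K)⁻¹ : ℝ≥0) * ‖x - y‖) = ‖x - y‖ / 2 := by
    push_cast; field_simp
  have h5 : ‖x - y‖ ≤ 0 := by linarith
  exact sub_eq_zero.1 (norm_le_zero_iff.1 h5)

lemma no_small_periodic {U : E → E} {c : ℝ → E} {T η : ℝ} {L : E →L[ℝ] E} {U' : ℝ → E →L[ℝ] E}
    (hT : 0 < T) (hc : ∀ s ∈ Icc 0 T, HasDerivAt c (U (c s)) s)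
    (hU : ∀ s ∈ Icc 0 T, HasFDerivAt U (U' s) (c s)) (hη : ∀ s ∈ Icc 0 T, ‖U' s - L‖ ≤ η)
    (hL : ∀ v, L (L v) = 0) (hper : c 0 = c T) (hsmall : T * (T * ‖L‖ + 1) * η < 1) :
    U (c 0) = 0 := by
  have hv : ∀ s ∈ Icc 0 T, HasDerivAt (fun s => U (c s)) (U' s (U (c s))) s := fun s hs =>
    (hU s hs).comp_hasDerivAt s (hc s hs)
  obtain ⟨s₀, hs₀, hmax⟩ := isCompact_Icc.exists_isMaxOn (nonempty_Icc.2 hT.le)
    (f := fun s => ‖U (c s)‖) (fun s hs => (hv s hs).continuousAt.continuousWithinAt.norm)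
  set W := ‖U (c s₀)‖ with hW
  have hW0 : 0 ≤ W := norm_nonneg _
  have hη0 : 0 ≤ η := (norm_nonneg _).trans (hη 0 ⟨le_rfl, hT.le⟩)
  have key : ∀ (A : E →L[ℝ] E) (β : ℝ), (∀ s ∈ Icc 0 T, ‖A (U' s (U (c s)))‖ ≤ β) →
      ∀ s₁ ∈ Icc 0 T, ‖A (U (c s₁))‖ ≤ β * T := by
    intro A β hβ s₁ hs₁
    have hβ0 : 0 ≤ β := (norm_nonneg _).trans (hβ 0 ⟨le_rfl, hT.le⟩)
    set X := A (U (c s₁)) with hX
    have hd : ∀ s ∈ Icc 0 T, HasDerivAt (fun s => innerSL ℝ X (A (c s)))
        (innerSL ℝ X (A (U (c s)))) s := fun s hs =>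
      ((innerSL ℝ X).comp A).hasFDerivAt.comp_hasDerivAt s (hc s hs)
    obtain ⟨σ, hσ, h0⟩ := exists_hasDerivAt_eq_zero hT
      (fun s hs => (hd s hs).continuousAt.continuousWithinAt) (by rw [hper])
      (fun s hs => hd s (Ioo_subset_Icc_self hs))
    have hσ' := Ioo_subset_Icc_self hσ
    have h1 := (convex_Icc 0 T).norm_image_sub_le_of_norm_hasDerivWithin_le
      (f := fun s => A (U (c s)))
      (fun s hs => (A.hasFDerivAt.comp_hasDerivAt s (hv s hs)).hasDerivWithinAt) hβ hσ' hs₁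
    have h2 : ‖s₁ - σ‖ ≤ T := by
      rw [Real.norm_eq_abs, abs_le]
      constructor <;> linarith [hs₁.1, hs₁.2, hσ'.1, hσ'.2]
    have h3 : ‖X‖ * ‖X‖ ≤ ‖X‖ * (β * T) := by
      have e : ‖X‖ * ‖X‖ = inner ℝ X (X - A (U (c σ))) := by
        rw [inner_sub_right, real_inner_self_eq_norm_mul_norm]
        simp only [innerSL_apply_apply] at h0
        rw [h0, sub_zero]
      rw [e]
      refine (real_inner_le_norm _ _).trans (mul_le_mul_of_nonneg_left ?_ (norm_nonneg _))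
      exact h1.trans (mul_le_mul_of_nonneg_left h2 hβ0)
    rcases (norm_nonneg X).eq_or_lt with h4 | h4
    · rw [← h4]; positivity
    · exact le_of_mul_le_mul_left h3 h4
  have he : ∀ s ∈ Icc 0 T, ‖(U' s - L) (U (c s))‖ ≤ η * W := fun s hs =>
    ((U' s - L).le_opNorm _).trans (mul_le_mul (hη s hs) (hmax hs) (norm_nonneg _) hη0)
  have k1 := key L (‖L‖ * (η * W)) fun s hs => by
    have : L (U' s (U (c s))) = L ((U' s - L) (U (c s))) := by simp [hL]
    rw [this]
    exact (L.le_opNorm _).trans (mul_le_mul_of_nonneg_left (he s hs) (norm_nonneg _))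
  have k2 := key (ContinuousLinearMap.id ℝ E) (‖L‖ * (η * W) * T + η * W) (fun s hs => by
    have : (ContinuousLinearMap.id ℝ E) (U' s (U (c s))) = L (U (c s)) + (U' s - L) (U (c s)) := by
      simp
    rw [this]
    exact (norm_add_le _ _).trans (add_le_add (k1 s hs) (he s hs))) s₀ hs₀
  simp only [ContinuousLinearMap.id_apply] at k2
  have hW1 : W ≤ 0 := by
    by_contra h
    push Not at h
    have := mul_lt_mul_of_pos_right hsmall h
    nlinarith
  exact norm_le_zero_iff.1 ((hmax ⟨le_rfl, hT.le⟩).trans hW1)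

variable {H : Type*} [TopologicalSpace H] {I : ModelWithCorners ℝ E H}
  {M : Type*} [TopologicalSpace M] [ChartedSpace H M] [IsManifold I ∞ M]

lemma range_mem_nhds {x₀ x : M} (hx : x ∈ (extChartAt I x₀).source) (hi : x ∈ I.interior M) :
    range I ∈ 𝓝 (extChartAt I x₀ x) :=
  mem_interior_iff_mem_nhds.1 ((mem_interior_iff_chart hx).1 hi)

lemma target_mem_nhds {x₀ x : M} (hx : x ∈ (extChartAt I x₀).source) (hi : x ∈ I.interior M) :
    (extChartAt I x₀).target ∈ 𝓝 (extChartAt I x₀ x) := by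
  have h2 := extChartAt_target_mem_nhdsWithin_of_mem ((extChartAt I x₀).map_source hx)
  rwa [nhdsWithin_eq_nhds.2 (range_mem_nhds hx hi)] at h2

lemma tendsto_symm {x₀ x : M} (hx : x ∈ (extChartAt I x₀).source) :
    Tendsto (extChartAt I x₀).symm (𝓝 (extChartAt I x₀ x)) (𝓝 x) := by
  have := (continuousAt_extChartAt_symm' (I := I) hx).tendsto
  rwa [(extChartAt I x₀).left_inv hx] at this

lemma contDiffAt_rep {x₀ x : M} (hx : x ∈ (extChartAt I x₀).source) (hi : x ∈ I.interior M)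
    {f : M → ℝ} (hf : SmAt I f x) : ContDiffAt ℝ ∞ (rep I x₀ f) (extChartAt I x₀ x) :=
  (contDiffWithinAt_rep hx hf).contDiffAt (range_mem_nhds hx hi)

lemma hasFDerivAt_rep {x₀ x : M} (hx : x ∈ (extChartAt I x₀).source) (hi : x ∈ I.interior M)
    {f : M → ℝ} (hf : MdAt I f x) :
    HasFDerivAt (rep I x₀ f) ((mvfderiv I f x).comp (tv I x₀ x)) (extChartAt I x₀ x) := by
  have hy := (extChartAt I x₀).map_source hx
  have h0 : MdAt I f ((extChartAt I x₀).symm (extChartAt I x₀ x)) := by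
    rw [(extChartAt I x₀).left_inv hx]; exact hf
  have h1 := mdifferentiableWithinAt_iff_differentiableWithinAt.1
    (h0.comp_mdifferentiableWithinAt _ (mdifferentiableWithinAt_extChartAt_symm hy))
  have h2 := (h1.hasFDerivWithinAt).hasFDerivAt (range_mem_nhds hx hi)
  refine h2.congr_fderiv ?_
  ext v
  exact (mv_tv hx hf v).symm

lemma mv_ext {x₀ x : M} (hx : x ∈ (extChartAt I x₀).source) {ξ ξ' : TangentSpace I x →L[ℝ] ℝ}
    (h : ξ.comp (tv I x₀ x) = ξ'.comp (tv I x₀ x)) : ξ = ξ' := by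
  ext v
  rw [← tv_mv_chart hx v]
  exact congrArg (fun L => L (mvfderiv I (extChartAt I x₀) x v)) h

lemma exists_punctured (hr : 1 < Module.rank ℝ E) {z : M} (hz : z ∈ I.interior M) {N : Set M}
    (hN : N ∈ 𝓝 z) : ∃ P, IsPreconnected P ∧ P ⊆ N \ {z} ∧ P ∈ 𝓝[≠] z := by
  have hx := mem_extChartAt_source (I := I) z
  obtain ⟨r, hr0, hball⟩ := Metric.mem_nhds_iff.1
    (inter_mem (target_mem_nhds hx hz) ((tendsto_symm hx) hN))
  refine ⟨(extChartAt I z).symm '' (Metric.ball (extChartAt I z z) r \ {extChartAt I z z}),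
    (isPreconnected_punctured hr _ r).image _ ((continuousOn_extChartAt_symm z).mono
      fun y hy => (hball hy.1).1), ?_, ?_⟩
  · rintro _ ⟨y, hy, rfl⟩
    refine ⟨(hball hy.1).2, fun h => hy.2 ?_⟩
    have h1 := congrArg (extChartAt I z) (mem_singleton_iff.1 h)
    rwa [(extChartAt I z).right_inv (hball hy.1).1] at h1
  · filter_upwards [self_mem_nhdsWithin, mem_nhdsWithin_of_mem_nhds
      ((isOpen_extChartAt_source z).mem_nhds hx), mem_nhdsWithin_of_mem_nhds
      ((continuousAt_extChartAt (I := I) z).eventually (Metric.ball_mem_nhds _ hr0))]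
      with x h1 h2 h3
    exact ⟨_, ⟨h3, fun h => h1 ((extChartAt I z).injOn h2 hx h)⟩, (extChartAt I z).left_inv h2⟩

lemma isPreconnected_interior [PreconnectedSpace M] : IsPreconnected (I.interior M) := by
  intro u v hu hv huv hne1 hne2
  obtain ⟨z, -, hz1, hz2⟩ := isPreconnected_closed_iff.1 (isPreconnected_univ (α := M))
    (closure (I.interior M ∩ u)) (closure (I.interior M ∩ v)) isClosed_closure isClosed_closure
    (by
      rw [← closure_union, ← inter_union_distrib_left, inter_eq_left.2 huv,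
        (dense_interior (I := I)).closure_eq])
    (by simpa using hne1) (by simpa using hne2)
  have hx := mem_extChartAt_source (I := I) z
  obtain ⟨r, hr0, hball⟩ := Metric.mem_nhdsWithin_iff.1
    (extChartAt_target_mem_nhdsWithin_of_mem ((extChartAt I z).map_source hx))
  let W := (extChartAt I z).source ∩ extChartAt I z ⁻¹' Metric.ball (extChartAt I z z) r
  have hW : W ∈ 𝓝 z := inter_mem ((isOpen_extChartAt_source z).mem_nhds hx)
    ((continuousAt_extChartAt (I := I) z).preimage_mem_nhds (Metric.ball_mem_nhds _ hr0))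
  have hP : IsPreconnected (W ∩ I.interior M) := by
    have h1 := ((convex_ball (extChartAt I z z) r).inter I.convex_range.interior).isPreconnected.image
      _ ((continuousOn_extChartAt_symm (I := I) z).mono
        fun y hy => hball ⟨hy.1, interior_subset hy.2⟩)
    have h2 : (extChartAt I z).symm '' (Metric.ball (extChartAt I z z) r ∩ interior (range I))
        = W ∩ I.interior M := by
      ext x
      constructor
      · rintro ⟨y, hy, rfl⟩
        have hyt := hball ⟨hy.1, interior_subset hy.2⟩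
        have hs := (extChartAt I z).map_target hyt
        refine ⟨⟨hs, ?_⟩, (mem_interior_iff_chart hs).2 ?_⟩
        · rw [mem_preimage, (extChartAt I z).right_inv hyt]; exact hy.1
        · rw [(extChartAt I z).right_inv hyt]; exact hy.2
      · rintro ⟨⟨h1, h2⟩, h3⟩
        exact ⟨_, ⟨h2, (mem_interior_iff_chart h1).1 h3⟩, (extChartAt I z).left_inv h1⟩
    rwa [h2] at h1
  obtain ⟨a, ha1, ha2⟩ := mem_closure_iff_nhds.1 hz1 W hW
  obtain ⟨b, hb1, hb2⟩ := mem_closure_iff_nhds.1 hz2 W hW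
  obtain ⟨c, hc1, hc2⟩ := hP u v hu hv (fun x hx => huv hx.2) ⟨a, ⟨ha1, ha2.1⟩, ha2.2⟩
    ⟨b, ⟨hb1, hb2.1⟩, hb2.2⟩
  exact ⟨c, hc1.2, hc2⟩

namespace Surf
variable (S : Surf I M)

lemma ker_stream {x₀ x : M} (hx : x ∈ (extChartAt I x₀).source) {ψ : M → ℝ}
    (hr : S.gam ψ ψ x ≠ 0) {v : E} (hv : mvfderiv I ψ x (tv I x₀ x v) = 0) :
    ∃ a : ℝ, v = a • S.Vc x₀ ψ x := by
  have hm := S.ar_ne hx
  rw [S.coord_eq v, map_add, map_smul, map_smul, map_add, map_smul, map_smul] at hv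
  change inner ℝ (S.b 0) v * S.D x₀ 0 ψ x + inner ℝ (S.b 1) v * S.D x₀ 1 ψ x = 0 at hv
  set p := S.D x₀ 0 ψ x with hp
  set q := S.D x₀ 1 ψ x with hq
  have hpq : p ^ 2 + q ^ 2 ≠ 0 := by
    intro h
    have h1 : p = 0 := by nlinarith [sq_nonneg p, sq_nonneg q]
    have h2 : q = 0 := by nlinarith [sq_nonneg p, sq_nonneg q]
    apply hr
    rw [S.gam_chart hx, ← hp, ← hq, h1, h2]; simp
  refine ⟨S.ar x₀ x * (inner ℝ (S.b 1) v * p - inner ℝ (S.b 0) v * q) / (p ^ 2 + q ^ 2), ?_⟩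
  conv_lhs => rw [S.coord_eq v]
  simp only [Vc, u0, u1, smul_add, smul_smul, ← hp, ← hq]
  congr 2
  · field_simp
    linear_combination p * hv
  · field_simp
    linear_combination q * hv

lemma exists_section {x₀ : M} (hi : x₀ ∈ I.interior M) {ψ : M → ℝ} (hψ : Smooth I ψ)
    (hr : S.gam ψ ψ x₀ ≠ 0) :
    ∃ W ∈ 𝓝 x₀, W ⊆ (extChartAt I x₀).source ∧ ∀ x ∈ W, ∀ x' ∈ W, ψ x = ψ x' →
      innerSL ℝ (S.Vc x₀ ψ x₀) (extChartAt I x₀ x) = innerSL ℝ (S.Vc x₀ ψ x₀) (extChartAt I x₀ x')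
      → x = x' := by
  have := S.finDim
  have hx := mem_extChartAt_source (I := I) x₀
  have h1 : HasStrictFDerivAt (rep I x₀ ψ) ((mvfderiv I ψ x₀).comp (tv I x₀ x₀))
      (extChartAt I x₀ x₀) :=
    (contDiffAt_rep hx hi (hψ x₀)).hasStrictFDerivAt' (hasFDerivAt_rep hx hi (hψ.md x₀)) (by simp)
  obtain ⟨s, hs, hinj⟩ := injOn_of_strict
    (h1.prodMk (innerSL ℝ (S.Vc x₀ ψ x₀)).hasStrictFDerivAt) (fun v hv => by
      simp only [ContinuousLinearMap.prod_apply, Prod.mk_eq_zero] at hv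
      obtain ⟨a, rfl⟩ := S.ker_stream hx hr hv.1
      have h2 := hv.2
      simp only [map_smul, innerSL_apply_apply, smul_eq_mul, mul_eq_zero, inner_self_eq_zero] at h2
      rcases h2 with h2 | h2 <;> simp [h2])
  refine ⟨(extChartAt I x₀).source ∩ extChartAt I x₀ ⁻¹' s,
    inter_mem ((isOpen_extChartAt_source x₀).mem_nhds hx)
      ((continuousAt_extChartAt (I := I) x₀).preimage_mem_nhds hs), inter_subset_left,
    fun x hx x' hx' e1 e2 => (extChartAt I x₀).injOn hx.1 hx'.1 (hinj hx.2 hx'.2 ?_)⟩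
  simp only [rep, Function.comp_apply, (extChartAt I x₀).left_inv hx.1,
    (extChartAt I x₀).left_inv hx'.1, e1, e2]

/-- the linearisation of the velocity at a zero has scalar square -/
lemma lin_sq {z : M} (hi : z ∈ I.interior M) {ψ : M → ℝ} (hψ : Smooth I ψ)
    (h0 : S.gam ψ ψ z = 0) : ∃ κ : ℝ, ∀ v, fderiv ℝ (S.Uc z ψ) (extChartAt I z z)
      (fderiv ℝ (S.Uc z ψ) (extChartAt I z z) v) = κ • v := by
  have hx := mem_extChartAt_source (I := I) z
  have hs := (isOpen_extChartAt_source z).mem_nhds hx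
  have hm := S.ar_ne hx
  have hD : ∀ i, S.D z i ψ z = 0 := fun i => by
    rw [D_eq_ip, S.grad_eq_zero_of_gam h0, ip_zero_left]
  have k0 := S.smAt_u0 hx (hψ z)
  have k1 := S.smAt_u1 hx (hψ z)
  have hL := ((hasFDerivAt_rep hx hi k0.md).smul_const (S.b 0)).add
    ((hasFDerivAt_rep hx hi k1.md).smul_const (S.b 1))
  have hL' : ∀ j, fderiv ℝ (S.Uc z ψ) (extChartAt I z z) (S.b j) =
      S.D z j (S.u0 z ψ) z • S.b 0 + S.D z j (S.u1 z ψ) z • S.b 1 := fun j =>
    congrArg (fun L => L (S.b j)) hL.fderiv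
  have e0 : ∀ j, S.ar z z * S.D z j (S.u0 z ψ) z = - S.D z j (S.D z 1 ψ) z := fun j => by
    have h1 := S.D_mul z j k0.md (S.smAt_ar hx).md
    have h2 := S.D_mul z j (mdifferentiableAt_const (c := (-1 : ℝ))) (S.smAt_D hx (hψ z) 1).md
    rw [S.D_congr z j (h := fun y => -1 * S.D z 1 ψ y) (by
      filter_upwards [hs] with y hy
      simp only [u0]
      rw [div_mul_cancel₀ _ (S.ar_ne hy)]; ring), h2, S.D_const] at h1
    simp only [u0, hD, neg_zero, zero_div, zero_mul] at h1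
    linarith
  have e1 : ∀ j, S.ar z z * S.D z j (S.u1 z ψ) z = S.D z j (S.D z 0 ψ) z := fun j => by
    have h1 := S.D_mul z j k1.md (S.smAt_ar hx).md
    rw [S.D_congr z j (h := S.D z 0 ψ) (by
      filter_upwards [hs] with y hy
      simp only [u1]
      rw [div_mul_cancel₀ _ (S.ar_ne hy)])] at h1
    simp only [u1, hD, zero_div, zero_mul] at h1
    linarith
  have tr : S.D z 1 (S.u1 z ψ) z = - S.D z 0 (S.u0 z ψ) z := by
    apply mul_left_cancel₀ hm
    rw [mul_neg, e0, e1, S.D_comm hx (hψ z) 1 0, neg_neg]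
  refine ⟨S.D z 0 (S.u0 z ψ) z ^ 2 + S.D z 1 (S.u0 z ψ) z * S.D z 0 (S.u1 z ψ) z, fun v => ?_⟩
  conv_lhs => rw [S.coord_eq v]
  conv_rhs => rw [S.coord_eq v]
  simp only [map_add, map_smul, hL', tr]
  module

end Surf

end Pool.Agent.P.MP_9c695c_an
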