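import Pool.Agent.P.MP_9c695c_an.Estim

/-!
Choice of the phase function and of the radii, and the lower bound for the transported packet.
-/

open scoped Manifold ContDiff ENNReal Topology
open MeasureTheory Set Filter Bundle Real Metric

set_option backward.isDefEq.respectTransparency false
set_option linter.unusedSectionVars false

namespace Pool.Agent.P.MP_9c695c_an

variable {E : Type*} [NormedAddCommGroup E] [InnerProductSpace ℝ E]
  [FiniteDimensional ℝ E] [MeasurableSpace E] [BorelSpace E]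
  {H : Type*} [TopologicalSpace H] {I : ModelWithCorners ℝ E H}
  {M : Type*} [TopologicalSpace M] [ChartedSpace H M] [IsManifold I ∞ M] [T2Space M]

lemma eventually_chart_ball (x₀ : M) {R : ℝ} (hR : 0 < R) :
    ∀ᶠ x in 𝓝 x₀, x ∈ (extChartAt I x₀).source ∧
      extChartAt I x₀ x ∈ ball (extChartAt I x₀ x₀) R :=
  (show ∀ᶠ x in 𝓝 x₀, x ∈ (extChartAt I x₀).source from extChartAt_source_mem_nhds x₀).and
    ((continuousAt_extChartAt x₀).eventually (ball_mem_nhds _ hR))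

lemma exists_phase (S : Surf I M) {x₀ : M} {R : ℝ} (hR0 : 0 < R)
    (hR : ball (extChartAt I x₀ x₀) (2 * R) ⊆ (extChartAt I x₀).target) {l : E →L[ℝ] ℝ}
    (hl : ‖l‖ = 1) :
    ∃ (lam : M → ℝ) (ρ γ r₁ : ℝ), Smooth I lam ∧ 0 < ρ ∧ 0 < γ ∧ 0 < r₁ ∧ r₁ ≤ R ∧
      (∀ x ∉ (extChartAt I x₀).symm '' closedBall (extChartAt I x₀ x₀) (3 / 2 * R), lam x = 0) ∧
      (∀ y ∈ ball (extChartAt I x₀ x₀) R, lam ((extChartAt I x₀).symm y) = l y) ∧
      ∀ y ∈ closedBall (extChartAt I x₀ x₀) r₁, (ρ / 2 ≤ S.dens x₀ y ∧ S.dens x₀ y ≤ 2 * ρ) ∧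
        γ / 2 ≤ S.gam lam lam ((extChartAt I x₀).symm y) ∧
        S.gam lam lam ((extChartAt I x₀).symm y) ≤ 2 * γ := by
  have hx := mem_extChartAt_source (I := I) x₀
  let β : ContDiffBump (extChartAt I x₀ x₀) := ⟨R, 3 / 2 * R, hR0, by linarith⟩
  obtain ⟨lam, sl, zl, el⟩ := exists_lift hR (s := 3 / 2 * R) (by linarith)
    (F := fun y => β y * l y) (β.contDiff.mul l.contDiff) (fun y hy => by
      rw [β.zero_of_le_dist (le_of_lt (not_le.1 hy)), zero_mul])
  have e1 : ∀ y ∈ ball (extChartAt I x₀ x₀) R, lam ((extChartAt I x₀).symm y) = l y := by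
    intro y hy
    have hy2 := hR (ball_subset_ball (by linarith) hy)
    rw [el _ ((extChartAt I x₀).map_target hy2), (extChartAt I x₀).right_inv hy2,
      β.one_of_mem_closedBall (ball_subset_closedBall hy), one_mul]
  have e2 : lam =ᶠ[𝓝 x₀] fun x => l (extChartAt I x₀ x) := by
    filter_upwards [eventually_chart_ball (I := I) x₀ hR0] with x hx'
    rw [← e1 _ hx'.2, (extChartAt I x₀).left_inv hx'.1]
  have hγ : 0 < S.gam lam lam x₀ := by
    refine S.ip_pos x₀ fun h => ?_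
    rw [S.grad_congr e2] at h
    have h1 : ∀ i, l (S.b i) = 0 := fun i => by
      rw [← S.D_clm_chart hx l i, S.D_eq_ip, h, S.ip_zero_left]
    have h2 : l = 0 := by
      ext v
      rw [← S.b.sum_repr v, map_sum]
      simp [h1]
    simp [h2] at hl
  have hc := mem_ball_self (x := extChartAt I x₀ x₀) (show 0 < 2 * R by linarith)
  have hρ : 0 < S.dens x₀ (extChartAt I x₀ x₀) := by
    rw [S.dens_eq (hR hc), (extChartAt I x₀).left_inv hx]
    exact S.rho_pos hx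
  have c1 : ContinuousAt (S.dens x₀) (extChartAt I x₀ x₀) :=
    (S.continuousOn_dens x₀).continuousAt (mem_of_superset (isOpen_ball.mem_nhds hc) hR)
  have c2 : Tendsto (fun y => S.gam lam lam ((extChartAt I x₀).symm y)) (𝓝 (extChartAt I x₀ x₀))
      (𝓝 (S.gam lam lam x₀)) := ((S.smooth_gam sl sl).cont.tendsto x₀).comp (tendsto_symm hx)
  have h3 := ((c1.eventually (le_mem_nhds (half_lt_self hρ))).and
    (c1.eventually (ge_mem_nhds (lt_two_mul_self hρ)))).and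
    ((c2.eventually (le_mem_nhds (half_lt_self hγ))).and
    (c2.eventually (ge_mem_nhds (lt_two_mul_self hγ))))
  obtain ⟨r, hr, h4⟩ := nhds_basis_closedBall.eventually_iff.1 h3
  exact ⟨lam, _, _, min r R, sl, hρ, hγ, lt_min hr hR0, min_le_right _ _, zl, e1,
    fun y hy => h4 (closedBall_subset_closedBall (min_le_left _ _) hy)⟩

lemma exists_radii {x₀ : M} {R : ℝ} (hR0 : 0 < R)
    (hR : ball (extChartAt I x₀ x₀) (2 * R) ⊆ (extChartAt I x₀).target) {Ψ Ψ' : M → M}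
    (hΨ : ContMDiff I I ∞ Ψ) (hΨ' : Continuous Ψ') (hi : ∀ x, Ψ' (Ψ x) = x) (hx₀ : Ψ x₀ = x₀)
    {lam : M → ℝ} (sl : Smooth I lam) {l : E →L[ℝ] ℝ}
    (hlam : ∀ y ∈ ball (extChartAt I x₀ x₀) R, lam ((extChartAt I x₀).symm y) = l y)
    {ξ : E →L[ℝ] ℝ} (hξ0 : 0 < ‖ξ‖)
    (hξ : HasFDerivAt (fun y => l (extChartAt I x₀ (Ψ ((extChartAt I x₀).symm y)))) ξ
      (extChartAt I x₀ x₀)) {η r₁ : ℝ} (hη : 0 < η) (hr₁ : 0 < r₁) :
    ∃ r₂ r : ℝ, 0 < r ∧ 2 * r < r₁ ∧ 0 < r₂ ∧ r₂ ≤ r₁ ∧ (∃ g' : E → E →L[ℝ] ℝ,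
      (∀ y ∈ ball (extChartAt I x₀ x₀) r₂,
        HasFDerivAt (fun y => lam (Ψ ((extChartAt I x₀).symm y))) (g' y) y) ∧
      ∀ y ∈ ball (extChartAt I x₀ x₀) r₂, ‖g' y - ξ‖ ≤ η * ‖ξ‖) ∧
      Ψ ⁻¹' ((extChartAt I x₀).symm '' closedBall (extChartAt I x₀ x₀) (2 * r)) ⊆
        (extChartAt I x₀).symm '' ball (extChartAt I x₀ x₀) (r₂ / 2) := by
  have hx := mem_extChartAt_source (I := I) x₀
  have hc := mem_ball_self (x := extChartAt I x₀ x₀) (show 0 < 2 * R by linarith)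
  have t1 : Tendsto (fun y => Ψ ((extChartAt I x₀).symm y)) (𝓝 (extChartAt I x₀ x₀)) (𝓝 x₀) := by
    have := (hΨ.continuous.tendsto x₀).comp (tendsto_symm hx)
    rwa [hx₀] at this
  have g0 : ContDiffAt ℝ ∞ (fun y => lam (Ψ ((extChartAt I x₀).symm y))) (extChartAt I x₀ x₀) :=
    contDiffAt_rep_ball hR (f := fun x => lam (Ψ x)) (ContMDiff.comp sl hΨ) hc
  have g1 : HasFDerivAt (fun y => lam (Ψ ((extChartAt I x₀).symm y))) ξ (extChartAt I x₀ x₀) := by
    refine hξ.congr_of_eventuallyEq ?_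
    filter_upwards [t1.eventually (eventually_chart_ball (I := I) x₀ hR0)] with y hy
    rw [← hlam _ hy.2, (extChartAt I x₀).left_inv hy.1]
  have g2 := (g0.continuousAt_fderiv (by simp)).tendsto
  rw [g1.fderiv] at g2
  have g3 := ((g0.of_le (m := 1) (by simp)).eventually (by simp)).and
    (g2.eventually (closedBall_mem_nhds ξ (mul_pos hη hξ0)))
  obtain ⟨r₂, hr₂, h4⟩ := nhds_basis_ball.eventually_iff.1 g3
  have hx₁ : Ψ' x₀ = x₀ := by rw [← hx₀, hi, hx₀]
  have t2 : Tendsto (fun y => Ψ' ((extChartAt I x₀).symm y)) (𝓝 (extChartAt I x₀ x₀)) (𝓝 x₀) := by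
    have := (hΨ'.tendsto x₀).comp (tendsto_symm hx)
    rwa [hx₁] at this
  have hm : 0 < min r₂ r₁ := lt_min hr₂ hr₁
  obtain ⟨r, hr, h5⟩ := nhds_basis_closedBall.eventually_iff.1
    (t2.eventually (eventually_chart_ball (I := I) x₀ (half_pos hm)))
  have hm' : 0 < min r r₁ := lt_min hr hr₁
  refine ⟨min r₂ r₁, min r r₁ / 4, by linarith, by linarith [min_le_right r r₁], hm,
    min_le_right _ _, ⟨fderiv ℝ fun y => lam (Ψ ((extChartAt I x₀).symm y)), fun y hy => ?_,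
    fun y hy => ?_⟩, ?_⟩
  · exact ((h4 (ball_subset_ball (min_le_left _ _) hy)).1.differentiableAt (by simp)).hasFDerivAt
  · have := (h4 (ball_subset_ball (min_le_left _ _) hy)).2
    rwa [dist_eq_norm] at this
  · rintro x ⟨y, hy, hxy⟩
    have h6 := h5 (closedBall_subset_closedBall (by linarith [min_le_left r r₁]) hy)
    rw [hxy, hi] at h6
    exact ⟨_, h6.2, (extChartAt I x₀).left_inv h6.1⟩

variable [MeasurableSpace M] [BorelSpace M] [CompactSpace M] {S : Surf I M} {μ : Measure M}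

lemma exists_angle (hμ : S.IsArea μ) {a φ : M → ℝ} (ca : Continuous a) (cφ : Continuous φ) :
    ∃ θ : ℝ, ∫ x, |a x| ∂μ ≤ 2 * ∫ x, |a x * cos (φ x + θ)| ∂μ := by
  have c1 : ∀ θ : ℝ, Integrable (fun x => |a x * cos (φ x + θ)|) μ := fun θ =>
    hμ.integrable (ca.mul (continuous_cos.comp (cφ.add continuous_const))).abs
  have h1 : ∫ x, |a x| ∂μ ≤ ∫ x, |a x * cos (φ x + 0)| ∂μ + ∫ x, |a x * cos (φ x + -(π / 2))| ∂μ := by
    rw [← integral_add (c1 _) (c1 _)]
    refine integral_mono (hμ.integrable ca.abs) ((c1 _).add (c1 _)) fun x => ?_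
    simp only [add_zero, ← sub_eq_add_neg, cos_sub_pi_div_two, abs_mul, ← mul_add]
    refine le_mul_of_one_le_right (abs_nonneg _) ?_
    have h2 := cos_sq_add_sin_sq (φ x)
    rw [← sq_abs (cos _), ← sq_abs (sin _)] at h2
    nlinarith [abs_nonneg (cos (φ x)), abs_nonneg (sin (φ x)), abs_cos_le_one (φ x),
      abs_sin_le_one (φ x)]
  rcases le_total (∫ x, |a x * cos (φ x + 0)| ∂μ) (∫ x, |a x * cos (φ x + -(π / 2))| ∂μ) with h | h
  · exact ⟨-(π / 2), by linarith⟩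
  · exact ⟨0, by linarith⟩

lemma packet_integrals (hμ : S.IsArea μ) {x₀ : M} {R : ℝ}
    (hR : ball (extChartAt I x₀ x₀) (2 * R) ⊆ (extChartAt I x₀).target) {ρ γ r₁ r₂ r : ℝ}
    (hρ : 0 < ρ) (hr : 0 < r) (h2r : 2 * r < r₁) (hr₂₁ : r₂ ≤ r₁) (hr₁ : r₁ ≤ R)
    (hd : ∀ y ∈ closedBall (extChartAt I x₀ x₀) r₁, ρ / 2 ≤ S.dens x₀ y ∧ S.dens x₀ y ≤ 2 * ρ)
    {Ψ : M → M} (cΨ : Continuous Ψ) (mΨ : MeasurePreserving Ψ μ μ)
    (hK : Ψ ⁻¹' ((extChartAt I x₀).symm '' closedBall (extChartAt I x₀ x₀) (2 * r)) ⊆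
      (extChartAt I x₀).symm '' ball (extChartAt I x₀ x₀) (r₂ / 2))
    {a : M → ℝ} (ca : Continuous a)
    (za : ∀ x ∉ (extChartAt I x₀).symm '' closedBall (extChartAt I x₀ x₀) (2 * r), a x = 0)
    (la : ∀ y ∈ closedBall (extChartAt I x₀ x₀) r, γ / 2 ≤ |a ((extChartAt I x₀).symm y)|) :
    ∃ (U : Set E) (α : ℝ), IsCompact U ∧ U ⊆ ball (extChartAt I x₀ x₀) (r₂ / 2) ∧
      volume.real U ≤ 4 * volume.real (closedBall (extChartAt I x₀ x₀) (2 * r)) ∧
      ρ * γ * volume.real (closedBall (extChartAt I x₀ x₀) (2 * r)) / 16 ≤ α ∧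
      ρ * ∫ y in U, |a (Ψ ((extChartAt I x₀).symm y))| ≤ 2 * α ∧
      ∀ φ : M → ℝ, Continuous φ → ∃ θ : ℝ, α ≤ 4 * ρ * ∫ y in U,
        |a (Ψ ((extChartAt I x₀).symm y)) * cos (φ (Ψ ((extChartAt I x₀).symm y)) + θ)| := by
  have hs : 2 * r < 2 * R := by linarith
  have hs' : r₂ / 2 < 2 * R := by linarith
  have hKc := isCompact_Kc hR hs
  have hK' : IsCompact (Ψ ⁻¹' ((extChartAt I x₀).symm '' closedBall (extChartAt I x₀ x₀) (2 * r))) :=
    (hKc.isClosed.preimage cΨ).isCompact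
  have hKs := (hK.trans (image_mono ball_subset_closedBall)).trans (Kc_source hR hs')
  have hUb : extChartAt I x₀ '' (Ψ ⁻¹' ((extChartAt I x₀).symm ''
      closedBall (extChartAt I x₀ x₀) (2 * r))) ⊆ ball (extChartAt I x₀ x₀) (r₂ / 2) := by
    rintro _ ⟨x, hx, rfl⟩
    obtain ⟨y, hy, rfl⟩ := hK hx
    rwa [(extChartAt I x₀).right_inv (hR (ball_subset_ball hs'.le hy))]
  have hU := hK'.image_of_continuousOn ((continuousOn_extChartAt x₀).mono hKs)
  have hUd := fun y hy => hd y (ball_subset_closedBall.trans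
    (closedBall_subset_closedBall (show r₂ / 2 ≤ r₁ by linarith)) (hUb hy))
  have hUt := (hUb.trans (ball_subset_ball hs'.le)).trans hR
  have inv : ∀ {f : M → ℝ}, Continuous f → ∫ x, f (Ψ x) ∂μ = ∫ x, f x ∂μ := fun {f} hf => by
    conv_rhs => rw [← mΨ.map_eq]
    rw [integral_map cΨ.measurable.aemeasurable hf.aestronglyMeasurable]
  have hV : volume.real (closedBall (extChartAt I x₀ x₀) (2 * r))
      = 4 * volume.real (closedBall (extChartAt I x₀ x₀) r) := by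
    rw [Measure.addHaar_real_closedBall' _ _ (by linarith),
      Measure.addHaar_real_closedBall' _ _ hr.le, S.finrank_eq]
    ring
  refine ⟨_, ∫ x, |a x| ∂μ, hU, hUb, ?_, ?_, ?_, fun φ cφ => ?_⟩
  · have h1 := (hμ.measure_bounds x₀ hK' hKs (by positivity) (by positivity) hUd).1
    have h2 := (hμ.measure_bounds x₀ hKc (Kc_source hR hs) (by positivity) (by positivity)
      (fun y ⟨x, hx, hy⟩ => hd y (closedBall_subset_closedBall h2r.le
        (hy ▸ chart_mem_of_Kc hR hs hx)))).2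
    rw [(extChartAt I x₀).image_symm_image_of_subset_target
      ((closedBall_subset_ball hs).trans hR)] at h2
    rw [mΨ.measureReal_preimage hKc.measurableSet.nullMeasurableSet] at h1
    have h3 := h1.trans h2
    refine le_of_mul_le_mul_left ?_ (half_pos hρ)
    linarith
  · have h1 := hμ.chart_le x₀ ca.abs (fun _ => abs_nonneg _) (isCompact_closedBall _ r)
      ((closedBall_subset_ball (show r < 2 * R by linarith)).trans hR)
      (fun y hy => (hd y (closedBall_subset_closedBall (by linarith) hy)).1)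
    have h2 : ∫ _ in closedBall (extChartAt I x₀ x₀) r, γ / 2
        ≤ ∫ y in closedBall (extChartAt I x₀ x₀) r, |a ((extChartAt I x₀).symm y)| :=
      setIntegral_mono_on (continuousOn_const.integrableOn_compact (isCompact_closedBall _ _))
        ((ca.abs.comp_continuousOn ((continuousOn_extChartAt_symm x₀).mono
          ((closedBall_subset_ball (show r < 2 * R by linarith)).trans hR))).integrableOn_compact
          (isCompact_closedBall _ _)) measurableSet_closedBall la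
    rw [setIntegral_const, smul_eq_mul] at h2
    have h3 := mul_le_mul_of_nonneg_left h2 (half_pos hρ).le
    rw [hV]
    linarith
  · have h1 := hμ.chart_le x₀ (h := fun x => |a (Ψ x)|) (ca.comp cΨ).abs (fun _ => abs_nonneg _)
      hU hUt (fun y hy => (hUd y hy).1)
    rw [inv ca.abs] at h1
    linarith
  · obtain ⟨θ, hθ⟩ := exists_angle hμ ca cφ
    have cf : Continuous fun x => |a x * cos (φ x + θ)| :=
      (ca.mul (continuous_cos.comp (cφ.add continuous_const))).abs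
    have h1 := hμ.le_chart x₀ (h := fun x => |a (Ψ x) * cos (φ (Ψ x) + θ)|) (cf.comp cΨ)
      (fun _ => abs_nonneg _) hK' hKs (fun x hx => by rw [za _ hx, zero_mul, abs_zero])
      (fun y hy => (hUd y hy).2)
    rw [inv cf] at h1
    exact ⟨θ, by linarith⟩

lemma exists_step (ξ : E →L[ℝ] ℝ) (hξ : 0 < ‖ξ‖) {k : ℝ} (hk : 0 < k) :
    ∃ h : E, k * ξ h = π ∧ k * (‖ξ‖ * ‖h‖) = π := by
  have := FiniteDimensional.complete ℝ E
  have h1 : ‖(InnerProductSpace.toDual ℝ E).symm ξ‖ = ‖ξ‖ := LinearIsometryEquiv.norm_map _ _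
  have h2 : ξ ((InnerProductSpace.toDual ℝ E).symm ξ) = ‖ξ‖ ^ 2 := by
    rw [← InnerProductSpace.toDual_symm_apply, real_inner_self_eq_norm_sq, h1]
  refine ⟨(π / (k * ‖ξ‖ ^ 2)) • (InnerProductSpace.toDual ℝ E).symm ξ, ?_, ?_⟩
  · rw [map_smul, h2, smul_eq_mul]; field_simp
  · rw [norm_smul, h1, Real.norm_of_nonneg (by positivity)]; field_simp

lemma packet_lower (hμ : S.IsArea μ) {x₀ : M} {R : ℝ}
    (hR : ball (extChartAt I x₀ x₀) (2 * R) ⊆ (extChartAt I x₀).target) {ρ γ r₁ r₂ r : ℝ}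
    (hρ : 0 < ρ) (hγ : 0 < γ) (hr : 0 < r) (h2r : 2 * r < r₁) (hr₂ : 0 < r₂) (hr₂₁ : r₂ ≤ r₁)
    (hr₁ : r₁ ≤ R)
    (hd : ∀ y ∈ closedBall (extChartAt I x₀ x₀) r₁, ρ / 2 ≤ S.dens x₀ y ∧ S.dens x₀ y ≤ 2 * ρ)
    {Ψ : M → M} (cΨ : Continuous Ψ) (mΨ : MeasurePreserving Ψ μ μ)
    (hK : Ψ ⁻¹' ((extChartAt I x₀).symm '' closedBall (extChartAt I x₀ x₀) (2 * r)) ⊆
      (extChartAt I x₀).symm '' ball (extChartAt I x₀ x₀) (r₂ / 2))
    {a b d lam : M → ℝ} (ca : Continuous a) (cb : Continuous b) (cd : Continuous d)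
    (cl : Continuous lam)
    (za : ∀ x ∉ (extChartAt I x₀).symm '' closedBall (extChartAt I x₀ x₀) (2 * r), a x = 0)
    (la : ∀ y ∈ closedBall (extChartAt I x₀ x₀) r, γ / 2 ≤ |a ((extChartAt I x₀).symm y)|)
    {m : ℕ} {g' : E → E →L[ℝ] ℝ} {ξ : E →L[ℝ] ℝ} (hξ : 0 < ‖ξ‖)
    (hg : ∀ y ∈ ball (extChartAt I x₀ x₀) r₂,
      HasFDerivAt (fun y => lam (Ψ ((extChartAt I x₀).symm y))) (g' y) y)
    (hη : ∀ y ∈ ball (extChartAt I x₀ x₀) r₂, ‖g' y - ξ‖ ≤ 1 / (128 * (m + 1)) * ‖ξ‖)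
    {p : ℝ≥0∞} (hp : 1 ≤ p) :
    ∀ᶠ k in atTop, ∃ θ : ℝ, ∃ h : E, k * (‖ξ‖ * ‖h‖) = π ∧ (m + 1) * ‖h‖ ≤ R ∧
      ∀ A : ℝ, 0 ≤ A → ∀ G : M → ℝ, Continuous G →
      ∫ x, |G x - A * pk3 a b d lam k θ (Ψ x)| ∂μ
        ≤ A * (ρ * γ * volume.real (closedBall (extChartAt I x₀ x₀) (2 * r)) / 512) →
      ENNReal.ofReal (A * γ / 1024 *
        volume.real (closedBall (extChartAt I x₀ x₀) (2 * r)) ^ (1 / p.toReal))
        ≤ diffNorm I p m x₀ R G h := by
  obtain ⟨U, α, hU, hUb, hUV, hα, hY, hX⟩ :=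
    packet_integrals hμ hR hρ hr h2r hr₂₁ hr₁ hd cΨ mΨ hK ca za la
  obtain ⟨V, hV⟩ : ∃ V, V = volume.real (closedBall (extChartAt I x₀ x₀) (2 * r)) := ⟨_, rfl⟩
  have hV0 : 0 < V := by
    rw [hV]
    exact ENNReal.toReal_pos (measure_closedBall_pos _ _ (by linarith)).ne'
      measure_closedBall_lt_top.ne
  rw [← hV] at hUV hα ⊢
  obtain ⟨Bb, hBb⟩ := (HasCompactSupport.of_compactSpace b).exists_bound_of_continuous cb
  obtain ⟨Bd, hBd⟩ := (HasCompactSupport.of_compactSpace d).exists_bound_of_continuous cd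
  have hBt : closedBall (extChartAt I x₀ x₀) r₂ ⊆ (extChartAt I x₀).target :=
    (closedBall_subset_ball (by linarith)).trans hR
  have cs := (continuousOn_extChartAt_symm x₀).mono hBt
  have ca' : ContinuousOn (fun y => a (Ψ ((extChartAt I x₀).symm y)))
      (closedBall (extChartAt I x₀ x₀) r₂) := (ca.comp cΨ).comp_continuousOn cs
  obtain ⟨τ, hτ, hu⟩ := Metric.uniformContinuousOn_iff.1
    ((isCompact_closedBall _ r₂).uniformContinuousOn_of_continuous ca') (γ / 2048) (by positivity)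
  have t0 : ∀ c : ℝ, Tendsto (fun k : ℝ => c / k) atTop (𝓝 0) := fun c =>
    tendsto_const_nhds.div_atTop tendsto_id
  filter_upwards [eventually_ge_atTop 1,
    (t0 (Bb + Bd)).eventually (ge_mem_nhds (show 0 < γ / 2048 by positivity)),
    (t0 ((m + 1) * π / ‖ξ‖)).eventually (gt_mem_nhds (lt_min hτ (half_pos hr₂)))] with k hk k1 k2
  have hk0 : 0 < k := by linarith
  obtain ⟨h, h1, h2⟩ := exists_step ξ hξ hk0
  obtain ⟨θ, hθ⟩ := hX (fun x => k * lam x) (continuous_const.mul cl)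
  have k3 : (m + 1) * ‖h‖ < min τ (r₂ / 2) := by
    refine lt_of_eq_of_lt ?_ k2
    rw [← h2]; field_simp
  have k4 : m * ‖h‖ ≤ (m + 1) * ‖h‖ := by linarith [norm_nonneg h]
  have k5 := k3.trans_le (min_le_left _ _)
  have k6 := k3.trans_le (min_le_right _ _)
  refine ⟨θ, h, h2, by linarith, fun A hA G cG hG => ?_⟩
  have cP : Continuous (pk3 a b d lam k θ) := by unfold pk3; fun_prop
  have ce : Continuous fun x => G x - A * pk3 a b d lam k θ (Ψ x) :=
    cG.sub (continuous_const.mul (cP.comp cΨ))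
  obtain ⟨i1, i2⟩ := lower_core hU hUb (m := m) (h := h) (by linarith) (G := rep I x₀ G)
    (a := fun y => a (Ψ ((extChartAt I x₀).symm y)))
    (g := fun y => lam (Ψ ((extChartAt I x₀).symm y)))
    (w := fun y => k⁻¹ * (b (Ψ ((extChartAt I x₀).symm y))
        * cos (k * lam (Ψ ((extChartAt I x₀).symm y)) + (θ - π / 2)))
      + k⁻¹ ^ 2 * (d (Ψ ((extChartAt I x₀).symm y))
        * cos (k * lam (Ψ ((extChartAt I x₀).symm y)) + θ)))
    (e := fun y => G ((extChartAt I x₀).symm y)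
      - A * pk3 a b d lam k θ (Ψ ((extChartAt I x₀).symm y)))
    (A := A) (k := k) (θ := θ) (η := 1 / (128 * (m + 1))) (δ₁ := γ / 2048) (δ₂ := γ / 2048) hA
    (cG.comp_continuousOn cs) ca' (ce.comp_continuousOn cs)
    (fun y _ => by simp only [rep, Function.comp_apply, pk3]; ring) (by positivity) hg hη hk0.le
    h1 h2 (fun y _ => by
      refine (abs_add_le _ _).trans (le_trans ?_ k1)
      have hki : k⁻¹ ≤ 1 := inv_le_one_of_one_le₀ hk
      have hki0 : 0 ≤ k⁻¹ := by positivity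
      have b1 : ∀ u v B : ℝ, ‖u‖ ≤ B → |u * cos v| ≤ B := fun u v B hB => by
        rw [abs_mul]
        exact (mul_le_of_le_one_right (abs_nonneg _) (abs_cos_le_one _)).trans hB
      rw [abs_mul, abs_mul (k⁻¹ ^ 2), abs_of_nonneg hki0, abs_of_nonneg (sq_nonneg k⁻¹),
        div_eq_inv_mul (Bb + Bd), mul_add]
      refine add_le_add (mul_le_mul_of_nonneg_left (b1 _ _ _ (hBb _)) hki0)
        (mul_le_mul (by rw [sq]; exact mul_le_of_le_one_right hki0 hki) (b1 _ _ _ (hBd _))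
          (abs_nonneg _) hki0))
    (fun y hy y' hy' hyy => (hu y' (ball_subset_closedBall hy') y (ball_subset_closedBall hy)
      (by rw [dist_eq_norm]; linarith)).le)
  have hZ := hμ.chart_le x₀ ce.abs (fun _ => abs_nonneg _) (isCompact_closedBall _ r₂) hBt
    (fun y hy => (hd y (closedBall_subset_closedBall hr₂₁ hy)).1)
  refine eLpNorm_lower (U := U) (hUb.trans (ball_subset_ball (by linarith))) i1 hp hV0 ?_
    (by positivity) (le_trans ?_ i2)
  · rw [← ENNReal.ofReal_toReal hU.measure_ne_top]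
    exact ENNReal.ofReal_le_ofReal hUV
  have hY0 : 0 ≤ ∫ y in U, |a (Ψ ((extChartAt I x₀).symm y))| :=
    integral_nonneg fun _ => abs_nonneg _
  generalize ∫ y in U, |a (Ψ ((extChartAt I x₀).symm y))| = Y at *
  generalize ∫ y in U, |a (Ψ ((extChartAt I x₀).symm y))
    * cos (k * lam (Ψ ((extChartAt I x₀).symm y)) + θ)| = X at *
  generalize ∫ y in closedBall (extChartAt I x₀ x₀) r₂, |G ((extChartAt I x₀).symm y)
      - A * pk3 a b d lam k θ (Ψ ((extChartAt I x₀).symm y))| = Z at *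
  have n1 : 1 / (128 * ((m : ℝ) + 1)) * π * m ≤ 1 / 32 := by
    rw [div_mul_eq_mul_div, div_mul_eq_mul_div, div_le_div_iff₀ (by positivity) (by positivity)]
    have := mul_le_mul_of_nonneg_right pi_le_four (Nat.cast_nonneg (α := ℝ) m)
    linarith
  have n2 := mul_le_mul_of_nonneg_right n1 hY0
  have n3 : 3 * (γ * V) / 256 ≤ X - 1 / 32 * Y := by
    refine le_of_mul_le_mul_left ?_ hρ
    linarith
  have n4 : Z ≤ A * (γ * V) / 256 := by
    refine le_of_mul_le_mul_left ?_ hρ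
    linarith [hZ.trans hG]
  have n5 := mul_le_mul_of_nonneg_left hUV hγ.le
  have n6 : 2 * (γ * V) / 256 ≤ X - (1 / (128 * ((m : ℝ) + 1)) * π * m * Y
      + (γ / 2048 + γ / 2048) * volume.real U) := by linarith
  have n7 := mul_le_mul_of_nonneg_left n6 hA
  have n8 : 0 ≤ A * (γ * V) := by positivity
  refine le_trans ?_ (le_mul_of_one_le_left (by linarith) (one_le_pow₀ one_le_two))
  linarith

end Pool.Agent.P.MP_9c695c_an
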