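import Pool.Agent.P.MP_9c695c_an.Section

/-!
A steady flow that is not periodic has a periodic interior point at which the differential of the
return map grows without bound.
-/

open scoped Manifold ContDiff ENNReal Topology NNReal
open MeasureTheory Set Filter Bundle

set_option backward.isDefEq.respectTransparency false
set_option linter.unusedSectionVars false

namespace Pool.Agent.P.MP_9c695c_an

variable {E : Type*} [NormedAddCommGroup E] [InnerProductSpace ℝ E]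
  {H : Type*} [TopologicalSpace H] {I : ModelWithCorners ℝ E H}
  {M : Type*} [TopologicalSpace M] [ChartedSpace H M] [IsManifold I ∞ M]

variable (I) in
/-- the differential of `Φ t` at the fixed point `x` is the identity -/
def NoTwist (Φ : ℝ → M → M) (t : ℝ) (x : M) : Prop :=
  ∀ f : M → ℝ, MdAt I f x → mvfderiv I (fun y => f (Φ t y)) x = mvfderiv I f x

namespace IsFlow
variable {S : Surf I M} {ψ : M → ℝ} {Φ : ℝ → M → M} (hΦ : IsFlow I (S.vel ψ) Φ)
  [T2Space M] (hψ : Smooth I ψ)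
include hΦ hψ

lemma periodic_of_recurrent {x₀ : M} (hi : x₀ ∈ I.interior M) (hr : S.gam ψ ψ x₀ ≠ 0)
    (hrec : ∀ s ∈ 𝓝 x₀, ∃ᶠ n : ℕ in atTop, Φ n x₀ ∈ s) : ∃ T : ℝ, 0 < T ∧ Φ T x₀ = x₀ := by
  obtain ⟨W, hW, -, hinj⟩ := S.exists_section hi hψ hr
  have hx := mem_extChartAt_source (I := I) x₀
  set l := innerSL ℝ (S.Vc x₀ ψ x₀) with hl
  have hl0 := smAt_clm_chart hx l
  have hγ : ContMDiff 𝓘(ℝ, ℝ) I ∞ fun s => Φ s x₀ :=
    hΦ.smooth.comp (f := fun s : ℝ => (s, x₀)) (contMDiff_id.prodMk contMDiff_const)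
  have h1 : ContDiffAt ℝ ∞ (fun s => l (extChartAt I x₀ (Φ s x₀))) 0 :=
    contMDiffAt_iff_contDiffAt.1 (ContMDiffAt.comp_of_eq (g := fun y => l (extChartAt I x₀ y)) hl0
      (hγ 0) (hΦ.zero_apply x₀))
  have h2 := hΦ.hasDerivAt (h := fun y => l (extChartAt I x₀ y)) (t := 0) (x := x₀)
    (by rw [hΦ.zero_apply]; exact hl0.md)
  rw [hΦ.zero_apply, S.br_clm_chart hx] at h2
  have h3 : l (S.Vc x₀ ψ x₀) ≠ 0 := by
    rw [hl, innerSL_apply_apply, inner_self_ne_zero, Ne, S.Vc_eq_zero_iff hx]; exact hr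
  have h4 := (h1.hasStrictDerivAt' h2 (by simp)).map_nhds_eq h3
  rw [hΦ.zero_apply] at h4
  have hN : {s : ℝ | s < 1 ∧ Φ s x₀ ∈ W} ∈ 𝓝 (0 : ℝ) :=
    inter_mem (gt_mem_nhds one_pos)
      ((hγ.continuous.tendsto' 0 x₀ (hΦ.zero_apply x₀)).eventually hW)
  have h5 := image_mem_map (m := fun s => l (extChartAt I x₀ (Φ s x₀))) hN
  rw [h4] at h5
  obtain ⟨n, ⟨h6, s, ⟨hs1, hs2⟩, h7⟩, hn⟩ := ((hrec _ (inter_mem hW
    (hl0.continuousAt.preimage_mem_nhds h5))).and_eventually (eventually_ge_atTop 1)).exists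
  have h8 : Φ s x₀ = Φ n x₀ := hinj _ hs2 _ h6 (by rw [hΦ.stream_eq hψ, hΦ.stream_eq hψ]) h7
  refine ⟨-s + n, ?_, by rw [hΦ.add hψ, ← h8, hΦ.neg_apply hψ]⟩
  have : (1 : ℝ) ≤ n := by exact_mod_cast hn
  linarith

lemma local_fix {x₀ : M} (hi : x₀ ∈ I.interior M) (hr : S.gam ψ ψ x₀ ≠ 0) {t₀ : ℝ} (ht₀ : t₀ < 0)
    (hfix : Φ t₀ x₀ = x₀)
    (hNT : ∀ x ∈ I.interior M, S.gam ψ ψ x ≠ 0 → ∀ t < 0, Φ t x = x → NoTwist I Φ t x) :
    ∀ᶠ x in 𝓝 x₀, Φ t₀ x = x := by
  obtain ⟨W, hW, hWs, hinj⟩ := S.exists_section hi hψ hr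
  have hx := mem_extChartAt_source (I := I) x₀
  set l := innerSL ℝ (S.Vc x₀ ψ x₀) with hl
  have h3 : 0 < l (S.Vc x₀ ψ x₀) := by
    rw [hl, innerSL_apply_apply, real_inner_self_pos, Ne, S.Vc_eq_zero_iff hx]; exact hr
  set c := l (S.Vc x₀ ψ x₀) / 2 with hc
  have hc0 : 0 < c := half_pos h3
  have hW' : ∀ᶠ x in 𝓝 x₀, x ∈ W ∧ x ∈ I.interior M ∧ S.gam ψ ψ x ≠ 0 ∧ c < l (S.Vc x₀ ψ x) := by
    filter_upwards [hW, (I.isOpen_interior (n := ∞) (by simp)).mem_nhds hi,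
      (S.smooth_gam hψ hψ).cont.continuousAt.eventually_ne hr,
      (l.continuous.continuousAt.comp (S.continuousAt_Vc hx hψ)).eventually
        (lt_mem_nhds (half_lt_self h3))] with x h1 h2 h3 h4 using ⟨h1, h2, h3, h4⟩
  have h1 := (hΦ.cont.tendsto' (t₀, x₀) x₀ hfix).eventually hW'
  rw [nhds_prod_eq, eventually_prod_iff] at h1
  obtain ⟨pa, hpa, pb, hpb, hp⟩ := h1
  obtain ⟨ε, hε, hball⟩ := Metric.mem_nhds_iff.1 (hpa.and (gt_mem_nhds ht₀))
  set δ := ε / 2 with hδ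
  have hδ0 : 0 < δ := half_pos hε
  have hJ : ∀ t ∈ Icc (t₀ - δ) (t₀ + δ), pa t ∧ t < 0 := fun t ht => hball (by
    rw [Metric.mem_ball, Real.dist_eq, abs_lt]; constructor <;> linarith [ht.1, ht.2])
  have hJ0 : t₀ ∈ Icc (t₀ - δ) (t₀ + δ) := ⟨by linarith, by linarith⟩
  have hJ1 : t₀ - δ ∈ Icc (t₀ - δ) (t₀ + δ) := ⟨le_rfl, by linarith⟩
  have hJ2 : t₀ + δ ∈ Icc (t₀ - δ) (t₀ + δ) := ⟨by linarith, le_rfl⟩
  let lam : M → ℝ := fun y => l (extChartAt I x₀ y)
  let B : ℝ → M → ℝ := fun t x => lam (Φ t x) - lam x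
  have hd : ∀ x, pb x → ∀ t ∈ Icc (t₀ - δ) (t₀ + δ),
      HasDerivAt (fun t => B t x) (l (S.Vc x₀ ψ (Φ t x))) t := fun x hx t ht => by
    have h1 := hWs (hp (hJ t ht).1 hx).1
    have h2 := hΦ.hasDerivAt (h := lam) (smAt_clm_chart h1 l).md
    rw [S.br_clm_chart h1] at h2
    exact h2.sub_const _
  have hcont : ∀ x, pb x → ContinuousOn (fun t => B t x) (Icc (t₀ - δ) (t₀ + δ)) :=
    fun x hx t ht => (hd x hx t ht).continuousAt.continuousWithinAt
  have mono : ∀ x, pb x → ∀ a ∈ Icc (t₀ - δ) (t₀ + δ), ∀ b ∈ Icc (t₀ - δ) (t₀ + δ), a ≤ b →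
      c * (b - a) ≤ B b x - B a x := fun x hx =>
    (convex_Icc _ _).mul_sub_le_image_sub_of_le_deriv (hcont x hx)
      (fun t ht => (hd x hx t (interior_subset ht)).differentiableAt.differentiableWithinAt)
      (fun t ht => by
        rw [(hd x hx t (interior_subset ht)).deriv]
        exact (hp (hJ t (interior_subset ht)).1 hx).2.2.2.le)
  have mabs : ∀ x, pb x → ∀ a ∈ Icc (t₀ - δ) (t₀ + δ), ∀ b ∈ Icc (t₀ - δ) (t₀ + δ),
      c * |b - a| ≤ |B b x - B a x| := fun x hx a ha b hb => by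
    rcases le_total a b with h | h
    · rw [abs_of_nonneg (sub_nonneg.2 h)]
      exact (mono x hx a ha b hb h).trans (le_abs_self _)
    · rw [abs_sub_comm, abs_of_nonneg (sub_nonneg.2 h), abs_sub_comm]
      exact (mono x hx b hb a ha h).trans (le_abs_self _)
  have hb0 : pb x₀ := hpb.self_of_nhds
  have hB0 : B t₀ x₀ = 0 := by simp only [B, hfix, sub_self]
  have hBc : ∀ t ∈ Icc (t₀ - δ) (t₀ + δ), ContinuousAt (B t) x₀ := fun t ht =>
    (ContinuousAt.comp (g := lam) (smAt_clm_chart (hWs (hp (hJ t ht).1 hb0).1) l).continuousAt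
      (hΦ.contMDiff t).continuous.continuousAt).sub (smAt_clm_chart hx l).continuousAt
  have hneg : B (t₀ - δ) x₀ < 0 := by
    have := mono x₀ hb0 _ hJ1 _ hJ0 (by linarith)
    rw [hB0] at this
    nlinarith [mul_pos hc0 hδ0]
  have hpos : 0 < B (t₀ + δ) x₀ := by
    have := mono x₀ hb0 _ hJ0 _ hJ2 (by linarith)
    rw [hB0] at this
    nlinarith [mul_pos hc0 hδ0]
  have hN := (hpb.and hW').and (((hBc _ hJ1).eventually (gt_mem_nhds hneg)).and
    ((hBc _ hJ2).eventually (lt_mem_nhds hpos)))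
  obtain ⟨r, hr0, hrb⟩ := Metric.mem_nhds_iff.1
    (inter_mem (target_mem_nhds hx hi) ((tendsto_symm hx).eventually hN))
  have hex : ∀ y : E, ∃ τ : ℝ, y ∈ Metric.ball (extChartAt I x₀ x₀) r →
      τ ∈ Icc (t₀ - δ) (t₀ + δ) ∧ B τ ((extChartAt I x₀).symm y) = 0 := fun y => by
    by_cases hy : y ∈ Metric.ball (extChartAt I x₀ x₀) r
    · obtain ⟨-, ⟨h1, -⟩, h2, h3⟩ := hrb hy
      obtain ⟨τ, h4, h5⟩ := intermediate_value_Icc (by linarith) (hcont _ h1) ⟨h2.le, h3.le⟩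
      exact ⟨τ, fun _ => ⟨h4, h5⟩⟩
    · exact ⟨0, fun h => absurd h hy⟩
  choose τ hτ using hex
  have hfixτ : ∀ y ∈ Metric.ball (extChartAt I x₀ x₀) r,
      Φ (τ y) ((extChartAt I x₀).symm y) = (extChartAt I x₀).symm y := fun y hy =>
    hinj _ (hp (hJ _ (hτ y hy).1).1 (hrb hy).2.1.1).1 _ (hrb hy).2.1.2.1 (hΦ.stream_eq hψ _ _)
      (sub_eq_zero.1 (hτ y hy).2)
  have hτ' : ∀ y ∈ Metric.ball (extChartAt I x₀ x₀) r, HasFDerivAt τ (0 : E →L[ℝ] ℝ) y := by
    intro y hy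
    obtain ⟨hyt, ⟨-, h1, h2, h3, -⟩, -⟩ := hrb hy
    have hs := hWs h1
    have m1 := (smAt_clm_chart hs l).md
    have m2 : MdAt I (fun z => lam (Φ (τ y) z)) ((extChartAt I x₀).symm y) :=
      MDifferentiableAt.comp_of_eq (g := lam) _ m1
        ((hΦ.contMDiff _).mdifferentiableAt (by simp)) (hfixτ y hy)
    have e := hNT _ h2 h3 _ (hJ _ (hτ y hy).1).2 (hfixτ y hy) lam m1
    have d1 := hasFDerivAt_rep hs h2 m1
    have d2 := hasFDerivAt_rep hs h2 m2
    rw [e] at d2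
    have d3 := d2.sub d1
    rw [sub_self, (extChartAt I x₀).right_inv hyt, hasFDerivAt_iff_isLittleO] at d3
    rw [hasFDerivAt_iff_isLittleO]
    refine Asymptotics.IsBigO.trans_isLittleO (Asymptotics.IsBigO.of_bound c⁻¹ ?_) d3
    filter_upwards [Metric.isOpen_ball.mem_nhds hy] with y' hy'
    have h4 := mabs _ (hrb hy').2.1.1 _ (hτ y hy).1 _ (hτ y' hy').1
    rw [(hτ y' hy').2, zero_sub, abs_neg] at h4
    rw [le_inv_mul_iff₀ hc0]
    have h5 := (hτ y hy).2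
    change c * |τ y' - τ y - 0| ≤
      |B (τ y) ((extChartAt I x₀).symm y') - B (τ y) ((extChartAt I x₀).symm y) - 0|
    rw [h5, sub_zero, sub_zero, sub_zero]; exact h4
  have hy0 := Metric.mem_ball_self (x := extChartAt I x₀ x₀) hr0
  have hτ0 : τ (extChartAt I x₀ x₀) = t₀ := by
    have h4 := mabs x₀ hb0 _ hJ0 _ (hτ _ hy0).1
    have h5 := (hτ _ hy0).2
    rw [(extChartAt I x₀).left_inv hx] at h5
    rw [h5, hB0, sub_zero, abs_zero] at h4
    have : |τ (extChartAt I x₀ x₀) - t₀| ≤ 0 := by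
      by_contra h
      push Not at h
      linarith [mul_pos hc0 h]
    exact sub_eq_zero.1 (abs_nonpos_iff.1 this)
  filter_upwards [(isOpen_extChartAt_source x₀).mem_nhds hx,
    (continuousAt_extChartAt (I := I) x₀).eventually (Metric.ball_mem_nhds _ hr0)] with x h1 h2
  have h3 := Metric.isOpen_ball.is_const_of_fderiv_eq_zero (𝕜 := ℝ) (convex_ball _ _).isPreconnected
    (fun y hy => (hτ' y hy).differentiableAt.differentiableWithinAt)
    (fun y hy => (hτ' y hy).fderiv) h2 hy0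
  have h4 := hfixτ _ h2
  rwa [h3, hτ0, (extChartAt I x₀).left_inv h1] at h4

lemma nondeg {z : M} (hi : z ∈ I.interior M) (h0 : S.gam ψ ψ z = 0) {T : ℝ} (hT : 0 < T)
    (hfr : ∃ᶠ x in 𝓝 z, S.gam ψ ψ x ≠ 0 ∧ Φ T x = x) : ∀ᶠ x in 𝓝[≠] z, S.gam ψ ψ x ≠ 0 := by
  have := S.finDim
  have hx := mem_extChartAt_source (I := I) z
  have hs := (isOpen_extChartAt_source z).mem_nhds hx
  have hU : ContDiffAt ℝ ∞ (S.Uc z ψ) (extChartAt I z z) :=
    (S.contDiffWithinAt_Uc hx hψ).contDiffAt (range_mem_nhds hx hi)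
  obtain ⟨κ, hκ⟩ := S.lin_sq hi hψ h0
  set L := fderiv ℝ (S.Uc z ψ) (extChartAt I z z) with hL
  by_cases hκ0 : κ = 0
  · exfalso
    set η := 1 / (T * (T * ‖L‖ + 1) + 1) with hη
    have hη0 : 0 < η := by positivity
    have hsmall : T * (T * ‖L‖ + 1) * η < 1 := by
      rw [hη, mul_one_div, div_lt_one (by positivity)]; linarith
    have h1 : ∀ᶠ y in 𝓝 (extChartAt I z z), DifferentiableAt ℝ (S.Uc z ψ) y ∧
        ‖fderiv ℝ (S.Uc z ψ) y - L‖ ≤ η := by
      have c1 : ContinuousAt (fderiv ℝ (S.Uc z ψ)) (extChartAt I z z) :=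
        hU.continuousAt_fderiv (by simp)
      filter_upwards [(hU.of_le (m := 1) (by simp)).eventually (by simp),
        c1.eventually (Metric.closedBall_mem_nhds _ hη0)] with y h2 h3
      exact ⟨h2.differentiableAt one_ne_zero, by rw [← dist_eq_norm]; exact h3⟩
    have h2 := ((continuousAt_extChartAt (I := I) z).eventually h1).and hs
    have h3 : ∀ᶠ x in 𝓝 z, ∀ s ∈ Icc 0 T, (DifferentiableAt ℝ (S.Uc z ψ) (extChartAt I z (Φ s x)) ∧
        ‖fderiv ℝ (S.Uc z ψ) (extChartAt I z (Φ s x)) - L‖ ≤ η) ∧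
        Φ s x ∈ (extChartAt I z).source :=
      isCompact_Icc.eventually_forall_of_forall_eventually fun s _ =>
        ((hΦ.cont.comp continuous_swap).tendsto' (z, s) z (hΦ.fixed hψ h0 s)).eventually h2
    obtain ⟨x, ⟨hr, hper⟩, h4⟩ := (hfr.and_eventually h3).exists
    have h5 := no_small_periodic (U := S.Uc z ψ) (c := fun s => extChartAt I z (Φ s x)) hT
      (fun s hs => S.curve_chart (hΦ.curve x) (h4 s hs).2)
      (fun s hs => (h4 s hs).1.1.hasFDerivAt) (fun s hs => (h4 s hs).1.2)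
      (fun v => by rw [hκ, hκ0, zero_smul]) (by simp only [hΦ.zero_apply, hper]) hsmall
    have h6 := (h4 0 ⟨le_rfl, hT.le⟩).2
    simp only [hΦ.zero_apply] at h5 h6
    rw [S.Uc_chart h6, S.Vc_eq_zero_iff h6] at h5
    exact hr h5
  · obtain ⟨s, hs', hinj⟩ := injOn_of_strict (hU.hasStrictFDerivAt (by simp)) (fun v hv => by
      have := hκ v
      rw [hL, hv, map_zero] at this
      exact (smul_eq_zero.1 this.symm).resolve_left hκ0)
    filter_upwards [self_mem_nhdsWithin, mem_nhdsWithin_of_mem_nhds hs, mem_nhdsWithin_of_mem_nhds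
      ((continuousAt_extChartAt (I := I) z).preimage_mem_nhds hs')] with x h1 h2 h3 h4
    apply h1
    refine (extChartAt I z).injOn h2 hx (hinj h3 (mem_of_mem_nhds hs') ?_)
    rw [S.Uc_chart h2, S.Uc_chart hx, (S.Vc_eq_zero_iff h2 ψ).2 h4, (S.Vc_eq_zero_iff hx ψ).2 h0]

lemma eq_id_of_noTwist [ConnectedSpace M] [Nontrivial M] {x₀ : M} (hi : x₀ ∈ I.interior M)
    (hr : S.gam ψ ψ x₀ ≠ 0) {T : ℝ} (hT : 0 < T) (hfix : Φ T x₀ = x₀)
    (hNT : ∀ x ∈ I.interior M, S.gam ψ ψ x ≠ 0 → ∀ t < 0, Φ t x = x → NoTwist I Φ t x) :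
    Φ T = id := by
  have hgc := (S.smooth_gam hψ hψ).cont
  have hloc : ∀ x ∈ I.interior M, S.gam ψ ψ x ≠ 0 → Φ T x = x →
      ∀ᶠ y in 𝓝 x, S.gam ψ ψ y ≠ 0 ∧ Φ T y = y := by
    intro x h1 h2 h3
    have h4 : Φ (-T) x = x := by
      conv_lhs => rw [← h3]
      exact hΦ.neg_apply hψ T x
    filter_upwards [hgc.continuousAt.eventually_ne h2,
      hΦ.local_fix hψ h1 h2 (neg_lt_zero.2 hT) h4 hNT] with y h5 h6
    refine ⟨h5, ?_⟩
    conv_lhs => rw [← h6]
    exact hΦ.apply_neg hψ T y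
  have hcl : IsClosed {x | Φ T x = x} := isClosed_eq (hΦ.contMDiff T).continuous continuous_id
  let A : Set M := {z | ∀ᶠ y in 𝓝[≠] z, S.gam ψ ψ y ≠ 0 ∧ Φ T y = y}
  have hA : IsOpen A := isOpen_setOfPred_eventually_nhdsWithin
  have hAfr : ∀ z ∈ closure A, ∃ᶠ y in 𝓝 z, S.gam ψ ψ y ≠ 0 ∧ Φ T y = y := by
    intro z hz
    rw [frequently_iff]
    intro U hU
    obtain ⟨a, ha1, ha2⟩ := mem_closure_iff_nhds.1 hz _ (interior_mem_nhds.2 hU)
    have ha3 : ∀ᶠ y in 𝓝[≠] a, S.gam ψ ψ y ≠ 0 ∧ Φ T y = y := ha2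
    obtain ⟨y, h1, h2⟩ := (ha3.and (mem_nhdsWithin_of_mem_nhds
      (isOpen_interior.mem_nhds ha1))).exists
    exact ⟨y, interior_subset h2, h1⟩
  have hsub : I.interior M ⊆ A := by
    refine (isPreconnected_interior (I := I)).subset_of_closure_inter_subset hA
      ⟨x₀, hi, (hloc x₀ hi hr hfix).filter_mono nhdsWithin_le_nhds⟩ ?_
    rintro z ⟨hz, hzi⟩
    have hfr := hAfr z hz
    by_cases hg : S.gam ψ ψ z = 0
    · obtain ⟨N, hN, hN'⟩ := (eventually_nhdsWithin_iff.1 (hΦ.nondeg hψ hzi hg hT hfr)).exists_mem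
      obtain ⟨P, hP, hPN, hPz⟩ := exists_punctured S.one_lt_rank hzi
        (inter_mem hN ((I.isOpen_interior (n := ∞) (by simp)).mem_nhds hzi))
      have hPsub : P ⊆ interior {y | S.gam ψ ψ y ≠ 0 ∧ Φ T y = y} := by
        refine hP.subset_of_closure_inter_subset isOpen_interior ?_ ?_
        · obtain ⟨y, ⟨h1, h2⟩, h3⟩ := (hfr.and_eventually (eventually_nhdsWithin_iff.1 hPz)).exists
          have h4 : y ∈ P := h3 (by rintro rfl; exact h1 hg)
          exact ⟨y, h4, mem_interior_iff_mem_nhds.2 (hloc y (hPN h4).1.2 h1 h2)⟩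
        · rintro y ⟨h1, h2⟩
          refine mem_interior_iff_mem_nhds.2 (hloc y (hPN h2).1.2 (hN' y (hPN h2).1.1 (hPN h2).2) ?_)
          exact hcl.closure_subset_iff.2 (fun w hw => (interior_subset hw).2) h1
      filter_upwards [hPz] with y hy
      have h3 := interior_subset (hPsub hy)
      exact h3
    · have h1 : Φ T z = z := hcl.closure_subset
        (mem_closure_iff_frequently.2 (hfr.mono fun y hy => hy.2))
      exact (hloc z hzi hg h1).filter_mono nhdsWithin_le_nhds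
  funext x
  refine hcl.closure_subset_iff.2 (fun z hz => ?_) ((dense_interior (I := I)) x)
  exact hcl.closure_subset (mem_closure_iff_frequently.2
    ((hAfr z (subset_closure (hsub hz))).mono fun y hy => hy.2))

lemma twist_growth {x₀ : M} (hi : x₀ ∈ I.interior M) (hr : S.gam ψ ψ x₀ ≠ 0) {t : ℝ} (ht : t < 0)
    (hfix : Φ t x₀ = x₀) (hT : ¬ NoTwist I Φ t x₀) :
    ∃ l : E →L[ℝ] ℝ, ‖l‖ = 1 ∧ ∀ Λ : ℝ, ∃ T : ℝ, 0 < T ∧ Φ (-T) x₀ = x₀ ∧ ∃ ξ : E →L[ℝ] ℝ,
      Λ ≤ ‖ξ‖ ∧ HasFDerivAt (fun y => l (extChartAt I x₀ (Φ (-T) ((extChartAt I x₀).symm y)))) ξ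
        (extChartAt I x₀ x₀) := by
  have hx := mem_extChartAt_source (I := I) x₀
  let R : ℝ → E → E := fun s y => extChartAt I x₀ (Φ s ((extChartAt I x₀).symm y))
  have hR0 : ∀ s, Φ s x₀ = x₀ → R s (extChartAt I x₀ x₀) = extChartAt I x₀ x₀ := fun s hs => by
    simp only [R, (extChartAt I x₀).left_inv hx, hs]
  have hev : ∀ᶠ y in 𝓝 (extChartAt I x₀ x₀),
      (extChartAt I x₀).symm (R t y) = Φ t ((extChartAt I x₀).symm y) := by
    filter_upwards [(tendsto_symm hx).eventually (((hΦ.contMDiff t).continuous.tendsto' x₀ x₀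
      hfix).eventually ((isOpen_extChartAt_source x₀).mem_nhds hx))] with y hy
    exact (extChartAt I x₀).left_inv hy
  have hd : DifferentiableAt ℝ (R t) (extChartAt I x₀ x₀) := by
    have h1 : MDifferentiableAt 𝓘(ℝ, E) I (extChartAt I x₀).symm (extChartAt I x₀ x₀) :=
      (mdifferentiableWithinAt_extChartAt_symm ((extChartAt I x₀).map_source hx)).mdifferentiableAt
        (range_mem_nhds hx hi)
    have h2 := ((hΦ.contMDiff t).mdifferentiableAt (by simp)).comp _ h1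
    have h3 := MDifferentiableAt.comp_of_eq _ (mdifferentiableAt_extChartAt (I := I) (mem_src hx)) h2
      (by simp only [Function.comp_apply, (extChartAt I x₀).left_inv hx, hfix])
    exact mdifferentiableAt_iff_differentiableAt.1 h3
  obtain ⟨P, hP⟩ := hd
  have chain : ∀ f : M → ℝ, MdAt I f x₀ →
      (mvfderiv I (fun y => f (Φ t y)) x₀).comp (tv I x₀ x₀)
        = ((mvfderiv I f x₀).comp (tv I x₀ x₀)).comp P := by
    intro f hf
    have m2 : MdAt I (fun z => f (Φ t z)) x₀ :=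
      MDifferentiableAt.comp_of_eq (g := f) _ hf ((hΦ.contMDiff _).mdifferentiableAt (by simp)) hfix
    have d1 := hasFDerivAt_rep hx hi hf
    rw [← hR0 t hfix] at d1
    refine (hasFDerivAt_rep hx hi m2).unique ((d1.comp _ hP).congr_of_eventuallyEq ?_)
    filter_upwards [hev] with y hy
    simp only [rep, Function.comp_apply, hy]
  set N := P - ContinuousLinearMap.id ℝ E with hN
  have hPN : ∀ v, P v = v + N v := fun v => by simp [hN]
  have hN0 : N ≠ 0 := by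
    intro h
    apply hT
    intro f hf
    apply mv_ext hx
    rw [chain f hf]
    ext v
    simp [hPN, h]
  have hNu : N (S.Vc x₀ ψ x₀) = 0 := by
    have c1 := S.curve_chart (hΦ.curve x₀) (x₀ := x₀) (t := 0) (by rw [hΦ.zero_apply]; exact hx)
    simp only [hΦ.zero_apply, S.Uc_chart hx] at c1
    have hP' : HasFDerivAt (R t) P (extChartAt I x₀ (Φ 0 x₀)) := by rw [hΦ.zero_apply]; exact hP
    have c2 := hP'.comp_hasDerivAt (f := fun s => extChartAt I x₀ (Φ s x₀)) 0 c1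
    have c3 : P (S.Vc x₀ ψ x₀) = S.Vc x₀ ψ x₀ := by
      refine c2.unique (c1.congr_of_eventuallyEq ?_)
      filter_upwards [((curve_continuous (hΦ.curve x₀)).tendsto' 0 x₀ (hΦ.zero_apply x₀)).eventually
        ((isOpen_extChartAt_source x₀).mem_nhds hx)] with s hs
      simp only [R, Function.comp_apply, (extChartAt I x₀).left_inv hs, hΦ.comm hψ t s, hfix]
    simp [hN, c3]
  have hNN : ∀ v, N (N v) = 0 := fun v => by
    have h1 := congrArg (fun L => L v) (chain ψ (hψ.md x₀))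
    simp only [hΦ.stream_eq hψ, ContinuousLinearMap.comp_apply, hPN, map_add] at h1
    obtain ⟨a, ha⟩ := S.ker_stream hx hr (v := N v) (by linarith)
    rw [ha, map_smul, hNu, smul_zero]
  have hfixn : ∀ n : ℕ, Φ (n * t) x₀ = x₀ := fun n => by
    rw [← hΦ.iterate hψ]; exact Function.iterate_fixed hfix n
  have hiter : ∀ n : ℕ, HasFDerivAt (R (n * t)) (ContinuousLinearMap.id ℝ E + (n : ℝ) • N)
      (extChartAt I x₀ x₀) := by
    intro n
    induction n with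
    | zero =>
      simp only [Nat.cast_zero, zero_mul, zero_smul, add_zero]
      refine (hasFDerivAt_id _).congr_of_eventuallyEq ?_
      filter_upwards [target_mem_nhds hx hi] with y hy
      simp only [R, hΦ.zero_apply, (extChartAt I x₀).right_inv hy, id]
    | succ n ih =>
      rw [← hR0 t hfix] at ih
      refine ((ih.comp _ hP).congr_of_eventuallyEq ?_).congr_fderiv ?_
      · filter_upwards [hev] with y hy
        simp only [Function.comp_apply]
        simp only [R] at hy ⊢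
        rw [hy, ← hΦ.add hψ]
        congr 2
        push_cast; ring
      · ext v
        simp only [ContinuousLinearMap.comp_apply, add_apply, smul_apply,
          ContinuousLinearMap.id_apply, hPN, map_add, hNN]
        push_cast
        module
  obtain ⟨v, hv⟩ : ∃ v, N v ≠ 0 := by
    by_contra h
    push Not at h
    exact hN0 (ContinuousLinearMap.ext h)
  have hn0 : 0 < ‖N v‖ := norm_pos_iff.2 hv
  have hv0 : 0 < ‖v‖ := norm_pos_iff.2 fun h => hv (by rw [h, map_zero])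
  obtain ⟨l, hl, h3⟩ : ∃ l : E →L[ℝ] ℝ, ‖l‖ = 1 ∧ l (N v) = ‖N v‖ := by
    refine ⟨innerSL ℝ (‖N v‖⁻¹ • N v), ?_, ?_⟩
    · rw [innerSL_apply_norm, norm_smul, norm_inv, norm_norm, inv_mul_cancel₀ hn0.ne']
    · rw [innerSL_apply_apply, real_inner_smul_left, real_inner_self_eq_norm_mul_norm]
      field_simp
  refine ⟨l, hl, fun Λ => ?_⟩
  obtain ⟨n, hn⟩ := exists_nat_gt (max 0 ((Λ + 1) * ‖v‖ / ‖N v‖))
  have hn1 : (0 : ℝ) < n := (le_max_left _ _).trans_lt hn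
  have hn2 : (Λ + 1) * ‖v‖ ≤ n * ‖N v‖ :=
    (div_le_iff₀ hn0).1 ((le_max_right _ _).trans hn.le)
  refine ⟨-(n * t), by nlinarith, by rw [neg_neg]; exact hfixn n,
    l.comp (ContinuousLinearMap.id ℝ E + (n : ℝ) • N), ?_, ?_⟩
  · have h1 := (l.comp (ContinuousLinearMap.id ℝ E + (n : ℝ) • N)).le_opNorm v
    have h2 := l.le_opNorm v
    rw [hl, one_mul, Real.norm_eq_abs] at h2
    simp only [ContinuousLinearMap.comp_apply, add_apply, smul_apply, ContinuousLinearMap.id_apply,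
      map_add, map_smul, h3, smul_eq_mul, Real.norm_eq_abs] at h1
    refine le_of_mul_le_mul_right ?_ hv0
    linarith [le_abs_self (l v + n * ‖N v‖), neg_abs_le (l v)]
  · rw [neg_neg]
    exact l.hasFDerivAt.comp _ (hiter n)

theorem exists_twist [FiniteDimensional ℝ E] [MeasurableSpace E] [BorelSpace E]
    [MeasurableSpace M] [BorelSpace M] [CompactSpace M] [ConnectedSpace M] {μ : Measure M}
    (hμ : S.IsArea μ) (tψ : Tangent I ψ) (hnp : ¬ ∃ T : ℝ, 0 < T ∧ Φ T = id) :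
    ∃ x₀ ∈ I.interior M, ∃ l : E →L[ℝ] ℝ, ‖l‖ = 1 ∧ ∀ Λ : ℝ, ∃ T : ℝ, 0 < T ∧ Φ (-T) x₀ = x₀ ∧
      ∃ ξ : E →L[ℝ] ℝ, Λ ≤ ‖ξ‖ ∧
        HasFDerivAt (fun y => l (extChartAt I x₀ (Φ (-T) ((extChartAt I x₀).symm y)))) ξ
          (extChartAt I x₀ x₀) := by
  have hgc := (S.smooth_gam hψ hψ).cont
  have hnt : Nontrivial M := by
    by_contra h
    have := not_nontrivial_iff_subsingleton.1 h
    exact hnp ⟨1, one_pos, funext fun x => Subsingleton.elim _ _⟩
  have hne : (I.interior M ∩ {x | S.gam ψ ψ x ≠ 0}).Nonempty := by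
    by_contra h
    refine hnp ⟨1, one_pos, funext fun x => hΦ.fixed hψ ?_ 1⟩
    refine (isClosed_eq hgc continuous_const).closure_subset_iff.2 (fun z hz => ?_)
      ((dense_interior (I := I)) x)
    by_contra h1
    exact h ⟨z, hz, h1⟩
  obtain ⟨x₀, ⟨hi, hr⟩, hrec⟩ := hΦ.exists_recurrent hψ hμ tψ
    ((I.isOpen_interior (n := ∞) (by simp)).inter (isOpen_ne_fun hgc continuous_const)) hne
  obtain ⟨T, hT, hfix⟩ := hΦ.periodic_of_recurrent hψ hi hr hrec
  by_contra hcon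
  refine hnp ⟨T, hT, hΦ.eq_id_of_noTwist hψ hi hr hT hfix fun x h1 h2 t h3 h4 => ?_⟩
  by_contra h5
  exact hcon ⟨x, h1, hΦ.twist_growth hψ h1 h2 h3 h4 h5⟩

end IsFlow

end Pool.Agent.P.MP_9c695c_an
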